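import Pool.Agent.H941.Defs3
import Pool.Agent.H941.S2

open MeasureTheory ProbabilityTheory

namespace H941.GG_facts

theorem _root_.H941.GG_facts (s : ℝ) (ℓ N : ℕ) (h : Par s ℓ N) :
    (∀ k, (GG N s ℓ k).PosSemidef) ∧
    (∑ k : Fin (nl N + 1), GG N s ℓ k = Matrix.of fun x y : ↥(box N) => (1 / 4) * green (box N \ innerBdry N) x y) ∧
    (∀ j ≤ nl N, ∑ k ∈ Finset.Ico j (nl N + 1), GG N s ℓ k = Matrix.of fun x y : ↥(box N) =>
      (1 / 4) * green (box N \ innerBdry N) x y -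
        ∑ i ∈ Finset.range j, Gam (box N \ innerBdry N) (2 * lc s ℓ 0) (lc s ℓ i) x y) := by
  have hΛ : 1 ≤ 2 * lc s ℓ 0 := by
    have : 0 < lc s ℓ 0 := by
      unfold lc
      positivity
    omega
  have hlt : ∀ k, k < nl N → ∀ x y, GG N s ℓ k x y =
      Gam (box N \ innerBdry N) (2 * lc s ℓ 0) (lc s ℓ k) x y := by
    intro k hk x y
    unfold GG
    rw [if_pos hk, Matrix.of_apply]
  have hge : ∀ x y, GG N s ℓ (nl N) x y =
      (1 / 4) * green (box N \ innerBdry N) x y -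
    ∑ i ∈ Finset.range (nl N), Gam (box N \ innerBdry N) (2 * lc s ℓ 0) (lc s ℓ i) x y := by
    intro x y
    unfold GG
    rw [if_neg (lt_irrefl _), Matrix.of_apply]
  have h3 : ∀ j ≤ nl N, ∑ k ∈ Finset.Ico j (nl N + 1), GG N s ℓ k = Matrix.of fun x y : ↥(box N) =>
      (1 / 4) * green (box N \ innerBdry N) x y -
        ∑ i ∈ Finset.range j, Gam (box N \ innerBdry N) (2 * lc s ℓ 0) (lc s ℓ i) x y := by
    intro j hj
    ext x y
    rw [Matrix.sum_apply, Matrix.of_apply, Finset.sum_Ico_succ_top hj, hge,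
      Finset.sum_congr rfl (fun k hk => hlt k (Finset.mem_Ico.1 hk).2 x y),
      ← Finset.sum_range_add_sum_Ico _ hj]
    ring
  refine ⟨?_, ?_, h3⟩
  · intro k
    obtain ⟨h1, h2⟩ := Gam_psd (box N \ innerBdry N) (box N) (2 * lc s ℓ 0) (nl N) hΛ (lc s ℓ)
      h.lc_dvd
    by_cases hk : k < nl N
    · unfold GG
      rw [if_pos hk]
      exact h1 k
    · unfold GG
      rw [if_neg hk]
      exact h2
  · have h0 := h3 0 (Nat.zero_le _)
    rw [← Finset.range_eq_Ico, Finset.sum_range] at h0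
    rw [h0]
    ext x y
    simp

end H941.GG_facts
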