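import Pool.Agent.H941.Defs3

open MeasureTheory ProbabilityTheory

namespace H941.crossing

theorem cl5405_adj_cases (u v : ℤ × ℤ) (h : grid.Adj u v) :
    (v.1 = u.1 + 1 ∧ v.2 = u.2) ∨ (v.1 = u.1 - 1 ∧ v.2 = u.2) ∨
    (v.1 = u.1 ∧ v.2 = u.2 + 1) ∨ (v.1 = u.1 ∧ v.2 = u.2 - 1) := by
  have h' : |u.1 - v.1| + |u.2 - v.2| = 1 := h
  rcases abs_cases (u.1 - v.1) with ⟨h1, h2⟩ | ⟨h1, h2⟩ <;>
    rcases abs_cases (u.2 - v.2) with ⟨h3, h4⟩ | ⟨h3, h4⟩ <;> omega

/-- the indicator function of the horizontal edges above `z`, between its column and the next -/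
def cl5405_Ez (z u v : ℤ × ℤ) : ZMod 2 :=
  if u.2 = v.2 ∧ z.2 < u.2 ∧ ((u.1 = z.1 ∧ v.1 = z.1 + 1) ∨ (v.1 = z.1 ∧ u.1 = z.1 + 1))
  then 1 else 0

/-- the sum of `E` over the steps of a walk -/
noncomputable def cl5405_cnt (E : ℤ × ℤ → ℤ × ℤ → ZMod 2) {u v : ℤ × ℤ} (w : grid.Walk u v) : ZMod 2 :=
  (w.darts.map fun d => E d.fst d.snd).sum

theorem cl5405_cnt_congr (E E' : ℤ × ℤ → ℤ × ℤ → ZMod 2) {u v : ℤ × ℤ} (w : grid.Walk u v)
    (h : ∀ d ∈ w.darts, E d.fst d.snd = E' d.fst d.snd) : cl5405_cnt E w = cl5405_cnt E' w := by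
  unfold cl5405_cnt
  rw [List.map_congr_left h]

theorem cl5405_two_eq (x : ZMod 2) : x + x = 0 := by
  revert x
  decide

theorem cl5405_cnt_cob (E : ℤ × ℤ → ℤ × ℤ → ZMod 2) (f : ℤ × ℤ → ZMod 2) {u v : ℤ × ℤ}
    (w : grid.Walk u v) (h : ∀ d ∈ w.darts, E d.fst d.snd = f d.fst + f d.snd) :
    cl5405_cnt E w = f u + f v := by
  induction w with
  | nil =>
    show (0 : ZMod 2) = _
    rw [cl5405_two_eq]
  | @cons u x v hx w ih =>
    have h1 := ih fun d hd => h d (by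
      rw [SimpleGraph.Walk.darts_cons]
      exact List.mem_cons_of_mem _ hd)
    have h2 := h ⟨(u, x), hx⟩ (by
      rw [SimpleGraph.Walk.darts_cons]
      exact List.mem_cons_self)
    have h3 : cl5405_cnt E (SimpleGraph.Walk.cons hx w) = E u x + cl5405_cnt E w := by
      unfold cl5405_cnt
      rw [SimpleGraph.Walk.darts_cons, List.map_cons, List.sum_cons]
    have h4 : E u x = f u + f x := h2
    rw [h3, h4, h1]
    calc f u + f x + (f x + f v) = f u + (f x + f x) + f v := by ring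
      _ = f u + f v := by rw [cl5405_two_eq, add_zero]

theorem cl5405_cnt_add (E E' : ℤ × ℤ → ℤ × ℤ → ZMod 2) {u v : ℤ × ℤ} (w : grid.Walk u v) :
    cl5405_cnt (fun a b => E a b + E' a b) w = cl5405_cnt E w + cl5405_cnt E' w := by
  unfold cl5405_cnt
  rw [List.sum_map_add]

theorem cl5405_step_vert {a b : ℤ × ℤ} (P : grid.Walk a b) (z z' : ℤ × ℤ) (h1 : z'.1 = z.1)
    (h2 : z'.2 = z.2 + 1) (hz' : z' ∉ P.support) : cl5405_cnt (cl5405_Ez z) P = cl5405_cnt (cl5405_Ez z') P := by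
  refine cl5405_cnt_congr _ _ P fun d hd => ?_
  have hf : d.fst ≠ z' := fun h => hz' (h ▸ P.dart_fst_mem_support_of_mem_darts hd)
  have hs : d.snd ≠ z' := fun h => hz' (h ▸ P.dart_snd_mem_support_of_mem_darts hd)
  have hf' : d.fst.1 ≠ z'.1 ∨ d.fst.2 ≠ z'.2 := by
    by_contra hcon
    push Not at hcon
    exact hf (Prod.ext hcon.1 hcon.2)
  have hs' : d.snd.1 ≠ z'.1 ∨ d.snd.2 ≠ z'.2 := by
    by_contra hcon
    push Not at hcon
    exact hs (Prod.ext hcon.1 hcon.2)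
  unfold cl5405_Ez
  split_ifs with c1 c2 c2
  · rfl
  · exfalso
    omega
  · exfalso
    omega
  · rfl

theorem cl5405_step_horiz {a b : ℤ × ℤ} (P : grid.Walk a b) (z z' : ℤ × ℤ) (h1 : z'.1 = z.1 + 1)
    (h2 : z'.2 = z.2) (hz' : z' ∉ P.support) (ha : a.1 < z'.1) (hb : z'.1 < b.1) :
    cl5405_cnt (cl5405_Ez z) P = cl5405_cnt (cl5405_Ez z') P := by
  have key : cl5405_cnt (fun u v => cl5405_Ez z u v + cl5405_Ez z' u v) P =
      (fun u : ℤ × ℤ => if u.1 = z'.1 ∧ z.2 < u.2 then (1 : ZMod 2) else 0) a +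
      (fun u : ℤ × ℤ => if u.1 = z'.1 ∧ z.2 < u.2 then (1 : ZMod 2) else 0) b := by
    refine cl5405_cnt_cob (fun u v => cl5405_Ez z u v + cl5405_Ez z' u v)
      (fun u : ℤ × ℤ => if u.1 = z'.1 ∧ z.2 < u.2 then (1 : ZMod 2) else 0) P fun d hd => ?_
    have hf : d.fst ≠ z' := fun h => hz' (h ▸ P.dart_fst_mem_support_of_mem_darts hd)
    have hs : d.snd ≠ z' := fun h => hz' (h ▸ P.dart_snd_mem_support_of_mem_darts hd)
    have hf' : d.fst.1 ≠ z'.1 ∨ d.fst.2 ≠ z'.2 := by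
      by_contra hcon
      push Not at hcon
      exact hf (Prod.ext hcon.1 hcon.2)
    have hs' : d.snd.1 ≠ z'.1 ∨ d.snd.2 ≠ z'.2 := by
      by_contra hcon
      push Not at hcon
      exact hs (Prod.ext hcon.1 hcon.2)
    have hadj := cl5405_adj_cases _ _ d.adj
    unfold cl5405_Ez
    generalize d.fst.1 = u1 at *
    generalize d.fst.2 = u2 at *
    generalize d.snd.1 = v1 at *
    generalize d.snd.2 = v2 at *
    show (if u2 = v2 ∧ z.2 < u2 ∧ ((u1 = z.1 ∧ v1 = z.1 + 1) ∨ (v1 = z.1 ∧ u1 = z.1 + 1))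
      then (1 : ZMod 2) else 0) + (if u2 = v2 ∧ z'.2 < u2 ∧
        ((u1 = z'.1 ∧ v1 = z'.1 + 1) ∨ (v1 = z'.1 ∧ u1 = z'.1 + 1)) then (1 : ZMod 2) else 0) =
      (if u1 = z'.1 ∧ z.2 < u2 then (1 : ZMod 2) else 0) +
      (if v1 = z'.1 ∧ z.2 < v2 then (1 : ZMod 2) else 0)
    split_ifs <;> first | rfl | (exfalso; omega)
  rw [cl5405_cnt_add] at key
  have e1 : (if a.1 = z'.1 ∧ z.2 < a.2 then (1 : ZMod 2) else 0) = 0 := by
    rw [if_neg]
    omega
  have e2 : (if b.1 = z'.1 ∧ z.2 < b.2 then (1 : ZMod 2) else 0) = 0 := by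
    rw [if_neg]
    omega
  have key2 : cl5405_cnt (cl5405_Ez z) P + cl5405_cnt (cl5405_Ez z') P = 0 := by
    rw [key]
    show (if a.1 = z'.1 ∧ z.2 < a.2 then (1 : ZMod 2) else 0) +
      (if b.1 = z'.1 ∧ z.2 < b.2 then (1 : ZMod 2) else 0) = 0
    rw [e1, e2, add_zero]
  calc cl5405_cnt (cl5405_Ez z) P = cl5405_cnt (cl5405_Ez z) P + (cl5405_cnt (cl5405_Ez z') P + cl5405_cnt (cl5405_Ez z') P) := by
        rw [cl5405_two_eq, add_zero]
    _ = (cl5405_cnt (cl5405_Ez z) P + cl5405_cnt (cl5405_Ez z') P) + cl5405_cnt (cl5405_Ez z') P := by ring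
    _ = _ := by rw [key2, zero_add]

theorem cl5405_along (x1 x2 : ℤ) {a b : ℤ × ℤ} (P : grid.Walk a b) (ha : a.1 ≤ x1) (hb : x2 < b.1)
    {c e : ℤ × ℤ} (q : grid.Walk c e) (hq : ∀ v ∈ q.support, x1 ≤ v.1 ∧ v.1 ≤ x2)
    (hd : ∀ v ∈ q.support, v ∉ P.support) : cl5405_cnt (cl5405_Ez c) P = cl5405_cnt (cl5405_Ez e) P := by
  induction q with
  | nil => rfl
  | @cons c x e hx q ih =>
    have hqc := hq c (by simp)
    have hdc := hd c (by simp)
    have hxs : x ∈ (SimpleGraph.Walk.cons hx q).support := by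
      rw [SimpleGraph.Walk.support_cons]
      exact List.mem_cons_of_mem _ q.start_mem_support
    have hqx := hq x hxs
    have hdx := hd x hxs
    have h1 := ih (fun v hv => hq v (by
        rw [SimpleGraph.Walk.support_cons]
        exact List.mem_cons_of_mem _ hv)) (fun v hv => hd v (by
        rw [SimpleGraph.Walk.support_cons]
        exact List.mem_cons_of_mem _ hv))
    rw [← h1]
    rcases cl5405_adj_cases c x hx with ⟨e1, e2⟩ | ⟨e1, e2⟩ | ⟨e1, e2⟩ | ⟨e1, e2⟩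
    · exact cl5405_step_horiz P c x e1 e2 hdx (by omega) (by omega)
    · exact (cl5405_step_horiz P x c (by omega) (by omega) hdc (by omega) (by omega)).symm
    · exact cl5405_step_vert P c x e1 e2 hdx
    · exact (cl5405_step_vert P x c (by omega) (by omega) hdc).symm

theorem _root_.H941.crossing (x1 x2 y1 y2 : ℤ) (a b c e : ℤ × ℤ) (p : grid.Walk a b) (q : grid.Walk c e)
    (hp : ∀ v ∈ p.support, y1 ≤ v.2 ∧ v.2 ≤ y2) (ha : a.1 ≤ x1) (hb : x2 ≤ b.1)
    (hq : ∀ v ∈ q.support, x1 ≤ v.1 ∧ v.1 ≤ x2) (hc : c.2 ≤ y1) (he : y2 ≤ e.2) :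
    ∃ v, v ∈ p.support ∧ v ∈ q.support := by
  by_contra hcon
  push Not at hcon
  -- the extended walk
  have hadj : grid.Adj b (b.1 + 1, b.2) := by
    show |b.1 - (b.1 + 1)| + |b.2 - b.2| = 1
    simp
  set P := p.concat hadj with hP
  have hPs : ∀ v, v ∈ P.support ↔ v ∈ p.support ∨ v = (b.1 + 1, b.2) := by
    intro v
    rw [hP, SimpleGraph.Walk.support_concat]
    simp
  have hrow : ∀ v ∈ P.support, y1 ≤ v.2 ∧ v.2 ≤ y2 := by
    intro v hv
    rcases (hPs v).1 hv with h | h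
    · exact hp v h
    · rw [h]
      exact hp b p.end_mem_support
  have hdisj : ∀ v ∈ q.support, v ∉ P.support := by
    intro v hv hvP
    rcases (hPs v).1 hvP with h | h
    · exact hcon v h hv
    · have h1 := hq v hv
      rw [h] at h1
      have h2 : b.1 + 1 ≤ x2 := h1.2
      omega
  have hcq := hq c q.start_mem_support
  have hcP := hdisj c q.start_mem_support
  have h1 := cl5405_along x1 x2 P ha (show x2 < (b.1 + 1, b.2).1 by show x2 < b.1 + 1; omega) q hq hdisj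
  have h2 : cl5405_cnt (cl5405_Ez e) P = 0 := by
    have h3 : cl5405_cnt (cl5405_Ez e) P = cl5405_cnt (fun _ _ => 0) P := by
      refine cl5405_cnt_congr _ _ P fun d hd => ?_
      have h4 := hrow _ (P.dart_fst_mem_support_of_mem_darts hd)
      unfold cl5405_Ez
      rw [if_neg]
      rintro ⟨-, h5, -⟩
      omega
    rw [h3, cl5405_cnt_cob (fun _ _ => 0) (fun _ => 0) P (fun d _ => by simp)]
    simp
  have h3 : cl5405_cnt (cl5405_Ez c) P = 1 := by
    rw [cl5405_cnt_cob (cl5405_Ez c) (fun u => if u.1 ≤ c.1 then 1 else 0) P]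
    · have e1 : (if a.1 ≤ c.1 then (1 : ZMod 2) else 0) = 1 := if_pos (by omega)
      have e2 : (if (b.1 + 1, b.2).1 ≤ c.1 then (1 : ZMod 2) else 0) = 0 := if_neg (by
        show ¬ (b.1 + 1 ≤ c.1)
        omega)
      show (if a.1 ≤ c.1 then (1 : ZMod 2) else 0) +
        (if (b.1 + 1, b.2).1 ≤ c.1 then (1 : ZMod 2) else 0) = 1
      rw [e1, e2, add_zero]
    · intro d hd
      have hf0 := P.dart_fst_mem_support_of_mem_darts hd
      have hs0 := P.dart_snd_mem_support_of_mem_darts hd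
      have hf : d.fst ≠ c := fun h => hcP (h ▸ hf0)
      have hs : d.snd ≠ c := fun h => hcP (h ▸ hs0)
      have hf' : d.fst.1 ≠ c.1 ∨ d.fst.2 ≠ c.2 := by
        by_contra hcon
        push Not at hcon
        exact hf (Prod.ext hcon.1 hcon.2)
      have hs' : d.snd.1 ≠ c.1 ∨ d.snd.2 ≠ c.2 := by
        by_contra hcon
        push Not at hcon
        exact hs (Prod.ext hcon.1 hcon.2)
      have hadj := cl5405_adj_cases _ _ d.adj
      have hr1 := hrow _ hf0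
      have hr2 := hrow _ hs0
      unfold cl5405_Ez
      show (if d.fst.2 = d.snd.2 ∧ c.2 < d.fst.2 ∧ ((d.fst.1 = c.1 ∧ d.snd.1 = c.1 + 1) ∨
        (d.snd.1 = c.1 ∧ d.fst.1 = c.1 + 1)) then (1 : ZMod 2) else 0) =
        (if d.fst.1 ≤ c.1 then (1 : ZMod 2) else 0) + (if d.snd.1 ≤ c.1 then (1 : ZMod 2) else 0)
      generalize d.fst.1 = u1 at *
      generalize d.fst.2 = u2 at *
      generalize d.snd.1 = v1 at *
      generalize d.snd.2 = v2 at *
      split_ifs <;> first | rfl | (exfalso; omega)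
  rw [h3, h2] at h1
  exact one_ne_zero h1

end H941.crossing
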