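import Pool.Agent.H941.Defs3

open MeasureTheory ProbabilityTheory

namespace H941.expl_facts

theorem mem_nbrs_adj {u v : ℤ × ℤ} (h : v ∈ nbrs u) : grid.Adj u v := by
  simp only [nbrs, Finset.mem_insert, Finset.mem_singleton] at h
  change |u.1 - v.1| + |u.2 - v.2| = 1
  rcases h with h | h | h | h <;> subst h <;> simp

open Classical in
theorem expl_succ_fst (R K0 : Finset (ℤ × ℤ)) (op : ℤ × ℤ → Prop) (k : ℕ) :
    (expl R K0 op (k + 1)).1 =
      (expl R K0 op k).1 ∪ R.filter (fun v => ∃ u ∈ (expl R K0 op k).2, v ∈ nbrs u) := rfl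

open Classical in
theorem expl_succ_snd (R K0 : Finset (ℤ × ℤ)) (op : ℤ × ℤ → Prop) (k : ℕ) :
    (expl R K0 op (k + 1)).2 =
      ((R.filter (fun v => ∃ u ∈ (expl R K0 op k).2, v ∈ nbrs u)) \
        (expl R K0 op k).1).filter op := rfl

theorem expl_mono (R K0 : Finset (ℤ × ℤ)) (op : ℤ × ℤ → Prop) {i k : ℕ} (h : i ≤ k) :
    (expl R K0 op i).1 ⊆ (expl R K0 op k).1 := by
  induction h with
  | refl => exact Finset.Subset.refl _
  | step _ ih =>
    refine ih.trans ?_
    rw [expl_succ_fst]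
    exact Finset.subset_union_left

theorem expl_snd_sub (R K0 : Finset (ℤ × ℤ)) (op : ℤ × ℤ → Prop) (k : ℕ) :
    (expl R K0 op k).2 ⊆ (expl R K0 op k).1 ∧ ∀ v ∈ (expl R K0 op k).2, op v := by
  classical
  cases k with
  | zero =>
    refine ⟨Finset.filter_subset _ _, fun v hv => (Finset.mem_filter.1 hv).2⟩
  | succ k =>
    rw [expl_succ_fst, expl_succ_snd]
    refine ⟨?_, fun v hv => (Finset.mem_filter.1 hv).2⟩
    exact (Finset.filter_subset _ _).trans (Finset.sdiff_subset.trans Finset.subset_union_right)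

theorem _root_.H941.expl_facts (R K0 : Finset (ℤ × ℤ)) (hK0 : K0 ⊆ R) (op : ℤ × ℤ → Prop) :
    (∀ k, K0 ⊆ (expl R K0 op k).1 ∧ (expl R K0 op k).1 ⊆ R ∧ (expl R K0 op k).1 ⊆ (expl R K0 op (k + 1)).1) ∧
    (∀ k, (expl R K0 op k).2 ⊆ (expl R K0 op k).1 ∧ ∀ v ∈ (expl R K0 op k).2, op v) ∧
    (∀ k, Disjoint (expl R K0 op (k + 1)).2 (expl R K0 op k).1) ∧
    (∀ i k, i < k → ∀ v ∈ (expl R K0 op i).2, ∀ u ∈ nbrs v, u ∈ R → u ∈ (expl R K0 op k).1) ∧
    (∀ k, ∀ v ∈ (expl R K0 op k).1, op v → ∃ i ≤ k, v ∈ (expl R K0 op i).2) ∧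
    (∀ k, ∀ v ∈ (expl R K0 op k).2, ∃ u ∈ K0, ∃ p : grid.Walk u v, p.length = k ∧
      ∀ z ∈ p.support, z ∈ (expl R K0 op k).1 ∧ op z) ∧
    (∀ (op' : ℤ × ℤ → Prop) (k : ℕ), (∀ v ∈ (expl R K0 op k).1, (op v ↔ op' v)) →
      ∀ i ≤ k, expl R K0 op' i = expl R K0 op i) := by
  classical
  refine ⟨fun k => ⟨?_, ?_, expl_mono R K0 op (Nat.le_succ k)⟩, expl_snd_sub R K0 op, ?_, ?_, ?_,
    ?_, ?_⟩
  · exact (expl_mono R K0 op (Nat.zero_le k) : K0 ⊆ _)
  · induction k with
    | zero => exact hK0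
    | succ k ih =>
      rw [expl_succ_fst]
      exact Finset.union_subset ih (Finset.filter_subset _ _)
  · intro k
    rw [expl_succ_snd]
    exact Finset.disjoint_of_subset_left (Finset.filter_subset _ _) Finset.sdiff_disjoint
  · intro i k hik v hv u hu huR
    refine expl_mono R K0 op (Nat.succ_le_of_lt hik) ?_
    rw [Nat.succ_eq_add_one, expl_succ_fst]
    exact Finset.mem_union_right _ (Finset.mem_filter.2 ⟨huR, v, hv, hu⟩)
  · intro k
    induction k with
    | zero =>
      intro v hv hop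
      exact ⟨0, le_rfl, Finset.mem_filter.2 ⟨hv, hop⟩⟩
    | succ k ih =>
      intro v hv hop
      by_cases hvk : v ∈ (expl R K0 op k).1
      · obtain ⟨i, hi, h⟩ := ih v hvk hop
        exact ⟨i, hi.trans (Nat.le_succ k), h⟩
      · refine ⟨k + 1, le_rfl, ?_⟩
        rw [expl_succ_fst, Finset.mem_union] at hv
        rw [expl_succ_snd]
        refine Finset.mem_filter.2 ⟨Finset.mem_sdiff.2 ⟨?_, hvk⟩, hop⟩
        exact hv.resolve_left hvk
  · intro k
    induction k with
    | zero =>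
      intro v hv
      have hv' := Finset.mem_filter.1 hv
      refine ⟨v, hv'.1, SimpleGraph.Walk.nil, rfl, fun z hz => ?_⟩
      rw [SimpleGraph.Walk.support_nil, List.mem_singleton] at hz
      subst hz
      exact hv'
    | succ k ih =>
      intro v hv
      have hsub := (expl_snd_sub R K0 op (k + 1)).1 hv
      have hop := (expl_snd_sub R K0 op (k + 1)).2 v hv
      rw [expl_succ_snd] at hv
      have h1 := Finset.mem_sdiff.1 (Finset.mem_filter.1 hv).1
      obtain ⟨-, w, hw, hwv⟩ := Finset.mem_filter.1 h1.1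
      obtain ⟨u, hu, p, hp, hps⟩ := ih w hw
      refine ⟨u, hu, p.concat (mem_nbrs_adj hwv), ?_, fun z hz => ?_⟩
      · rw [SimpleGraph.Walk.length_concat, hp]
      · rw [SimpleGraph.Walk.support_concat, List.mem_append,
          List.mem_singleton] at hz
        rcases hz with hz | hz
        · exact ⟨expl_mono R K0 op (Nat.le_succ k) (hps z hz).1, (hps z hz).2⟩
        · subst hz
          exact ⟨hsub, hop⟩
  · intro op' k hk i
    induction i with
    | zero =>
      intro _
      change (K0, K0.filter op') = (K0, K0.filter op)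
      rw [Prod.mk.injEq]
      refine ⟨rfl, Finset.filter_congr fun v hv => ?_⟩
      exact (hk v (expl_mono R K0 op (Nat.zero_le k) hv)).symm
    | succ i ih =>
      intro hi
      have h := ih (Nat.le_of_succ_le hi)
      have h1 : (expl R K0 op' (i + 1)).1 = (expl R K0 op (i + 1)).1 := by
        rw [expl_succ_fst, expl_succ_fst, h]
      have h2 : (expl R K0 op' (i + 1)).2 = (expl R K0 op (i + 1)).2 := by
        rw [expl_succ_snd, expl_succ_snd, h]
        refine Finset.filter_congr fun v hv => ?_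
        refine (hk v (expl_mono R K0 op hi ?_)).symm
        rw [expl_succ_fst]
        exact Finset.mem_union_right _ (Finset.mem_sdiff.1 hv).1
      exact Prod.ext h1 h2

end H941.expl_facts
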