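import Pool.Agent.H941.Defs3
import Pool.Agent.H941.A3

open MeasureTheory ProbabilityTheory

namespace H941.green_conn

theorem mem_nbrs_adj {u v : ℤ × ℤ} (h : v ∈ nbrs u) : grid.Adj u v := by
  simp only [nbrs, Finset.mem_insert, Finset.mem_singleton] at h
  rcases h with rfl | rfl | rfl | rfl <;> simp [grid]

theorem walkProb_walk (E : Finset (ℤ × ℤ)) (u : ℤ × ℤ) : ∀ (n : ℕ) (z : ℤ × ℤ),
    walkProb E n z u ≠ 0 → ∃ p : grid.Walk z u, ∀ v ∈ p.support, v ∈ E := by
  intro n
  induction n with
  | zero =>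
    intro z h
    unfold walkProb at h
    split_ifs at h with h1
    · obtain ⟨hz, rfl⟩ := h1
      exact ⟨SimpleGraph.Walk.nil, by simpa using hz⟩
    · exact absurd rfl h
  | succ n ih =>
    intro z h
    unfold walkProb at h
    split_ifs at h with h1
    · have h2 : ∑ y ∈ nbrs z, walkProb E n y u ≠ 0 := fun h3 => h (by rw [h3, mul_zero])
      obtain ⟨y, hy, hy0⟩ := Finset.exists_ne_zero_of_sum_ne_zero h2
      obtain ⟨p, hp⟩ := ih y hy0
      refine ⟨SimpleGraph.Walk.cons (mem_nbrs_adj hy) p, ?_⟩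
      intro v hv
      rw [SimpleGraph.Walk.support_cons, List.mem_cons] at hv
      rcases hv with rfl | hv
      · exact h1
      · exact hp v hv
    · exact absurd rfl h

theorem _root_.H941.green_conn (E : Finset (ℤ × ℤ)) (z u : ℤ × ℤ) (h : green E z u ≠ 0) :
    ∃ p : grid.Walk z u, ∀ v ∈ p.support, v ∈ E := by
  by_contra hcon
  apply h
  unfold green
  have : ∀ n, walkProb E n z u = 0 := by
    intro n
    by_contra hn
    exact hcon (walkProb_walk E u n z hn)
  simp [this]

end H941.green_conn
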