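import Pool.Agent.H941.Defs3
import Pool.Agent.H941.A3

open MeasureTheory ProbabilityTheory

namespace H941.center_ge

theorem _root_.H941.center_ge (D : Finset (ℤ × ℤ)) (a : ℤ × ℤ) (h : ℕ)
    (hD : ∀ z : ℤ × ℤ, |z.1 - a.1| ≤ h → |z.2 - a.2| ≤ h → z ∈ D) :
    ((h : ℝ) + 1) ^ 2 ≤ ∑ v ∈ rect (a.1 - h) (a.1 + h) (a.2 - h) (a.2 + h), green D a v := by
  have hsum : ∀ (x : ℤ × ℤ) (f : ℤ × ℤ → ℝ), ∑ z ∈ nbrs x, f z =
      f (x.1 + 1, x.2) + (f (x.1 - 1, x.2) + (f (x.1, x.2 + 1) + f (x.1, x.2 - 1))) := by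
    intro x f
    unfold nbrs
    rw [Finset.sum_insert, Finset.sum_insert, Finset.sum_insert, Finset.sum_singleton]
    · simp only [Finset.mem_singleton, Prod.mk.injEq]
      omega
    · simp only [Finset.mem_insert, Finset.mem_singleton, Prod.mk.injEq]
      omega
    · simp only [Finset.mem_insert, Finset.mem_singleton, Prod.mk.injEq]
      omega
  set D0 : Finset (ℤ × ℤ) := rect (a.1 - h) (a.1 + h) (a.2 - h) (a.2 + h) with hD0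
  have hmem : ∀ z : ℤ × ℤ, z ∈ D0 ↔ (a.1 - h ≤ z.1 ∧ z.1 ≤ a.1 + h) ∧
      (a.2 - h ≤ z.2 ∧ z.2 ≤ a.2 + h) := by
    intro z
    rw [hD0, rect, Finset.mem_product, Finset.mem_Icc, Finset.mem_Icc]
  have hsub : D0 ⊆ D := by
    intro z hz
    obtain ⟨⟨h1, h2⟩, h3, h4⟩ := (hmem z).1 hz
    exact hD z (abs_le.2 ⟨by omega, by omega⟩) (abs_le.2 ⟨by omega, by omega⟩)
  have ha : a ∈ D0 := (hmem a).2 ⟨⟨by omega, by omega⟩, by omega, by omega⟩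
  have key := (green_basic D0).2.2.2.2.2 (fun _ => 1)
    (fun z => max 0 (((h : ℝ) + 1) ^ 2 - ((z.1 : ℝ) - a.1) ^ 2 - ((z.2 : ℝ) - a.2) ^ 2))
    (by
      intro z hz
      refine max_eq_left ?_
      rw [hmem] at hz
      have hc : ((h : ℤ) + 1 ≤ z.1 - a.1 ∨ (h : ℤ) + 1 ≤ a.1 - z.1) ∨
          ((h : ℤ) + 1 ≤ z.2 - a.2 ∨ (h : ℤ) + 1 ≤ a.2 - z.2) := by omega
      have hh : (0 : ℝ) ≤ (h : ℝ) + 1 := by positivity
      have q1 := sq_nonneg ((z.1 : ℝ) - a.1)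
      have q2 := sq_nonneg ((z.2 : ℝ) - a.2)
      rcases hc with (hc | hc) | (hc | hc)
      · have hr : (h : ℝ) + 1 ≤ (z.1 : ℝ) - a.1 := by exact_mod_cast hc
        nlinarith
      · have hr : (h : ℝ) + 1 ≤ (a.1 : ℝ) - z.1 := by exact_mod_cast hc
        nlinarith
      · have hr : (h : ℝ) + 1 ≤ (z.2 : ℝ) - a.2 := by exact_mod_cast hc
        nlinarith
      · have hr : (h : ℝ) + 1 ≤ (a.2 : ℝ) - z.2 := by exact_mod_cast hc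
        nlinarith)
    (by
      intro x _
      rw [hsum]
      simp only []
      push_cast
      have m1 := le_max_right 0 (((h : ℝ) + 1) ^ 2 - ((x.1 : ℝ) + 1 - a.1) ^ 2 - ((x.2 : ℝ) - a.2) ^ 2)
      have m2 := le_max_right 0 (((h : ℝ) + 1) ^ 2 - ((x.1 : ℝ) - 1 - a.1) ^ 2 - ((x.2 : ℝ) - a.2) ^ 2)
      have m3 := le_max_right 0 (((h : ℝ) + 1) ^ 2 - ((x.1 : ℝ) - a.1) ^ 2 - ((x.2 : ℝ) + 1 - a.2) ^ 2)
      have m4 := le_max_right 0 (((h : ℝ) + 1) ^ 2 - ((x.1 : ℝ) - a.1) ^ 2 - ((x.2 : ℝ) - 1 - a.2) ^ 2)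
      have n1 := le_max_left 0 (((h : ℝ) + 1) ^ 2 - ((x.1 : ℝ) + 1 - a.1) ^ 2 - ((x.2 : ℝ) - a.2) ^ 2)
      have n2 := le_max_left 0 (((h : ℝ) + 1) ^ 2 - ((x.1 : ℝ) - 1 - a.1) ^ 2 - ((x.2 : ℝ) - a.2) ^ 2)
      have n3 := le_max_left 0 (((h : ℝ) + 1) ^ 2 - ((x.1 : ℝ) - a.1) ^ 2 - ((x.2 : ℝ) + 1 - a.2) ^ 2)
      have n4 := le_max_left 0 (((h : ℝ) + 1) ^ 2 - ((x.1 : ℝ) - a.1) ^ 2 - ((x.2 : ℝ) - 1 - a.2) ^ 2)
      refine max_le ?_ ?_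
      · linarith
      · nlinarith)
    a ha
  have hga : max 0 (((h : ℝ) + 1) ^ 2 - ((a.1 : ℝ) - a.1) ^ 2 - ((a.2 : ℝ) - a.2) ^ 2) =
      ((h : ℝ) + 1) ^ 2 := by
    rw [sub_self, sub_self]
    have : (0 : ℝ) ≤ ((h : ℝ) + 1) ^ 2 := by positivity
    simpa using this
  calc ((h : ℝ) + 1) ^ 2 = _ := hga.symm
    _ ≤ ∑ v ∈ D0, green D0 a v * 1 := key
    _ ≤ ∑ v ∈ D0, green D a v := by
        refine Finset.sum_le_sum fun v _ => ?_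
        rw [mul_one]
        exact (green_basic D0).2.2.2.1 D hsub a v

end H941.center_ge
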