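import Pool.Agent.H941.Defs3
import Pool.Agent.H941.A2
import Pool.Agent.H941.A3

open MeasureTheory ProbabilityTheory

namespace H941.hit_super

theorem _root_.H941.hit_super (D K : Finset (ℤ × ℤ)) (F : ℤ × ℤ → ℝ) (hF : ∀ z, 0 ≤ F z)
    (h : ∀ x ∈ D \ K, (1 / 4) * ∑ z ∈ nbrs x, F z ≤ F x) (z : ℤ × ℤ) (hz : z ∉ K) :
    ∑ v ∈ K, hit D K z v * F v ≤ F z := by
  classical
  have hsymm : ∀ a b : ℤ × ℤ, a ∈ nbrs b ↔ b ∈ nbrs a := by
    intro a b
    simp only [nbrs, Finset.mem_insert, Finset.mem_singleton, Prod.ext_iff]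
    omega
  have hz0 : ∀ u, u ∉ D \ K → green (D \ K) z u = 0 := fun u hu =>
    (green_basic (D \ K)).2.1 z u (Or.inr hu)
  have key := (green_le (D \ K)).2
    (fun x => (1 / 4) * ∑ v ∈ nbrs x, if v ∈ K then F v else 0)
    (fun x => if x ∈ K then 0 else F x)
    (by
      intro x _
      refine mul_nonneg (by norm_num) (Finset.sum_nonneg fun v _ => ?_)
      split_ifs
      · exact hF v
      · exact le_refl 0)
    (by
      intro x
      show 0 ≤ if x ∈ K then 0 else F x
      split_ifs
      · exact le_refl 0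
      · exact hF x)
    (by
      intro x hx
      have hxK : x ∉ K := (Finset.mem_sdiff.mp hx).2
      show (1 / 4) * (∑ v ∈ nbrs x, if v ∈ K then F v else 0)
        + (1 / 4) * (∑ v ∈ nbrs x, if v ∈ K then 0 else F v) ≤ if x ∈ K then 0 else F x
      rw [if_neg hxK, ← mul_add, ← Finset.sum_add_distrib]
      refine le_trans (le_of_eq ?_) (h x hx)
      congr 1
      refine Finset.sum_congr rfl fun v _ => ?_
      split_ifs <;> simp) z
  rw [if_neg hz] at key
  refine le_trans (le_of_eq ?_) key
  have h1 : ∀ v ∈ K, hit D K z v * F v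
      = ∑ u ∈ D \ K, green (D \ K) z u * ((1 / 4) * if u ∈ nbrs v then F v else 0) := by
    intro v _
    have h2 : ∑ u ∈ nbrs v, green (D \ K) z u
        = ∑ u ∈ D \ K, if u ∈ nbrs v then green (D \ K) z u else 0 := by
      rw [← Finset.sum_filter, Finset.filter_mem_eq_inter]
      symm
      apply Finset.sum_subset Finset.inter_subset_right
      intro u hu hu'
      apply hz0
      intro hu2
      exact hu' (Finset.mem_inter.mpr ⟨hu2, hu⟩)
    rw [hit, h2, Finset.mul_sum, Finset.sum_mul]
    refine Finset.sum_congr rfl fun u _ => ?_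
    split_ifs <;> ring
  rw [Finset.sum_congr rfl h1, Finset.sum_comm]
  refine Finset.sum_congr rfl fun u _ => ?_
  rw [← Finset.mul_sum]
  congr 1
  rw [← Finset.mul_sum]
  congr 1
  have h3 : ∀ v, (if u ∈ nbrs v then F v else 0) = if v ∈ nbrs u then F v else 0 := by
    intro v
    simp only [hsymm u v]
  simp only [h3]
  rw [← Finset.sum_filter, ← Finset.sum_filter, Finset.filter_mem_eq_inter,
    Finset.filter_mem_eq_inter, Finset.inter_comm]

end H941.hit_super
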