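import Pool.Agent.H941.Defs3
import Pool.Agent.H941.A3
import Pool.Agent.H941.B.center_ge
import Pool.Agent.H941.B.hit_basic
import Pool.Agent.H941.B.hit_super
import Pool.Agent.H941.B.row_le

open MeasureTheory ProbabilityTheory

namespace H941.channel_hit

open Finset in
/-- the estimate with a general height function -/
theorem channel_aux (A B d X : ℤ) (hd : 1 ≤ d) (hB : 2 * d + 1 ≤ B) (hX : d ≤ X) (hX' : X + d ≤ A)
    (S : Finset (ℤ × ℤ)) (ι : ℤ → ℤ)
    (h1 : ∀ y, 1 ≤ y → y ≤ B - 1 → 1 ≤ ι y)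
    (h1' : ∀ y, 1 ≤ ι y → ι y ≤ B - 1 → 1 ≤ y ∧ y ≤ B - 1)
    (h2 : ∀ y y', |ι y - ι y'| = |y - y'|)
    (h3 : ∀ y, 1 ≤ y → y ≤ B - 1 → y * (B - y) ≤ B * ι y)
    (hcard : ((Icc 1 (B - 1)).filter fun y => ι y ≤ 2 * d).card ≤ 2 * d)
    (hS : ∀ a ∈ S, a.1 = X ∧ 1 ≤ ι a.2 ∧ ι a.2 ≤ d - 1)
    (Q : Finset (ℤ × ℤ)) (ρ : ℤ × ℤ → ℝ) (r : ℝ) (hρ : ∀ z, 0 ≤ ρ z) (hρ' : ∀ z, ρ z ≤ r)
    (hQ : Q ⊆ rect 1 (A - 1) 1 (B - 1)) (hQS : Disjoint Q S) :
    ∑ z ∈ Q, ρ z * ∑ a ∈ S, hit (rect 1 (A - 1) 1 (B - 1)) S z a ≤ 108 * r * B * d := by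
  classical
  set D := rect 1 (A - 1) 1 (B - 1) with hD
  have hmem : ∀ s : ℤ × ℤ, s ∈ D ↔ (1 ≤ s.1 ∧ s.1 ≤ A - 1) ∧ 1 ≤ s.2 ∧ s.2 ≤ B - 1 := by
    intro s
    rw [hD, rect, Finset.mem_product, Finset.mem_Icc, Finset.mem_Icc]
  obtain ⟨g0, g1, g2, -, g3, -⟩ := green_basic D
  obtain ⟨k0, -, -, -, -⟩ := hit_basic D S
  set C := D.filter (fun s => ι s.2 ≤ 2 * d ∧ |s.1 - X| ≤ ι s.2) with hC
  set F : ℤ × ℤ → ℝ := fun z => ∑ s ∈ C, green D z s / (ι s.2 : ℝ) ^ 2 with hF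
  have hr : 0 ≤ r := (hρ 0).trans (hρ' 0)
  have hF0 : ∀ z, 0 ≤ F z := fun z =>
    Finset.sum_nonneg fun s _ => div_nonneg (g0 _ _) (sq_nonneg _)
  have hιD : ∀ s ∈ D, (1 : ℝ) ≤ (ι s.2 : ℝ) := by
    intro s hs
    have := (hmem s).1 hs
    exact_mod_cast h1 s.2 this.2.1 this.2.2
  -- superharmonic
  have hsup : ∀ x ∈ D \ S, (1 / 4) * ∑ z ∈ nbrs x, F z ≤ F x := by
    intro x hx
    have hxD : x ∈ D := (Finset.mem_sdiff.1 hx).1
    have e1 : (1 / 4) * ∑ z ∈ nbrs x, F z =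
        ∑ s ∈ C, ((1 / 4) * ∑ z ∈ nbrs x, green D z s) / (ι s.2 : ℝ) ^ 2 := by
      rw [hF]
      simp only
      rw [Finset.sum_comm, Finset.mul_sum]
      refine Finset.sum_congr rfl fun s _ => ?_
      rw [← Finset.sum_div, mul_div_assoc]
    rw [e1]
    refine Finset.sum_le_sum fun s _ => ?_
    apply div_le_div_of_nonneg_right _ (sq_nonneg _)
    rw [g3 x hxD s]
    split_ifs <;> linarith
  -- lower bound on `S`
  have hlow : ∀ a ∈ S, (1 / 9 : ℝ) ≤ F a := by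
    intro a ha
    obtain ⟨ha1, ha2, ha3⟩ := hS a ha
    obtain ⟨h, hh⟩ : ∃ h : ℕ, (h : ℤ) = (ι a.2 - 1) / 2 :=
      ⟨((ι a.2 - 1) / 2).toNat, Int.toNat_of_nonneg (by omega)⟩
    have hh1 : 2 * (h : ℤ) + 1 ≤ ι a.2 := by omega
    have hh2 : ι a.2 ≤ 2 * (h : ℤ) + 2 := by omega
    have hsq : ∀ z : ℤ × ℤ, |z.1 - a.1| ≤ h → |z.2 - a.2| ≤ h → z ∈ D ∧ z ∈ C ∧
        ι z.2 ≤ ι a.2 + h := by
      intro z hz1 hz2
      have e1 := h2 z.2 a.2
      have e2 : |ι z.2 - ι a.2| ≤ h := by rw [e1]; exact hz2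
      rw [abs_le] at e2 hz1 hz2
      have hzD : z ∈ D := by
        rw [hmem]
        have := h1' z.2 (by omega) (by omega)
        refine ⟨⟨by omega, by omega⟩, this⟩
      refine ⟨hzD, ?_, by omega⟩
      rw [hC, Finset.mem_filter]
      refine ⟨hzD, by omega, ?_⟩
      rw [abs_le]
      constructor <;> omega
    have hcen := center_ge D a h (fun z hz1 hz2 => (hsq z hz1 hz2).1)
    have hsub : ∀ z ∈ rect (a.1 - h) (a.1 + h) (a.2 - h) (a.2 + h), z ∈ C ∧
        ι z.2 ≤ ι a.2 + h := by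
      intro z hz
      rw [rect, Finset.mem_product, Finset.mem_Icc, Finset.mem_Icc] at hz
      refine (hsq z ?_ ?_).2 <;> rw [abs_le] <;> constructor <;> omega
    have hpos : (0 : ℝ) < (ι a.2 : ℝ) + h := by
      have : (1 : ℝ) ≤ (ι a.2 : ℝ) := by exact_mod_cast ha2
      positivity
    have hstep : ∑ v ∈ rect (a.1 - h) (a.1 + h) (a.2 - h) (a.2 + h),
        green D a v / ((ι a.2 : ℝ) + h) ^ 2 ≤ F a := by
      refine le_trans (Finset.sum_le_sum (g := fun v => green D a v / (ι v.2 : ℝ) ^ 2) ?_) ?_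
      · intro v hv
        have hv1 := (hsub v hv).1
        have hv2 := (hsub v hv).2
        have hvD : v ∈ D := (Finset.mem_filter.1 hv1).1
        have hv3 := hιD v hvD
        have hv4 : (ι v.2 : ℝ) ≤ (ι a.2 : ℝ) + h := by exact_mod_cast hv2
        apply div_le_div_of_nonneg_left (g0 _ _) (by positivity)
        exact pow_le_pow_left₀ (by linarith) hv4 2
      · exact Finset.sum_le_sum_of_subset_of_nonneg (fun v hv => (hsub v hv).1)
          fun v _ _ => div_nonneg (g0 _ _) (sq_nonneg _)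
    rw [← Finset.sum_div] at hstep
    refine le_trans ?_ hstep
    rw [le_div_iff₀ (by positivity)]
    refine le_trans ?_ hcen
    have hh1' : 2 * (h : ℝ) + 1 ≤ (ι a.2 : ℝ) := by exact_mod_cast hh1
    have hh2' : (ι a.2 : ℝ) ≤ 2 * (h : ℝ) + 2 := by exact_mod_cast hh2
    have hh0 : (0 : ℝ) ≤ (h : ℝ) := Nat.cast_nonneg h
    have hle : (ι a.2 : ℝ) + h ≤ 3 * ((h : ℝ) + 1) := by linarith
    nlinarith [mul_self_nonneg ((ι a.2 : ℝ) + h), hle, hpos.le]
  -- hitting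
  have hhit : ∀ z ∈ Q, ∑ a ∈ S, hit D S z a ≤ 9 * F z := by
    intro z hz
    have hzS : z ∉ S := fun h => (Finset.disjoint_left.1 hQS) hz h
    have e1 := hit_super D S F hF0 hsup z hzS
    have e2 : ∑ a ∈ S, hit D S z a ≤ 9 * ∑ a ∈ S, hit D S z a * F a := by
      rw [Finset.mul_sum]
      refine Finset.sum_le_sum fun a ha => ?_
      nlinarith [k0 z a, hlow a ha]
    linarith
  have hstep1 : ∑ z ∈ Q, ρ z * ∑ a ∈ S, hit D S z a ≤ 9 * r * ∑ z ∈ D, F z := by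
    have e1 : ∑ z ∈ Q, ρ z * ∑ a ∈ S, hit D S z a ≤ ∑ z ∈ Q, 9 * r * F z := by
      refine Finset.sum_le_sum fun z hz => ?_
      have e2 := hhit z hz
      calc ρ z * ∑ a ∈ S, hit D S z a ≤ r * ∑ a ∈ S, hit D S z a :=
            mul_le_mul_of_nonneg_right (hρ' z) (Finset.sum_nonneg fun a _ => k0 z a)
        _ ≤ r * (9 * F z) := mul_le_mul_of_nonneg_left e2 hr
        _ = 9 * r * F z := by ring
    refine e1.trans ?_
    rw [← Finset.mul_sum]
    refine mul_le_mul_of_nonneg_left ?_ (by positivity)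
    exact Finset.sum_le_sum_of_subset_of_nonneg hQ fun z _ _ => hF0 z
  -- exchange the sums
  have hstep2 : ∑ z ∈ D, F z ≤ ∑ s ∈ C, 2 * (B : ℝ) * (1 / (ι s.2 : ℝ)) := by
    rw [hF]
    simp only
    rw [Finset.sum_comm]
    refine Finset.sum_le_sum fun s hs => ?_
    have hsD : s ∈ D := (Finset.mem_filter.1 hs).1
    have hs1 := hιD s hsD
    have hs2 := (hmem s).1 hsD
    rw [← Finset.sum_div]
    have e1 : ∑ z ∈ D, green D z s = ∑ z ∈ D, green D s z :=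
      Finset.sum_congr rfl fun z _ => g2 z s
    obtain ⟨b, hb⟩ : ∃ b : ℕ, (b : ℤ) = B := ⟨B.toNat, Int.toNat_of_nonneg (by omega)⟩
    have e2 := row_le D 0 b (by
      intro z hz
      have := (hmem z).1 hz
      constructor <;> omega) s hsD
    have hb' : (b : ℝ) = (B : ℝ) := by exact_mod_cast hb
    rw [hb'] at e2
    have e3 : ((s.2 : ℝ)) * ((B : ℝ) - s.2) ≤ B * ι s.2 := by
      exact_mod_cast h3 s.2 hs2.2.1 hs2.2.2
    rw [e1, div_le_iff₀ (by positivity)]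
    have e4 : 2 * (B : ℝ) * (1 / (ι s.2 : ℝ)) * (ι s.2 : ℝ) ^ 2 = 2 * B * ι s.2 := by
      field_simp
    rw [e4]
    push_cast at e2
    nlinarith
  -- the count
  have hstep3 : ∑ s ∈ C, 1 / (ι s.2 : ℝ) ≤ 6 * d := by
    have e1 : ∑ s ∈ C, 1 / (ι s.2 : ℝ) = ∑ y ∈ Icc 1 (B - 1), ∑ x ∈ Icc 1 (A - 1),
        if ι y ≤ 2 * d ∧ |x - X| ≤ ι y then 1 / (ι y : ℝ) else 0 := by
      rw [hC, Finset.sum_filter, hD, rect, Finset.sum_product_right]
    rw [e1]
    have e2 : ∀ y ∈ Icc 1 (B - 1), ∑ x ∈ Icc 1 (A - 1),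
        (if ι y ≤ 2 * d ∧ |x - X| ≤ ι y then 1 / (ι y : ℝ) else 0) ≤
        if ι y ≤ 2 * d then (3 : ℝ) else 0 := by
      intro y hy
      rw [Finset.mem_Icc] at hy
      have hy1 := h1 y hy.1 hy.2
      have hy1' : (1 : ℝ) ≤ (ι y : ℝ) := by exact_mod_cast hy1
      by_cases hy2 : ι y ≤ 2 * d
      · simp only [hy2, true_and, if_true]
        rw [← Finset.sum_filter, Finset.sum_const, nsmul_eq_mul]
        have e3 : (Icc 1 (A - 1)).filter (fun x => |x - X| ≤ ι y) ⊆ Icc (X - ι y) (X + ι y) := by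
          intro x hx
          rw [Finset.mem_filter, abs_le] at hx
          rw [Finset.mem_Icc]
          omega
        have e4 := Finset.card_le_card e3
        rw [Int.card_Icc] at e4
        have e5 : (((Icc 1 (A - 1)).filter (fun x => |x - X| ≤ ι y)).card : ℤ) ≤ 2 * ι y + 1 := by
          omega
        have e6 : (((Icc 1 (A - 1)).filter (fun x => |x - X| ≤ ι y)).card : ℝ) ≤ 2 * ι y + 1 := by
          exact_mod_cast e5
        rw [mul_one_div, div_le_iff₀ (by linarith)]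
        linarith
      · simp [hy2]
    refine (Finset.sum_le_sum e2).trans ?_
    rw [← Finset.sum_filter, Finset.sum_const, nsmul_eq_mul]
    have e7 : (((Icc 1 (B - 1)).filter fun y => ι y ≤ 2 * d).card : ℝ) ≤ 2 * d := by
      exact_mod_cast hcard
    linarith
  have hB0 : (0 : ℝ) ≤ (B : ℝ) := by
    have : (0 : ℤ) ≤ B := by omega
    exact_mod_cast this
  calc ∑ z ∈ Q, ρ z * ∑ a ∈ S, hit D S z a ≤ 9 * r * ∑ z ∈ D, F z := hstep1
    _ ≤ 9 * r * (2 * B * ∑ s ∈ C, 1 / (ι s.2 : ℝ)) := by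
        refine mul_le_mul_of_nonneg_left ?_ (by positivity)
        rw [Finset.mul_sum]
        exact hstep2
    _ ≤ 9 * r * (2 * B * (6 * d)) := by
        refine mul_le_mul_of_nonneg_left ?_ (by positivity)
        exact mul_le_mul_of_nonneg_left hstep3 (by positivity)
    _ = 108 * r * B * d := by ring

theorem _root_.H941.channel_hit (A B d X : ℤ) (hd : 1 ≤ d) (hB : 2 * d + 1 ≤ B) (hX : d ≤ X) (hX' : X + d ≤ A)
    (S : Finset (ℤ × ℤ)) (hS : S = rect X X (B - d + 1) (B - 1) ∨ S = rect X X 1 (d - 1))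
    (Q : Finset (ℤ × ℤ)) (ρ : ℤ × ℤ → ℝ) (r : ℝ) (hρ : ∀ z, 0 ≤ ρ z) (hρ' : ∀ z, ρ z ≤ r)
    (hQ : Q ⊆ rect 1 (A - 1) 1 (B - 1)) (hQS : Disjoint Q S) :
    ∑ z ∈ Q, ρ z * ∑ a ∈ S, hit (rect 1 (A - 1) 1 (B - 1)) S z a ≤ 108 * r * B * d := by
  rcases hS with hS | hS
  · refine channel_aux A B d X hd hB hX hX' S (fun y => B - y) ?_ ?_ ?_ ?_ ?_ ?_ Q ρ r hρ hρ' hQ hQS
    · intro y _ _
      show 1 ≤ B - y
      omega
    · intro y h h'
      change 1 ≤ B - y at h; change B - y ≤ B - 1 at h'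
      omega
    · intro y y'
      show |B - y - (B - y')| = |y - y'|
      rw [show B - y - (B - y') = -(y - y') by ring, abs_neg]
    · intro y h h'
      show y * (B - y) ≤ B * (B - y)
      nlinarith
    · have e1 : (Finset.Icc 1 (B - 1)).filter (fun y => B - y ≤ 2 * d) ⊆
          Finset.Icc (B - 2 * d) (B - 1) := by
        intro y hy
        rw [Finset.mem_filter, Finset.mem_Icc] at hy
        rw [Finset.mem_Icc]
        omega
      have e2 := Finset.card_le_card e1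
      rw [Int.card_Icc] at e2
      have e3 : ((B - 1 + 1 - (B - 2 * d)).toNat : ℤ) = 2 * d := by
        rw [Int.toNat_of_nonneg (by omega)]
        ring
      calc (((Finset.Icc 1 (B - 1)).filter (fun y => B - y ≤ 2 * d)).card : ℤ)
          ≤ ((B - 1 + 1 - (B - 2 * d)).toNat : ℤ) := by exact_mod_cast e2
        _ = 2 * d := e3
    · intro a ha
      rw [hS, rect, Finset.mem_product, Finset.mem_Icc, Finset.mem_Icc] at ha
      refine ⟨by omega, ?_, ?_⟩
      · show 1 ≤ B - a.2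
        omega
      · show B - a.2 ≤ d - 1
        omega
  · refine channel_aux A B d X hd hB hX hX' S (fun y => y) ?_ ?_ ?_ ?_ ?_ ?_ Q ρ r hρ hρ' hQ hQS
    · intro y h _
      exact h
    · intro y h h'
      exact ⟨h, h'⟩
    · intro y y'
      rfl
    · intro y h h'
      show y * (B - y) ≤ B * y
      nlinarith
    · have e1 : (Finset.Icc 1 (B - 1)).filter (fun y => y ≤ 2 * d) ⊆ Finset.Icc 1 (2 * d) := by
        intro y hy
        rw [Finset.mem_filter, Finset.mem_Icc] at hy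
        rw [Finset.mem_Icc]
        omega
      have e2 := Finset.card_le_card e1
      rw [Int.card_Icc] at e2
      have e3 : ((2 * d + 1 - 1).toNat : ℤ) = 2 * d := by
        rw [Int.toNat_of_nonneg (by omega)]
        ring
      calc (((Finset.Icc 1 (B - 1)).filter (fun y => y ≤ 2 * d)).card : ℤ)
          ≤ ((2 * d + 1 - 1).toNat : ℤ) := by exact_mod_cast e2
        _ = 2 * d := e3
    · intro a ha
      rw [hS, rect, Finset.mem_product, Finset.mem_Icc, Finset.mem_Icc] at ha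
      exact ⟨by omega, ha.2.1, ha.2.2⟩

end H941.channel_hit
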