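import Pool.Agent.H941.Defs3
import Pool.Agent.H941.A3

open MeasureTheory ProbabilityTheory

namespace H941.green_decomp

theorem mem_nbrs_symm (u v : ℤ × ℤ) : v ∈ nbrs u ↔ u ∈ nbrs v := by
  have key : ∀ a b : ℤ × ℤ, b ∈ nbrs a → a ∈ nbrs b := by
    rintro ⟨a1, a2⟩ ⟨b1, b2⟩ h
    simp only [nbrs, Finset.mem_insert, Finset.mem_singleton, Prod.mk.injEq] at h ⊢
    omega
  exact ⟨key u v, key v u⟩

theorem _root_.H941.green_decomp (D K : Finset (ℤ × ℤ)) (z v' : ℤ × ℤ) (hz : z ∉ K) :
    green D z v' = green (D \ K) z v' + ∑ v ∈ K, hit D K z v * green D v v' := by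
  classical
  obtain ⟨-, D2, -, -, D5, -⟩ := green_basic D
  obtain ⟨-, E2, -, -, E5, E6⟩ := green_basic (D \ K)
  by_cases hzD : z ∈ D
  swap
  · have hzE : z ∉ D \ K := fun h => hzD (Finset.mem_sdiff.1 h).1
    have h0 : ∀ v, hit D K z v = 0 := by
      intro v
      unfold hit
      rw [Finset.sum_eq_zero fun u _ => E2 z u (Or.inl hzE), mul_zero]
    rw [D2 z v' (Or.inl hzD), E2 z v' (Or.inl hzE)]
    simp [h0]
  have hzE : z ∈ D \ K := Finset.mem_sdiff.2 ⟨hzD, hz⟩
  let H : ℤ × ℤ → ℝ := fun y => if y ∈ K then green D y v' else 0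
  let g : ℤ × ℤ → ℝ := fun x => if x ∈ D \ K then green D x v' - green (D \ K) x v' else 0
  let f : ℤ × ℤ → ℝ := fun x => (1 / 4) * ∑ y ∈ nbrs x, H y
  have hsplit : ∀ y, green D y v' - green (D \ K) y v' = g y + H y := by
    intro y
    by_cases hy : y ∈ D \ K
    · have hyK : y ∉ K := (Finset.mem_sdiff.1 hy).2
      simp only [g, H, if_pos hy, if_neg hyK, add_zero]
    · rw [E2 y v' (Or.inl hy)]
      by_cases hyK : y ∈ K
      · simp only [g, H, if_neg hy, if_pos hyK, zero_add, sub_zero]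
      · have hyD : y ∉ D := fun h => hy (Finset.mem_sdiff.2 ⟨h, hyK⟩)
        rw [D2 y v' (Or.inl hyD)]
        simp only [g, H, if_neg hy, if_neg hyK, add_zero, sub_zero]
  have hg0 : ∀ x, x ∉ D \ K → g x = 0 := fun x hx => if_neg hx
  have hrec : ∀ x ∈ D \ K, g x = f x + (1 / 4) * ∑ y ∈ nbrs x, g y := by
    intro x hx
    have hxD : x ∈ D := (Finset.mem_sdiff.1 hx).1
    have h1 : g x = green D x v' - green (D \ K) x v' := if_pos hx
    rw [h1, D5 x hxD v', E5 x hx v']
    have h2 : ∑ y ∈ nbrs x, green D y v' - ∑ y ∈ nbrs x, green (D \ K) y v' =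
        ∑ y ∈ nbrs x, g y + ∑ y ∈ nbrs x, H y := by
      rw [← Finset.sum_sub_distrib, ← Finset.sum_add_distrib]
      exact Finset.sum_congr rfl fun y _ => hsplit y
    have h3 : f x = (1 / 4) * ∑ y ∈ nbrs x, H y := rfl
    rw [h3]
    linarith
  have hup := E6 f g hg0 (fun x hx => (hrec x hx).le) z hzE
  have hlo := E6 (fun x => -f x) (fun x => -g x) (fun x hx => by rw [hg0 x hx, neg_zero])
    (fun x hx => by
      rw [hrec x hx, Finset.sum_neg_distrib]
      exact le_of_eq (by ring)) z hzE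
  have heq : g z = ∑ u ∈ D \ K, green (D \ K) z u * f u := by
    refine le_antisymm hup ?_
    have h1 : ∑ u ∈ D \ K, green (D \ K) z u * -f u =
        -∑ u ∈ D \ K, green (D \ K) z u * f u := by
      rw [← Finset.sum_neg_distrib]
      exact Finset.sum_congr rfl fun u _ => by ring
    rw [h1] at hlo
    linarith
  have hswap : ∑ u ∈ D \ K, green (D \ K) z u * f u = ∑ v ∈ K, hit D K z v * green D v v' := by
    have a1 : ∀ u ∈ D \ K, green (D \ K) z u * f u =
        ∑ v ∈ K, if v ∈ nbrs u then (1 / 4) * (green (D \ K) z u * green D v v') else 0 := by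
      intro u _
      have h1 : f u = (1 / 4) * ∑ y ∈ nbrs u ∩ K, green D y v' := by
        show (1 / 4) * ∑ y ∈ nbrs u, (if y ∈ K then green D y v' else 0) = _
        rw [Finset.sum_ite_mem]
      rw [h1, Finset.sum_ite_mem, Finset.inter_comm K, Finset.mul_sum, Finset.mul_sum]
      exact Finset.sum_congr rfl fun y _ => by ring
    have a2 : ∀ v ∈ K, hit D K z v * green D v v' =
        ∑ u ∈ D \ K, if v ∈ nbrs u then (1 / 4) * (green (D \ K) z u * green D v v') else 0 := by
      intro v _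
      have h1 : ∑ u ∈ nbrs v, green (D \ K) z u = ∑ u ∈ nbrs v ∩ (D \ K), green (D \ K) z u := by
        symm
        refine Finset.sum_subset Finset.inter_subset_left fun u hu hu2 => ?_
        exact E2 z u (Or.inr fun h => hu2 (Finset.mem_inter.2 ⟨hu, h⟩))
      unfold hit
      rw [h1]
      have h2 : ∀ u ∈ D \ K, (if v ∈ nbrs u then (1 / 4) * (green (D \ K) z u * green D v v')
          else 0) = if u ∈ nbrs v then (1 / 4) * (green (D \ K) z u * green D v v') else 0 := by
        intro u _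
        simp only [mem_nbrs_symm u v]
      rw [Finset.sum_congr rfl h2, Finset.sum_ite_mem, Finset.inter_comm (D \ K), Finset.mul_sum,
        Finset.sum_mul]
      exact Finset.sum_congr rfl fun y _ => by ring
    rw [Finset.sum_congr rfl a1, Finset.sum_congr rfl a2, Finset.sum_comm]
  have h1 : g z = green D z v' - green (D \ K) z v' := if_pos hzE
  rw [← hswap, ← heq, h1]
  ring

end H941.green_decomp
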