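import Pool.Agent.H941.Defs3
import Pool.Agent.H941.A3
import Pool.Agent.H941.B.channel_hit
import Pool.Agent.H941.B.green_decomp
import Pool.Agent.H941.B.hit_basic

open MeasureTheory ProbabilityTheory

namespace H941.expl_exposed

theorem _root_.H941.expl_exposed (w d : ℕ) (hd : 1 ≤ d) (hw : 2 * d + 1 ≤ w) (K X : Finset (ℤ × ℤ)) (hX : X ⊆ K)
    (Xt Xb : ℤ) (h1 : w ≤ Xt) (h2 : Xt ≤ 5 * w) (h3 : w ≤ Xb) (h4 : Xb ≤ 5 * w)
    (Q : Finset (ℤ × ℤ)) (hQ : Q ⊆ rect (5 * w + 1) (6 * w) 1 (w - 1)) (hQK : Disjoint Q K)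
    (h0 : ∀ v ∈ X, ∀ u ∈ nbrs v, ∀ z ∈ rect (5 * w + 1) (6 * w) 1 (w - 1),
      green ((rect 1 (7 * w - 1) 1 (w - 1) \ K) \
              (rect Xt Xt (w - d + 1) (w - 1) ∪ rect Xb Xb 1 (d - 1))) z u = 0)
    (ρ : ℤ × ℤ → ℝ) (r : ℝ) (hρ : ∀ z, 0 ≤ ρ z) (hρ' : ∀ z, ρ z ≤ r) :
    ∑ v ∈ X, ∑ z ∈ Q, ρ z * hit (rect 1 (7 * w - 1) 1 (w - 1)) K z v ≤ 216 * r * w * d := by
  classical
  set D : Finset (ℤ × ℤ) := rect 1 (7 * w - 1) 1 (w - 1) with hD
  set St : Finset (ℤ × ℤ) := rect Xt Xt (w - d + 1) (w - 1) with hSt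
  set Sb : Finset (ℤ × ℤ) := rect Xb Xb 1 (d - 1) with hSb
  have hd' : (1 : ℤ) ≤ d := by exact_mod_cast hd
  have hw' : 2 * (d : ℤ) + 1 ≤ w := by exact_mod_cast hw
  -- positions
  have hQx : ∀ z ∈ Q, 5 * (w : ℤ) + 1 ≤ z.1 ∧ z.1 ≤ 6 * w ∧ 1 ≤ z.2 ∧ z.2 ≤ w - 1 := by
    intro z hz
    have h := hQ hz
    unfold rect at h
    rw [Finset.mem_product, Finset.mem_Icc, Finset.mem_Icc] at h
    exact ⟨h.1.1, h.1.2, h.2.1, h.2.2⟩
  have hQt : Disjoint Q St := by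
    rw [Finset.disjoint_left]
    intro z hz hz'
    have h := hQx z hz
    rw [hSt] at hz'
    unfold rect at hz'
    rw [Finset.mem_product, Finset.mem_Icc, Finset.mem_Icc] at hz'
    have := hz'.1.2
    omega
  have hQb : Disjoint Q Sb := by
    rw [Finset.disjoint_left]
    intro z hz hz'
    have h := hQx z hz
    rw [hSb] at hz'
    unfold rect at hz'
    rw [Finset.mem_product, Finset.mem_Icc, Finset.mem_Icc] at hz'
    have := hz'.1.2
    omega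
  have hQD : Q ⊆ rect 1 (7 * w - 1) 1 (w - 1) := by
    intro z hz
    have h := hQx z hz
    unfold rect
    rw [Finset.mem_product, Finset.mem_Icc, Finset.mem_Icc]
    refine ⟨⟨?_, ?_⟩, ?_, ?_⟩ <;> omega
  have hct := channel_hit (7 * w) w d Xt hd' hw' (by omega) (by omega) St (Or.inl hSt) Q ρ r hρ hρ'
    hQD hQt
  have hcb := channel_hit (7 * w) w d Xb hd' hw' (by omega) (by omega) Sb (Or.inr hSb) Q ρ r hρ hρ'
    hQD hQb
  rw [← hD] at hct hcb
  rw [Int.cast_natCast, Int.cast_natCast] at hct hcb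
  -- the pointwise bound
  have hE0 := (hit_basic (D \ K) (St ∪ Sb)).1
  have hmain : ∀ z ∈ Q, ∑ v ∈ X, hit D K z v ≤
      ∑ a ∈ St, hit D St z a + ∑ a ∈ Sb, hit D Sb z a := by
    intro z hz
    have hzA : z ∉ St ∪ Sb := by
      rw [Finset.mem_union, not_or]
      exact ⟨Finset.disjoint_left.1 hQt hz, Finset.disjoint_left.1 hQb hz⟩
    have hg : ∀ v ∈ X, ∀ u ∈ nbrs v, green (D \ K) z u =
        ∑ a ∈ St ∪ Sb, hit (D \ K) (St ∪ Sb) z a * green (D \ K) a u := by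
      intro v hv u hu
      have h := green_decomp (D \ K) (St ∪ Sb) z u hzA
      rw [h0 v hv u hu z (hQ hz), zero_add] at h
      exact h
    have h1 : ∑ v ∈ X, hit D K z v =
        ∑ a ∈ St ∪ Sb, hit (D \ K) (St ∪ Sb) z a * ∑ v ∈ X, hit D K a v := by
      have h2 : ∀ v ∈ X, hit D K z v =
          ∑ a ∈ St ∪ Sb, hit (D \ K) (St ∪ Sb) z a * hit D K a v := by
        intro v hv
        unfold hit
        have h3 : ∑ u ∈ nbrs v, green (D \ K) z u = ∑ u ∈ nbrs v,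
            ∑ a ∈ St ∪ Sb, hit (D \ K) (St ∪ Sb) z a * green (D \ K) a u :=
          Finset.sum_congr rfl (fun u hu => hg v hv u hu)
        rw [h3, Finset.sum_comm, Finset.mul_sum]
        refine Finset.sum_congr rfl (fun a _ => ?_)
        rw [← Finset.mul_sum]
        unfold hit
        ring
      rw [Finset.sum_congr rfl h2, Finset.sum_comm]
      refine Finset.sum_congr rfl (fun a _ => ?_)
      rw [Finset.mul_sum]
    rw [h1]
    have hX1 : ∀ a, ∑ v ∈ X, hit D K a v ≤ 1 := by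
      intro a
      refine le_trans (Finset.sum_le_sum_of_subset_of_nonneg hX ?_) ((hit_basic D K).2.2.1 a)
      intro v _ _
      exact (hit_basic D K).1 a v
    have h4 : ∑ a ∈ St ∪ Sb, hit (D \ K) (St ∪ Sb) z a * ∑ v ∈ X, hit D K a v ≤
        ∑ a ∈ St ∪ Sb, hit (D \ K) (St ∪ Sb) z a := by
      refine Finset.sum_le_sum (fun a _ => ?_)
      calc hit (D \ K) (St ∪ Sb) z a * ∑ v ∈ X, hit D K a v
          ≤ hit (D \ K) (St ∪ Sb) z a * 1 :=
            mul_le_mul_of_nonneg_left (hX1 a) (hE0 z a)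
        _ = _ := mul_one _
    have h5 : ∑ a ∈ St ∪ Sb, hit (D \ K) (St ∪ Sb) z a ≤
        ∑ a ∈ St, hit (D \ K) (St ∪ Sb) z a + ∑ a ∈ Sb, hit (D \ K) (St ∪ Sb) z a := by
      have h6 := Finset.sum_union_inter (s₁ := St) (s₂ := Sb)
        (f := fun a => hit (D \ K) (St ∪ Sb) z a)
      have h7 : 0 ≤ ∑ a ∈ St ∩ Sb, hit (D \ K) (St ∪ Sb) z a :=
        Finset.sum_nonneg (fun a _ => hE0 z a)
      linarith
    have hmt : ∀ a, hit (D \ K) (St ∪ Sb) z a ≤ hit D St z a := fun a =>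
      le_trans ((hit_basic (D \ K) (St ∪ Sb)).2.2.2.1 D Finset.sdiff_subset z a)
        ((hit_basic D St).2.2.2.2 (St ∪ Sb) Finset.subset_union_left z a)
    have hmb : ∀ a, hit (D \ K) (St ∪ Sb) z a ≤ hit D Sb z a := fun a =>
      le_trans ((hit_basic (D \ K) (St ∪ Sb)).2.2.2.1 D Finset.sdiff_subset z a)
        ((hit_basic D Sb).2.2.2.2 (St ∪ Sb) Finset.subset_union_right z a)
    exact le_trans h4 (le_trans h5 (add_le_add (Finset.sum_le_sum (fun a _ => hmt a))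
      (Finset.sum_le_sum (fun a _ => hmb a))))
  calc ∑ v ∈ X, ∑ z ∈ Q, ρ z * hit D K z v
      = ∑ z ∈ Q, ρ z * ∑ v ∈ X, hit D K z v := by
        rw [Finset.sum_comm]
        refine Finset.sum_congr rfl (fun z _ => ?_)
        rw [Finset.mul_sum]
    _ ≤ ∑ z ∈ Q, ρ z * (∑ a ∈ St, hit D St z a + ∑ a ∈ Sb, hit D Sb z a) :=
        Finset.sum_le_sum (fun z hz => mul_le_mul_of_nonneg_left (hmain z hz) (hρ z))
    _ = ∑ z ∈ Q, ρ z * ∑ a ∈ St, hit D St z a + ∑ z ∈ Q, ρ z * ∑ a ∈ Sb, hit D Sb z a := by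
        rw [← Finset.sum_add_distrib]
        refine Finset.sum_congr rfl (fun z _ => ?_)
        rw [mul_add]
    _ ≤ 216 * r * w * d := by linarith

end H941.expl_exposed
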