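import Pool.Agent.H941.Defs3
import Pool.Agent.H941.A3

open MeasureTheory ProbabilityTheory

namespace H941.hit_sub

theorem mem_nbrs_comm (u v : ℤ × ℤ) : u ∈ nbrs v ↔ v ∈ nbrs u := by
  obtain ⟨a, b⟩ := u
  obtain ⟨c, d⟩ := v
  simp only [nbrs, Finset.mem_insert, Finset.mem_singleton, Prod.mk.injEq]
  constructor <;> intro h <;> omega

theorem _root_.H941.hit_sub (D K : Finset (ℤ × ℤ)) (hK : K ⊆ D) (U : ℤ × ℤ → ℝ) (h0 : ∀ z, z ∉ D → U z ≤ 0)
    (h : ∀ x ∈ D \ K, U x ≤ (1 / 4) * ∑ z ∈ nbrs x, U z) (z : ℤ × ℤ) (hz : z ∈ D \ K) :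
    U z ≤ ∑ v ∈ K, hit D K z v * U v := by
  classical
  obtain ⟨-, hoff, -, -, -, hmax⟩ := green_basic (D \ K)
  have h1 := hmax (fun v => (1 / 4) * ∑ w ∈ K, if w ∈ nbrs v then U w else 0)
    (fun z => if z ∈ D \ K then U z else 0) (fun z hz => if_neg hz) (by
      intro x hx
      simp only [if_pos hx]
      refine (h x hx).trans ?_
      rw [← mul_add]
      refine mul_le_mul_of_nonneg_left ?_ (by norm_num)
      have e : (∑ w ∈ K, if w ∈ nbrs x then U w else 0) =
          ∑ w ∈ nbrs x, if w ∈ K then U w else 0 := by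
        rw [← Finset.sum_filter, ← Finset.sum_filter]
        apply Finset.sum_congr _ (fun _ _ => rfl)
        ext w
        simp only [Finset.mem_filter]
        tauto
      rw [e, ← Finset.sum_add_distrib]
      apply Finset.sum_le_sum
      intro w _
      by_cases hw : w ∈ K
      · have hw2 : w ∉ D \ K := by
          rw [Finset.mem_sdiff]
          tauto
        rw [if_pos hw, if_neg hw2, add_zero]
      · by_cases hwD : w ∈ D
        · have hw2 : w ∈ D \ K := Finset.mem_sdiff.2 ⟨hwD, hw⟩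
          rw [if_neg hw, if_pos hw2, zero_add]
        · have hw2 : w ∉ D \ K := by
            rw [Finset.mem_sdiff]
            tauto
          rw [if_neg hw, if_neg hw2, add_zero]
          exact h0 w hwD) z hz
  simp only [if_pos hz] at h1
  refine h1.trans (le_of_eq ?_)
  have e1 : ∀ v ∈ D \ K, green (D \ K) z v * ((1 / 4) * ∑ w ∈ K, if w ∈ nbrs v then U w else 0) =
      ∑ w ∈ K, (1 / 4) * (if v ∈ nbrs w then green (D \ K) z v * U w else 0) := by
    intro v _
    rw [Finset.mul_sum, Finset.mul_sum]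
    apply Finset.sum_congr rfl
    intro w _
    by_cases hwv : w ∈ nbrs v
    · rw [if_pos hwv, if_pos ((mem_nbrs_comm w v).1 hwv)]
      ring
    · rw [if_neg hwv, if_neg (fun h => hwv ((mem_nbrs_comm w v).2 h))]
      ring
  rw [Finset.sum_congr rfl e1, Finset.sum_comm]
  apply Finset.sum_congr rfl
  intro w _
  unfold hit
  rw [← Finset.mul_sum, mul_assoc]
  congr 1
  rw [← Finset.sum_filter, Finset.sum_mul]
  apply Finset.sum_subset_zero_on_sdiff
  · intro v hv
    exact (Finset.mem_filter.1 hv).2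
  · intro v hv
    rw [Finset.mem_sdiff, Finset.mem_filter] at hv
    have : v ∉ D \ K := fun h => hv.2 ⟨h, hv.1⟩
    rw [hoff z v (Or.inr this), zero_mul]
  · intro v _
    rfl

end H941.hit_sub
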