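import Pool.Agent.H941.Defs3
import Pool.Agent.H941.B.hit_basic
import Pool.Agent.H941.B.hit_sub

open MeasureTheory ProbabilityTheory

namespace H941.hit_mass_ge

namespace HM


theorem exists_kappa (w : ℕ) (hw : 2 ≤ w) : ∃ κ : ℝ, 0 < κ ∧
    Real.cosh κ = 2 - Real.cos (Real.pi / w) ∧ κ * w ≤ Real.pi := by
  have hpi := Real.pi_pos
  have hw0 : (0 : ℝ) < w := by exact_mod_cast (by omega : 0 < w)
  have hw2 : (2 : ℝ) ≤ w := by exact_mod_cast hw
  have hx0 : 0 < Real.pi / w := by positivity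
  have hx1 : Real.pi / w ≤ Real.pi := div_le_self hpi.le (by linarith)
  have hcos : Real.cos (Real.pi / w) < 1 := by
    have h1 := Real.cos_lt_cos_of_nonneg_of_le_pi (le_refl 0) hx1 hx0
    rwa [Real.cos_zero] at h1
  have h1 : (1 : ℝ) < 2 - Real.cos (Real.pi / w) := by linarith
  refine ⟨Real.arcosh (2 - Real.cos (Real.pi / w)), Real.arcosh_pos h1,
    Real.cosh_arcosh h1.le, ?_⟩
  set κ := Real.arcosh (2 - Real.cos (Real.pi / w)) with hκ
  have hκ0 : 0 < κ := Real.arcosh_pos h1
  have hc : Real.cosh κ = 2 - Real.cos (Real.pi / w) := Real.cosh_arcosh h1.le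
  have h2 : 1 + κ ^ 2 / 2 ≤ Real.cosh κ := by
    have h3 : κ / 2 ≤ Real.sinh (κ / 2) := Real.self_le_sinh_iff.2 (by linarith)
    have h4 : Real.cosh κ = 1 + 2 * Real.sinh (κ / 2) ^ 2 := by
      have h5 := Real.cosh_two_mul (κ / 2)
      have h6 := Real.cosh_sq (κ / 2)
      rw [show 2 * (κ / 2) = κ by ring] at h5
      rw [h5, h6]; ring
    rw [h4]
    nlinarith
  have h3 := Real.one_sub_sq_div_two_le_cos (x := Real.pi / w)
  have h4 : κ ^ 2 ≤ (Real.pi / w) ^ 2 := by linarith
  have h5 : κ ≤ Real.pi / w := abs_le_of_sq_le_sq' h4 hx0.le |>.2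
  rwa [le_div_iff₀ hw0] at h5

theorem ratio (t : ℝ) (h0 : 0 < t) (h1 : t ≤ Real.pi) :
    Real.sinh (6 * t) ≤ 2 * 10 ^ 7 * Real.sinh t := by
  have hpi := Real.pi_lt_d2
  have hs : 0 < Real.sinh t := Real.sinh_pos_iff.2 h0
  have key : Real.sinh (6 * t) =
      Real.sinh t * (2 * Real.cosh (5 * t) + 2 * Real.cosh (3 * t) + 2 * Real.cosh t) := by
    simp only [Real.sinh_eq, Real.cosh_eq]
    have e6 : Real.exp (6 * t) = Real.exp t ^ 6 := by rw [← Real.exp_nat_mul]; norm_num
    have e5 : Real.exp (5 * t) = Real.exp t ^ 5 := by rw [← Real.exp_nat_mul]; norm_num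
    have e3 : Real.exp (3 * t) = Real.exp t ^ 3 := by rw [← Real.exp_nat_mul]; norm_num
    have f6 : Real.exp (-(6 * t)) = Real.exp (-t) ^ 6 := by
      rw [← Real.exp_nat_mul]; congr 1; push_cast; ring
    have f5 : Real.exp (-(5 * t)) = Real.exp (-t) ^ 5 := by
      rw [← Real.exp_nat_mul]; congr 1; push_cast; ring
    have f3 : Real.exp (-(3 * t)) = Real.exp (-t) ^ 3 := by
      rw [← Real.exp_nat_mul]; congr 1; push_cast; ring
    have hab : Real.exp t * Real.exp (-t) = 1 := by rw [← Real.exp_add]; simp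
    rw [e6, e5, e3, f6, f5, f3]
    generalize Real.exp t = a at *
    generalize Real.exp (-t) = b at *
    have g1 : a * b ^ 5 = b ^ 4 := by
      calc a * b ^ 5 = (a * b) * b ^ 4 := by ring
        _ = b ^ 4 := by rw [hab]; ring
    have g2 : a * b ^ 3 = b ^ 2 := by
      calc a * b ^ 3 = (a * b) * b ^ 2 := by ring
        _ = b ^ 2 := by rw [hab]; ring
    have g3 : a ^ 5 * b = a ^ 4 := by
      calc a ^ 5 * b = (a * b) * a ^ 4 := by ring
        _ = a ^ 4 := by rw [hab]; ring
    have g4 : a ^ 3 * b = a ^ 2 := by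
      calc a ^ 3 * b = (a * b) * a ^ 2 := by ring
        _ = a ^ 2 := by rw [hab]; ring
    linear_combination (1 / 2) * g3 + (1 / 2) * g4 - (1 / 2) * g1 - (1 / 2) * g2
  have c5 : Real.cosh (5 * t) ≤ Real.exp 16 := by
    have h2 : Real.cosh (5 * t) ≤ Real.exp (5 * t) := by
      rw [Real.cosh_eq]
      have : Real.exp (-(5 * t)) ≤ Real.exp (5 * t) := Real.exp_le_exp.2 (by linarith)
      linarith
    exact h2.trans (Real.exp_le_exp.2 (by linarith))
  have c3 : Real.cosh (3 * t) ≤ Real.exp 10 := by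
    have h2 : Real.cosh (3 * t) ≤ Real.exp (3 * t) := by
      rw [Real.cosh_eq]
      have : Real.exp (-(3 * t)) ≤ Real.exp (3 * t) := Real.exp_le_exp.2 (by linarith)
      linarith
    exact h2.trans (Real.exp_le_exp.2 (by linarith))
  have c1 : Real.cosh t ≤ Real.exp 4 := by
    have h2 : Real.cosh t ≤ Real.exp t := by
      rw [Real.cosh_eq]
      have : Real.exp (-t) ≤ Real.exp t := Real.exp_le_exp.2 (by linarith)
      linarith
    exact h2.trans (Real.exp_le_exp.2 (by linarith))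
  have he := Real.exp_one_lt_d9.le
  have he0 := (Real.exp_pos 1).le
  have e16 : Real.exp 16 ≤ 2.7182818286 ^ 16 := by
    have : Real.exp 16 = Real.exp 1 ^ 16 := by rw [← Real.exp_nat_mul]; norm_num
    rw [this]; exact pow_le_pow_left₀ he0 he 16
  have e10 : Real.exp 10 ≤ 2.7182818286 ^ 10 := by
    have : Real.exp 10 = Real.exp 1 ^ 10 := by rw [← Real.exp_nat_mul]; norm_num
    rw [this]; exact pow_le_pow_left₀ he0 he 10
  have e4 : Real.exp 4 ≤ 2.7182818286 ^ 4 := by
    have : Real.exp 4 = Real.exp 1 ^ 4 := by rw [← Real.exp_nat_mul]; norm_num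
    rw [this]; exact pow_le_pow_left₀ he0 he 4
  have hsum : 2 * Real.cosh (5 * t) + 2 * Real.cosh (3 * t) + 2 * Real.cosh t ≤ 2 * 10 ^ 7 := by
    have : (2 : ℝ) * 2.7182818286 ^ 16 + 2 * 2.7182818286 ^ 10 + 2 * 2.7182818286 ^ 4 ≤
        2 * 10 ^ 7 := by norm_num
    linarith
  rw [key, mul_comm]
  exact mul_le_mul_of_nonneg_right hsum hs.le

/-- the explicit harmonic function -/
noncomputable def hu (w : ℕ) (κ : ℝ) (z : ℤ × ℤ) : ℝ :=
  Real.sin (Real.pi * z.2 / w) * Real.sinh (κ * (7 * w - z.1)) / Real.sinh (6 * (κ * w))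

theorem sum_nbrs (f : ℤ × ℤ → ℝ) (u : ℤ × ℤ) : ∑ z ∈ nbrs u, f z =
    f (u.1 + 1, u.2) + f (u.1 - 1, u.2) + f (u.1, u.2 + 1) + f (u.1, u.2 - 1) := by
  unfold nbrs
  rw [Finset.sum_insert, Finset.sum_insert, Finset.sum_insert, Finset.sum_singleton]
  · ring
  · simp only [Finset.mem_singleton, Prod.mk.injEq]; omega
  · simp only [Finset.mem_insert, Finset.mem_singleton, Prod.mk.injEq]; omega
  · simp only [Finset.mem_insert, Finset.mem_singleton, Prod.mk.injEq]; omega

theorem hu_harm (w : ℕ) (κ : ℝ) (hc : Real.cosh κ = 2 - Real.cos (Real.pi / w)) (z : ℤ × ℤ) :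
    hu w κ z = (1 / 4) * ∑ v ∈ nbrs z, hu w κ v := by
  rw [sum_nbrs]
  unfold hu
  simp only
  push_cast
  have s1 : Real.sinh (κ * (7 * w - (z.1 + 1))) + Real.sinh (κ * (7 * w - (z.1 - 1))) =
      2 * Real.sinh (κ * (7 * w - z.1)) * Real.cosh κ := by
    rw [show κ * (7 * (w : ℝ) - (z.1 + 1)) = κ * (7 * w - z.1) - κ by ring,
      show κ * (7 * (w : ℝ) - (z.1 - 1)) = κ * (7 * w - z.1) + κ by ring,
      Real.sinh_sub, Real.sinh_add]
    ring
  have s2 : Real.sin (Real.pi * (z.2 + 1) / w) + Real.sin (Real.pi * (z.2 - 1) / w) =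
      2 * Real.sin (Real.pi * z.2 / w) * Real.cos (Real.pi / w) := by
    rw [show Real.pi * ((z.2 : ℝ) + 1) / w = Real.pi * z.2 / w + Real.pi / w by ring,
      show Real.pi * ((z.2 : ℝ) - 1) / w = Real.pi * z.2 / w - Real.pi / w by ring,
      Real.sin_sub, Real.sin_add]
    ring
  set S := Real.sinh (6 * (κ * w))
  set A := Real.sin (Real.pi * z.2 / w)
  set B := Real.sinh (κ * (7 * w - z.1))
  have e : 1 / 4 * (A * Real.sinh (κ * (7 * w - (z.1 + 1))) / S +
      A * Real.sinh (κ * (7 * w - (z.1 - 1))) / S +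
      Real.sin (Real.pi * (z.2 + 1) / w) * B / S + Real.sin (Real.pi * (z.2 - 1) / w) * B / S) =
      1 / 4 * (A * (Real.sinh (κ * (7 * w - (z.1 + 1))) +
        Real.sinh (κ * (7 * w - (z.1 - 1)))) / S +
      (Real.sin (Real.pi * (z.2 + 1) / w) + Real.sin (Real.pi * (z.2 - 1) / w)) * B / S) := by
    ring
  rw [e, s1, s2, hc]
  ring

theorem mem_rect {a b c d : ℤ} {z : ℤ × ℤ} :
    z ∈ rect a b c d ↔ (a ≤ z.1 ∧ z.1 ≤ b) ∧ (c ≤ z.2 ∧ z.2 ≤ d) := by
  unfold rect
  rw [Finset.mem_product, Finset.mem_Icc, Finset.mem_Icc]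

end HM

theorem _root_.H941.hit_mass_ge (w d : ℕ) (hd : 1 ≤ d) (hw : 10 ^ 9 * d ≤ w) (K : Finset (ℤ × ℤ))
    (hK : rect w w d (w - d) ⊆ K) (hK' : K ⊆ rect w (5 * w) d (w - d)) (z : ℤ × ℤ)
    (hz1 : 5 * (w : ℤ) + 1 ≤ z.1) (hz2 : z.1 ≤ 6 * (w : ℤ)) (hz3 : (w : ℤ) ≤ 4 * z.2) (hz4 : 2 * z.2 ≤ (w : ℤ)) :
    1 / 10 ^ 8 ≤ ∑ v ∈ K, hit (rect 1 (7 * w - 1) 1 (w - 1)) K z v := by
  classical
  have hpi := Real.pi_pos
  have hpi2 := Real.pi_lt_d2
  have hwd : d ≤ w := by omega
  have hw9 : 10 ^ 9 ≤ w := by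
    have : 10 ^ 9 * 1 ≤ 10 ^ 9 * d := Nat.mul_le_mul_left _ hd
    omega
  have hwR : (10 : ℝ) ^ 9 ≤ w := by exact_mod_cast hw9
  have hw0 : (0 : ℝ) < w := by linarith [show (0 : ℝ) < 10 ^ 9 by norm_num]
  have hdwR : (10 : ℝ) ^ 9 * d ≤ w := by exact_mod_cast hw
  have hwZ : (10 : ℤ) ^ 9 ≤ w := by exact_mod_cast hw9
  have hdZ : (1 : ℤ) ≤ d := by exact_mod_cast hd
  have hdwZ : (d : ℤ) ≤ w := by exact_mod_cast hwd
  have hwZ2 : (2 : ℤ) ≤ w := by norm_num at hwZ; linarith
  obtain ⟨κ, hκ0, hκc, hκw⟩ := HM.exists_kappa w (by omega)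
  have hκw0 : 0 < κ * w := mul_pos hκ0 hw0
  have hS : 0 < Real.sinh (6 * (κ * w)) := Real.sinh_pos_iff.2 (by positivity)
  set D := rect 1 (7 * w - 1) 1 (w - 1) with hD
  set ε : ℝ := Real.pi * d / w with hε
  have hε0 : 0 ≤ ε := by positivity
  have hε1 : ε ≤ Real.pi / 10 ^ 9 := by
    rw [hε, div_le_div_iff₀ hw0 (by norm_num)]
    nlinarith
  let U : ℤ × ℤ → ℝ := fun z => if z ∈ D ∧ (w : ℤ) ≤ z.1 then max 0 (HM.hu w κ z - ε) else 0
  have hU0 : ∀ z, 0 ≤ U z := by
    intro z
    simp only [U]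
    split_ifs
    · exact le_max_left _ _
    · exact le_rfl
  have hKD : K ⊆ D := by
    intro v hv
    have h1 := HM.mem_rect.1 (hK' hv)
    rw [hD, HM.mem_rect]
    omega
  have hUD : ∀ z, z ∉ D → U z ≤ 0 := by
    intro z hz
    simp only [U]
    rw [if_neg (fun h => hz h.1)]
  -- values of the harmonic function
  have hu1 : ∀ v : ℤ × ℤ, (w : ℤ) ≤ v.1 → v.1 ≤ 7 * w → HM.hu w κ v ≤ 1 := by
    intro v h1 h2
    have h1R : (w : ℝ) ≤ v.1 := by exact_mod_cast h1
    have h2R : (v.1 : ℝ) ≤ 7 * w := by exact_mod_cast h2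
    unfold HM.hu
    rw [div_le_one hS]
    have h3 : 0 ≤ Real.sinh (κ * (7 * w - v.1)) :=
      Real.sinh_nonneg_iff.2 (mul_nonneg hκ0.le (by linarith))
    have h4 : Real.sinh (κ * (7 * w - v.1)) ≤ Real.sinh (6 * (κ * w)) :=
      Real.sinh_le_sinh.2 (by nlinarith)
    calc Real.sin (Real.pi * v.2 / w) * Real.sinh (κ * (7 * w - v.1))
        ≤ 1 * Real.sinh (κ * (7 * w - v.1)) := mul_le_mul_of_nonneg_right (Real.sin_le_one _) h3
      _ ≤ _ := by rw [one_mul]; exact h4
  have hUle : ∀ v, U v ≤ 1 := by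
    intro v
    simp only [U]
    split_ifs with h
    · have h1 := HM.mem_rect.1 h.1
      refine max_le zero_le_one ?_
      have := hu1 v h.2 (by omega)
      linarith
    · exact zero_le_one
  have hmem : z ∈ D \ K := by
    rw [Finset.mem_sdiff]
    refine ⟨?_, ?_⟩
    · rw [hD, HM.mem_rect]
      omega
    · intro hzK
      have h1 := HM.mem_rect.1 (hK' hzK)
      omega
  have hsub : ∀ x ∈ D \ K, U x ≤ (1 / 4) * ∑ v ∈ nbrs x, U v := by
    intro x hx
    rw [Finset.mem_sdiff] at hx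
    obtain ⟨hxD, hxK⟩ := hx
    have hxD' := HM.mem_rect.1 hxD
    have hnn : 0 ≤ (1 / 4 : ℝ) * ∑ v ∈ nbrs x, U v :=
      mul_nonneg (by norm_num) (Finset.sum_nonneg fun v _ => hU0 v)
    by_cases hxw : (w : ℤ) ≤ x.1
    · have hUx : U x = max 0 (HM.hu w κ x - ε) := by
        simp only [U]; rw [if_pos ⟨hxD, hxw⟩]
      rw [hUx]
      refine max_le hnn ?_
      by_cases hxe : x.1 = (w : ℤ)
      · -- on the column `w`
        have hy : x.2 < d ∨ (w : ℤ) - d < x.2 := by
          by_contra hcon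
          push Not at hcon
          apply hxK
          apply hK
          rw [HM.mem_rect]
          exact ⟨⟨by omega, by omega⟩, hcon.1, hcon.2⟩
        have hval : HM.hu w κ x = Real.sin (Real.pi * x.2 / w) := by
          unfold HM.hu
          rw [hxe]
          push_cast
          rw [show κ * (7 * (w : ℝ) - w) = 6 * (κ * w) by ring, mul_div_assoc, div_self hS.ne',
            mul_one]
        have hsin : Real.sin (Real.pi * x.2 / w) ≤ ε := by
          have hy1 : (1 : ℝ) ≤ x.2 := by exact_mod_cast hxD'.2.1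
          rcases hy with hy | hy
          · have hyR : (x.2 : ℝ) ≤ d := by exact_mod_cast hy.le
            have h1 : Real.sin (Real.pi * x.2 / w) ≤ Real.pi * x.2 / w :=
              Real.sin_le (by positivity)
            refine h1.trans ?_
            rw [hε]
            gcongr
          · have hyR : (w : ℝ) - d ≤ x.2 := by exact_mod_cast hy.le
            have hyw : (x.2 : ℝ) ≤ w := by exact_mod_cast (by omega : x.2 ≤ (w : ℤ))
            have h0 : Real.sin (Real.pi * x.2 / w) = Real.sin (Real.pi * (w - x.2) / w) := by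
              rw [← Real.sin_pi_sub]
              congr 1
              field_simp
            have h2 : 0 ≤ Real.pi * ((w : ℝ) - x.2) / w :=
              div_nonneg (mul_nonneg hpi.le (by linarith)) hw0.le
            rw [h0]
            refine (Real.sin_le h2).trans ?_
            rw [hε]
            gcongr
            linarith
        rw [hval]
        linarith
      · have hxw1 : (w : ℤ) + 1 ≤ x.1 := by omega
        have hnb : ∀ v : ℤ × ℤ, (w : ℤ) ≤ v.1 → v.1 ≤ 7 * w → 0 ≤ v.2 → v.2 ≤ w →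
            HM.hu w κ v - ε ≤ U v := by
          intro v a1 a2 a3 a4
          by_cases hvD : v ∈ D
          · simp only [U]
            rw [if_pos ⟨hvD, a1⟩]
            exact le_max_right _ _
          · have hz : HM.hu w κ v = 0 := by
              have hcases : v.2 = 0 ∨ v.2 = (w : ℤ) ∨ v.1 = 7 * (w : ℤ) := by
                by_contra hcon
                push Not at hcon
                apply hvD
                rw [hD, HM.mem_rect]
                omega
              unfold HM.hu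
              rcases hcases with h | h | h
              · rw [h]; simp
              · rw [h]
                push_cast
                rw [mul_div_cancel_right₀ _ hw0.ne', Real.sin_pi]
                simp
              · rw [h]
                push_cast
                simp
            rw [hz]
            have := hU0 v
            linarith
        rw [HM.hu_harm w κ hκc x, HM.sum_nbrs, HM.sum_nbrs]
        have b1 := hnb (x.1 + 1, x.2) (by simp only; omega) (by simp only; omega)
          (by simp only; omega) (by simp only; omega)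
        have b2 := hnb (x.1 - 1, x.2) (by simp only; omega) (by simp only; omega)
          (by simp only; omega) (by simp only; omega)
        have b3 := hnb (x.1, x.2 + 1) (by simp only; omega) (by simp only; omega)
          (by simp only; omega) (by simp only; omega)
        have b4 := hnb (x.1, x.2 - 1) (by simp only; omega) (by simp only; omega)
          (by simp only; omega) (by simp only; omega)
        linarith
    · have hUx : U x = 0 := by
        simp only [U]; rw [if_neg (fun h => hxw h.2)]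
      rw [hUx]
      exact hnn
  have hmain := hit_sub D K hKD U hUD hsub z hmem
  have hbound : ∑ v ∈ K, hit D K z v * U v ≤ ∑ v ∈ K, hit D K z v := by
    refine Finset.sum_le_sum fun v _ => ?_
    have h1 := (hit_basic D K).1 z v
    have h2 := hUle v
    nlinarith
  refine le_trans ?_ (hmain.trans hbound)
  -- lower bound at `z`
  have hz1R : (5 : ℝ) * w + 1 ≤ z.1 := by exact_mod_cast hz1
  have hz2R : (z.1 : ℝ) ≤ 6 * w := by exact_mod_cast hz2
  have hz3R : (w : ℝ) ≤ 4 * z.2 := by exact_mod_cast hz3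
  have hz4R : (2 : ℝ) * z.2 ≤ w := by exact_mod_cast hz4
  have hUz : HM.hu w κ z - ε ≤ U z := by
    simp only [U]
    rw [if_pos ⟨(Finset.mem_sdiff.1 hmem).1, by omega⟩]
    exact le_max_right _ _
  refine le_trans ?_ hUz
  have hsin : (0.7 : ℝ) ≤ Real.sin (Real.pi * z.2 / w) := by
    have h1 : Real.sin (Real.pi / 4) ≤ Real.sin (Real.pi * z.2 / w) := by
      apply Real.sin_le_sin_of_le_of_le_pi_div_two
      · linarith
      · rw [div_le_div_iff₀ hw0 (by norm_num)]
        nlinarith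
      · rw [div_le_div_iff₀ (by norm_num) hw0]
        nlinarith
    refine le_trans ?_ h1
    rw [Real.sin_pi_div_four]
    have h2 : (1.4 : ℝ) ≤ √2 := Real.le_sqrt_of_sq_le (by norm_num)
    linarith
  have hsinh : Real.sinh (κ * w) ≤ Real.sinh (κ * (7 * w - z.1)) :=
    Real.sinh_le_sinh.2 (mul_le_mul_of_nonneg_left (by linarith) hκ0.le)
  have hr := HM.ratio (κ * w) hκw0 hκw
  have hs0 : 0 < Real.sinh (κ * w) := Real.sinh_pos_iff.2 hκw0
  have hq : (1 : ℝ) / (2 * 10 ^ 7) ≤ Real.sinh (κ * (7 * w - z.1)) / Real.sinh (6 * (κ * w)) := by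
    rw [div_le_div_iff₀ (by norm_num) hS]
    linarith
  have hval : (0.7 : ℝ) * (1 / (2 * 10 ^ 7)) ≤ HM.hu w κ z := by
    unfold HM.hu
    rw [mul_div_assoc]
    exact mul_le_mul hsin hq (by positivity) (by linarith)
  have : (1 : ℝ) / 10 ^ 8 ≤ 0.7 * (1 / (2 * 10 ^ 7)) - 3.15 / 10 ^ 9 := by norm_num
  have h3 : Real.pi / 10 ^ 9 ≤ 3.15 / 10 ^ 9 := by
    apply div_le_div_of_nonneg_right hpi2.le (by norm_num)
  linarith

end H941.hit_mass_ge
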