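import Pool.Agent.H941.Defs3
import Pool.Agent.H941.A3
import Pool.Agent.H941.B.green_decomp
import Pool.Agent.H941.B.hit_basic

open MeasureTheory ProbabilityTheory

namespace H941.quad_drop

theorem _root_.H941.quad_drop (D K S Q : Finset (ℤ × ℤ)) (ρ : ℤ × ℤ → ℝ) (hρ : ∀ z, 0 ≤ ρ z) (hS : S ⊆ D \ K)
    (hQ : Disjoint Q S) :
    (∑ x ∈ Q, ∑ y ∈ Q, ρ x * green (D \ (K ∪ S)) x y * ρ y) +
        ∑ v ∈ S, (∑ z ∈ Q, ρ z * hit D (K ∪ S) z v) ^ 2 ≤
      ∑ x ∈ Q, ∑ y ∈ Q, ρ x * green (D \ K) x y * ρ y := by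
  have e1 : D \ (K ∪ S) = (D \ K) \ S := by
    ext v
    simp only [Finset.mem_sdiff, Finset.mem_union]
    tauto
  have hhit : ∀ z v, hit D (K ∪ S) z v = hit (D \ K) S z v := by
    intro z v
    rw [hit, hit, e1]
  have gb := green_basic (D \ K)
  have gb' := green_basic ((D \ K) \ S)
  have hb := hit_basic (D \ K) S
  have key : ∀ x ∈ Q, ∀ y ∈ Q, green ((D \ K) \ S) x y +
      ∑ v ∈ S, hit (D \ K) S x v * hit (D \ K) S y v ≤ green (D \ K) x y := by
    intro x hx y hy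
    have hxS : x ∉ S := Finset.disjoint_left.1 hQ hx
    have hyS : y ∉ S := Finset.disjoint_left.1 hQ hy
    rw [green_decomp (D \ K) S x y hxS]
    have h2 : ∑ v ∈ S, hit (D \ K) S x v * hit (D \ K) S y v ≤
        ∑ v ∈ S, hit (D \ K) S x v * green (D \ K) v y := by
      apply Finset.sum_le_sum
      intro v hv
      apply mul_le_mul_of_nonneg_left _ (hb.1 x v)
      rw [gb.2.2.1 v y, green_decomp (D \ K) S y v hyS]
      have h3 : green ((D \ K) \ S) y v = 0 := by
        apply gb'.2.1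
        right
        intro h4
        exact (Finset.mem_sdiff.1 h4).2 hv
      rw [h3, zero_add]
      have h4 : hit (D \ K) S y v * green (D \ K) v v ≤
          ∑ w ∈ S, hit (D \ K) S y w * green (D \ K) w v :=
        Finset.single_le_sum (f := fun w => hit (D \ K) S y w * green (D \ K) w v)
          (fun w _ => mul_nonneg (hb.1 y w) (gb.1 w v)) hv
      have h5 : 1 ≤ green (D \ K) v v := by
        rw [gb.2.2.2.2.1 v (hS hv) v, if_pos rfl]
        have h6 : 0 ≤ ∑ z ∈ nbrs v, green (D \ K) z v :=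
          Finset.sum_nonneg fun z _ => gb.1 z v
        linarith
      calc hit (D \ K) S y v = hit (D \ K) S y v * 1 := (mul_one _).symm
        _ ≤ hit (D \ K) S y v * green (D \ K) v v := mul_le_mul_of_nonneg_left h5 (hb.1 y v)
        _ ≤ _ := h4
    linarith
  have e2 : ∑ v ∈ S, (∑ z ∈ Q, ρ z * hit D (K ∪ S) z v) ^ 2 =
      ∑ x ∈ Q, ∑ y ∈ Q, ρ x * (∑ v ∈ S, hit (D \ K) S x v * hit (D \ K) S y v) * ρ y := by
    have e3 : ∀ v ∈ S, (∑ z ∈ Q, ρ z * hit D (K ∪ S) z v) ^ 2 =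
        ∑ x ∈ Q, ∑ y ∈ Q, ρ x * (hit (D \ K) S x v * hit (D \ K) S y v) * ρ y := by
      intro v _
      rw [sq, Finset.sum_mul_sum]
      refine Finset.sum_congr rfl fun x _ => Finset.sum_congr rfl fun y _ => ?_
      rw [hhit, hhit]
      ring
    rw [Finset.sum_congr rfl e3, Finset.sum_comm]
    refine Finset.sum_congr rfl fun x _ => ?_
    rw [Finset.sum_comm]
    refine Finset.sum_congr rfl fun y _ => ?_
    rw [Finset.mul_sum, Finset.sum_mul]
  rw [e2, e1, ← Finset.sum_add_distrib]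
  refine Finset.sum_le_sum fun x hx => ?_
  rw [← Finset.sum_add_distrib]
  refine Finset.sum_le_sum fun y hy => ?_
  have h := key x hx y hy
  have h1 : 0 ≤ ρ x * ρ y := mul_nonneg (hρ x) (hρ y)
  nlinarith [mul_le_mul_of_nonneg_left h h1]

end H941.quad_drop
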