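import Pool.Agent.H941.Defs3
import Pool.Agent.H941.A3
import Pool.Agent.H941.B.expl_disconnect
import Pool.Agent.H941.B.expl_exposed
import Pool.Agent.H941.B.expl_facts
import Pool.Agent.H941.B.hit_basic
import Pool.Agent.H941.B.hit_mass_ge
import Pool.Agent.H941.B.quad_drop
import Pool.Agent.H941.B.row_le

open MeasureTheory ProbabilityTheory

namespace H941.expl_bound

theorem expl_mono' (R K0 : Finset (ℤ × ℤ)) (op : ℤ × ℤ → Prop) {i k : ℕ} (h : i ≤ k) :
    (expl R K0 op i).1 ⊆ (expl R K0 op k).1 := by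
  classical
  induction h with
  | refl => exact Finset.Subset.refl _
  | step _ ih => exact ih.trans (Finset.subset_union_left)

theorem mem_rect {a b c d : ℤ} {z : ℤ × ℤ} :
    z ∈ rect a b c d ↔ (a ≤ z.1 ∧ z.1 ≤ b) ∧ c ≤ z.2 ∧ z.2 ≤ d := by
  simp [rect, Finset.mem_product, Finset.mem_Icc]

theorem card_Qs (w : ℕ) (hw : 10 ≤ w) : (w : ℝ) ^ 2 / 5 ≤ ((Qs w).card : ℝ) := by
  have h1 : (Qs w).card = w * ((w : ℤ) / 2 - (w : ℤ) / 4).toNat := by
    rw [Qs, rect, Finset.card_product, Int.card_Icc, Int.card_Icc]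
    congr 1
    · omega
    · congr 1
      ring
  have h2 : w ≤ 5 * ((w : ℤ) / 2 - (w : ℤ) / 4).toNat := by omega
  rw [h1]
  have h3 : (w : ℝ) ≤ 5 * ((((w : ℤ) / 2 - (w : ℤ) / 4).toNat : ℕ) : ℝ) := by exact_mod_cast h2
  push_cast
  have h4 : (0 : ℝ) ≤ w := Nat.cast_nonneg w
  nlinarith

theorem Qs_sub (w : ℕ) : Qs w ⊆ rect (5 * w + 1) (6 * w) 1 (w - 1) := by
  intro z hz
  rw [Qs, mem_rect] at hz
  rw [mem_rect]
  omega

theorem Qs_sub' (w : ℕ) : Qs w ⊆ rect 1 (7 * w - 1) 1 (w - 1) := by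
  intro z hz
  rw [Qs, mem_rect] at hz
  rw [mem_rect]
  omega

/-- the energy of the uniform distribution on the square -/
theorem energy_le (w : ℕ) (hw : 10 ≤ w) :
    ∑ x ∈ Qs w, ∑ y ∈ Qs w, (1 / ((Qs w).card : ℝ)) * green (rect 1 (7 * w - 1) 1 (w - 1)) x y *
      (1 / ((Qs w).card : ℝ)) ≤ 5 / 2 := by
  have hc := card_Qs w hw
  have hw0 : (0 : ℝ) < w := by
    have : 0 < w := by omega
    exact_mod_cast this
  set q : ℝ := ((Qs w).card : ℝ) with hq
  have hq0 : 0 < q := lt_of_lt_of_le (by positivity) hc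
  have hg := green_basic (rect 1 (7 * w - 1) 1 (w - 1))
  have hrow : ∀ x ∈ Qs w, ∑ y ∈ Qs w, (1 / q) * green (rect 1 (7 * w - 1) 1 (w - 1)) x y * (1 / q)
      ≤ (1 / q) * ((w : ℝ) ^ 2 / 2) * (1 / q) := by
    intro x hx
    have hxD := Qs_sub' w hx
    rw [← Finset.sum_mul, ← Finset.mul_sum]
    refine mul_le_mul_of_nonneg_right (mul_le_mul_of_nonneg_left ?_ (by positivity)) (by positivity)
    have h1 : ∑ y ∈ Qs w, green (rect 1 (7 * w - 1) 1 (w - 1)) x y ≤
        ∑ y ∈ rect 1 (7 * w - 1) 1 (w - 1), green (rect 1 (7 * w - 1) 1 (w - 1)) x y :=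
      Finset.sum_le_sum_of_subset_of_nonneg (Qs_sub' w) fun _ _ _ => hg.1 _ _
    have h2 := row_le (rect 1 (7 * w - 1) 1 (w - 1)) 0 w (fun z hz => by
      rw [mem_rect] at hz
      omega) x hxD
    refine h1.trans (h2.trans ?_)
    push_cast
    nlinarith [sq_nonneg ((x.2 : ℝ) - w / 2)]
  refine (Finset.sum_le_sum hrow).trans ?_
  rw [Finset.sum_const, nsmul_eq_mul, ← hq]
  have h1 : q * (1 / q * ((w : ℝ) ^ 2 / 2) * (1 / q)) = ((w : ℝ) ^ 2 / 2) / q := by
    field_simp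
  rw [h1, div_le_iff₀ hq0]
  linarith

theorem expl_bound_energy (w d : ℕ) (hw : 10 ≤ w) (hd : 1 ≤ d) (hdw : 2 * d + 1 ≤ w)
    (op : ℤ × ℤ → Prop) (T : ℕ) :
    ∑ k ∈ Finset.range T, ∑ v ∈ (expl (rect w (5 * w) d (w - d)) (rect w w d (w - d)) op k).2,
      (∑ z ∈ Qs w, (1 / ((Qs w).card : ℝ)) * hit (rect 1 (7 * w - 1) 1 (w - 1))
          (expl (rect w (5 * w) d (w - d)) (rect w w d (w - d)) op k).1 z v) ^ 2 ≤ 5 / 2 := by
  classical
  set D : Finset (ℤ × ℤ) := rect 1 (7 * w - 1) 1 (w - 1) with hD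
  set R : Finset (ℤ × ℤ) := rect w (5 * w) d (w - d) with hR
  set K0 : Finset (ℤ × ℤ) := rect w w d (w - d) with hK0
  have hK0R : K0 ⊆ R := by
    intro z hz
    rw [hK0, mem_rect] at hz
    rw [hR, mem_rect]
    omega
  have hRD : R ⊆ D := by
    intro z hz
    rw [hR, mem_rect] at hz
    rw [hD, mem_rect]
    omega
  obtain ⟨f1, f2, f3, -⟩ := expl_facts R K0 hK0R op
  set c : ℝ := 1 / ((Qs w).card : ℝ) with hc
  have hc0 : 0 ≤ c := by positivity
  have hQR : Disjoint (Qs w) R := by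
    rw [Finset.disjoint_left]
    intro z hz hz'
    have h1 := Qs_sub w hz
    rw [mem_rect] at h1
    rw [hR, mem_rect] at hz'
    omega
  set E : Finset (ℤ × ℤ) → ℝ := fun K => ∑ x ∈ Qs w, ∑ y ∈ Qs w, c * green (D \ K) x y * c with hE
  have hE0 : ∀ K, 0 ≤ E K := fun K => Finset.sum_nonneg fun x _ => Finset.sum_nonneg fun y _ =>
    mul_nonneg (mul_nonneg hc0 ((green_basic _).1 _ _)) hc0
  have hEle : E ∅ ≤ 5 / 2 := by
    simp only [hE, Finset.sdiff_empty]
    exact energy_le w hw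
  set s : ℕ → ℝ := fun k => ∑ v ∈ (expl R K0 op k).2,
      (∑ z ∈ Qs w, c * hit D (expl R K0 op k).1 z v) ^ 2 with hs
  have hstep : ∀ (K K' : Finset (ℤ × ℤ)) (O : Finset (ℤ × ℤ)), K ⊆ K' → K' ⊆ R → O ⊆ K' → Disjoint O K →
      E K' + ∑ v ∈ O, (∑ z ∈ Qs w, c * hit D K' z v) ^ 2 ≤ E K := by
    intro K K' O hKK hK'R hOK hOd
    have h1 := quad_drop D K (K' \ K) (Qs w) (fun _ => c) (fun _ => hc0)
      (Finset.sdiff_subset_sdiff (hK'R.trans hRD) (Finset.Subset.refl _))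
      (Finset.disjoint_of_subset_right (Finset.sdiff_subset.trans hK'R) hQR)
    rw [Finset.union_sdiff_of_subset hKK] at h1
    refine le_trans ?_ h1
    refine add_le_add le_rfl ?_
    refine Finset.sum_le_sum_of_subset_of_nonneg ?_ fun _ _ _ => sq_nonneg _
    intro v hv
    exact Finset.mem_sdiff.2 ⟨hOK hv, fun h => Finset.disjoint_left.1 hOd hv h⟩
  have key : ∀ n : ℕ, E (expl R K0 op n).1 + ∑ k ∈ Finset.range (n + 1), s k ≤ E ∅ := by
    intro n
    induction n with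
    | zero =>
      rw [Finset.sum_range_one]
      exact hstep ∅ _ _ (Finset.empty_subset _) (f1 0).2.1 (f2 0).1 (Finset.disjoint_empty_right _)
    | succ n ih =>
      rw [Finset.sum_range_succ]
      have h1 := hstep (expl R K0 op n).1 (expl R K0 op (n + 1)).1 (expl R K0 op (n + 1)).2
        (f1 n).2.2 (f1 (n + 1)).2.1 (f2 (n + 1)).1 (f3 n)
      have h2 : s (n + 1) = ∑ v ∈ (expl R K0 op (n + 1)).2,
        (∑ z ∈ Qs w, c * hit D (expl R K0 op (n + 1)).1 z v) ^ 2 := rfl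
      linarith
  cases T with
  | zero => simp; norm_num
  | succ n =>
    have h1 := key n
    have h2 := hE0 (expl R K0 op n).1
    change ∑ k ∈ Finset.range (n + 1), s k ≤ 5 / 2
    linarith

theorem expl_bound_step (w d : ℕ) (lam M : ℝ) (hd : 1 ≤ d) (hlam : 1 ≤ lam) (hM : 1 ≤ M)
    (hw : 10 ^ 12 * (lam + M) * d ≤ lam * w) (f : ℤ × ℤ → ℝ)
    (hf : ∀ v ∈ rect 1 (7 * w - 1) 1 (w - 1), |f v| ≤ M) (k : ℕ)
    (hno : ∀ i ≤ k, ∀ v ∈ (expl (rect w (5 * w) d (w - d)) (rect w w d (w - d))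
      (fun v => f v ≤ lam) i).2, v.1 ≠ 5 * w)
    (hA : ∑ v ∈ (expl (rect w (5 * w) d (w - d)) (rect w w d (w - d)) (fun v => f v ≤ lam) k).1,
        (∑ z ∈ Qs w, (1 / ((Qs w).card : ℝ)) * hit (rect 1 (7 * w - 1) 1 (w - 1))
          (expl (rect w (5 * w) d (w - d)) (rect w w d (w - d)) (fun v => f v ≤ lam) k).1 z v) * f v
        < lam / (2 * 10 ^ 8)) :
    3 / 10 ^ 9 * (lam / (lam + M)) ≤
      ∑ v ∈ (expl (rect w (5 * w) d (w - d)) (rect w w d (w - d)) (fun v => f v ≤ lam) k).2,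
        ∑ z ∈ Qs w, (1 / ((Qs w).card : ℝ)) * hit (rect 1 (7 * w - 1) 1 (w - 1))
          (expl (rect w (5 * w) d (w - d)) (rect w w d (w - d)) (fun v => f v ≤ lam) k).1 z v := by
  classical
  have hlM : 0 < lam + M := by linarith
  have hd1 : (1 : ℝ) ≤ d := by exact_mod_cast hd
  -- size of w
  have hw1 : (10 : ℝ) ^ 12 * d ≤ w := by
    have h1 : 10 ^ 12 * lam * d ≤ 10 ^ 12 * (lam + M) * (d : ℝ) := by
      refine mul_le_mul_of_nonneg_right ?_ (by linarith)
      refine mul_le_mul_of_nonneg_left ?_ (by positivity)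
      linarith
    have h2 : lam * (10 ^ 12 * (d : ℝ)) ≤ lam * w := by
      calc lam * (10 ^ 12 * (d : ℝ)) = 10 ^ 12 * lam * d := by ring
        _ ≤ _ := h1.trans hw
    exact le_of_mul_le_mul_left h2 (by linarith)
  have hwN : 10 ^ 12 * d ≤ w := by exact_mod_cast hw1
  have hw10 : 10 ≤ w := by omega
  have hdw : 2 * d + 1 ≤ w := by omega
  have hwd : 10 ^ 9 * d ≤ w := by omega
  have hw0 : (0 : ℝ) < w := by
    have : 0 < w := by omega
    exact_mod_cast this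
  have hcQ := card_Qs w hw10
  set q : ℝ := ((Qs w).card : ℝ) with hq
  have hq0 : 0 < q := lt_of_lt_of_le (by positivity) hcQ
  set c : ℝ := 1 / q with hc
  have hc0 : 0 < c := by positivity
  have hcw : c * ((w : ℝ) * w) ≤ 5 := by
    rw [hc, one_div, inv_mul_le_iff₀ hq0]
    nlinarith
  set D : Finset (ℤ × ℤ) := rect 1 (7 * w - 1) 1 (w - 1) with hD
  set R : Finset (ℤ × ℤ) := rect w (5 * w) d (w - d) with hR
  set K0 : Finset (ℤ × ℤ) := rect w w d (w - d) with hK0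
  set op : ℤ × ℤ → Prop := fun v => f v ≤ lam with hop
  have hK0R : K0 ⊆ R := by
    intro z hz
    rw [hK0, mem_rect] at hz
    rw [hR, mem_rect]
    omega
  have hRD : R ⊆ D := by
    intro z hz
    rw [hR, mem_rect] at hz
    rw [hD, mem_rect]
    omega
  obtain ⟨f1, f2, f3, f4, f5, -⟩ := expl_facts R K0 hK0R op
  have hQR : Disjoint (Qs w) R := by
    rw [Finset.disjoint_left]
    intro z hz hz'
    have h1 := Qs_sub w hz
    rw [mem_rect] at h1
    rw [hR, mem_rect] at hz'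
    omega
  set K : Finset (ℤ × ℤ) := (expl R K0 op k).1 with hK
  set O : Finset (ℤ × ℤ) := (expl R K0 op k).2 with hO
  set X : Finset (ℤ × ℤ) := (Finset.range k).biUnion (fun i => (expl R K0 op i).2) with hX
  have hKR : K ⊆ R := (f1 k).2.1
  have hOK : O ⊆ K := (f2 k).1
  have hXK : X ⊆ K := by
    intro v hv
    obtain ⟨i, hi, hv⟩ := Finset.mem_biUnion.1 hv
    exact expl_mono' R K0 op (le_of_lt (Finset.mem_range.1 hi)) ((f2 i).1 hv)
  set μ : ℤ × ℤ → ℝ := fun v => ∑ z ∈ Qs w, c * hit D K z v with hμ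
  have hμ0 : ∀ v, 0 ≤ μ v := fun v => Finset.sum_nonneg fun z _ =>
    mul_nonneg hc0.le ((hit_basic D K).1 z v)
  -- total mass
  have hmass : 1 / 10 ^ 8 ≤ ∑ v ∈ K, μ v := by
    simp only [hμ]
    rw [Finset.sum_comm]
    have h1 : ∀ z ∈ Qs w, c * (1 / 10 ^ 8) ≤ ∑ v ∈ K, c * hit D K z v := by
      intro z hz
      rw [← Finset.mul_sum]
      refine mul_le_mul_of_nonneg_left ?_ hc0.le
      rw [Qs, mem_rect] at hz
      exact hit_mass_ge w d hd hwd K (f1 k).1 hKR z (by omega) (by omega) (by omega) (by omega)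
    have h2 := Finset.sum_le_sum h1
    rw [Finset.sum_const, nsmul_eq_mul, ← hq] at h2
    have h3 : q * (c * (1 / 10 ^ 8)) = 1 / 10 ^ 8 := by
      rw [hc]
      field_simp
    rwa [h3] at h2
  -- mass of X
  have hmX : ∑ v ∈ X, μ v ≤ 1080 / 10 ^ 12 * (lam / (lam + M)) := by
    obtain ⟨Xt, Xb, h1, h2, h3, h4, h5⟩ := expl_disconnect w d hd hdw op k hno
    have h6 := expl_exposed w d hd hdw K X hXK Xt Xb h1 h2 h3 h4 (Qs w) (Qs_sub w)
      (Finset.disjoint_of_subset_right hKR hQR) (by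
        intro v hv u hu z hz
        obtain ⟨i, hi, hv⟩ := Finset.mem_biUnion.1 hv
        exact h5 i (Finset.mem_range.1 hi) v hv u hu z hz) (fun _ => c) c (fun _ => hc0.le)
        (fun _ => le_rfl)
    refine h6.trans ?_
    have h7 : 216 * c * w * d * w ≤ 1080 * d := by
      calc 216 * c * w * d * w = 216 * (c * (w * w)) * d := by ring
        _ ≤ 216 * 5 * d := by
          refine mul_le_mul_of_nonneg_right ?_ (by linarith)
          linarith
        _ = 1080 * d := by ring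
    have h8 : (d : ℝ) ≤ lam / (lam + M) / 10 ^ 12 * w := by
      have h9 : lam / (lam + M) / 10 ^ 12 * w = lam * w / (10 ^ 12 * (lam + M)) := by
        field_simp
      rw [h9, le_div_iff₀ (by positivity)]
      linarith
    have h9 : 216 * c * w * d * w ≤ (1080 / 10 ^ 12 * (lam / (lam + M))) * w := by
      refine h7.trans ?_
      calc 1080 * (d : ℝ) ≤ 1080 * (lam / (lam + M) / 10 ^ 12 * w) := by linarith
        _ = _ := by ring
    exact le_of_mul_le_mul_right h9 hw0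
  -- the split
  have hA' : ∑ v ∈ K, μ v * f v < lam / (2 * 10 ^ 8) := hA
  have hlow : lam * ∑ v ∈ K, μ v - (lam + M) * (∑ v ∈ X, μ v + ∑ v ∈ O, μ v) ≤
      ∑ v ∈ K, μ v * f v := by
    have h1 : ∀ v ∈ K, lam * μ v - (lam + M) * (if v ∈ X ∪ O then μ v else 0) ≤ μ v * f v := by
      intro v hv
      by_cases hvX : v ∈ X ∪ O
      · rw [if_pos hvX]
        have h2 := (abs_le.1 (hf v (hRD (hKR hv)))).1
        have h3 := hμ0 v
        nlinarith
      · rw [if_neg hvX]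
        have h2 : lam < f v := by
          by_contra h3
          push Not at h3
          obtain ⟨i, hi, hvi⟩ := f5 k v hv h3
          apply hvX
          rcases hi.lt_or_eq with h4 | h4
          · exact Finset.mem_union_left _ (Finset.mem_biUnion.2 ⟨i, Finset.mem_range.2 h4, hvi⟩)
          · subst h4
            exact Finset.mem_union_right _ hvi
        have h3 := hμ0 v
        nlinarith
    have h2 := Finset.sum_le_sum h1
    rw [Finset.sum_sub_distrib, ← Finset.mul_sum, ← Finset.mul_sum, ← Finset.sum_filter] at h2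
    have h3 : ∑ v ∈ K.filter (fun v => v ∈ X ∪ O), μ v ≤ ∑ v ∈ X, μ v + ∑ v ∈ O, μ v := by
      have h4 : ∑ v ∈ K.filter (fun v => v ∈ X ∪ O), μ v ≤ ∑ v ∈ X ∪ O, μ v :=
        Finset.sum_le_sum_of_subset_of_nonneg (fun v hv => (Finset.mem_filter.1 hv).2)
          fun v _ _ => hμ0 v
      have h5 := Finset.sum_union_inter (s₁ := X) (s₂ := O) (f := μ)
      have h6 : 0 ≤ ∑ v ∈ X ∩ O, μ v := Finset.sum_nonneg fun v _ => hμ0 v
      linarith
    have h4 := mul_le_mul_of_nonneg_left h3 hlM.le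
    linarith
  -- conclusion
  change 3 / 10 ^ 9 * (lam / (lam + M)) ≤ ∑ v ∈ O, μ v
  set β : ℝ := lam / (lam + M) with hβ
  have hβ1 : (lam + M) * β = lam := by
    rw [hβ]
    field_simp
  have h1 : lam * (1 / 10 ^ 8) ≤ lam * ∑ v ∈ K, μ v := mul_le_mul_of_nonneg_left hmass (by linarith)
  have h2 : (lam + M) * (∑ v ∈ X, μ v + ∑ v ∈ O, μ v) ≤
      (lam + M) * (1080 / 10 ^ 12 * β + ∑ v ∈ O, μ v) :=
    mul_le_mul_of_nonneg_left (by linarith) hlM.le
  have h3 : (lam + M) * (5 / 10 ^ 9 * β) ≤ (lam + M) * (1080 / 10 ^ 12 * β + ∑ v ∈ O, μ v) := by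
    have h4 : (lam + M) * (5 / 10 ^ 9 * β) = lam * (1 / 10 ^ 8) - lam / (2 * 10 ^ 8) := by
      have h5 : (lam + M) * (5 / 10 ^ 9 * β) = 5 / 10 ^ 9 * ((lam + M) * β) := by ring
      rw [h5, hβ1]
      ring
    rw [h4]
    linarith
  have h4 := le_of_mul_le_mul_left h3 hlM
  have h5 : 0 < β := by positivity
  linarith

theorem _root_.H941.expl_bound (w d : ℕ) (lam M : ℝ) (hd : 1 ≤ d) (hlam : 1 ≤ lam) (hM : 1 ≤ M)
    (hw : 10 ^ 12 * (lam + M) * d ≤ lam * w) (f : ℤ × ℤ → ℝ)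
    (hf : ∀ v ∈ rect 1 (7 * w - 1) 1 (w - 1), |f v| ≤ M) (T : ℕ)
    (hT : 2 * 10 ^ 9 * w * (lam + M) / lam ≤ T)
    (hno : ∀ k ≤ T, ∀ v ∈ (expl (rect w (5 * w) d (w - d)) (rect w w d (w - d))
      (fun v => f v ≤ lam) k).2, v.1 ≠ 5 * w) :
    ∃ k < T, lam / (2 * 10 ^ 8) ≤
      ∑ v ∈ (expl (rect w (5 * w) d (w - d)) (rect w w d (w - d)) (fun v => f v ≤ lam) k).1,
        (∑ z ∈ Qs w, (1 / ((Qs w).card : ℝ)) * hit (rect 1 (7 * w - 1) 1 (w - 1))
          (expl (rect w (5 * w) d (w - d)) (rect w w d (w - d)) (fun v => f v ≤ lam) k).1 z v) * f v := by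
  classical
  by_contra hcon
  push Not at hcon
  have hlM : 0 < lam + M := by linarith
  have hd1 : (1 : ℝ) ≤ d := by exact_mod_cast hd
  have hw1 : (10 : ℝ) ^ 12 * d ≤ w := by
    have h1 : 10 ^ 12 * lam * d ≤ 10 ^ 12 * (lam + M) * (d : ℝ) := by
      refine mul_le_mul_of_nonneg_right ?_ (by linarith)
      refine mul_le_mul_of_nonneg_left ?_ (by positivity)
      linarith
    have h2 : lam * (10 ^ 12 * (d : ℝ)) ≤ lam * w := by
      calc lam * (10 ^ 12 * (d : ℝ)) = 10 ^ 12 * lam * d := by ring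
        _ ≤ _ := h1.trans hw
    exact le_of_mul_le_mul_left h2 (by linarith)
  have hwN : 10 ^ 12 * d ≤ w := by exact_mod_cast hw1
  have hw10 : 10 ≤ w := by omega
  have hdw : 2 * d + 1 ≤ w := by omega
  have hw0 : (0 : ℝ) < w := by
    have : 0 < w := by omega
    exact_mod_cast this
  have hen := expl_bound_energy w d hw10 hd hdw (fun v => f v ≤ lam) T
  have hstep : ∀ k < T, _ := fun k hk => expl_bound_step w d lam M hd hlam hM hw f hf k
    (fun i hi => hno i (hi.trans hk.le)) (hcon k hk)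
  set R : Finset (ℤ × ℤ) := rect w (5 * w) d (w - d) with hR
  set K0 : Finset (ℤ × ℤ) := rect w w d (w - d) with hK0
  set op : ℤ × ℤ → Prop := fun v => f v ≤ lam with hop
  have hK0R : K0 ⊆ R := by
    intro z hz
    rw [hK0, mem_rect] at hz
    rw [hR, mem_rect]
    omega
  obtain ⟨f1, f2, f3, -⟩ := expl_facts R K0 hK0R op
  set μ : ℕ → ℤ × ℤ → ℝ := fun k v => ∑ z ∈ Qs w, (1 / ((Qs w).card : ℝ)) *
    hit (rect 1 (7 * w - 1) 1 (w - 1)) (expl R K0 op k).1 z v with hμ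
  set β : ℝ := lam / (lam + M) with hβ
  have hβ0 : 0 < β := by positivity
  have hstep' : ∀ k ∈ Finset.range T, 3 / 10 ^ 9 * β ≤ ∑ v ∈ (expl R K0 op k).2, μ k v :=
    fun k hk => hstep k (Finset.mem_range.1 hk)
  have hsum := Finset.sum_le_sum hstep'
  rw [Finset.sum_const, Finset.card_range, nsmul_eq_mul] at hsum
  have hen' : ∑ k ∈ Finset.range T, ∑ v ∈ (expl R K0 op k).2, (μ k v) ^ 2 ≤ 5 / 2 := hen
  rw [Finset.sum_sigma'] at hsum hen'
  set S : Finset (Σ _ : ℕ, ℤ × ℤ) := (Finset.range T).sigma (fun k => (expl R K0 op k).2) with hS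
  have hcs : (∑ x ∈ S, μ x.1 x.2) ^ 2 ≤ (S.card : ℝ) * ∑ x ∈ S, (μ x.1 x.2) ^ 2 :=
    sq_sum_le_card_mul_sum_sq
  have hcard : (S.card : ℝ) ≤ (4 * w + 1) * w := by
    have h1 : S.card ≤ R.card := by
      refine Finset.card_le_card_of_injOn (fun x => x.2) ?_ ?_
      · intro x hx
        have h2 := Finset.mem_sigma.1 (Finset.mem_coe.1 hx)
        exact (f1 x.1).2.1 ((f2 x.1).1 h2.2)
      · rintro ⟨i, v⟩ hx ⟨j, u⟩ hy hxy
        have h2 := (Finset.mem_sigma.1 (Finset.mem_coe.1 hx)).2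
        have h3 := (Finset.mem_sigma.1 (Finset.mem_coe.1 hy)).2
        have hxy' : v = u := hxy
        subst hxy'
        have h4 : ∀ a b : ℕ, a < b → v ∈ (expl R K0 op a).2 → v ∈ (expl R K0 op b).2 → False := by
          intro a b hab ha hb
          cases b with
          | zero => omega
          | succ b =>
            exact Finset.disjoint_left.1 (f3 b) hb
              (expl_mono' R K0 op (Nat.lt_succ_iff.1 hab) ((f2 a).1 ha))
        rcases lt_trichotomy i j with h | h | h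
        · exact (h4 i j h h2 h3).elim
        · subst h; rfl
        · exact (h4 j i h h3 h2).elim
    have h2 : R.card ≤ (4 * w + 1) * w := by
      rw [hR, rect, Finset.card_product, Int.card_Icc, Int.card_Icc]
      refine Nat.mul_le_mul ?_ ?_ <;> omega
    exact_mod_cast h1.trans h2
  have hlin : (T : ℝ) * (3 / 10 ^ 9 * β) ≤ ∑ x ∈ S, μ x.1 x.2 := hsum
  have hlin0 : 0 ≤ (T : ℝ) * (3 / 10 ^ 9 * β) := by positivity
  have hsq : ((T : ℝ) * (3 / 10 ^ 9 * β)) ^ 2 ≤ (4 * w) ^ 2 := by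
    have h1 : ((T : ℝ) * (3 / 10 ^ 9 * β)) ^ 2 ≤ (∑ x ∈ S, μ x.1 x.2) ^ 2 :=
      pow_le_pow_left₀ hlin0 hlin 2
    have h2 : (S.card : ℝ) * ∑ x ∈ S, (μ x.1 x.2) ^ 2 ≤ ((4 * w + 1) * w) * (5 / 2) := by
      refine mul_le_mul hcard hen' (Finset.sum_nonneg fun _ _ => sq_nonneg _) (by positivity)
    have h3 : (10 : ℝ) ≤ w := by exact_mod_cast hw10
    nlinarith
  have h4 : (T : ℝ) * (3 / 10 ^ 9 * β) ≤ 4 * w := by
    exact (pow_le_pow_iff_left₀ hlin0 (by positivity) two_ne_zero).1 hsq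
  have h5 : 2 * 10 ^ 9 * w ≤ T * β := by
    rw [hβ, ← mul_div_assoc, le_div_iff₀ hlM]
    rw [div_le_iff₀ (by linarith)] at hT
    linarith
  nlinarith

end H941.expl_bound
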