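import Pool.Agent.H941.Defs3

open MeasureTheory ProbabilityTheory

namespace H941.stopping_bound

/-- A centred Gaussian on the line gives mass at least one half to `[0, ∞)`. -/
theorem one_le_two_mul_gaussianReal_Ici (v : NNReal) :
    1 ≤ 2 * gaussianReal 0 v (Set.Ici (0 : ℝ)) := by
  have h1 : gaussianReal 0 v (Set.Iic (0 : ℝ)) = gaussianReal 0 v (Set.Ici (0 : ℝ)) := by
    have h := gaussianReal_map_neg (μ := 0) (v := v)
    rw [neg_zero] at h
    have h2 : (Measure.map (fun x : ℝ ↦ -x) (gaussianReal 0 v)) (Set.Ici (0 : ℝ)) =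
        gaussianReal 0 v (Set.Ici (0 : ℝ)) := by rw [h]
    rw [Measure.map_apply (by fun_prop) measurableSet_Ici] at h2
    rw [← h2]
    congr 1
    ext x
    simp
  have h3 : (1 : ENNReal) ≤ gaussianReal 0 v (Set.Iic (0 : ℝ)) + gaussianReal 0 v (Set.Ici (0 : ℝ)) := by
    rw [← measure_univ (μ := gaussianReal 0 v)]
    refine le_trans (measure_mono ?_) (measure_union_le _ _)
    intro x _
    rcases le_total x 0 with h | h
    · exact Or.inl h
    · exact Or.inr h
  rw [two_mul]
  rw [h1] at h3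
  exact h3

/-- The one-set estimate. -/
theorem one_set {ι : Type} [Fintype ι] [DecidableEq ι] (Γ : Matrix ι ι ℝ) (hΓ : Γ.PosSemidef)
    (E : Finset ι) (c : ι → ℝ) (hc : ∀ y ∈ E, ∑ i, c i * Γ i y = 0)
    (A : Set (EuclideanSpace ℝ ι)) (hA : MeasurableSet A)
    (hstop : ∀ x x' : EuclideanSpace ℝ ι, x ∈ A → (∀ i ∈ E, x i = x' i) → x' ∈ A) :
    multivariateGaussian (0 : EuclideanSpace ℝ ι) Γ A ≤
      2 * multivariateGaussian (0 : EuclideanSpace ℝ ι) Γ (A ∩ {x | 0 ≤ ∑ i, c i * x i}) := by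
  set P := multivariateGaussian (0 : EuclideanSpace ℝ ι) Γ with hP
  have hid : HasGaussianLaw (id : EuclideanSpace ℝ ι → EuclideanSpace ℝ ι) P :=
    IsGaussian.hasGaussianLaw_id
  -- the linear form
  let R : EuclideanSpace ℝ ι →L[ℝ] ℝ := ∑ i, c i • (EuclideanSpace.proj i : EuclideanSpace ℝ ι →L[ℝ] ℝ)
  have hRapp : ∀ x, R x = ∑ i, c i * x i := by
    intro x
    simp [R]
  have hRlaw : HasGaussianLaw (fun x ↦ R x) P := hid.map R
  have hmem : ∀ i, MemLp (fun x : EuclideanSpace ℝ ι ↦ x i) 2 P := by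
    intro i
    exact (hid.map (EuclideanSpace.proj i : EuclideanSpace ℝ ι →L[ℝ] ℝ)).memLp_two
  -- covariance
  have hcov : ∀ y ∈ E, cov[fun x ↦ R x, fun x : EuclideanSpace ℝ ι ↦ x y; P] = 0 := by
    intro y hy
    have e1 : (fun x ↦ R x) = fun x : EuclideanSpace ℝ ι ↦ ∑ i, c i * x i := by
      funext x; exact hRapp x
    rw [e1, covariance_fun_sum_left (fun i ↦ (hmem i).const_mul (c i)) (hmem y)]
    rw [← hc y hy]
    refine Finset.sum_congr rfl (fun i _ ↦ ?_)
    rw [covariance_const_mul_left, hP, covariance_eval_multivariateGaussian hΓ]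
  -- independence
  have hjoint : HasGaussianLaw (fun x : EuclideanSpace ℝ ι ↦
      (fun _ : Unit ↦ R x, fun j : E ↦ x (j : ι))) P := by
    have := hid.map ((ContinuousLinearMap.pi (fun _ : Unit ↦ R)).prod
      (ContinuousLinearMap.pi (fun j : E ↦
        (EuclideanSpace.proj (j : ι) : EuclideanSpace ℝ ι →L[ℝ] ℝ))))
    exact this
  have hind := HasGaussianLaw.indepFun_of_covariance_eval
    (X := fun (_ : Unit) (x : EuclideanSpace ℝ ι) ↦ R x)
    (Y := fun (j : E) (x : EuclideanSpace ℝ ι) ↦ x (j : ι)) hjoint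
    (fun _ j ↦ hcov j j.2)
  -- A is a function of the restriction
  let ext0 : (E → ℝ) → EuclideanSpace ℝ ι := fun z ↦
    WithLp.toLp 2 (fun i ↦ if h : i ∈ E then z ⟨i, h⟩ else 0)
  have hext : Measurable ext0 := by
    refine (WithLp.measurable_toLp 2 _).comp ?_
    refine measurable_pi_lambda _ (fun i ↦ ?_)
    by_cases h : i ∈ E
    · simp only [h, dite_true]
      exact measurable_pi_apply _
    · simp only [h, dite_false]
      exact measurable_const
  let B : Set (E → ℝ) := ext0 ⁻¹' A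
  have hB : MeasurableSet B := hext hA
  have hAB : A = (fun (x : EuclideanSpace ℝ ι) (j : E) ↦ x (j : ι)) ⁻¹' B := by
    ext x
    constructor
    · intro hx
      refine hstop x _ hx (fun i hi ↦ ?_)
      simp [ext0, hi]
    · intro hx
      refine hstop _ x hx (fun i hi ↦ ?_)
      simp [ext0, hi]
  -- the half space
  have hC : MeasurableSet {w : Unit → ℝ | 0 ≤ w ()} :=
    measurableSet_le measurable_const (measurable_pi_apply _)
  have hmul := hind.measure_inter_preimage_eq_mul _ _ hC hB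
  have hCpre : (fun (x : EuclideanSpace ℝ ι) (_ : Unit) ↦ R x) ⁻¹' {w : Unit → ℝ | 0 ≤ w ()} =
      {x | 0 ≤ ∑ i, c i * x i} := by
    ext x
    simp [hRapp]
  rw [hCpre, ← hAB] at hmul
  -- half
  have hhalf : 1 ≤ 2 * P {x | 0 ≤ ∑ i, c i * x i} := by
    have h1 : P {x | 0 ≤ ∑ i, c i * x i} = (P.map (fun x ↦ R x)) (Set.Ici (0 : ℝ)) := by
      rw [Measure.map_apply (by fun_prop) measurableSet_Ici]
      congr 1
      ext x
      simp [hRapp]
    have h2 : P[fun x ↦ R x] = 0 := by
      have h3 : ∫ x, R x ∂P = R (∫ x, x ∂P) :=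
        ContinuousLinearMap.integral_comp_comm R hid.integrable
      rw [h3, hP, integral_id_multivariateGaussian, map_zero]
    rw [h1, hRlaw.map_eq_gaussianReal, h2]
    exact one_le_two_mul_gaussianReal_Ici _
  calc P A = 1 * P A := (one_mul _).symm
    _ ≤ (2 * P {x | 0 ≤ ∑ i, c i * x i}) * P A := by gcongr
    _ = 2 * P (A ∩ {x | 0 ≤ ∑ i, c i * x i}) := by
      rw [Set.inter_comm, hmul, mul_assoc]

/-- Stopping bound. -/
theorem _root_.H941.stopping_bound {ι : Type} [Fintype ι] [DecidableEq ι] (Γ : Matrix ι ι ℝ) (hΓ : Γ.PosSemidef)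
    (ρ : ι → ℝ) (m : Finset ι → ι → ℝ) (τ : EuclideanSpace ℝ ι → Option (Finset ι))
    (hm : ∀ E : Finset ι, (∃ x, τ x = some E) → ∀ y ∈ E, ∑ i, ρ i * Γ i y = ∑ v ∈ E, m E v * Γ v y)
    (hτ : ∀ E, MeasurableSet {x | τ x = some E})
    (hstop : ∀ x x' : EuclideanSpace ℝ ι, ∀ E, τ x = some E → (∀ i ∈ E, x i = x' i) → τ x' = some E)
    (a : ℝ) (ha : ∀ x E, τ x = some E → a ≤ ∑ v ∈ E, m E v * x v) :
    multivariateGaussian (0 : EuclideanSpace ℝ ι) Γ {x | ∃ E, τ x = some E} ≤
      2 * multivariateGaussian (0 : EuclideanSpace ℝ ι) Γ {x | a ≤ ∑ i, ρ i * x i} := by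
  set P := multivariateGaussian (0 : EuclideanSpace ℝ ι) Γ with hP
  have hS : MeasurableSet {x : EuclideanSpace ℝ ι | a ≤ ∑ i, ρ i * x i} :=
    measurableSet_le measurable_const (by fun_prop)
  have key : ∀ E : Finset ι, P {x | τ x = some E} ≤
      2 * P ({x | τ x = some E} ∩ {x | a ≤ ∑ i, ρ i * x i}) := by
    intro E
    by_cases hE : ∃ x, τ x = some E
    · have h1 := one_set Γ hΓ E (fun i ↦ ρ i - if i ∈ E then m E i else 0)
        (by
          intro y hy
          have h2 := hm E hE y hy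
          simp only [sub_mul, Finset.sum_sub_distrib, ite_mul, zero_mul, Finset.sum_ite_mem,
            Finset.univ_inter]
          rw [h2, sub_self])
        {x | τ x = some E} (hτ E)
        (fun x x' hx hxx' ↦ hstop x x' E hx hxx')
      refine h1.trans ?_
      gcongr 2 * ?_
      refine measure_mono ?_
      rintro x ⟨hx1, hx2⟩
      refine ⟨hx1, ?_⟩
      have h3 := ha x E hx1
      simp only [Set.mem_ofPred_eq, sub_mul, Finset.sum_sub_distrib, ite_mul, zero_mul,
        Finset.sum_ite_mem, Finset.univ_inter] at hx2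
      show a ≤ ∑ i, ρ i * x i
      linarith
    · have : {x | τ x = some E} = ∅ := by
        ext x
        simp only [Set.mem_ofPred_eq, Set.mem_empty_iff_false, iff_false]
        exact fun h ↦ hE ⟨x, h⟩
      rw [this]
      simp
  have hun : {x | ∃ E, τ x = some E} = ⋃ E : Finset ι, {x | τ x = some E} := by
    ext x; simp
  calc P {x | ∃ E, τ x = some E} ≤ ∑ E : Finset ι, P {x | τ x = some E} := by
        rw [hun]
        exact measure_iUnion_fintype_le _ _
    _ ≤ ∑ E : Finset ι, 2 * P ({x | τ x = some E} ∩ {x | a ≤ ∑ i, ρ i * x i}) :=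
        Finset.sum_le_sum (fun E _ ↦ key E)
    _ = 2 * ∑ E : Finset ι, P ({x | τ x = some E} ∩ {x | a ≤ ∑ i, ρ i * x i}) := by
        rw [Finset.mul_sum]
    _ = 2 * P (⋃ E : Finset ι, ({x | τ x = some E} ∩ {x | a ≤ ∑ i, ρ i * x i})) := by
        rw [measure_iUnion (fun E F hEF ↦ ?_) (fun E ↦ (hτ E).inter hS), tsum_fintype]
        refine Set.disjoint_left.mpr ?_
        rintro x ⟨hx1, _⟩ ⟨hx2, _⟩
        apply hEF
        have h4 : some E = some F := by
          rw [← (show τ x = some E from hx1), ← (show τ x = some F from hx2)]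
        exact Option.some.inj h4
    _ ≤ 2 * P {x | a ≤ ∑ i, ρ i * x i} := by
        gcongr 2 * ?_
        refine measure_mono ?_
        refine Set.iUnion_subset (fun E ↦ Set.inter_subset_right)

end H941.stopping_bound
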