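import Pool.Agent.H941.Defs3
import Pool.Agent.H941.A3
import Pool.Agent.H941.A4
import Pool.Agent.H941.A5
import Pool.Agent.H941.B.expl_bound
import Pool.Agent.H941.B.expl_facts
import Pool.Agent.H941.B.gauss_tail
import Pool.Agent.H941.B.green_decomp
import Pool.Agent.H941.B.row_le
import Pool.Agent.H941.B.stopping_bound
import Pool.Agent.H941.G2

open MeasureTheory ProbabilityTheory

namespace H941.rect_cross

/-- value of the vector at a lattice point, extended by zero -/
noncomputable def fx (D : Finset (ℤ × ℤ)) (x : EuclideanSpace ℝ D) (v : ℤ × ℤ) : ℝ :=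
  if h : v ∈ D then x ⟨v, h⟩ else 0

/-- the truth values of the vertices, coded by a finite set -/
def opS (D : Finset (ℤ × ℤ)) (s : Finset D) (v : ℤ × ℤ) : Prop := ∀ h : v ∈ D, (⟨v, h⟩ : D) ∈ s

/-- the set of coordinates at most `lam` -/
noncomputable def gx (D : Finset (ℤ × ℤ)) (lam : ℝ) (x : EuclideanSpace ℝ D) : Finset D :=
  Finset.univ.filter (fun i => x i ≤ lam)

/-- the averaged observable after `k` steps of the exploration -/
noncomputable def Bs (D R K0 Q : Finset (ℤ × ℤ)) (s : Finset D) (k : ℕ) (x : EuclideanSpace ℝ D) : ℝ :=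
  ∑ v ∈ (expl R K0 (opS D s) k).1,
    (∑ z ∈ Q, (1 / (Q.card : ℝ)) * hit D (expl R K0 (opS D s) k).1 z v) * fx D x v

open Classical in
/-- the stopping time -/
noncomputable def tau (D R K0 Q : Finset (ℤ × ℤ)) (lam a : ℝ) (T : ℕ) (x : EuclideanSpace ℝ D) :
    Option (Finset D) :=
  if h : ∃ k, k < T ∧ a ≤ Bs D R K0 Q (gx D lam x) k x then
    some ((expl R K0 (opS D (gx D lam x)) (Nat.find h)).1.subtype (· ∈ D)) else none

theorem op_iff (D : Finset (ℤ × ℤ)) (lam : ℝ) (h0 : 0 ≤ lam) (x : EuclideanSpace ℝ D) (v : ℤ × ℤ) :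
    fx D x v ≤ lam ↔ opS D (gx D lam x) v := by
  unfold fx opS gx
  by_cases h : v ∈ D
  · simp [h]
  · simp [h, h0]

theorem op_eq (D : Finset (ℤ × ℤ)) (lam : ℝ) (h0 : 0 ≤ lam) (x : EuclideanSpace ℝ D) :
    (fun v => fx D x v ≤ lam) = opS D (gx D lam x) := by
  funext v
  exact propext (op_iff D lam h0 x v)

theorem fx_meas (D : Finset (ℤ × ℤ)) (v : ℤ × ℤ) :
    Measurable (fun x : EuclideanSpace ℝ D => fx D x v) := by
  unfold fx
  by_cases h : v ∈ D
  · simp only [h, dite_true]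
    fun_prop
  · simp only [h, dite_false]
    exact measurable_const

theorem Bs_meas (D R K0 Q : Finset (ℤ × ℤ)) (s : Finset D) (k : ℕ) :
    Measurable (fun x : EuclideanSpace ℝ D => Bs D R K0 Q s k x) := by
  unfold Bs
  refine Finset.measurable_sum _ (fun v _ => ?_)
  exact (fx_meas D v).const_mul _

theorem gx_meas (D : Finset (ℤ × ℤ)) (lam : ℝ) (s : Finset D) :
    MeasurableSet {x : EuclideanSpace ℝ D | gx D lam x = s} := by
  have : {x : EuclideanSpace ℝ D | gx D lam x = s} = ⋂ i : D, {x | (x i ≤ lam) ↔ i ∈ s} := by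
    ext x
    simp only [Set.mem_ofPred_eq, Set.mem_iInter, gx, Finset.ext_iff, Finset.mem_filter,
      Finset.mem_univ, true_and]
  rw [this]
  refine MeasurableSet.iInter (fun i => ?_)
  by_cases hi : i ∈ s
  · simp only [hi, iff_true]
    exact measurableSet_le (by fun_prop) measurable_const
  · simp only [hi, iff_false, not_le]
    exact measurableSet_lt measurable_const (by fun_prop)

theorem tau_eq_some (D R K0 Q : Finset (ℤ × ℤ)) (lam a : ℝ) (T : ℕ) (x : EuclideanSpace ℝ D)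
    (E : Finset D) : tau D R K0 Q lam a T x = some E ↔
      ∃ k, k < T ∧ a ≤ Bs D R K0 Q (gx D lam x) k x ∧
        (∀ i < k, ¬ a ≤ Bs D R K0 Q (gx D lam x) i x) ∧
        (expl R K0 (opS D (gx D lam x)) k).1.subtype (· ∈ D) = E := by
  classical
  unfold tau
  constructor
  · intro h
    split_ifs at h with h1
    refine ⟨Nat.find h1, (Nat.find_spec h1).1, (Nat.find_spec h1).2, ?_, by simpa using h⟩
    intro i hi h2
    exact Nat.find_min h1 hi ⟨lt_trans hi (Nat.find_spec h1).1, h2⟩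
  · rintro ⟨k, hk, hk1, hk2, hk3⟩
    have h1 : ∃ k, k < T ∧ a ≤ Bs D R K0 Q (gx D lam x) k x := ⟨k, hk, hk1⟩
    have h2 : Nat.find h1 = k := by
      rw [Nat.find_eq_iff]
      exact ⟨⟨hk, hk1⟩, fun i hi h3 => hk2 i hi h3.2⟩
    rw [dif_pos h1, h2, hk3]

theorem tau_meas (D R K0 Q : Finset (ℤ × ℤ)) (lam a : ℝ) (T : ℕ) (E : Finset D) :
    MeasurableSet {x : EuclideanSpace ℝ D | tau D R K0 Q lam a T x = some E} := by
  have : {x : EuclideanSpace ℝ D | tau D R K0 Q lam a T x = some E} =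
      ⋃ s : Finset D, ({x | gx D lam x = s} ∩ {x | ∃ k, k < T ∧ a ≤ Bs D R K0 Q s k x ∧
        (∀ i < k, ¬ a ≤ Bs D R K0 Q s i x) ∧
        (expl R K0 (opS D s) k).1.subtype (· ∈ D) = E}) := by
    ext x
    simp only [Set.mem_ofPred_eq, Set.mem_iUnion, Set.mem_inter_iff, tau_eq_some]
    constructor
    · intro h
      exact ⟨_, rfl, h⟩
    · rintro ⟨s, hs, h⟩
      rw [hs]
      exact h
  rw [this]
  refine MeasurableSet.iUnion (fun s => (gx_meas D lam s).inter ?_)
  have h2 : ∀ k, MeasurableSet {x : EuclideanSpace ℝ D | a ≤ Bs D R K0 Q s k x} := fun k =>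
    measurableSet_le measurable_const (Bs_meas D R K0 Q s k)
  have h3 : {x : EuclideanSpace ℝ D | ∃ k, k < T ∧ a ≤ Bs D R K0 Q s k x ∧
        (∀ i < k, ¬ a ≤ Bs D R K0 Q s i x) ∧
        (expl R K0 (opS D s) k).1.subtype (· ∈ D) = E} =
      ⋃ k : ℕ, ({x | k < T} ∩ ({x | a ≤ Bs D R K0 Q s k x} ∩
        ((⋂ i : ℕ, ⋂ _ : i < k, {x | a ≤ Bs D R K0 Q s i x}ᶜ) ∩
          {x | (expl R K0 (opS D s) k).1.subtype (· ∈ D) = E}))) := by
    ext x
    simp only [Set.mem_ofPred_eq, Set.mem_iUnion, Set.mem_inter_iff, Set.mem_iInter,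
      Set.mem_compl_iff]
  rw [h3]
  refine MeasurableSet.iUnion (fun k => (MeasurableSet.const _).inter ((h2 k).inter
    ((MeasurableSet.iInter fun i => MeasurableSet.iInter fun _ => (h2 i).compl).inter
      (MeasurableSet.const _))))

theorem tau_stop (D R K0 Q : Finset (ℤ × ℤ)) (hK0 : K0 ⊆ R) (lam a : ℝ)
    (T : ℕ) (x x' : EuclideanSpace ℝ D) (E : Finset D)
    (h : tau D R K0 Q lam a T x = some E) (hx : ∀ i ∈ E, x i = x' i) :
    tau D R K0 Q lam a T x' = some E := by
  rw [tau_eq_some] at h ⊢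
  obtain ⟨k, hk, hk1, hk2, hk3⟩ := h
  have hf := expl_facts R K0 hK0 (opS D (gx D lam x))
  obtain ⟨f1, f2, f3, f4, f5, f6, f7⟩ := hf
  have hmono : ∀ i j, i ≤ j → (expl R K0 (opS D (gx D lam x)) i).1 ⊆
      (expl R K0 (opS D (gx D lam x)) j).1 := by
    intro i j hij
    induction hij with
    | refl => exact subset_rfl
    | step _ ih => exact ih.trans (f1 _).2.2
  have hmem : ∀ v ∈ (expl R K0 (opS D (gx D lam x)) k).1, ∀ h : v ∈ D, (⟨v, h⟩ : D) ∈ E := by
    intro v hv h
    rw [← hk3]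
    simpa using hv
  have hop : ∀ v ∈ (expl R K0 (opS D (gx D lam x)) k).1,
      (opS D (gx D lam x) v ↔ opS D (gx D lam x') v) := by
    intro v hv
    unfold opS
    refine forall_congr' (fun h => ?_)
    have := hx _ (hmem v hv h)
    simp only [gx, Finset.mem_filter, Finset.mem_univ, true_and, this]
  have hE := f7 _ k hop
  have hfx : ∀ v ∈ (expl R K0 (opS D (gx D lam x)) k).1, fx D x v = fx D x' v := by
    intro v hv
    unfold fx
    split_ifs with h
    · exact hx _ (hmem v hv h)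
    · rfl
  have hB : ∀ i ≤ k, Bs D R K0 Q (gx D lam x') i x' = Bs D R K0 Q (gx D lam x) i x := by
    intro i hi
    unfold Bs
    rw [hE i hi]
    refine Finset.sum_congr rfl (fun v hv => ?_)
    rw [hfx v (hmono i k hi hv)]
  refine ⟨k, hk, ?_, ?_, ?_⟩
  · rw [hB k le_rfl]; exact hk1
  · intro i hi
    rw [hB i hi.le]; exact hk2 i hi
  · rw [hE k le_rfl]; exact hk3

theorem card_Qs (w : ℕ) (hw : 10 ≤ w) : (w : ℝ) ^ 2 / 5 ≤ ((Qs w).card : ℝ) := by
  have h1 : ((Qs w).card : ℤ) = w * ((w : ℤ) / 2 - (w : ℤ) / 4) := by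
    unfold Qs rect
    rw [Finset.card_product, Int.card_Icc, Int.card_Icc]
    push_cast
    rw [Int.toNat_of_nonneg (by omega), Int.toNat_of_nonneg (by omega)]
    ring
  have h2 : (w : ℤ) ≤ 5 * ((w : ℤ) / 2 - (w : ℤ) / 4) := by omega
  have h3 : ((w : ℤ) : ℝ) ≤ 5 * (((w : ℤ) / 2 - (w : ℤ) / 4 : ℤ) : ℝ) := by exact_mod_cast h2
  have h4 : ((Qs w).card : ℝ) = (w : ℝ) * (((w : ℤ) / 2 - (w : ℤ) / 4 : ℤ) : ℝ) := by
    exact_mod_cast h1
  rw [h4]
  have h5 : (0 : ℝ) ≤ (w : ℝ) := Nat.cast_nonneg w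
  have h6 : ((w : ℤ) : ℝ) = (w : ℝ) := by norm_cast
  rw [h6] at h3
  nlinarith

theorem var_Qs (w : ℕ) (hw : 10 ≤ w) :
    ∑ x ∈ Qs w, ∑ y ∈ Qs w, (1 / ((Qs w).card : ℝ)) *
      ((1 / 4) * green (rect 1 (7 * w - 1) 1 (w - 1)) x y) * (1 / ((Qs w).card : ℝ)) ≤ 5 / 8 := by
  set D := rect 1 (7 * (w : ℤ) - 1) 1 ((w : ℤ) - 1) with hD
  obtain ⟨g1, g2, g3, g4, g5, g6⟩ := green_basic D
  have hc := card_Qs w hw
  have hw0 : (0 : ℝ) < (w : ℝ) ^ 2 := by positivity
  have hcpos : (0 : ℝ) < ((Qs w).card : ℝ) := by linarith [div_pos hw0 (by norm_num : (0:ℝ) < 5)]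
  have hsub : Qs w ⊆ D := by
    intro z hz
    simp only [hD, Qs, rect, Finset.mem_product, Finset.mem_Icc] at hz ⊢
    omega
  have h1 : ∀ x ∈ Qs w, ∑ y ∈ Qs w, green D x y ≤ (w : ℝ) ^ 2 / 2 := by
    intro x hx
    have h2 : ∑ y ∈ Qs w, green D x y ≤ ∑ y ∈ D, green D x y :=
      Finset.sum_le_sum_of_subset_of_nonneg hsub (fun i _ _ => g1 x i)
    have h3 := row_le D 0 w (by
      intro z hz
      simp only [hD, rect, Finset.mem_product, Finset.mem_Icc] at hz
      omega) x (hsub hx)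
    push_cast at h3
    nlinarith [sq_nonneg ((x.2 : ℝ) - (w : ℝ) / 2)]
  have h2 : ∀ x ∈ Qs w, ∑ y ∈ Qs w, (1 / ((Qs w).card : ℝ)) *
      ((1 / 4) * green D x y) * (1 / ((Qs w).card : ℝ)) ≤
      (1 / ((Qs w).card : ℝ)) * (1 / ((Qs w).card : ℝ)) * ((w : ℝ) ^ 2 / 8) := by
    intro x hx
    have : ∑ y ∈ Qs w, (1 / ((Qs w).card : ℝ)) *
      ((1 / 4) * green D x y) * (1 / ((Qs w).card : ℝ)) =
      (1 / ((Qs w).card : ℝ)) * (1 / ((Qs w).card : ℝ)) * ((1 / 4) * ∑ y ∈ Qs w, green D x y) := by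
      rw [Finset.mul_sum, Finset.mul_sum]
      exact Finset.sum_congr rfl (fun y _ => by ring)
    rw [this]
    refine mul_le_mul_of_nonneg_left ?_ (by positivity)
    have := h1 x hx
    linarith
  calc _ ≤ ∑ x ∈ Qs w, (1 / ((Qs w).card : ℝ)) * (1 / ((Qs w).card : ℝ)) * ((w : ℝ) ^ 2 / 8) :=
        Finset.sum_le_sum h2
    _ = (w : ℝ) ^ 2 / (8 * ((Qs w).card : ℝ)) := by
        rw [Finset.sum_const, nsmul_eq_mul]
        field_simp
    _ ≤ 5 / 8 := by
        rw [div_le_div_iff₀ (by positivity) (by norm_num)]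
        linarith

theorem _root_.H941.rect_cross (w d : ℕ) (lam M : ℝ) (hd : 1 ≤ d) (hlam : 1 ≤ lam) (hM : 1 ≤ M)
    (hw : 10 ^ 12 * (lam + M) * d ≤ lam * w) {Ω : Type*} [MeasurableSpace Ω] (P : Measure Ω)
    (φ : ℤ × ℤ → Ω → ℝ) (hφ : IsField (rect 1 (7 * w - 1) 1 (w - 1)) φ P) :
    P {ω | ¬ ∃ (u v : ℤ × ℤ) (p : grid.Walk u v), u.1 = w ∧ v.1 = 5 * w ∧
        (∀ z ∈ p.support, z ∈ rect w (5 * w) d (w - d) ∧ φ z ω ≤ lam) ∧
        (p.support.length : ℝ) ≤ 10 ^ 10 * w * (lam + M) / lam} ≤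
      ENNReal.ofReal (2 * Real.exp (-(lam ^ 2 / 10 ^ 17)) +
        14 * (w : ℝ) ^ 2 * Real.exp (-(M ^ 2 / Real.log (1 + 98 * (w : ℝ) ^ 2)))) := by
  classical
  -- sizes
  have hd' : (1 : ℝ) ≤ (d : ℝ) := by exact_mod_cast hd
  have hwbig : (10 : ℝ) ^ 12 ≤ (w : ℝ) := by
    have h1 : 10 ^ 12 * (lam + M) * 1 ≤ 10 ^ 12 * (lam + M) * d := by
      apply mul_le_mul_of_nonneg_left hd'; positivity
    have h2 : lam * 10 ^ 12 ≤ lam * w := by nlinarith
    exact le_of_mul_le_mul_left h2 (by linarith)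
  have hw10 : 10 ≤ w := by
    have : (10 : ℝ) ≤ (w : ℝ) := by linarith
    exact_mod_cast this
  have hdw : (d : ℝ) ≤ w := by
    have h1 : lam * d ≤ 10 ^ 12 * (lam + M) * d := by
      apply mul_le_mul_of_nonneg_right _ (by positivity); nlinarith
    exact le_of_mul_le_mul_left (h1.trans hw) (by linarith)
  have hdw' : d ≤ w := by exact_mod_cast hdw
  set D := rect 1 (7 * (w : ℤ) - 1) 1 ((w : ℤ) - 1) with hD
  set R := rect (w : ℤ) (5 * w) d (w - d) with hR
  set K0 := rect (w : ℤ) w d (w - d) with hK0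
  set c : ℝ := 1 / ((Qs w).card : ℝ) with hc
  set a : ℝ := lam / (2 * 10 ^ 8) with ha
  set T : ℕ := ⌈2 * 10 ^ 9 * w * (lam + M) / lam⌉₊ with hT
  have hRD : R ⊆ D := by
    intro z hz
    simp only [hD, hR, rect, Finset.mem_product, Finset.mem_Icc] at hz ⊢
    omega
  have hKR : K0 ⊆ R := by
    intro z hz
    simp only [hK0, hR, rect, Finset.mem_product, Finset.mem_Icc] at hz ⊢
    omega
  have hQD : Qs w ⊆ D := by
    intro z hz
    simp only [hD, Qs, rect, Finset.mem_product, Finset.mem_Icc] at hz ⊢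
    omega
  have hQR : ∀ z ∈ Qs w, z ∉ R := by
    intro z hz hz'
    simp only [hR, Qs, rect, Finset.mem_product, Finset.mem_Icc] at hz hz'
    omega
  obtain ⟨g1, g2, g3, g4, g5, g6⟩ := green_basic D
  have hcpos : (0 : ℝ) < ((Qs w).card : ℝ) := by
    have := card_Qs w hw10
    have h2 : (0 : ℝ) < (w : ℝ) ^ 2 := by positivity
    linarith
  -- the covariance matrix
  set Γ : Matrix D D ℝ := Matrix.of fun i j => (1 / 4) * green D i j with hΓ
  have hpsd : Γ.PosSemidef := by
    rw [Matrix.posSemidef_iff_dotProduct_mulVec]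
    refine ⟨?_, ?_⟩
    · ext i j
      simp [hΓ, g3 i.1 j.1]
    · intro x
      have h1 := green_psd ∅ D (Finset.empty_subset _) (fun v => if h : v ∈ D then x ⟨v, h⟩ else 0)
      have h2 : ∀ u v, green (∅ : Finset (ℤ × ℤ)) u v = 0 := fun u v =>
        (green_basic ∅).2.1 u v (Or.inl (Finset.notMem_empty u))
      simp only [h2, sub_zero] at h1
      have h3 : star x ⬝ᵥ Γ.mulVec x = (1 / 4) * ∑ i ∈ D, ∑ j ∈ D,
          (if h : i ∈ D then x ⟨i, h⟩ else 0) * green D i j *
            (if h : j ∈ D then x ⟨j, h⟩ else 0) := by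
        rw [← Finset.sum_coe_sort D]
        simp only [dotProduct, Matrix.mulVec, Finset.mul_sum, Pi.star_apply, star_trivial, hΓ,
          Matrix.of_apply]
        refine Finset.sum_congr rfl (fun i _ => ?_)
        rw [← Finset.sum_coe_sort D]
        refine Finset.sum_congr rfl (fun j _ => ?_)
        simp
        ring
      rw [h3]
      exact mul_nonneg (by norm_num) h1
  -- law
  obtain ⟨hXm, hXl⟩ := law_of_cov P (fun (i : D) ω => φ i ω) hφ.gaussian
    (fun i => hφ.mean_zero i i.2) Γ hpsd (fun i j => hφ.cov i i.2 j j.2)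
  set X : Ω → EuclideanSpace ℝ D := fun ω => WithLp.toLp 2 (fun i : D => φ i ω) with hX
  set μ := multivariateGaussian (0 : EuclideanSpace ℝ D) Γ with hμ
  -- the bad event
  set B : Set (EuclideanSpace ℝ D) := {x | ¬ ∃ (u v : ℤ × ℤ) (p : grid.Walk u v), u.1 = w ∧
        v.1 = 5 * w ∧ (∀ z ∈ p.support, z ∈ R ∧ fx D x z ≤ lam) ∧
        (p.support.length : ℝ) ≤ 10 ^ 10 * w * (lam + M) / lam} with hB
  have hstep1 : P {ω | ¬ ∃ (u v : ℤ × ℤ) (p : grid.Walk u v), u.1 = w ∧ v.1 = 5 * w ∧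
        (∀ z ∈ p.support, z ∈ R ∧ φ z ω ≤ lam) ∧
        (p.support.length : ℝ) ≤ 10 ^ 10 * w * (lam + M) / lam} ≤ μ B := by
    have h1 : {ω | ¬ ∃ (u v : ℤ × ℤ) (p : grid.Walk u v), u.1 = w ∧ v.1 = 5 * w ∧
        (∀ z ∈ p.support, z ∈ R ∧ φ z ω ≤ lam) ∧
        (p.support.length : ℝ) ≤ 10 ^ 10 * w * (lam + M) / lam} = X ⁻¹' B := by
      ext ω
      simp only [hB, Set.mem_preimage, Set.mem_ofPred_eq]
      refine not_congr (exists_congr fun u => exists_congr fun v => exists_congr fun p =>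
        and_congr_right fun _ => and_congr_right fun _ => and_congr_left fun _ =>
          forall_congr' fun z => forall_congr' fun _ => and_congr_right fun hz => ?_)
      have : fx D (X ω) z = φ z ω := by
        simp [fx, hRD hz, hX]
      rw [this]
    rw [h1, ← hXl]
    exact MeasureTheory.Measure.le_map_apply hXm B
  refine hstep1.trans ?_
  -- inclusion
  set τ := tau D R K0 (Qs w) lam a T with hτ
  have hincl : B ⊆ {x | ∃ E, τ x = some E} ∪
      ⋃ i ∈ (Finset.univ : Finset D), ({x | M ≤ x i} ∪ {x | M ≤ - x i}) := by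
    intro x hx
    by_contra hcon
    simp only [Set.mem_union, Set.mem_iUnion, not_or, not_exists, Set.mem_ofPred_eq,
      Finset.mem_univ, exists_true_left] at hcon
    obtain ⟨hcon1, hcon2⟩ := hcon
    have hno : ¬ ∃ k, k < T ∧ a ≤ Bs D R K0 (Qs w) (gx D lam x) k x := by
      intro h
      apply hcon1 _
      rw [hτ]
      unfold tau
      rw [dif_pos h]
    rw [hB, Set.mem_ofPred_eq] at hx
    apply hno
    have hlam0 : 0 ≤ lam := by linarith
    have := expl_bound w d lam M hd hlam hM hw (fx D x) (by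
      intro v hv
      have hv' : v ∈ D := hv
      have h1 := hcon2 ⟨v, hv'⟩
      simp only [fx, hv', dite_true]
      rw [abs_le]
      constructor <;> linarith [h1.1, h1.2]) T (Nat.le_ceil _) (by
      intro k hk v hv hv5
      apply hx
      obtain ⟨f1, f2, f3, f4, f5, f6, f7⟩ := expl_facts R K0 hKR (fun v => fx D x v ≤ lam)
      obtain ⟨u, hu, p, hp, hp2⟩ := f6 k v hv
      refine ⟨u, v, p, ?_, hv5, ?_, ?_⟩
      · simp only [hK0, rect, Finset.mem_product, Finset.mem_Icc] at hu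
        omega
      · intro z hz
        exact ⟨(f1 k).2.1 (hp2 z hz).1, (hp2 z hz).2⟩
      · rw [SimpleGraph.Walk.length_support, hp]
        have hk' : (k : ℝ) ≤ (T : ℝ) := by exact_mod_cast hk
        have hTl : (T : ℝ) < 2 * 10 ^ 9 * w * (lam + M) / lam + 1 :=
          Nat.ceil_lt_add_one (by positivity)
        have hY : 1 ≤ (w : ℝ) * (lam + M) / lam := by
          rw [le_div_iff₀ (by linarith)]
          nlinarith
        have e1 : 2 * 10 ^ 9 * (w : ℝ) * (lam + M) / lam = 2 * 10 ^ 9 * ((w : ℝ) * (lam + M) / lam) := by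
          ring
        have e2 : 10 ^ 10 * (w : ℝ) * (lam + M) / lam = 10 ^ 10 * ((w : ℝ) * (lam + M) / lam) := by
          ring
        rw [e1] at hTl
        rw [e2]
        push_cast
        linarith)
    obtain ⟨k, hk, hk2⟩ := this
    refine ⟨k, hk, ?_⟩
    unfold Bs
    rw [← op_eq D lam hlam0 x]
    exact hk2
  -- the stopping part
  have hm : ∀ E : Finset D, (∃ x, τ x = some E) → ∃ K : Finset (ℤ × ℤ), K ⊆ R ∧
      K = E.map (Function.Embedding.subtype _) := by
    rintro E ⟨x, hx⟩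
    rw [hτ, tau_eq_some] at hx
    obtain ⟨k, hk, hk1, hk2, hk3⟩ := hx
    obtain ⟨f1, f2, f3, f4, f5, f6, f7⟩ := expl_facts R K0 hKR (opS D (gx D lam x))
    refine ⟨(expl R K0 (opS D (gx D lam x)) k).1, (f1 k).2.1, ?_⟩
    rw [← hk3]
    exact (Finset.subtype_map_of_mem (fun v hv => hRD ((f1 k).2.1 hv))).symm
  set ρ : D → ℝ := fun i => if (i : ℤ × ℤ) ∈ Qs w then c else 0 with hρ
  set m : Finset D → D → ℝ := fun E v => ∑ z ∈ Qs w, c *
    hit D (E.map (Function.Embedding.subtype _)) z v with hmdef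
  have hsumρ : ∀ F : ℤ × ℤ → ℝ, ∑ i : D, ρ i * F i = ∑ z ∈ Qs w, c * F z := by
    intro F
    rw [Finset.sum_coe_sort D (fun z => (if z ∈ Qs w then c else 0) * F z)]
    rw [← Finset.sum_filter_add_sum_filter_not D (fun z => z ∈ Qs w)]
    have h1 : D.filter (fun z => z ∈ Qs w) = Qs w := by
      rw [Finset.filter_mem_eq_inter, Finset.inter_eq_right.mpr hQD]
    have h2 : ∑ x ∈ D with x ∉ Qs w, (if x ∈ Qs w then c else 0) * F x = 0 :=
      Finset.sum_eq_zero (fun x hx => by simp [(Finset.mem_filter.mp hx).2])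
    rw [h1, h2, add_zero]
    exact Finset.sum_congr rfl (fun z hz => by simp [hz])
  have hstop := stopping_bound Γ hpsd ρ m τ (by
      intro E hE y hy
      obtain ⟨K, hKR', hK⟩ := hm E hE
      have hyK : (y : ℤ × ℤ) ∈ K := by
        rw [hK]
        exact Finset.mem_map_of_mem _ hy
      have h1 : ∑ i, ρ i * Γ i y = ∑ z ∈ Qs w, c * ((1 / 4) * green D z y) :=
        hsumρ (fun z => (1 / 4) * green D z y)
      rw [h1]
      have h2 : ∀ z ∈ Qs w, green D z y = ∑ v ∈ K, hit D K z v * green D v y := by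
        intro z hz
        have h3 := green_decomp D K z y (fun h => hQR z hz (hKR' h))
        have h4 : green (D \ K) z y = 0 :=
          (green_basic (D \ K)).2.1 z y (Or.inr (fun h => (Finset.mem_sdiff.mp h).2 hyK))
        rw [h3, h4, zero_add]
      have h5 : ∑ v ∈ E, m E v * Γ v y =
          ∑ v ∈ K, (∑ z ∈ Qs w, c * hit D K z v) * ((1 / 4) * green D v y) := by
        rw [hK, Finset.sum_map]
        rfl
      rw [h5]
      rw [Finset.sum_congr rfl (fun z hz => by rw [h2 z hz] : ∀ z ∈ Qs w,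
        c * ((1 / 4) * green D z y) = c * ((1 / 4) * ∑ v ∈ K, hit D K z v * green D v y))]
      simp only [Finset.mul_sum, Finset.sum_mul]
      rw [Finset.sum_comm]
      refine Finset.sum_congr rfl (fun v _ => Finset.sum_congr rfl (fun z _ => ?_))
      ring) (tau_meas D R K0 (Qs w) lam a T)
    (fun x x' E h1 h2 => tau_stop D R K0 (Qs w) hKR lam a T x x' E h1 h2) a (by
      intro x E hx
      obtain ⟨K, hKR', hK⟩ := hm E ⟨x, hx⟩
      rw [hτ, tau_eq_some] at hx
      obtain ⟨k, hk, hk1, hk2, hk3⟩ := hx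
      refine hk1.trans (le_of_eq ?_)
      have hsub : (expl R K0 (opS D (gx D lam x)) k).1 = K := by
        rw [hK, ← hk3]
        refine (Finset.subtype_map_of_mem (fun v hv => hRD ?_)).symm
        exact ((expl_facts R K0 hKR (opS D (gx D lam x))).1 k).2.1 hv
      unfold Bs
      rw [hsub]
      conv_lhs => rw [hK]
      rw [Finset.sum_map]
      refine Finset.sum_congr rfl (fun v _ => ?_)
      simp only [hmdef, ← hK, Function.Embedding.coe_subtype]
      simp [fx, hc])
  have hvar : ∑ i, ∑ j, ρ i * Γ i j * ρ j ≤ 5 / 8 := by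
    have h1 : ∀ i : D, ∑ j, ρ i * Γ i j * ρ j = ρ i * ∑ z ∈ Qs w, c * ((1 / 4) * green D i z) := by
      intro i
      rw [← hsumρ (fun z => (1 / 4) * green D i z), Finset.mul_sum]
      refine Finset.sum_congr rfl (fun j _ => ?_)
      simp only [hΓ, Matrix.of_apply]
      ring
    rw [Finset.sum_congr rfl (fun i _ => h1 i)]
    rw [hsumρ (fun x => ∑ z ∈ Qs w, c * ((1 / 4) * green D x z))]
    refine le_trans (le_of_eq ?_) (var_Qs w hw10)
    refine Finset.sum_congr rfl (fun x _ => ?_)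
    rw [Finset.mul_sum]
    refine Finset.sum_congr rfl (fun y _ => ?_)
    rw [← hc]
    ring
  have hg1 := gauss_tail Γ hpsd ρ (5 / 8) a (by norm_num) (by positivity) hvar
  have hpart1 : μ {x | ∃ E, τ x = some E} ≤ ENNReal.ofReal (2 * Real.exp (-(lam ^ 2 / 10 ^ 17))) := by
    refine hstop.trans ?_
    refine (mul_le_mul_right hg1 2).trans ?_
    rw [ENNReal.ofReal_mul (by norm_num)]
    simp only [ENNReal.ofReal_ofNat]
    refine mul_le_mul_right (ENNReal.ofReal_le_ofReal (Real.exp_le_exp.mpr (neg_le_neg ?_))) 2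
    rw [ha]
    have : (lam / (2 * 10 ^ 8)) ^ 2 / (2 * (5 / 8)) = lam ^ 2 / (5 * 10 ^ 16) := by ring
    rw [this]
    exact div_le_div_of_nonneg_left (by positivity) (by norm_num) (by norm_num)
  -- the maximum part
  have hlog : 0 < Real.log (1 + 98 * (w : ℝ) ^ 2) := Real.log_pos (by
    have : 0 < (w : ℝ) ^ 2 := by positivity
    linarith)
  have hlog2 : (1 : ℝ) / 2 ≤ Real.log 2 := by
    have := Real.log_two_gt_d9
    linarith
  have hpt : ∀ (i : D) (s : ℝ), (s = 1 ∨ s = -1) →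
      μ {x | M ≤ s * x i} ≤ ENNReal.ofReal (Real.exp (-(M ^ 2 / Real.log (1 + 98 * (w : ℝ) ^ 2)))) := by
    intro i s hs
    have hs2 : s * s = 1 := by rcases hs with h | h <;> rw [h] <;> norm_num
    have h1 := gauss_tail Γ hpsd (fun j => if j = i then s else 0)
      (Real.log (1 + 98 * (w : ℝ) ^ 2) / 2) M (by positivity) (by linarith) (by
        have h2 : ∑ k : D, ∑ j : D, (if k = i then s else 0) * Γ k j * (if j = i then s else 0) =
            s * Γ i i * s := by
          rw [Finset.sum_eq_single i]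
          · rw [Finset.sum_eq_single i]
            · simp
            · intro b _ hb; simp [hb]
            · intro h; exact absurd (Finset.mem_univ _) h
          · intro b _ hb
            refine Finset.sum_eq_zero (fun j _ => ?_)
            simp [hb]
          · intro h; exact absurd (Finset.mem_univ _) h
        rw [h2]
        have h3 := green_log D (7 * w) (by omega) (by
          intro x hx y hy
          simp only [hD, rect, Finset.mem_product, Finset.mem_Icc] at hx hy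
          push_cast
          constructor <;> rw [abs_lt] <;> constructor <;> omega) i
        have h4 : (1 : ℝ) + 2 * ((7 * w : ℕ) : ℝ) ^ 2 = 1 + 98 * (w : ℝ) ^ 2 := by
          push_cast; ring
        rw [h4] at h3
        have h5 : Real.log (1 + 98 * (w : ℝ) ^ 2) / Real.log 2 ≤ 2 * Real.log (1 + 98 * (w : ℝ) ^ 2) := by
          rw [div_le_iff₀ (by linarith)]
          nlinarith
        have h6 : s * Γ i i * s = (s * s) * ((1 / 4) * green D i i) := by
          simp only [hΓ, Matrix.of_apply]; ring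
        rw [h6, hs2]
        linarith)
    have h2 : {x : EuclideanSpace ℝ D | M ≤ s * x i} =
        {x | M ≤ ∑ j, (if j = i then s else 0) * x j} := by
      ext x
      simp
    rw [h2]
    refine h1.trans (le_of_eq ?_)
    congr 4
    ring
  have hcardD : (D.card : ℝ) ≤ 7 * (w : ℝ) ^ 2 := by
    have h1 : (D.card : ℤ) = (7 * (w : ℤ) - 1) * ((w : ℤ) - 1) := by
      simp only [hD, rect]
      rw [Finset.card_product, Int.card_Icc, Int.card_Icc]
      push_cast
      rw [Int.toNat_of_nonneg (by omega), Int.toNat_of_nonneg (by omega)]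
      ring
    have h2 : (D.card : ℝ) = (7 * (w : ℝ) - 1) * ((w : ℝ) - 1) := by exact_mod_cast h1
    rw [h2]
    nlinarith
  have hpart2 : μ (⋃ i ∈ (Finset.univ : Finset D), ({x | M ≤ x i} ∪ {x | M ≤ - x i})) ≤
      ENNReal.ofReal (14 * (w : ℝ) ^ 2 * Real.exp (-(M ^ 2 / Real.log (1 + 98 * (w : ℝ) ^ 2)))) := by
    refine (measure_biUnion_finset_le _ _).trans ?_
    have h1 : ∀ i ∈ (Finset.univ : Finset D), μ ({x | M ≤ x i} ∪ {x | M ≤ - x i}) ≤
        ENNReal.ofReal (2 * Real.exp (-(M ^ 2 / Real.log (1 + 98 * (w : ℝ) ^ 2)))) := by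
      intro i _
      refine (measure_union_le _ _).trans ?_
      have e1 := hpt i 1 (Or.inl rfl)
      have e2 := hpt i (-1) (Or.inr rfl)
      simp only [one_mul, neg_mul] at e1 e2
      refine (add_le_add e1 e2).trans ?_
      rw [← ENNReal.ofReal_add (by positivity) (by positivity)]
      exact ENNReal.ofReal_le_ofReal (by linarith)
    refine (Finset.sum_le_sum h1).trans ?_
    rw [Finset.sum_const, nsmul_eq_mul]
    rw [Finset.card_univ, Fintype.card_coe]
    rw [← ENNReal.ofReal_natCast, ← ENNReal.ofReal_mul (by positivity)]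
    refine ENNReal.ofReal_le_ofReal ?_
    have := Real.exp_pos (-(M ^ 2 / Real.log (1 + 98 * (w : ℝ) ^ 2)))
    nlinarith
  refine (measure_mono hincl).trans ((measure_union_le _ _).trans ?_)
  rw [ENNReal.ofReal_add (by positivity) (by positivity)]
  exact add_le_add hpart1 hpart2

end H941.rect_cross
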