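import Pool.Agent.H941.Defs3
import Pool.Agent.H941.A2
import Pool.Agent.H941.A3

open MeasureTheory ProbabilityTheory

namespace H941.green_log_off

theorem _root_.H941.green_log_off (D : Finset (ℤ × ℤ)) (N : ℕ) (hN : 1 ≤ N)
    (hD : ∀ x ∈ D, ∀ y ∈ D, |x.1 - y.1| < (N : ℤ) ∧ |x.2 - y.2| < (N : ℤ)) (x v : ℤ × ℤ)
    (hx : x ∈ D) (hv : v ∈ D) :
    green D x v ≤ (Real.log (1 + 2 * (N : ℝ) ^ 2) -
      Real.log (1 + ((x.1 : ℝ) - v.1) ^ 2 + ((x.2 : ℝ) - v.2) ^ 2)) / Real.log 2 := by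
  have hsum : ∀ (x : ℤ × ℤ) (f : ℤ × ℤ → ℝ), ∑ z ∈ nbrs x, f z =
      f (x.1 + 1, x.2) + (f (x.1 - 1, x.2) + (f (x.1, x.2 + 1) + f (x.1, x.2 - 1))) := by
    intro x f
    unfold nbrs
    rw [Finset.sum_insert, Finset.sum_insert, Finset.sum_insert, Finset.sum_singleton]
    · simp only [Finset.mem_singleton, Prod.mk.injEq]
      omega
    · simp only [Finset.mem_insert, Finset.mem_singleton, Prod.mk.injEq]
      omega
    · simp only [Finset.mem_insert, Finset.mem_singleton, Prod.mk.injEq]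
      omega
  have hlog2 : 0 < Real.log 2 := Real.log_pos (by norm_num)
  set L : ℝ := Real.log (1 + 2 * (N : ℝ) ^ 2) with hL
  set W : ℝ → ℝ → ℝ := fun X Y => 1 + X ^ 2 + Y ^ 2 with hW
  have hWpos : ∀ X Y, 0 < W X Y := by
    intro X Y
    show 0 < 1 + X ^ 2 + Y ^ 2
    positivity
  have hN0 : (0 : ℝ) ≤ N := Nat.cast_nonneg N
  have hWle : ∀ X Y : ℝ, |X| ≤ N → |Y| ≤ N → Real.log (W X Y) ≤ L := by
    intro X Y hX hY
    refine Real.log_le_log (hWpos X Y) ?_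
    show 1 + X ^ 2 + Y ^ 2 ≤ 1 + 2 * (N : ℝ) ^ 2
    have h1 : X ^ 2 ≤ (N : ℝ) ^ 2 := by
      rw [← sq_abs X]
      exact pow_le_pow_left₀ (abs_nonneg _) hX 2
    have h2 : Y ^ 2 ≤ (N : ℝ) ^ 2 := by
      rw [← sq_abs Y]
      exact pow_le_pow_left₀ (abs_nonneg _) hY 2
    linarith
  set G : ℝ → ℝ → ℝ := fun X Y => max 0 ((L - Real.log (W X Y)) / Real.log 2) with hG
  have hGeq : ∀ X Y : ℝ, |X| ≤ N → |Y| ≤ N → G X Y = (L - Real.log (W X Y)) / Real.log 2 := by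
    intro X Y hX hY
    refine max_eq_right ?_
    have := hWle X Y hX hY
    exact div_nonneg (by linarith) hlog2.le
  have hsuper : ∀ X Y : ℝ, 4 * Real.log (W X Y) ≤ Real.log (W (X + 1) Y) + Real.log (W (X - 1) Y) +
      Real.log (W X (Y + 1)) + Real.log (W X (Y - 1)) := by
    intro X Y
    rw [← Real.log_mul (hWpos _ _).ne' (hWpos _ _).ne',
      ← Real.log_mul (mul_pos (hWpos _ _) (hWpos _ _)).ne' (hWpos _ _).ne',
      ← Real.log_mul (mul_pos (mul_pos (hWpos _ _) (hWpos _ _)) (hWpos _ _)).ne' (hWpos _ _).ne']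
    have h1 : (4 : ℝ) * Real.log (W X Y) = Real.log (W X Y ^ 4) := by
      rw [Real.log_pow]
      norm_num
    rw [h1]
    refine Real.log_le_log (pow_pos (hWpos X Y) 4) ?_
    show (1 + X ^ 2 + Y ^ 2) ^ 4 ≤ (1 + (X + 1) ^ 2 + Y ^ 2) * (1 + (X - 1) ^ 2 + Y ^ 2) *
      (1 + X ^ 2 + (Y + 1) ^ 2) * (1 + X ^ 2 + (Y - 1) ^ 2)
    have h2 : (1 + (X + 1) ^ 2 + Y ^ 2) * (1 + (X - 1) ^ 2 + Y ^ 2) *
        (1 + X ^ 2 + (Y + 1) ^ 2) * (1 + X ^ 2 + (Y - 1) ^ 2) =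
        (1 + X ^ 2 + Y ^ 2) ^ 4 + 2 * (1 + X ^ 2 + Y ^ 2) ^ 2 + 8 * (1 + X ^ 2 + Y ^ 2) + 5 +
          16 * (X * Y) ^ 2 := by ring
    rw [h2]
    have h3 : 0 ≤ 1 + X ^ 2 + Y ^ 2 := by positivity
    have h4 : 0 ≤ (X * Y) ^ 2 := sq_nonneg _
    have h5 : 0 ≤ (1 + X ^ 2 + Y ^ 2) ^ 2 := sq_nonneg _
    linarith
  have hcoord : ∀ z ∈ D, |(z.1 : ℝ) - v.1| + 1 ≤ N ∧ |(z.2 : ℝ) - v.2| + 1 ≤ N := by
    intro z hz
    obtain ⟨h1, h2⟩ := hD z hz v hv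
    have h1' : |z.1 - v.1| + 1 ≤ (N : ℤ) := by omega
    have h2' : |z.2 - v.2| + 1 ≤ (N : ℤ) := by omega
    constructor
    · exact_mod_cast h1'
    · exact_mod_cast h2'
  have habs1 : ∀ a : ℝ, |a + 1| ≤ |a| + 1 := fun a => by
    have := abs_add_le a 1
    rwa [abs_one] at this
  have habs2 : ∀ a : ℝ, |a - 1| ≤ |a| + 1 := fun a => by
    have := abs_sub a 1
    rwa [abs_one] at this
  have key := (green_le D).2 (fun z => if z = v then 1 else 0)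
    (fun z => G ((z.1 : ℝ) - v.1) ((z.2 : ℝ) - v.2))
    (by
      intro z _
      split_ifs <;> norm_num)
    (by
      intro z
      exact le_max_left _ _)
    (by
      intro z hz
      obtain ⟨h1, h2⟩ := hcoord z hz
      have e1 : |(z.1 : ℝ) - v.1| ≤ N := by linarith
      have e2 : |(z.2 : ℝ) - v.2| ≤ N := by linarith
      have e3 := habs1 ((z.1 : ℝ) - v.1)
      have e4 := habs2 ((z.1 : ℝ) - v.1)
      have e5 := habs1 ((z.2 : ℝ) - v.2)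
      have e6 := habs2 ((z.2 : ℝ) - v.2)
      rw [hsum]
      push_cast
      have q1 : ((z.1 : ℝ) + 1 - v.1) = ((z.1 : ℝ) - v.1) + 1 := by ring
      have q2 : ((z.1 : ℝ) - 1 - v.1) = ((z.1 : ℝ) - v.1) - 1 := by ring
      have q3 : ((z.2 : ℝ) + 1 - v.2) = ((z.2 : ℝ) - v.2) + 1 := by ring
      have q4 : ((z.2 : ℝ) - 1 - v.2) = ((z.2 : ℝ) - v.2) - 1 := by ring
      rw [q1, q2, q3, q4, hGeq _ _ (by linarith) e2, hGeq _ _ (by linarith) e2,
        hGeq _ _ e1 (by linarith), hGeq _ _ e1 (by linarith), hGeq _ _ e1 e2]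
      have hs := hsuper ((z.1 : ℝ) - v.1) ((z.2 : ℝ) - v.2)
      by_cases hzv : z = v
      · rw [if_pos hzv, hzv, sub_self, sub_self]
        have w0 : W 0 0 = 1 := by show 1 + (0 : ℝ) ^ 2 + 0 ^ 2 = 1; norm_num
        have w1 : W (0 + 1) 0 = 2 := by show 1 + (0 + 1 : ℝ) ^ 2 + 0 ^ 2 = 2; norm_num
        have w2 : W (0 - 1) 0 = 2 := by show 1 + (0 - 1 : ℝ) ^ 2 + 0 ^ 2 = 2; norm_num
        have w3 : W 0 (0 + 1) = 2 := by show 1 + (0 : ℝ) ^ 2 + (0 + 1) ^ 2 = 2; norm_num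
        have w4 : W 0 (0 - 1) = 2 := by show 1 + (0 : ℝ) ^ 2 + (0 - 1) ^ 2 = 2; norm_num
        rw [w0, w1, w2, w3, w4, Real.log_one]
        refine le_of_eq ?_
        field_simp
        ring
      · rw [if_neg hzv]
        rw [← sub_nonneg]
        have e7 : (L - Real.log (W ((z.1 : ℝ) - v.1) ((z.2 : ℝ) - v.2))) / Real.log 2 -
            (0 + 1 / 4 * ((L - Real.log (W ((z.1 : ℝ) - v.1 + 1) ((z.2 : ℝ) - v.2))) / Real.log 2 +
              ((L - Real.log (W ((z.1 : ℝ) - v.1 - 1) ((z.2 : ℝ) - v.2))) / Real.log 2 +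
              ((L - Real.log (W ((z.1 : ℝ) - v.1) ((z.2 : ℝ) - v.2 + 1))) / Real.log 2 +
              (L - Real.log (W ((z.1 : ℝ) - v.1) ((z.2 : ℝ) - v.2 - 1))) / Real.log 2)))) =
            (Real.log (W ((z.1 : ℝ) - v.1 + 1) ((z.2 : ℝ) - v.2)) +
              Real.log (W ((z.1 : ℝ) - v.1 - 1) ((z.2 : ℝ) - v.2)) +
              Real.log (W ((z.1 : ℝ) - v.1) ((z.2 : ℝ) - v.2 + 1)) +
              Real.log (W ((z.1 : ℝ) - v.1) ((z.2 : ℝ) - v.2 - 1)) -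
              4 * Real.log (W ((z.1 : ℝ) - v.1) ((z.2 : ℝ) - v.2))) / (4 * Real.log 2) := by
          field_simp
          ring
        rw [e7]
        exact div_nonneg (by linarith) (by positivity))
    x
  have hx' := hcoord x hx
  rw [hGeq _ _ (by linarith [hx'.1]) (by linarith [hx'.2])] at key
  refine le_trans (le_of_eq ?_) key
  simp [hv]

end H941.green_log_off
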