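import Pool.Agent.H941.Defs3
import Pool.Agent.H941.A3
import Pool.Agent.H941.B.GG_facts
import Pool.Agent.H941.B.green_log_off
import Pool.Agent.H941.K2
import Pool.Agent.H941.K4
import Pool.Agent.H941.K6
import Pool.Agent.H941.S3
import Pool.Agent.H941.T3

open MeasureTheory ProbabilityTheory

namespace H941.bottom_count

theorem bcR3_bd {s : ℝ} (hs : 0 < s) : (∀ i, 0 < bd s i) ∧ (∀ i, bd s i ≤ s) ∧ Antitone (bd s) ∧
    bd s 0 = s := by
  refine ⟨fun i => ?_, fun i => ?_, fun i j hij => ?_, ?_⟩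
  · unfold bd; positivity
  · unfold bd
    have h1 : ((i : ℝ) + 1) ^ (-(3 / 5) : ℝ) ≤ 1 :=
      Real.rpow_le_one_of_one_le_of_nonpos (by linarith [Nat.cast_nonneg (α := ℝ) i]) (by norm_num)
    nlinarith
  · unfold bd
    refine mul_le_mul_of_nonneg_left ?_ hs.le
    refine Real.rpow_le_rpow_of_nonpos (by positivity) ?_ (by norm_num)
    have : (i : ℝ) ≤ j := by exact_mod_cast hij
    linarith
  · unfold bd
    simp

theorem bcR3_dl {s ℓ : ℝ} (hs : 0 < s) (hs8 : s ≤ 1 / 8) (hℓ : 0 ≤ ℓ) :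
    dl s ℓ 0 = ℓ ∧ (∀ i, 0 ≤ dl s ℓ i) ∧ ∀ i, dl s ℓ i ≤ ℓ := by
  obtain ⟨h1, h2, -, -⟩ := bcR3_bd hs
  have hf : ∀ k, 0 ≤ Real.sqrt (1 + 4 * bd s k ^ 2) / 64 ∧ Real.sqrt (1 + 4 * bd s k ^ 2) / 64 ≤ 1 := by
    intro k
    refine ⟨by positivity, ?_⟩
    rw [div_le_one (by norm_num)]
    rw [Real.sqrt_le_left (by norm_num)]
    have := h1 k
    have := h2 k
    nlinarith
  refine ⟨by simp [dl], fun i => ?_, fun i => ?_⟩
  · unfold dl
    exact mul_nonneg hℓ (Finset.prod_nonneg fun k _ => (hf k).1)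
  · unfold dl
    have : ∏ k ∈ Finset.range i, (Real.sqrt (1 + 4 * bd s k ^ 2) / 64) ≤ 1 :=
      Finset.prod_le_one (fun k _ => (hf k).1) fun k _ => (hf k).2
    nlinarith

/-- at least one level -/
theorem bcR3_pos {L n : ℕ} (hL : 1000 ≤ L)
    (h : (L : ℝ) ≤ 6 * n + 8 * (Real.log L / Real.log 2) + 7) : 0 < n := by
  rcases Nat.eq_zero_or_pos n with hn | hn
  · exfalso
    subst hn
    have hL' : (1000 : ℝ) ≤ L := by exact_mod_cast hL
    have hl2 : (0.6931471803 : ℝ) < Real.log 2 := Real.log_two_gt_d9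
    have h1 : Real.log L ≤ 10 * Real.log 2 + ((L : ℝ) / 1024 - 1) := by
      have h2 : Real.log ((L : ℝ) / 1024) ≤ (L : ℝ) / 1024 - 1 := Real.log_le_sub_one_of_pos (by positivity)
      rw [Real.log_div (by positivity) (by norm_num)] at h2
      have h3 : Real.log 1024 = 10 * Real.log 2 := by
        rw [show (1024 : ℝ) = 2 ^ 10 by norm_num, Real.log_pow]
        norm_num
      linarith
    have h4 : Real.log L / Real.log 2 ≤ 10 + ((L : ℝ) / 1024) / 0.69 := by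
      rw [div_le_iff₀ (by linarith)]
      have h5 : (L : ℝ) / 1024 ≤ ((L : ℝ) / 1024) / 0.69 * Real.log 2 := by
        rw [div_mul_eq_mul_div, le_div_iff₀ (by norm_num)]
        nlinarith
      linarith
    have h6 : (L : ℝ) / 1024 / 0.69 ≤ L * 0.0142 := by
      rw [div_div, div_le_iff₀ (by norm_num)]
      nlinarith
    push_cast at h
    linarith
  · exact hn

/-- the bound for the variance -/
theorem bcR3_var {N : ℕ} (hN : 1 ≤ N)
    (h : (Nat.log 2 N : ℝ) ≤ 6 * nl N + 8 * (Real.log (Nat.log 2 N) / Real.log 2) + 7) :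
    1 / 4 * (Real.log (1 + 2 * (N : ℝ) ^ 2) / Real.log 2) ≤ v0 N (nl N) := by
  have hl2 : 0 < Real.log 2 := Real.log_pos (by norm_num)
  have h1 : N < 2 ^ (Nat.log 2 N + 1) := Nat.lt_pow_succ_log_self (by norm_num) N
  have h2 : 1 + 2 * N ^ 2 ≤ 2 ^ (2 * Nat.log 2 N + 3) := by
    have h3 : N ^ 2 < 2 ^ (2 * Nat.log 2 N + 2) := by
      calc N ^ 2 < (2 ^ (Nat.log 2 N + 1)) ^ 2 := Nat.pow_lt_pow_left h1 (by norm_num)
        _ = 2 ^ (2 * Nat.log 2 N + 2) := by rw [← pow_mul]; congr 1; ring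
    have h4 : 2 ^ (2 * Nat.log 2 N + 3) = 2 * 2 ^ (2 * Nat.log 2 N + 2) := by rw [pow_succ]; ring
    omega
  have h2' : 1 + 2 * (N : ℝ) ^ 2 ≤ 2 ^ (2 * Nat.log 2 N + 3) := by exact_mod_cast h2
  have h3 : Real.log (1 + 2 * (N : ℝ) ^ 2) ≤ (2 * Nat.log 2 N + 3) * Real.log 2 := by
    have := Real.log_le_log (by positivity) h2'
    rw [Real.log_pow] at this
    push_cast at this
    exact this
  have h4 : Real.log (1 + 2 * (N : ℝ) ^ 2) / Real.log 2 ≤ 2 * Nat.log 2 N + 3 := by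
    rw [div_le_iff₀ hl2]; exact h3
  unfold v0
  linarith

theorem bcR3_prod {θ c1 : ℝ} (hc : 0 ≤ c1) (hθ : 0 ≤ θ) {n m : ℕ} (hm : m ≤ n) {b : ℕ → ℝ}
    (hb : ∀ i, c1 * (θ * Real.sqrt (b i)) ≤ 1) :
    ∏ i ∈ Finset.range n, (48 + 16 * Real.exp (-(c1 * (θ * Real.sqrt (b i))))) ≤
      64 ^ n * Real.exp (-(c1 * θ / 8) * ∑ k ∈ Finset.range m, Real.sqrt (b k)) := by
  have h1 : ∀ z : ℝ, 0 ≤ z → z ≤ 1 → 48 + 16 * Real.exp (-z) ≤ 64 * Real.exp (-(z / 8)) := by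
    intro z hz hz1
    have e1 : Real.exp (-z) ≤ 1 - z + z ^ 2 / 2 := by
      have e2 : 1 + z + z ^ 2 / 2 ≤ Real.exp z := Real.quadratic_le_exp_of_nonneg hz
      rw [Real.exp_neg, inv_le_comm₀ (Real.exp_pos z) (by nlinarith)]
      refine le_trans ?_ e2
      rw [inv_le_iff_one_le_mul₀ (by nlinarith)]
      nlinarith [sq_nonneg (z ^ 2)]
    have e3 : 1 - z / 8 ≤ Real.exp (-(z / 8)) := by
      have := Real.add_one_le_exp (-(z / 8))
      linarith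
    nlinarith
  have h2 : ∏ i ∈ Finset.range n, (48 + 16 * Real.exp (-(c1 * (θ * Real.sqrt (b i))))) ≤
      ∏ i ∈ Finset.range n, (64 * Real.exp (-((c1 * (θ * Real.sqrt (b i))) / 8))) := by
    refine Finset.prod_le_prod (fun i _ => by positivity) fun i _ => h1 _ (by positivity) (hb i)
  refine h2.trans ?_
  rw [Finset.prod_mul_distrib, Finset.prod_const, Finset.card_range, ← Real.exp_sum]
  refine mul_le_mul_of_nonneg_left ?_ (by positivity)
  apply Real.exp_le_exp.2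
  have h3 : ∑ k ∈ Finset.range m, Real.sqrt (b k) ≤ ∑ k ∈ Finset.range n, Real.sqrt (b k) :=
    Finset.sum_le_sum_of_subset_of_nonneg (Finset.range_mono hm) fun _ _ _ => Real.sqrt_nonneg _
  have h4 : ∑ i ∈ Finset.range n, -((c1 * (θ * Real.sqrt (b i))) / 8) =
      -(c1 * θ / 8) * ∑ k ∈ Finset.range n, Real.sqrt (b k) := by
    rw [Finset.mul_sum]
    refine Finset.sum_congr rfl fun i _ => ?_
    ring
  rw [h4]
  have h5 : 0 ≤ c1 * θ / 8 := by positivity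
  nlinarith

theorem bcR3_box {N : ℕ} (hN : 1 ≤ N) : ∀ x ∈ box N, ∀ y ∈ box N,
    |x.1 - y.1| < (N : ℤ) ∧ |x.2 - y.2| < (N : ℤ) := by
  intro x hx y hy
  simp only [box, Finset.mem_product, Finset.mem_Icc] at hx hy
  obtain ⟨⟨a1, a2⟩, a3, a4⟩ := hx
  obtain ⟨⟨b1, b2⟩, b3, b4⟩ := hy
  have h1 : ((N / 2 : ℕ) : ℤ) + (((N - 1) / 2 : ℕ) : ℤ) < N := by omega
  constructor <;> rw [abs_lt] <;> constructor <;> omega

theorem _root_.H941.bottom_count : ∃ c1 : ℝ, 0 < c1 ∧ c1 ≤ 1 ∧ ∀ (s : ℝ) (ℓ N : ℕ), Par s ℓ N →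
    1 ≤ ⌈dl s ℓ (nl N)⌉₊ →
    (Nat.log 2 N : ℝ) ≤ 6 * nl N + 8 * (Real.log (Nat.log 2 N) / Real.log 2) + 7 →
    ∀ (lam θ B : ℝ), 0 ≤ θ → θ ≤ 1 → 0 < B →
      PP N s ℓ {ω | B ≤ (((leaves (bd s) ⌈dl s ℓ (nl N)⌉₊ (oracle (WW N s ℓ) ω) (nl N) 0 (-5, (ℓ : ℂ))).countP (fun v =>
          decide (2 * lam < extf (box N) (∑ k, ω k) v)) : ℕ) : ℝ)} ≤
      ENNReal.ofReal (B⁻¹ * (64 ^ nl N * (2 * ⌈dl s ℓ (nl N)⌉₊) *
        Real.exp (-(θ * (2 * lam)) + θ ^ 2 * v0 N (nl N) / 2 -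
          (c1 * θ / 8) * ∑ k ∈ Finset.range (nl N - mg N), Real.sqrt (bd s k)))) := by
  classical
  obtain ⟨c1, hc1, hc1', hlf⟩ := level_factor
  refine ⟨c1, hc1, hc1', ?_⟩
  intro s ℓ N h hq hLg lam θ B hθ hθ1 hB
  obtain ⟨hbd0, hbds, hanti, hbdz⟩ := bcR3_bd h.s_pos
  have hbd8 : ∀ i, bd s i ≤ 1 / 8 := fun i => (hbds i).trans h.s_le
  obtain ⟨hdlz, hdl0, hdlle⟩ := bcR3_dl h.s_pos h.s_le (Nat.cast_nonneg (α := ℝ) ℓ)
  have hnpos : 0 < nl N := bcR3_pos h.lg hLg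
  have hN : 1 ≤ N := by
    rcases Nat.eq_zero_or_pos N with h0 | h0
    · have := h.lg
      rw [h0] at this
      simp at this
    · exact h0
  have hsl : 96 ≤ s * (ℓ : ℝ) := by
    have := h.big 0 hnpos
    rwa [hbdz, hdlz] at this
  have hnorm : ‖((-5, (ℓ : ℂ)) : ℂ × ℂ).2‖ = (ℓ : ℝ) := by simp
  have hprod : ∀ k, ‖((-5, (ℓ : ℂ)) : ℂ × ℂ).2‖ *
      ∏ i ∈ Finset.range k, (Real.sqrt (1 + 4 * bd s (0 + i) ^ 2) / 64) = dl s ℓ k := by
    intro k
    rw [hnorm]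
    simp only [zero_add, dl]
  have hs0 : ‖((-5, (ℓ : ℂ)) : ℂ × ℂ).2‖ *
      ∏ i ∈ Finset.range (nl N), (Real.sqrt (1 + 4 * bd s (0 + i) ^ 2) / 64) ≤
        (⌈dl s ℓ (nl N)⌉₊ : ℝ) := by
    rw [hprod]
    exact Nat.le_ceil _
  -- points near the initial segment are in the bulk
  have hnear : ∀ (v : ℤ × ℤ) (τ : ℝ), 0 ≤ τ → τ ≤ 1 →
      ‖toC v - (((-5, (ℓ : ℂ)) : ℂ × ℂ).1 + (τ : ℂ) * ((-5, (ℓ : ℂ)) : ℂ × ℂ).2)‖ ≤
        3 + (60 / 59) * (bd s 0 * ‖((-5, (ℓ : ℂ)) : ℂ × ℂ).2‖) → v ∈ box N := by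
    intro v τ h0 h1 h2
    rw [hbdz, hnorm] at h2
    have := h.bulk v τ h0 h1 (h2.trans (by linarith))
    exact (Finset.mem_sdiff.1 this).1
  have hleaf : ∀ σ, ∀ v ∈ leaves (bd s) ⌈dl s ℓ (nl N)⌉₊ σ (nl N) 0 (-5, (ℓ : ℂ)), v ∈ box N := by
    intro σ v hv
    obtain ⟨τ, h0, h1, h2⟩ := leaves_near (bd s) (fun j => (hbd0 j).le) hbd8 hanti _ hq σ (nl N) 0
      (-5, (ℓ : ℂ)) hs0 v hv
    exact hnear v τ h0 h1 h2
  have hne : Nonempty ↥(box N) := by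
    refine ⟨⟨(0, 0), ?_⟩⟩
    simp only [box, Finset.mem_product, Finset.mem_Icc]
    constructor <;> constructor <;> omega
  obtain ⟨e0⟩ := hne
  obtain ⟨hpsd, hsum, -⟩ := GG_facts s ℓ N h
  have hcore := core_probability (ι := ↥(box N)) (nl N) (fun j => GG N s ℓ j) (fun j => hpsd j) (bd s)
    ⌈dl s ℓ (nl N)⌉₊ (finalVerts_length _) (-5, (ℓ : ℂ)) (WW N s ℓ)
    (fun v => if hv : v ∈ box N then ⟨v, hv⟩ else e0) θ
    (1 / 4 * (Real.log (1 + 2 * (N : ℝ) ^ 2) / Real.log 2)) (-(2 * lam)) B hθ hB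
    (fun k => c1 * (θ * Real.sqrt (bd s k))) ?_ ?_
  · -- comparison of the events and the bounds
    have hev : {ω : Fin (nl N + 1) → EuclideanSpace ℝ ↥(box N) |
        B ≤ (((leaves (bd s) ⌈dl s ℓ (nl N)⌉₊ (oracle (WW N s ℓ) ω) (nl N) 0 (-5, (ℓ : ℂ))).countP
          (fun v => decide (2 * lam < extf (box N) (∑ k, ω k) v)) : ℕ) : ℝ)} =
        {ω : Fin (nl N + 1) → EuclideanSpace ℝ ↥(box N) |
          B ≤ (((leaves (bd s) ⌈dl s ℓ (nl N)⌉₊ (oracle (WW N s ℓ) ω) (nl N) 0 (-5, (ℓ : ℂ))).filter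
            (fun v => decide (-(-(2 * lam)) < ∑ j, ω j (if hv : v ∈ box N then ⟨v, hv⟩ else e0)))).length
              : ℝ)} := by
      ext ω
      simp only [Set.mem_ofPred_eq]
      rw [← List.countP_eq_length_filter]
      have : (leaves (bd s) ⌈dl s ℓ (nl N)⌉₊ (oracle (WW N s ℓ) ω) (nl N) 0 (-5, (ℓ : ℂ))).countP
          (fun v => decide (2 * lam < extf (box N) (∑ k, ω k) v)) =
          (leaves (bd s) ⌈dl s ℓ (nl N)⌉₊ (oracle (WW N s ℓ) ω) (nl N) 0 (-5, (ℓ : ℂ))).countP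
          (fun v => decide (-(-(2 * lam)) < ∑ j, ω j (if hv : v ∈ box N then ⟨v, hv⟩ else e0))) := by
        refine List.countP_congr fun v hv => ?_
        have hvb := hleaf _ v hv
        simp only [decide_eq_true_eq, neg_neg, extf, dif_pos hvb]
        rw [show (∑ k, ω k : EuclideanSpace ℝ ↥(box N)) ⟨v, hvb⟩ = ∑ k, (ω k) ⟨v, hvb⟩ by
          simp]
      rw [this]
    rw [hev]
    refine le_trans hcore (ENNReal.ofReal_le_ofReal ?_)
    have hp := bcR3_prod (θ := θ) (c1 := c1) hc1.le hθ (n := nl N) (m := nl N - mg N) (Nat.sub_le _ _)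
      (b := bd s) (fun i => by
        have e1 : Real.sqrt (bd s i) ≤ 1 := by
          exact Real.sqrt_le_iff.2 ⟨by norm_num, by linarith [hbd8 i]⟩
        have e2 : θ * Real.sqrt (bd s i) ≤ 1 := by
          have := Real.sqrt_nonneg (bd s i)
          nlinarith
        have e3 : 0 ≤ θ * Real.sqrt (bd s i) := mul_nonneg hθ (Real.sqrt_nonneg _)
        nlinarith)
    have hv := bcR3_var hN hLg
    have he : Real.exp (θ ^ 2 * (1 / 4 * (Real.log (1 + 2 * (N : ℝ) ^ 2) / Real.log 2)) / 2) ≤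
        Real.exp (θ ^ 2 * v0 N (nl N) / 2) := by
      apply Real.exp_le_exp.2
      have := sq_nonneg θ
      nlinarith
    have hq0 : (0 : ℝ) ≤ 2 * (⌈dl s ℓ (nl N)⌉₊ : ℝ) := by positivity
    have hR : B⁻¹ * (64 ^ nl N * (2 * (⌈dl s ℓ (nl N)⌉₊ : ℝ)) *
        Real.exp (-(θ * (2 * lam)) + θ ^ 2 * v0 N (nl N) / 2 -
          (c1 * θ / 8) * ∑ k ∈ Finset.range (nl N - mg N), Real.sqrt (bd s k))) =
        B⁻¹ * Real.exp (θ * -(2 * lam)) * (2 * (⌈dl s ℓ (nl N)⌉₊ : ℝ) *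
          (64 ^ nl N * Real.exp (-(c1 * θ / 8) * ∑ k ∈ Finset.range (nl N - mg N), Real.sqrt (bd s k))) *
            Real.exp (θ ^ 2 * v0 N (nl N) / 2)) := by
      have : -(θ * (2 * lam)) + θ ^ 2 * v0 N (nl N) / 2 -
          (c1 * θ / 8) * ∑ k ∈ Finset.range (nl N - mg N), Real.sqrt (bd s k) =
          θ * -(2 * lam) + (-(c1 * θ / 8) * ∑ k ∈ Finset.range (nl N - mg N), Real.sqrt (bd s k) +
            θ ^ 2 * v0 N (nl N) / 2) := by ring
      rw [this, Real.exp_add, Real.exp_add]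
      ring
    rw [hR]
    refine mul_le_mul_of_nonneg_left ?_ (by positivity)
    refine mul_le_mul (mul_le_mul_of_nonneg_left hp hq0) he (Real.exp_pos _).le (by positivity)
  · -- the variances
    intro i
    have e1 : ∑ j : Fin (nl N + 1), GG N s ℓ j i i = (1 / 4) * green (box N \ innerBdry N) i i := by
      have := congrFun (congrFun hsum i) i
      rw [Matrix.sum_apply] at this
      exact this
    rw [e1]
    refine mul_le_mul_of_nonneg_left ?_ (by norm_num)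
    by_cases hi : (i : ℤ × ℤ) ∈ box N \ innerBdry N
    · have := green_log_off (box N \ innerBdry N) N hN (fun x hx y hy => bcR3_box hN x
        (Finset.mem_sdiff.1 hx).1 y (Finset.mem_sdiff.1 hy).1) i i hi hi
      simpa using this
    · have e2 : green (box N \ innerBdry N) i i = 0 :=
        (green_basic (box N \ innerBdry N)).2.1 i i (Or.inl hi)
      rw [e2]
      apply div_nonneg (Real.log_nonneg (by nlinarith [sq_nonneg (N : ℝ)])) (Real.log_nonneg (by norm_num))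
  · -- the factors
    intro c v hv i
    obtain ⟨f1, f2, f3, f4⟩ := pst_facts (bd s) (fun j => (hbd0 j).le) hbd8 hanti _ hq c (nl N) 0
      (-5, (ℓ : ℂ)) hs0
    have hvb : v ∈ box N := by
      obtain ⟨τ, h0, h1, h2⟩ := f2 0 (Nat.zero_le _) v hv
      exact hnear v τ h0 h1 h2
    obtain ⟨τ, t, t1, t2, t3, t4, t5, t6⟩ := f3 i i.2 v hv
    have hlen : ‖(pst (bd s) 0 (-5, (ℓ : ℂ)) c i).2‖ = dl s ℓ i := by
      rw [f1, hprod]
    have hbig := h.big i i.2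
    obtain ⟨g1, g2, g3⟩ := h.lc_fac i i.2
    have hδ := hbd0 i
    have key := hlf (box N \ innerBdry N) (box N) Finset.sdiff_subset (2 * lc s ℓ 0) (lc s ℓ i)
      ⌈16 / bd s i⌉₊ ⌈3 / 8 * (bd s i * dl s ℓ i)⌉₊
      (by have := (h.lc_fac 0 hnpos).1; omega) g1 (h.lc_dvd0 i i.2) (bd s i)
      (pst (bd s) 0 (-5, (ℓ : ℂ)) c i) hδ (hbd8 i) (by rw [hlen]; exact hbig) (Nat.le_ceil _)
      (Nat.ceil_lt_add_one (by positivity)).le (by rw [hlen]; exact Nat.le_ceil _)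
      (by rw [hlen]; exact (Nat.ceil_lt_add_one (by linarith)).le) (by rw [hlen]; exact g2)
      (by rw [hlen]; exact g3) (by
        intro z τ' a1 a2 a3
        rw [hlen] at a3
        obtain ⟨τ'', b1, b2, b3⟩ := f4 i i.2.le τ' a1 a2
        rw [hbdz, hnorm] at b3
        refine h.bulk z τ'' b1 b2 ?_
        have e1 : toC z - (-5 + (τ'' : ℂ) * (ℓ : ℂ)) =
            (toC z - ((pst (bd s) 0 (-5, (ℓ : ℂ)) c i).1 + (τ' : ℂ) * (pst (bd s) 0 (-5, (ℓ : ℂ)) c i).2)) +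
            (((pst (bd s) 0 (-5, (ℓ : ℂ)) c i).1 + (τ' : ℂ) * (pst (bd s) 0 (-5, (ℓ : ℂ)) c i).2) -
              (-5 + (τ'' : ℂ) * (ℓ : ℂ))) := by ring
        rw [e1]
        refine (norm_add_le _ _).trans ?_
        have e2 : bd s i * dl s ℓ i ≤ s * ℓ :=
          mul_le_mul (hbds i) (hdlle i) (hdl0 i) h.s_pos.le
        have e3 : ‖((pst (bd s) 0 (-5, (ℓ : ℂ)) c i).1 + (τ' : ℂ) * (pst (bd s) 0 (-5, (ℓ : ℂ)) c i).2) -
              (-5 + (τ'' : ℂ) * (ℓ : ℂ))‖ ≤ 60 / 59 * (s * ℓ) := b3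
        linarith)
      (c i).2 ⟨v, hvb⟩ τ t t1 t2 t3 t4 (by
        have e1 : bd s (0 + (i : ℕ)) = bd s i := by rw [zero_add]
        rw [e1, hlen] at t6
        rw [hlen]
        refine t6.trans ?_
        linarith) θ hθ (by
        have e1 : Real.sqrt (bd s i) ≤ 1 := by
          exact Real.sqrt_le_iff.2 ⟨by norm_num, by linarith [hbd8 i]⟩
        have := Real.sqrt_nonneg (bd s i)
        nlinarith)
    have hGG : GG N s ℓ ((i.castSucc : Fin (nl N + 1)) : ℕ) = Matrix.of (fun x y : ↥(box N) =>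
        Gam (box N \ innerBdry N) (2 * lc s ℓ 0) (lc s ℓ i) x y) := by
      unfold GG
      rw [if_pos (by simp)]
      rfl
    simp only [dif_pos hvb]
    rw [hGG]
    refine le_trans key ?_
    have e4 : (0 : ℝ) ≤ 1 / 2 * Real.exp (θ ^ 2 * Gam (box N \ innerBdry N) (2 * lc s ℓ 0) (lc s ℓ i)
        v v / 2) := by positivity
    refine mul_le_mul_of_nonneg_left ?_ e4
    by_cases hc : 24 ≤ ((c i).1 : ℕ) ∧ ((c i).1 : ℕ) < 40
    · rw [if_pos hc, if_pos (t5 hc.1 hc.2)]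
    · rw [if_neg hc]
      split_ifs
      · apply Real.exp_le_one_iff.2
        have : 0 ≤ c1 * (θ * Real.sqrt (bd s i)) := by positivity
        linarith
      · exact le_rfl

end H941.bottom_count
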