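import Pool.Agent.H941.Defs3
import Pool.Agent.H941.A3
import Pool.Agent.H941.B.green_decomp
import Pool.Agent.H941.B.green_log_off
import Pool.Agent.H941.B.hit_basic

open MeasureTheory ProbabilityTheory

namespace H941.coarse_var

theorem _root_.H941.coarse_var (V D : Finset (ℤ × ℤ)) (hDV : D ⊆ V) (N : ℕ) (hN : 1 ≤ N)
    (hV : ∀ x ∈ V, ∀ y ∈ V, |x.1 - y.1| < (N : ℤ) ∧ |x.2 - y.2| < (N : ℤ)) (x : ℤ × ℤ) (r : ℕ)
    (hr : ∀ z : ℤ × ℤ, |z.1 - x.1| ≤ r → |z.2 - x.2| ≤ r → z ∈ D) :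
    green V x x - green D x x ≤
      (Real.log (1 + 2 * (N : ℝ) ^ 2) - Real.log (1 + (r : ℝ) ^ 2)) / Real.log 2 := by
  classical
  have hxD : x ∈ D := hr x (by simp) (by simp)
  have hxV : x ∈ V := hDV hxD
  have hsd : V \ (V \ D) = D := by
    rw [Finset.sdiff_sdiff_eq_self hDV]
  have hx' : x ∉ V \ D := by
    rw [Finset.mem_sdiff]
    exact fun h => h.2 hxD
  have hdec := green_decomp V (V \ D) x x hx'
  rw [hsd] at hdec
  have hrN : (r : ℤ) < N := by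
    have h1 : (x.1 + r, x.2) ∈ D := hr _ (by simp) (by simp)
    have h2 := (hV _ (hDV h1) x hxV).1
    simpa using h2
  have hrN' : (r : ℝ) ≤ N := by exact_mod_cast hrN.le
  have hlog2 : 0 < Real.log 2 := Real.log_pos (by norm_num)
  set B : ℝ := (Real.log (1 + 2 * (N : ℝ) ^ 2) - Real.log (1 + (r : ℝ) ^ 2)) / Real.log 2 with hB
  have hB0 : 0 ≤ B := by
    apply div_nonneg _ hlog2.le
    rw [sub_nonneg]
    apply Real.log_le_log (by positivity)
    have : (r : ℝ) ^ 2 ≤ (N : ℝ) ^ 2 := pow_le_pow_left₀ (by positivity) hrN' 2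
    nlinarith [sq_nonneg (N : ℝ)]
  obtain ⟨h0, -, hsum, -, -⟩ := hit_basic V (V \ D)
  have hbd : ∀ v ∈ V \ D, green V v x ≤ B := by
    intro v hv
    rw [Finset.mem_sdiff] at hv
    refine (green_log_off V N hN hV v x hv.1 hxV).trans ?_
    rw [hB]
    apply div_le_div_of_nonneg_right _ hlog2.le
    apply sub_le_sub_left
    apply Real.log_le_log (by positivity)
    have h3 : ¬ (|v.1 - x.1| ≤ r ∧ |v.2 - x.2| ≤ r) := fun h => hv.2 (hr v h.1 h.2)
    rw [not_and_or] at h3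
    rcases h3 with h3 | h3
    · push Not at h3
      have h4 : (r : ℝ) ≤ |(v.1 : ℝ) - x.1| := by exact_mod_cast h3.le
      have h5 : (r : ℝ) ^ 2 ≤ ((v.1 : ℝ) - x.1) ^ 2 := by
        rw [← sq_abs ((v.1 : ℝ) - x.1)]
        exact pow_le_pow_left₀ (by positivity) h4 2
      nlinarith [sq_nonneg ((v.2 : ℝ) - x.2)]
    · push Not at h3
      have h4 : (r : ℝ) ≤ |(v.2 : ℝ) - x.2| := by exact_mod_cast h3.le
      have h5 : (r : ℝ) ^ 2 ≤ ((v.2 : ℝ) - x.2) ^ 2 := by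
        rw [← sq_abs ((v.2 : ℝ) - x.2)]
        exact pow_le_pow_left₀ (by positivity) h4 2
      nlinarith [sq_nonneg ((v.1 : ℝ) - x.1)]
  have h6 : ∑ v ∈ V \ D, hit V (V \ D) x v * green V v x ≤ B := by
    calc ∑ v ∈ V \ D, hit V (V \ D) x v * green V v x
        ≤ ∑ v ∈ V \ D, hit V (V \ D) x v * B :=
          Finset.sum_le_sum fun v hv => mul_le_mul_of_nonneg_left (hbd v hv) (h0 x v)
      _ = (∑ v ∈ V \ D, hit V (V \ D) x v) * B := by rw [Finset.sum_mul]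
      _ ≤ 1 * B := mul_le_mul_of_nonneg_right (hsum x) hB0
      _ = B := one_mul B
  linarith

end H941.coarse_var
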