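import Pool.Agent.H941.Defs3
import Pool.Agent.H941.A3
import Pool.Agent.H941.B.harm_grad

open MeasureTheory ProbabilityTheory

namespace H941.inc_var

theorem iv_step1 (f : ℤ × ℤ → ℝ) (B : ℝ) (c s t : ℤ) (hst : s ≤ t)
    (h : ∀ u, s ≤ u → u < t → |f (u + 1, c) - f (u, c)| ≤ B) :
    |f (t, c) - f (s, c)| ≤ (t - s) * B := by
  induction t, hst using Int.le_induction with
  | base => simp
  | succ t hst ih =>
    have h1 := ih fun u hu1 hu2 => h u hu1 (by omega)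
    have h2 := h t hst (by omega)
    have h3 : f (t + 1, c) - f (s, c) = (f (t + 1, c) - f (t, c)) + (f (t, c) - f (s, c)) := by ring
    rw [h3]
    refine (abs_add_le _ _).trans ?_
    push_cast
    linarith

theorem iv_step2 (f : ℤ × ℤ → ℝ) (B : ℝ) (c s t : ℤ) (hst : s ≤ t)
    (h : ∀ u, s ≤ u → u < t → |f (c, u + 1) - f (c, u)| ≤ B) :
    |f (c, t) - f (c, s)| ≤ (t - s) * B := by
  have h1 := iv_step1 (fun z => f (z.2, z.1)) B c s t hst h
  exact h1

theorem iv_move1 (f : ℤ × ℤ → ℝ) (B : ℝ) (c s t : ℤ) (τ : ℕ) (hB : 0 ≤ B) (hst : |s - t| ≤ τ)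
    (h : ∀ u, min s t ≤ u → u < max s t → |f (u + 1, c) - f (u, c)| ≤ B) :
    |f (t, c) - f (s, c)| ≤ τ * B := by
  have hτ : ∀ a b : ℤ, |a - b| ≤ τ → a ≤ b → ((b : ℝ) - a) ≤ τ := by
    intro a b h1 h2
    have h3 : b - a ≤ τ := by
      rw [abs_le] at h1
      omega
    exact_mod_cast h3
  rcases le_total s t with hle | hle
  · rw [min_eq_left hle, max_eq_right hle] at h
    refine (iv_step1 f B c s t hle h).trans ?_
    exact mul_le_mul_of_nonneg_right (hτ s t hst hle) hB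
  · rw [min_eq_right hle, max_eq_left hle] at h
    rw [abs_sub_comm]
    refine (iv_step1 f B c t s hle h).trans ?_
    exact mul_le_mul_of_nonneg_right (hτ t s (by rw [abs_sub_comm]; exact hst) hle) hB

theorem iv_move2 (f : ℤ × ℤ → ℝ) (B : ℝ) (c s t : ℤ) (τ : ℕ) (hB : 0 ≤ B) (hst : |s - t| ≤ τ)
    (h : ∀ u, min s t ≤ u → u < max s t → |f (c, u + 1) - f (c, u)| ≤ B) :
    |f (c, t) - f (c, s)| ≤ τ * B :=
  iv_move1 (fun z => f (z.2, z.1)) B c s t τ hB hst h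

theorem iv_harm (V D : Finset (ℤ × ℤ)) (hDV : D ⊆ V) (u v : ℤ × ℤ) (hv : v ∈ D) :
    green V u v - green D u v = (1 / 4) * ∑ z ∈ nbrs v, (green V u z - green D u z) := by
  obtain ⟨-, -, hs, -, he, -⟩ := green_basic V
  obtain ⟨-, -, hs', -, he', -⟩ := green_basic D
  rw [hs u v, hs' u v, he v (hDV hv) u, he' v hv u, Finset.sum_sub_distrib]
  simp only [hs _ u, hs' _ u]
  ring

theorem iv_diff (V D : Finset (ℤ × ℤ)) (hDV : D ⊆ V) (K : ℝ) (hK : ∀ u v, green V u v ≤ K)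
    (x y : ℤ × ℤ) (τ r : ℕ) (hr : 1 ≤ r) (hxy1 : |x.1 - y.1| ≤ τ) (hxy2 : |x.2 - y.2| ≤ τ)
    (hD : ∀ z : ℤ × ℤ, min x.1 y.1 - (r + 1) ≤ z.1 → z.1 ≤ max x.1 y.1 + (r + 1) →
      min x.2 y.2 - (r + 1) ≤ z.2 → z.2 ≤ max x.2 y.2 + (r + 1) → z ∈ D) (u : ℤ × ℤ) :
    |(green V u y - green D u y) - (green V u x - green D u x)| ≤ 2 * τ * (5 * K / r) := by
  obtain ⟨h0, -, -, -, -, -⟩ := green_basic V
  obtain ⟨h0', -, -, hm, -, -⟩ := green_basic D
  have hK0 : 0 ≤ K := (h0 0 0).trans (hK 0 0)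
  have hr0 : (0 : ℝ) < r := by exact_mod_cast hr
  have hB : 0 ≤ 5 * K / r := by positivity
  set f : ℤ × ℤ → ℝ := fun v => green V u v - green D u v with hf
  have hM : ∀ z, |f z| ≤ K := by
    intro z
    have h1 := hm V hDV u z
    have h2 := h0' u z
    have h3 := hK u z
    rw [abs_le]
    constructor
    · change -K ≤ green V u z - green D u z
      linarith
    · change green V u z - green D u z ≤ K
      linarith
  have hgrad : ∀ a b : ℤ × ℤ, b ∈ nbrs a → min x.1 y.1 - 1 ≤ a.1 → a.1 ≤ max x.1 y.1 + 1 →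
      min x.2 y.2 - 1 ≤ a.2 → a.2 ≤ max x.2 y.2 + 1 → |f b - f a| ≤ 5 * K / r := by
    intro a b hab h1 h2 h3 h4
    refine harm_grad f a b hab r hr K ?_ fun z _ _ => hM z
    intro z hz1 hz2
    rw [abs_le] at hz1 hz2
    exact iv_harm V D hDV u z (hD z (by omega) (by omega) (by omega) (by omega))
  have e1 : |f (y.1, x.2) - f (x.1, x.2)| ≤ τ * (5 * K / r) := by
    refine iv_move1 f _ x.2 x.1 y.1 τ hB hxy1 ?_
    intro t ht1 ht2
    exact hgrad (t, x.2) (t + 1, x.2) (by simp [nbrs]) (by simp only; omega) (by simp only; omega)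
      (by simp only; omega) (by simp only; omega)
  have e2 : |f (y.1, y.2) - f (y.1, x.2)| ≤ τ * (5 * K / r) := by
    refine iv_move2 f _ y.1 x.2 y.2 τ hB hxy2 ?_
    intro t ht1 ht2
    exact hgrad (y.1, t) (y.1, t + 1) (by simp [nbrs]) (by simp only; omega) (by simp only; omega)
      (by simp only; omega) (by simp only; omega)
  have e3 : f y - f x = (f (y.1, y.2) - f (y.1, x.2)) + (f (y.1, x.2) - f (x.1, x.2)) := by
    simp
  change |f y - f x| ≤ _
  rw [e3]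
  refine (abs_add_le _ _).trans ?_
  linarith

theorem _root_.H941.inc_var (V D : Finset (ℤ × ℤ)) (hDV : D ⊆ V) (K : ℝ) (hK : ∀ u v, green V u v ≤ K) (p : ℝ)
    (hp : p ≤ 1) (x y : ℤ × ℤ) (τ r : ℕ) (hr : 1 ≤ r) (hxy1 : |x.1 - y.1| ≤ τ) (hxy2 : |x.2 - y.2| ≤ τ)
    (hD : ∀ z : ℤ × ℤ, min x.1 y.1 - (r + 1) ≤ z.1 → z.1 ≤ max x.1 y.1 + (r + 1) →
      min x.2 y.2 - (r + 1) ≤ z.2 → z.2 ≤ max x.2 y.2 + (r + 1) → z ∈ D) :
    ((1 / 4) * green V x x - p / 4 * green D x x) - 2 * ((1 / 4) * green V x y - p / 4 * green D x y) +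
        ((1 / 4) * green V y y - p / 4 * green D y y) ≤
      5 * τ * K / r + (1 - p) * K / 2 := by
  obtain ⟨h0, -, hs, -, -, -⟩ := green_basic V
  obtain ⟨h0', -, hs', hm, -, -⟩ := green_basic D
  have d1 := iv_diff V D hDV K hK x y τ r hr hxy1 hxy2 hD x
  have d2 := iv_diff V D hDV K hK x y τ r hr hxy1 hxy2 hD y
  rw [abs_le] at d1 d2
  have a1 := hm V hDV x x
  have a2 := hm V hDV y y
  have a3 := hK x x
  have a4 := hK y y
  have a5 := h0' x y
  rw [hs y x, hs' y x] at d2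
  have b1 : (1 - p) * (green D x x - 2 * green D x y + green D y y) ≤ (1 - p) * (2 * K) :=
    mul_le_mul_of_nonneg_left (by linarith) (by linarith)
  have b2 : 2 * τ * (5 * K / r) = 10 * (τ * K / r) := by ring
  have b3 : 5 * τ * K / r = 5 * (τ * K / r) := by ring
  rw [b2] at d1 d2
  rw [b3]
  linarith [d1.1, d2.2]

end H941.inc_var
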