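import Pool.Agent.H941.Defs3
import Pool.Agent.H941.B.gauss_tail
import Pool.Agent.H941.G1
import Pool.Agent.H941.T2

open MeasureTheory ProbabilityTheory

namespace H941.net_bound

theorem net_tail {ι : Type} [Fintype ι] [DecidableEq ι] (n : ℕ) (Γ : Fin n → Matrix ι ι ℝ)
    (hΓ : ∀ k, (Γ k).PosSemidef) (x y : ι) (v : ℝ) (hv : 0 < v)
    (hinc : (∑ k, Γ k) x x - 2 * (∑ k, Γ k) x y + (∑ k, Γ k) y y ≤ v) :
    (Measure.pi fun k => multivariateGaussian (0 : EuclideanSpace ℝ ι) (Γ k))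
        {ω | 1 ≤ ∑ k, ω k x - ∑ k, ω k y} ≤ ENNReal.ofReal (Real.exp (-(1 / (2 * v)))) := by
  classical
  have hS : (∑ k, Γ k).PosSemidef := Matrix.posSemidef_sum _ (fun k _ => hΓ k)
  set G := ∑ k, Γ k with hG
  set ρ : ι → ℝ := fun i => (if i = x then 1 else 0) - (if i = y then 1 else 0) with hρ
  have hlin : ∀ w : ι → ℝ, ∑ i, ρ i * w i = w x - w y := by
    intro w
    simp only [hρ, sub_mul, ite_mul, one_mul, zero_mul, Finset.sum_sub_distrib,
      Finset.sum_ite_eq', Finset.mem_univ, if_true]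
  have hsymm : G y x = G x y := by
    have := hS.isHermitian.apply x y
    simpa using this
  have hq : ∑ i, ∑ j, ρ i * G i j * ρ j ≤ v := by
    have e1 : ∑ i, ∑ j, ρ i * G i j * ρ j = G x x - 2 * G x y + G y y := by
      have e2 : ∀ i, ∑ j, ρ i * G i j * ρ j = ρ i * (G i x - G i y) := by
        intro i
        have e3 : ∑ j, ρ j * (ρ i * G i j) = ρ i * G i x - ρ i * G i y :=
          hlin (fun j => ρ i * G i j)
        rw [mul_sub, ← e3]
        exact Finset.sum_congr rfl fun j _ => by ring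
      have e4 : ∑ i, ρ i * (G i x - G i y) = (G x x - G x y) - (G y x - G y y) :=
        hlin (fun i => G i x - G i y)
      rw [Finset.sum_congr rfl fun i _ => e2 i, e4, hsymm]
      ring
    rw [e1]
    exact hinc
  have ht := gauss_tail G hS ρ v 1 hv zero_le_one hq
  rw [one_pow] at ht
  refine le_trans (le_of_eq ?_) ht
  rw [hG, ← law_sum Γ hΓ, Measure.map_apply]
  · congr 1
    ext ω
    show 1 ≤ ∑ k, ω k x - ∑ k, ω k y ↔ 1 ≤ ∑ i, ρ i * (∑ j, ω j) i
    have e6 : ∑ i, ρ i * (∑ j, ω j) i = (∑ j, ω j) x - (∑ j, ω j) y :=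
      hlin (fun i => (∑ j, ω j) i)
    rw [e6]
    simp
  · fun_prop
  · apply measurableSet_le measurable_const
    fun_prop

theorem _root_.H941.net_bound {ι : Type} [Fintype ι] [DecidableEq ι] (j : ℕ) (Γ : Fin (j + 1) → Matrix ι ι ℝ)
    (hΓ : ∀ k, (Γ k).PosSemidef) (E : Fin j → Set (EuclideanSpace ℝ ι)) (hE : ∀ k, MeasurableSet (E k))
    (R Net : Finset ι) (π : ι → ι) (hπ : ∀ x ∈ R, π x ∈ Net) (v θ a b : ℝ) (hv : 0 < v) (hθ : 0 ≤ θ)
    (hinc : ∀ x ∈ R, (∑ k, Γ k) x x - 2 * (∑ k, Γ k) x (π x) + (∑ k, Γ k) (π x) (π x) ≤ v)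
    (e : Fin j → ι → ℝ)
    (he : ∀ k, ∀ y ∈ Net, ∫ x, (E k).indicator (fun x => Real.exp (θ * x y)) x
        ∂(multivariateGaussian (0 : EuclideanSpace ℝ ι) (Γ k.castSucc)) ≤ e k y)
    (hb : ∀ y ∈ Net, (∏ k, e k y) * Real.exp (θ ^ 2 * Γ (Fin.last j) y y / 2) ≤ b) :
    (Measure.pi fun k => multivariateGaussian (0 : EuclideanSpace ℝ ι) (Γ k))
        {ω | (∀ k : Fin j, ω k.castSucc ∈ E k) ∧ ∃ x ∈ R, a + 1 < ∑ k, ω k x} ≤
      ENNReal.ofReal (Net.card * (Real.exp (-(θ * a)) * b) + R.card * Real.exp (-(1 / (2 * v)))) := by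
  classical
  set μ := Measure.pi fun k => multivariateGaussian (0 : EuclideanSpace ℝ ι) (Γ k) with hμ
  set T : ι → Set (Fin (j + 1) → EuclideanSpace ℝ ι) := fun y =>
    {ω | (∀ k : Fin j, ω k.castSucc ∈ E k) ∧ a < ∑ k, ω k y} with hT
  set U : ι → Set (Fin (j + 1) → EuclideanSpace ℝ ι) := fun x =>
    {ω | 1 ≤ ∑ k, ω k x - ∑ k, ω k (π x)} with hU
  have hsub : {ω : Fin (j + 1) → EuclideanSpace ℝ ι |
      (∀ k : Fin j, ω k.castSucc ∈ E k) ∧ ∃ x ∈ R, a + 1 < ∑ k, ω k x} ⊆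
      (⋃ y ∈ Net, T y) ∪ (⋃ x ∈ R, U x) := by
    rintro ω ⟨h1, x, hx, h2⟩
    by_cases h3 : a < ∑ k, ω k (π x)
    · left
      exact Set.mem_biUnion (hπ x hx) ⟨h1, h3⟩
    · right
      refine Set.mem_biUnion hx ?_
      show 1 ≤ ∑ k, ω k x - ∑ k, ω k (π x)
      push Not at h3
      linarith
  have hTy : ∀ y ∈ Net, μ (T y) ≤ ENNReal.ofReal (Real.exp (-(θ * a)) * b) := by
    intro y hy
    obtain ⟨hint, hle⟩ := prod_integral j Γ hΓ y θ E hE (fun k => e k y) (fun k => he k y hy)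
    have hle2 := hle.trans (hb y hy)
    set Φ : (Fin (j + 1) → EuclideanSpace ℝ ι) → ℝ := fun ω =>
      (∏ i : Fin j, (E i).indicator (fun _ => (1 : ℝ)) (ω i.castSucc)) *
        Real.exp (θ * ∑ k, ω k y) with hΦ
    have hΦ0 : ∀ ω, 0 ≤ Φ ω := by
      intro ω
      refine mul_nonneg (Finset.prod_nonneg fun i _ => ?_) (Real.exp_pos _).le
      exact Set.indicator_nonneg (fun _ _ => zero_le_one) _
    have hmk := mul_meas_ge_le_integral_of_nonneg (μ := μ) (f := Φ)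
      (Filter.Eventually.of_forall hΦ0) hint (Real.exp (θ * a))
    have hsub2 : T y ⊆ {ω | Real.exp (θ * a) ≤ Φ ω} := by
      rintro ω ⟨h1, h2⟩
      show Real.exp (θ * a) ≤ Φ ω
      have e1 : ∏ i : Fin j, (E i).indicator (fun _ => (1 : ℝ)) (ω i.castSucc) = 1 :=
        Finset.prod_eq_one fun i _ => Set.indicator_of_mem (h1 i) _
      simp only [hΦ, e1, one_mul]
      exact Real.exp_le_exp.2 (mul_le_mul_of_nonneg_left h2.le hθ)
    have hfin : μ {ω | Real.exp (θ * a) ≤ Φ ω} ≠ ⊤ := measure_ne_top _ _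
    refine (measure_mono hsub2).trans ?_
    rw [← ENNReal.ofReal_toReal hfin]
    apply ENNReal.ofReal_le_ofReal
    have h4 : Real.exp (θ * a) * (μ {ω | Real.exp (θ * a) ≤ Φ ω}).toReal ≤ b := hmk.trans hle2
    rw [Real.exp_neg, ← div_eq_inv_mul, le_div_iff₀ (Real.exp_pos _), mul_comm]
    exact h4
  have hUx : ∀ x ∈ R, μ (U x) ≤ ENNReal.ofReal (Real.exp (-(1 / (2 * v)))) := fun x hx =>
    net_tail (j + 1) Γ hΓ x (π x) v hv (hinc x hx)
  have hb0 : 0 ≤ (Net.card : ℝ) * (Real.exp (-(θ * a)) * b) := by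
    rcases Net.eq_empty_or_nonempty with h0 | ⟨y, hy⟩
    · simp [h0]
    · have hb1 : 0 ≤ b := by
        obtain ⟨hint, hle⟩ := prod_integral j Γ hΓ y θ E hE (fun k => e k y)
          (fun k => he k y hy)
        refine le_trans ?_ (hle.trans (hb y hy))
        refine integral_nonneg fun ω => mul_nonneg (Finset.prod_nonneg fun i _ => ?_)
          (Real.exp_pos _).le
        exact Set.indicator_nonneg (fun _ _ => zero_le_one) _
      positivity
  refine (measure_mono hsub).trans ((measure_union_le _ _).trans ?_)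
  rw [ENNReal.ofReal_add hb0 (by positivity)]
  refine add_le_add ?_ ?_
  · refine (measure_biUnion_finset_le _ _).trans ((Finset.sum_le_sum hTy).trans (le_of_eq ?_))
    have e5 : ENNReal.ofReal ((Net.card : ℝ) * (Real.exp (-(θ * a)) * b)) =
        (Net.card : ENNReal) * ENNReal.ofReal (Real.exp (-(θ * a)) * b) := by
      rw [ENNReal.ofReal_mul (Nat.cast_nonneg _), ENNReal.ofReal_natCast]
    rw [Finset.sum_const, nsmul_eq_mul, e5]
  · refine (measure_biUnion_finset_le _ _).trans ((Finset.sum_le_sum hUx).trans (le_of_eq ?_))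
    have e5 : ENNReal.ofReal ((R.card : ℝ) * Real.exp (-(1 / (2 * v)))) =
        (R.card : ENNReal) * ENNReal.ofReal (Real.exp (-(1 / (2 * v)))) := by
      rw [ENNReal.ofReal_mul (Nat.cast_nonneg _), ENNReal.ofReal_natCast]
    rw [Finset.sum_const, nsmul_eq_mul, e5]

end H941.net_bound
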