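import Pool.Agent.H941.Defs3
import Pool.Agent.H941.A3
import Pool.Agent.H941.B.GG_facts
import Pool.Agent.H941.B.coarse_var
import Pool.Agent.H941.B.green_log_off
import Pool.Agent.H941.B.inc_var
import Pool.Agent.H941.B.net_bound
import Pool.Agent.H941.B.pst_near
import Pool.Agent.H941.S3

open MeasureTheory ProbabilityTheory

namespace H941.coarse_bound


theorem cb_nums (X w : ℕ) (hX : 1000 ≤ X) (hw : X ^ 8 ≤ w) :
    1 ≤ w / X ^ 2 / X ^ 4 ∧ 1000 ≤ w / X ^ 2 ∧ w / X ^ 2 / X ^ 4 * X ^ 4 ≤ w / X ^ 2 ∧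
      w < 2 * X ^ 6 * (w / X ^ 2 / X ^ 4) ∧ w ≤ 2 * X ^ 2 * (w / X ^ 2 - 1) ∧ w / X ^ 2 ≤ w ∧
      2 * (w / X ^ 2) ≤ w := by
  have hX0 : 0 < X := by omega
  set d := w / X ^ 2 with hd
  set τ := d / X ^ 4 with hτ
  have h1 : d * X ^ 2 ≤ w := Nat.div_mul_le_self _ _
  have h2 : w < (d + 1) * X ^ 2 := by
    have := Nat.lt_div_mul_add (a := w) (b := X ^ 2) (by positivity)
    rw [← hd] at this
    nlinarith
  have h3 : τ * X ^ 4 ≤ d := Nat.div_mul_le_self _ _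
  have h4 : d < (τ + 1) * X ^ 4 := by
    have := Nat.lt_div_mul_add (a := d) (b := X ^ 4) (by positivity)
    rw [← hτ] at this
    nlinarith
  have h5 : w < (τ + 1) * X ^ 6 := by
    calc w < (d + 1) * X ^ 2 := h2
      _ ≤ ((τ + 1) * X ^ 4) * X ^ 2 := Nat.mul_le_mul_right _ h4
      _ = (τ + 1) * X ^ 6 := by ring
  have h6 : 1 ≤ τ := by
    by_contra h
    have h0 : τ = 0 := Nat.lt_one_iff.1 (not_le.1 h)
    have h5' : w < X ^ 6 := by
      rw [h0, zero_add, one_mul] at h5; exact h5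
    have : X ^ 6 ≤ X ^ 8 := Nat.pow_le_pow_right hX0 (by norm_num)
    exact absurd (h5'.trans_le (this.trans hw)) (lt_irrefl _)
  have h7 : 1000 ≤ d := by
    have : 1 * 1000 ≤ τ * X ^ 4 := by
      apply Nat.mul_le_mul h6
      calc 1000 ≤ X := hX
        _ = X ^ 1 := (pow_one X).symm
        _ ≤ X ^ 4 := Nat.pow_le_pow_right hX0 (by norm_num)
    omega
  have h8 : d ≤ w := Nat.div_le_self _ _
  refine ⟨h6, h7, h3, ?_, ?_, h8, ?_⟩
  · calc w < (τ + 1) * X ^ 6 := h5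
      _ ≤ (2 * τ) * X ^ 6 := Nat.mul_le_mul_right _ (by omega)
      _ = 2 * X ^ 6 * τ := by ring
  · obtain ⟨e, he⟩ : ∃ e, d = e + 1 := ⟨d - 1, by omega⟩
    have : w ≤ 2 * X ^ 2 * e := by
      calc w ≤ (d + 1) * X ^ 2 := h2.le
        _ ≤ (2 * e) * X ^ 2 := Nat.mul_le_mul_right _ (by omega)
        _ = 2 * X ^ 2 * e := by ring
    rw [he]; simpa using this
  · calc 2 * d = d * 2 := by ring
      _ ≤ d * X ^ 2 := Nat.mul_le_mul_left _ (by nlinarith)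
      _ ≤ w := h1

theorem cb_card (X w τ : ℕ) (hX : 1000 ≤ X) (hτ : 1 ≤ τ) (h : w < 2 * X ^ 6 * τ) :
    (4 * w / τ + 1) * (w / τ + 1) ≤ 100 * X ^ 12 := by
  have h1 : w / τ ≤ 2 * X ^ 6 := by
    apply Nat.div_le_of_le_mul
    calc w ≤ 2 * X ^ 6 * τ := h.le
      _ = τ * (2 * X ^ 6) := by ring
  have h2 : 4 * w / τ ≤ 8 * X ^ 6 := by
    apply Nat.div_le_of_le_mul
    calc 4 * w ≤ 4 * (2 * X ^ 6 * τ) := Nat.mul_le_mul_left _ h.le
      _ = τ * (8 * X ^ 6) := by ring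
  have h3 : 1 ≤ X ^ 6 := Nat.one_le_pow _ _ (by omega)
  calc (4 * w / τ + 1) * (w / τ + 1) ≤ (8 * X ^ 6 + 1) * (2 * X ^ 6 + 1) :=
        Nat.mul_le_mul (by omega) (by omega)
    _ ≤ 100 * X ^ 12 := by
        have : X ^ 12 = X ^ 6 * X ^ 6 := by ring
        rw [this]
        nlinarith

theorem cb_K (N : ℕ) (hN : 1000 ≤ Nat.log 2 N) :
    Real.log (1 + 2 * (N : ℝ) ^ 2) / Real.log 2 ≤ 2 * (Nat.log 2 N : ℝ) + 4 := by
  have hl2 : 0 < Real.log 2 := Real.log_pos (by norm_num)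
  rw [div_le_iff₀ hl2]
  have h1 : N < 2 ^ (Nat.log 2 N + 1) := Nat.lt_pow_succ_log_self (by norm_num) N
  have h1' : (N : ℝ) ≤ 2 ^ (Nat.log 2 N + 1) := by exact_mod_cast h1.le
  have hN1 : (1 : ℝ) ≤ N := by
    have : N ≠ 0 := by rintro rfl; simp at hN
    exact_mod_cast Nat.one_le_iff_ne_zero.2 this
  have h2 : 1 + 2 * (N : ℝ) ^ 2 ≤ 2 ^ (2 * Nat.log 2 N + 4) := by
    have h3 : (N : ℝ) ^ 2 ≤ (2 ^ (Nat.log 2 N + 1)) ^ 2 := by
      apply pow_le_pow_left₀ (by positivity) h1'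
    have h4 : ((2 : ℝ) ^ (Nat.log 2 N + 1)) ^ 2 = 2 ^ (2 * Nat.log 2 N + 2) := by
      rw [← pow_mul]; congr 1; ring
    have h5 : (2 : ℝ) ^ (2 * Nat.log 2 N + 4) = 4 * 2 ^ (2 * Nat.log 2 N + 2) := by
      rw [show 2 * Nat.log 2 N + 4 = (2 * Nat.log 2 N + 2) + 2 by ring, pow_add]; ring
    rw [h5, ← h4]
    nlinarith
  calc Real.log (1 + 2 * (N : ℝ) ^ 2) ≤ Real.log (2 ^ (2 * Nat.log 2 N + 4)) :=
        Real.log_le_log (by positivity) h2
    _ = (2 * (Nat.log 2 N : ℝ) + 4) * Real.log 2 := by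
        rw [Real.log_pow]; push_cast; ring

theorem cb_logratio (X w N i : ℕ) (hN : 1 ≤ N) (hX : 1000 ≤ X) (hw : X ^ 8 ≤ w) (hwd : w = N / 64 ^ i) :
    (Real.log (1 + 2 * (N : ℝ) ^ 2) - Real.log (1 + ((w / X ^ 2 - 1 : ℕ) : ℝ) ^ 2)) / Real.log 2 ≤
      12 * i + 4 * (Real.log X / Real.log 2) + 6 := by
  obtain ⟨h1, h2, h3, h4, h5, h6, h7⟩ := cb_nums X w hX hw
  have hl2 : 0 < Real.log 2 := Real.log_pos (by norm_num)
  have hX0 : (0 : ℝ) < X := by exact_mod_cast (by omega : 0 < X)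
  set e : ℕ := w / X ^ 2 - 1 with he
  have hN2 : N < 64 ^ i * (w + 1) := by
    rw [hwd]
    have := Nat.lt_mul_div_succ N (show 0 < 64 ^ i by positivity)
    exact this
  have hw1 : 1 ≤ w := by omega
  have hN3 : N ≤ 4 * 64 ^ i * X ^ 2 * e := by
    calc N ≤ 64 ^ i * (w + 1) := hN2.le
      _ ≤ 64 ^ i * (2 * w) := Nat.mul_le_mul_left _ (by omega)
      _ ≤ 64 ^ i * (2 * (2 * X ^ 2 * e)) := Nat.mul_le_mul_left _ (Nat.mul_le_mul_left _ h5)
      _ = 4 * 64 ^ i * X ^ 2 * e := by ring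
  have hN4 : (N : ℝ) ≤ 4 * 64 ^ i * X ^ 2 * e := by exact_mod_cast hN3
  have hN1 : (1 : ℝ) ≤ N := by exact_mod_cast hN
  have h8 : 1 + 2 * (N : ℝ) ^ 2 ≤ 64 * (64 ^ i) ^ 2 * X ^ 4 * (1 + (e : ℝ) ^ 2) := by
    have h9 : (N : ℝ) ^ 2 ≤ (4 * 64 ^ i * X ^ 2 * e) ^ 2 := pow_le_pow_left₀ (by positivity) hN4 2
    have h10 : (0 : ℝ) ≤ (64 ^ i) ^ 2 * X ^ 4 := by positivity
    nlinarith [mul_nonneg h10 (sq_nonneg (e : ℝ))]
  rw [div_le_iff₀ hl2]
  have h11 : Real.log (1 + 2 * (N : ℝ) ^ 2) ≤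
      Real.log (64 * (64 ^ i) ^ 2 * X ^ 4 * (1 + (e : ℝ) ^ 2)) := Real.log_le_log (by positivity) h8
  have h12 : Real.log (64 * (64 ^ i) ^ 2 * X ^ 4 * (1 + (e : ℝ) ^ 2)) =
      Real.log 64 + 2 * (i * Real.log 64) + 4 * Real.log X + Real.log (1 + (e : ℝ) ^ 2) := by
    rw [Real.log_mul (by positivity) (by positivity), Real.log_mul (by positivity) (by positivity),
      Real.log_mul (by positivity) (by positivity), Real.log_pow, Real.log_pow, Real.log_pow]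
    push_cast
    ring
  have h13 : Real.log 64 = 6 * Real.log 2 := by
    rw [show (64 : ℝ) = 2 ^ 6 by norm_num, Real.log_pow]; norm_num
  rw [h12, h13] at h11
  have h14 : (12 * (i : ℝ) + 4 * (Real.log X / Real.log 2) + 6) * Real.log 2 =
      12 * i * Real.log 2 + 4 * Real.log X + 6 * Real.log 2 := by
    field_simp
  rw [h14]
  linarith


theorem cb_place_mem (a b c d : ℤ) (o : Bool) (t z : ℤ × ℤ) :
    z ∈ (rect a b c d).image (place o t) ↔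
      (if o then (a ≤ z.1 - t.1 ∧ z.1 - t.1 ≤ b ∧ c ≤ z.2 - t.2 ∧ z.2 - t.2 ≤ d)
      else (a ≤ z.2 - t.2 ∧ z.2 - t.2 ≤ b ∧ c ≤ z.1 - t.1 ∧ z.1 - t.1 ≤ d)) := by
  rw [Finset.mem_image]
  cases o
  · simp only [Bool.false_eq_true, if_false]
    constructor
    · rintro ⟨v, hv, rfl⟩
      simp only [rect, Finset.mem_product, Finset.mem_Icc] at hv
      simp only [place, Bool.false_eq_true, if_false]
      constructor
      · linarith [hv.1.1]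
      · refine ⟨by linarith [hv.1.2], by linarith [hv.2.1], by linarith [hv.2.2]⟩
    · rintro ⟨h1, h2, h3, h4⟩
      refine ⟨(z.2 - t.2, z.1 - t.1), ?_, ?_⟩
      · simp only [rect, Finset.mem_product, Finset.mem_Icc]
        exact ⟨⟨h1, h2⟩, h3, h4⟩
      · simp only [place, Bool.false_eq_true, if_false]
        ext <;> simp
  · simp only [if_true]
    constructor
    · rintro ⟨v, hv, rfl⟩
      simp only [rect, Finset.mem_product, Finset.mem_Icc] at hv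
      simp only [place, if_true]
      constructor
      · linarith [hv.1.1]
      · refine ⟨by linarith [hv.1.2], by linarith [hv.2.1], by linarith [hv.2.2]⟩
    · rintro ⟨h1, h2, h3, h4⟩
      refine ⟨(z.1 - t.1, z.2 - t.2), ?_, ?_⟩
      · simp only [rect, Finset.mem_product, Finset.mem_Icc]
        exact ⟨⟨h1, h2⟩, h3, h4⟩
      · simp only [place, if_true]
        ext <;> simp

theorem cb_margin (w d m : ℕ) (hm : m + 1 ≤ d) (hd : d ≤ w) (o : Bool) (t x y z : ℤ × ℤ)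
    (hx : x ∈ (rect w (5 * w) d (w - d)).image (place o t))
    (hy : y ∈ (rect w (5 * w) d (w - d)).image (place o t))
    (h1 : min x.1 y.1 - m ≤ z.1) (h2 : z.1 ≤ max x.1 y.1 + m)
    (h3 : min x.2 y.2 - m ≤ z.2) (h4 : z.2 ≤ max x.2 y.2 + m) :
    z ∈ (rect 1 (7 * w - 1) 1 (w - 1)).image (place o t) := by
  rw [cb_place_mem] at hx hy ⊢
  cases o
  · simp only [Bool.false_eq_true, if_false] at hx hy ⊢
    omega
  · simp only [if_true] at hx hy ⊢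
    omega

/-- the net -/
theorem cb_net (w d τ : ℕ) (hτ : 1 ≤ τ) (o : Bool) (t : ℤ × ℤ) :
    ∃ S : Finset (ℤ × ℤ), S.card ≤ (4 * w / τ + 1) * (w / τ + 1) ∧
      ∀ x ∈ (rect w (5 * w) d (w - d)).image (place o t),
        ∃ y ∈ (rect w (5 * w) d (w - d)).image (place o t), y ∈ S ∧
          |x.1 - y.1| ≤ τ ∧ |x.2 - y.2| ≤ τ := by
  classical
  refine ⟨((Finset.range (4 * w / τ + 1)) ×ˢ (Finset.range (w / τ + 1))).image
    (fun p => place o t ((w : ℤ) + τ * p.1, (d : ℤ) + τ * p.2)), ?_, ?_⟩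
  · refine Finset.card_image_le.trans ?_
    rw [Finset.card_product, Finset.card_range, Finset.card_range]
  · intro x hx
    rw [Finset.mem_image] at hx
    obtain ⟨v, hv, rfl⟩ := hx
    simp only [rect, Finset.mem_product, Finset.mem_Icc] at hv
    obtain ⟨⟨a1, a2⟩, a3, a4⟩ := hv
    obtain ⟨p, hp⟩ : ∃ p : ℕ, v.1 = w + p := ⟨(v.1 - w).toNat, by omega⟩
    obtain ⟨q, hq⟩ : ∃ q : ℕ, v.2 = d + q := ⟨(v.2 - d).toNat, by omega⟩
    have e1 : τ * (p / τ) ≤ p := Nat.mul_div_le p τ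
    have e2 : p < τ * (p / τ + 1) := Nat.lt_mul_div_succ p (by omega)
    have e3 : τ * (q / τ) ≤ q := Nat.mul_div_le q τ
    have e4 : q < τ * (q / τ + 1) := Nat.lt_mul_div_succ q (by omega)
    have f1 : (τ : ℤ) * ((p / τ : ℕ) : ℤ) ≤ p := by exact_mod_cast e1
    have f2 : (p : ℤ) < (τ : ℤ) * (((p / τ : ℕ) : ℤ) + 1) := by exact_mod_cast e2
    have f3 : (τ : ℤ) * ((q / τ : ℕ) : ℤ) ≤ q := by exact_mod_cast e3
    have f4 : (q : ℤ) < (τ : ℤ) * (((q / τ : ℕ) : ℤ) + 1) := by exact_mod_cast e4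
    have g1 : (0 : ℤ) ≤ (τ : ℤ) * ((p / τ : ℕ) : ℤ) := by positivity
    have g2 : (0 : ℤ) ≤ (τ : ℤ) * ((q / τ : ℕ) : ℤ) := by positivity
    refine ⟨place o t ((w : ℤ) + τ * ((p / τ : ℕ) : ℤ), (d : ℤ) + τ * ((q / τ : ℕ) : ℤ)), ?_, ?_, ?_⟩
    · apply Finset.mem_image_of_mem
      simp only [rect, Finset.mem_product, Finset.mem_Icc]
      refine ⟨⟨by linarith, by linarith⟩, by linarith, by linarith⟩
    · rw [Finset.mem_image]
      refine ⟨(p / τ, q / τ), ?_, rfl⟩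
      rw [Finset.mem_product, Finset.mem_range, Finset.mem_range]
      constructor
      · have : p / τ ≤ 4 * w / τ := Nat.div_le_div_right (by omega)
        simp only; omega
      · have : q / τ ≤ w / τ := Nat.div_le_div_right (by omega)
        simp only; omega
    · cases o
      · simp only [place, Bool.false_eq_true, if_false]
        constructor
        · rw [abs_le]; constructor <;> linarith
        · rw [abs_le]; constructor <;> linarith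
      · simp only [place, if_true]
        constructor
        · rw [abs_le]; constructor <;> linarith
        · rw [abs_le]; constructor <;> linarith

theorem cb_Rcard (w d : ℕ) (hw : 1000 ≤ w) (o : Bool) (t : ℤ × ℤ) :
    ((rect w (5 * w) d (w - d)).image (place o t)).card ≤ 5 * w ^ 2 := by
  refine Finset.card_image_le.trans ?_
  rw [rect, Finset.card_product, Int.card_Icc, Int.card_Icc]
  have h1 : (5 * (w : ℤ) + 1 - w).toNat = 4 * w + 1 := by omega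
  have h2 : ((w : ℤ) - d + 1 - d).toNat ≤ w + 1 := by omega
  rw [h1]
  calc (4 * w + 1) * ((w : ℤ) - d + 1 - d).toNat ≤ (4 * w + 1) * (w + 1) :=
        Nat.mul_le_mul_left _ h2
    _ ≤ 5 * w ^ 2 := by nlinarith

theorem cb_box_diam (N : ℕ) (hN : 1 ≤ N) (x y : ℤ × ℤ) (hx : x ∈ box N) (hy : y ∈ box N) :
    |x.1 - y.1| < (N : ℤ) ∧ |x.2 - y.2| < (N : ℤ) := by
  simp only [box, Finset.mem_product, Finset.mem_Icc] at hx hy
  constructor <;> rw [abs_lt] <;> constructor <;> omega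


theorem cb_bd_zero (s : ℝ) : bd s 0 = s := by
  simp [bd]

theorem cb_bd_nonneg {s : ℝ} (hs : 0 < s) (k : ℕ) : 0 < bd s k := by
  unfold bd; positivity

theorem cb_bd_anti {s : ℝ} (hs : 0 < s) : Antitone (bd s) := by
  intro a b hab
  unfold bd
  apply mul_le_mul_of_nonneg_left _ hs.le
  apply Real.rpow_le_rpow_of_nonpos (by positivity) _ (by norm_num)
  have : (a : ℝ) ≤ b := by exact_mod_cast hab
  linarith

theorem cb_bd_le {s : ℝ} (hs : 0 < s) (k : ℕ) : bd s k ≤ s := by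
  have := cb_bd_anti hs (Nat.zero_le k)
  rwa [cb_bd_zero] at this

theorem cb_dl_le {s : ℝ} (hs : 0 < s) (hs' : s ≤ 1 / 8) (ℓ : ℝ) (hℓ : 0 ≤ ℓ) (k : ℕ) :
    dl s ℓ k ≤ ℓ := by
  unfold dl
  apply mul_le_of_le_one_right hℓ
  apply Finset.prod_le_one
  · intro i _; positivity
  · intro i _
    have h1 := cb_bd_nonneg hs i
    have h2 := cb_bd_le hs i
    rw [div_le_one (by norm_num)]
    have : 1 + 4 * bd s i ^ 2 ≤ 2 := by nlinarith
    calc Real.sqrt (1 + 4 * bd s i ^ 2) ≤ Real.sqrt 2 := Real.sqrt_le_sqrt this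
      _ ≤ 2 := by rw [Real.sqrt_le_left (by norm_num)]; norm_num
      _ ≤ 64 := by norm_num

theorem cb_norm_toC {y z : ℤ × ℤ} {w : ℝ} (hw : 0 ≤ w) (h1 : |((y.1 : ℝ) - z.1)| ≤ 2 * w)
    (h2 : |((y.2 : ℝ) - z.2)| ≤ 2 * w) : ‖toC y - toC z‖ ≤ 3 * w := by
  have h3 : ‖toC y - toC z‖ ^ 2 = ((y.1 : ℝ) - z.1) ^ 2 + ((y.2 : ℝ) - z.2) ^ 2 := by
    rw [Complex.sq_norm, Complex.normSq_apply]
    simp only [toC, Complex.sub_re, Complex.sub_im]
    ring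
  have h4 : ((y.1 : ℝ) - z.1) ^ 2 ≤ (2 * w) ^ 2 := sq_le_sq' (abs_le.1 h1).1 (abs_le.1 h1).2
  have h5 : ((y.2 : ℝ) - z.2) ^ 2 ≤ (2 * w) ^ 2 := sq_le_sq' (abs_le.1 h2).1 (abs_le.1 h2).2
  have h6 : ‖toC y - toC z‖ ^ 2 ≤ (3 * w) ^ 2 := by rw [h3]; nlinarith
  exact (abs_le_of_sq_le_sq' h6 (by linarith)).2

theorem cb_norm_rd (m : ℂ) : ‖toC (rd m) - m‖ ≤ 2 := by
  refine (Complex.norm_le_abs_re_add_abs_im _).trans ?_
  simp only [toC, rd, Complex.sub_re, Complex.sub_im]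
  have h1 := Int.floor_le m.re
  have h2 := Int.lt_floor_add_one m.re
  have h3 := Int.floor_le m.im
  have h4 := Int.lt_floor_add_one m.im
  have h5 : |(⌊m.re⌋ : ℝ) - m.re| ≤ 1 := by rw [abs_le]; constructor <;> linarith
  have h6 : |(⌊m.im⌋ : ℝ) - m.im| ≤ 1 := by rw [abs_le]; constructor <;> linarith
  linarith

theorem cb_len {s : ℝ} (hs : 0 < s) (hs' : s ≤ 1 / 8) (ℓ : ℕ) (c : ℕ → Fin 64 × Bool) (k : ℕ) :
    ‖(pst (bd s) 0 (-5, (ℓ : ℂ)) c k).2‖ = dl s ℓ k := by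
  have h := (pst_near (bd s) (fun j => (cb_bd_nonneg hs j).le)
    (fun j => (cb_bd_le hs j).trans hs') (cb_bd_anti hs) c (-5, (ℓ : ℂ)) 0).2.2 k
  rw [h]
  simp only [Complex.norm_natCast]
  rfl

/-- the point of the segment `k` near the start of segment `i` -/
theorem cb_seg {s : ℝ} {ℓ N : ℕ} (h : Par s ℓ N) {i : ℕ} (hi : i ≤ nl N)
    (c : ℕ → Fin 64 × Bool) {k : ℕ} (hk : k + mg N < i) :
    ∃ τ t : ℝ, 0 ≤ τ ∧ τ ≤ 1 ∧ 0 ≤ t ∧ t ≤ 1 ∧
      (24 ≤ ((c k).1 : ℕ) → ((c k).1 : ℕ) < 40 → 3 / 4 ≤ t) ∧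
      ∀ y : ℤ × ℤ,
        |y.1 - (rd ((pst (bd s) 0 (-5, (ℓ : ℂ)) c i).1 +
          (1 / 2) * (pst (bd s) 0 (-5, (ℓ : ℂ)) c i).2)).1| ≤ 2 * (wd N i : ℤ) →
        |y.2 - (rd ((pst (bd s) 0 (-5, (ℓ : ℂ)) c i).1 +
          (1 / 2) * (pst (bd s) 0 (-5, (ℓ : ℂ)) c i).2)).2| ≤ 2 * (wd N i : ℤ) →
        ‖toC y - ((pst (bd s) 0 (-5, (ℓ : ℂ)) c k).1 + (τ : ℂ) * (pst (bd s) 0 (-5, (ℓ : ℂ)) c k).2
          + bsign (c k).2 * (bd s k : ℂ) * Complex.I * (t : ℂ) *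
            (pst (bd s) 0 (-5, (ℓ : ℂ)) c k).2)‖ ≤
        bd s k * ‖(pst (bd s) 0 (-5, (ℓ : ℂ)) c k).2‖ / 16 := by
  have hki : k < i := by omega
  have hs := h.s_pos
  have hs' := h.s_le
  obtain ⟨h1, -, -⟩ := pst_near (bd s) (fun j => (cb_bd_nonneg hs j).le)
    (fun j => (cb_bd_le hs j).trans hs') (cb_bd_anti hs) c (-5, (ℓ : ℂ)) i
  obtain ⟨τ, t, e1, e2, e3, e4, e5, e6⟩ := h1 k hki
  refine ⟨τ, t, e1, e2, e3, e4, e5, ?_⟩
  intro y hy1 hy2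
  set P := pst (bd s) 0 (-5, (ℓ : ℂ)) c i with hP
  set Q := pst (bd s) 0 (-5, (ℓ : ℂ)) c k with hQ
  set m : ℂ := P.1 + (1 / 2) * P.2 with hm
  have hw0 : (0 : ℝ) ≤ (wd N i : ℝ) := Nat.cast_nonneg _
  have a1 : ‖toC y - toC (rd m)‖ ≤ 3 * (wd N i : ℝ) := by
    apply cb_norm_toC hw0
    · exact_mod_cast hy1
    · exact_mod_cast hy2
  have a2 := cb_norm_rd m
  have a3 : ‖(1 / 2) * P.2‖ ≤ (1 / 2) * (wd N i : ℝ) := by
    rw [norm_mul]
    have : ‖(1 / 2 : ℂ)‖ = 1 / 2 := by simp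
    rw [this, hP, cb_len hs hs']
    have := h.dl_le i hi
    linarith
  have a4 := h.near i hi k hk
  have hlen : ‖Q.2‖ = dl s ℓ k := cb_len hs hs' ℓ c k
  rw [hlen] at e6 ⊢
  have a5 : (1000 : ℝ) ≤ (wd N i : ℝ) := by
    have h2 := h.wd_ge i hi
    have h3 := h.lg
    have : 1000 ≤ wd N i := by
      calc 1000 ≤ Nat.log 2 N := h3
        _ = (Nat.log 2 N) ^ 1 := (pow_one _).symm
        _ ≤ (Nat.log 2 N) ^ 8 := Nat.pow_le_pow_right (by omega) (by norm_num)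
        _ ≤ wd N i := h2
    exact_mod_cast this
  have a6 : ‖toC y - P.1‖ ≤ 3 * (wd N i : ℝ) + 2 + (1 / 2) * (wd N i : ℝ) := by
    have : toC y - P.1 = (toC y - toC (rd m)) + (toC (rd m) - m) + (1 / 2) * P.2 := by
      rw [hm]; ring
    rw [this]
    exact (norm_add_le _ _).trans (add_le_add ((norm_add_le _ _).trans (add_le_add a1 a2)) a3)
  have a7 : toC y - (Q.1 + (τ : ℂ) * Q.2 + bsign (c k).2 * (bd s k : ℂ) * Complex.I * (t : ℂ) * Q.2)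
      = (toC y - P.1) +
        (P.1 - (Q.1 + (τ : ℂ) * Q.2 + bsign (c k).2 * (bd s k : ℂ) * Complex.I * (t : ℂ) * Q.2)) := by
    ring
  rw [a7]
  refine (norm_add_le _ _).trans ?_
  linarith

/-- the segments stay in the bulk -/
theorem cb_bulk {s : ℝ} {ℓ N : ℕ} (h : Par s ℓ N) (c : ℕ → Fin 64 × Bool) (k : ℕ) (z : ℤ × ℤ)
    (τ : ℝ) (h0 : 0 ≤ τ) (h1 : τ ≤ 1)
    (hz : ‖toC z - ((pst (bd s) 0 (-5, (ℓ : ℂ)) c k).1 +
      (τ : ℂ) * (pst (bd s) 0 (-5, (ℓ : ℂ)) c k).2)‖ ≤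
        2 * (bd s k * ‖(pst (bd s) 0 (-5, (ℓ : ℂ)) c k).2‖)) : z ∈ box N \ innerBdry N := by
  have hs := h.s_pos
  have hs' := h.s_le
  obtain ⟨-, h2, -⟩ := pst_near (bd s) (fun j => (cb_bd_nonneg hs j).le)
    (fun j => (cb_bd_le hs j).trans hs') (cb_bd_anti hs) c (-5, (ℓ : ℂ)) k
  obtain ⟨τ', e1, e2, e3⟩ := h2 k le_rfl τ h0 h1
  apply h.bulk z τ' e1 e2
  rw [cb_bd_zero] at e3
  simp only [Complex.norm_natCast] at e3
  rw [cb_len hs hs'] at hz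
  have a1 : bd s k * dl s ℓ k ≤ s * ℓ := by
    apply mul_le_mul (cb_bd_le hs k) (cb_dl_le hs hs' ℓ (Nat.cast_nonneg _) k) _ hs.le
    unfold dl
    positivity
  have a2 : 0 ≤ s * (ℓ : ℝ) := by positivity
  set Q := pst (bd s) 0 (-5, (ℓ : ℂ)) c k with hQ
  have a3 : toC z - (-5 + (τ' : ℂ) * (ℓ : ℂ)) =
      (toC z - (Q.1 + (τ : ℂ) * Q.2)) + (Q.1 + (τ : ℂ) * Q.2 - (-5 + (τ' : ℂ) * (ℓ : ℂ))) := by ring
  rw [a3]
  refine (norm_add_le _ _).trans ?_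
  linarith


theorem cb_green_le (N : ℕ) (hN : 1 ≤ N) (u v : ℤ × ℤ) :
    green (box N \ innerBdry N) u v ≤ Real.log (1 + 2 * (N : ℝ) ^ 2) / Real.log 2 := by
  have hK : 0 ≤ Real.log (1 + 2 * (N : ℝ) ^ 2) / Real.log 2 :=
    div_nonneg (Real.log_nonneg (by nlinarith [sq_nonneg (N : ℝ)])) (Real.log_nonneg (by norm_num))
  by_cases hu : u ∈ box N \ innerBdry N
  · by_cases hv : v ∈ box N \ innerBdry N
    · refine (green_log_off _ N hN (fun x hx y hy => cb_box_diam N hN x y (Finset.mem_sdiff.1 hx).1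
        (Finset.mem_sdiff.1 hy).1) u v hu hv).trans ?_
      apply div_le_div_of_nonneg_right _ (Real.log_nonneg (by norm_num))
      have : 0 ≤ Real.log (1 + ((u.1 : ℝ) - v.1) ^ 2 + ((u.2 : ℝ) - v.2) ^ 2) :=
        Real.log_nonneg (by nlinarith [sq_nonneg ((u.1 : ℝ) - v.1), sq_nonneg ((u.2 : ℝ) - v.2)])
      linarith
    · rw [(green_basic _).2.1 u v (Or.inr hv)]; exact hK
  · rw [(green_basic _).2.1 u v (Or.inl hu)]; exact hK

theorem cb_inc {N i : ℕ} (hN : 1 ≤ N) (hlg : 1000 ≤ Nat.log 2 N) (hw : (Nat.log 2 N) ^ 8 ≤ wd N i)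
    (o : Bool) (t : ℤ × ℤ) (p : ℝ) (hp0 : 1 - 1 / (Nat.log 2 N : ℝ) ^ 4 ≤ p) (hp : p ≤ 1)
    (hDV : (rect 1 (7 * wd N i - 1) 1 (wd N i - 1)).image (place o t) ⊆ box N \ innerBdry N)
    (x y : ℤ × ℤ)
    (hx : x ∈ (rect (wd N i) (5 * wd N i) (dw N i) (wd N i - dw N i)).image (place o t))
    (hy : y ∈ (rect (wd N i) (5 * wd N i) (dw N i) (wd N i - dw N i)).image (place o t))
    (h1 : |x.1 - y.1| ≤ (dw N i / (Nat.log 2 N) ^ 4 : ℕ))
    (h2 : |x.2 - y.2| ≤ (dw N i / (Nat.log 2 N) ^ 4 : ℕ)) :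
    ((1 / 4) * green (box N \ innerBdry N) x x -
        p / 4 * green ((rect 1 (7 * wd N i - 1) 1 (wd N i - 1)).image (place o t)) x x) -
      2 * ((1 / 4) * green (box N \ innerBdry N) x y -
        p / 4 * green ((rect 1 (7 * wd N i - 1) 1 (wd N i - 1)).image (place o t)) x y) +
      ((1 / 4) * green (box N \ innerBdry N) y y -
        p / 4 * green ((rect 1 (7 * wd N i - 1) 1 (wd N i - 1)).image (place o t)) y y) ≤
      1 / (Nat.log 2 N : ℝ) ^ 2 := by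
  set X := Nat.log 2 N with hX
  obtain ⟨n1, n2, n3, n4, n5, n6, n7⟩ := cb_nums X (wd N i) hlg hw
  have hdw : dw N i = wd N i / X ^ 2 := rfl
  rw [← hdw] at n1 n2 n3 n4 n5 n6 n7
  set K := Real.log (1 + 2 * (N : ℝ) ^ 2) / Real.log 2 with hK
  have hK1 : K ≤ 2 * (X : ℝ) + 4 := cb_K N hlg
  have hK0 : 0 ≤ K :=
    div_nonneg (Real.log_nonneg (by nlinarith [sq_nonneg (N : ℝ)])) (Real.log_nonneg (by norm_num))
  have hXr : (1000 : ℝ) ≤ X := by exact_mod_cast hlg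
  refine (inc_var _ _ hDV K (cb_green_le N hN) p hp x y (dw N i / X ^ 4) (dw N i - 2) (by omega)
    h1 h2 ?_).trans ?_
  · intro z a1 a2 a3 a4
    refine cb_margin (wd N i) (dw N i) (dw N i - 1) (by omega) n6 o t x y z hx hy ?_ ?_ ?_ ?_
    · have : ((dw N i - 1 : ℕ) : ℤ) = ((dw N i - 2 : ℕ) : ℤ) + 1 := by omega
      rw [this]; exact a1
    · have : ((dw N i - 1 : ℕ) : ℤ) = ((dw N i - 2 : ℕ) : ℤ) + 1 := by omega
      rw [this]; exact a2
    · have : ((dw N i - 1 : ℕ) : ℤ) = ((dw N i - 2 : ℕ) : ℤ) + 1 := by omega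
      rw [this]; exact a3
    · have : ((dw N i - 1 : ℕ) : ℤ) = ((dw N i - 2 : ℕ) : ℤ) + 1 := by omega
      rw [this]; exact a4
  · have b1 : ((dw N i / X ^ 4 : ℕ) : ℝ) * (X : ℝ) ^ 4 ≤ dw N i := by exact_mod_cast n3
    have b2 : (dw N i : ℝ) / 2 ≤ ((dw N i - 2 : ℕ) : ℝ) := by
      have : dw N i ≤ 2 * (dw N i - 2) := by omega
      have : (dw N i : ℝ) ≤ 2 * ((dw N i - 2 : ℕ) : ℝ) := by exact_mod_cast this
      linarith
    have b3 : (0 : ℝ) < ((dw N i - 2 : ℕ) : ℝ) := by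
      exact_mod_cast (by omega : 0 < dw N i - 2)
    have b4 : 5 * ((dw N i / X ^ 4 : ℕ) : ℝ) * K / ((dw N i - 2 : ℕ) : ℝ) ≤ 10 * K / (X : ℝ) ^ 4 := by
      rw [div_le_div_iff₀ b3 (by positivity)]
      have : 5 * ((dw N i / X ^ 4 : ℕ) : ℝ) * K * (X : ℝ) ^ 4 =
          5 * K * (((dw N i / X ^ 4 : ℕ) : ℝ) * (X : ℝ) ^ 4) := by ring
      rw [this]
      have h5 : 5 * K * (((dw N i / X ^ 4 : ℕ) : ℝ) * (X : ℝ) ^ 4) ≤ 5 * K * dw N i :=
        mul_le_mul_of_nonneg_left b1 (by positivity)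
      have h6 : 10 * K * ((dw N i : ℝ) / 2) ≤ 10 * K * ((dw N i - 2 : ℕ) : ℝ) :=
        mul_le_mul_of_nonneg_left b2 (by positivity)
      linarith
    have b5 : (1 - p) * K / 2 ≤ K / (2 * (X : ℝ) ^ 4) := by
      have : 1 - p ≤ 1 / (X : ℝ) ^ 4 := by linarith
      calc (1 - p) * K / 2 ≤ (1 / (X : ℝ) ^ 4) * K / 2 := by
            have := mul_le_mul_of_nonneg_right this hK0
            linarith
        _ = K / (2 * (X : ℝ) ^ 4) := by field_simp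
    refine (add_le_add b4 b5).trans ?_
    have b6 : 10 * K / (X : ℝ) ^ 4 + K / (2 * (X : ℝ) ^ 4) = (21 / 2) * K / (X : ℝ) ^ 4 := by
      field_simp; ring
    rw [b6, div_le_div_iff₀ (by positivity) (by positivity)]
    have b7 : (21 / 2) * K ≤ (X : ℝ) ^ 2 := by nlinarith
    have b8 : (0 : ℝ) ≤ (X : ℝ) ^ 2 := by positivity
    have b9 : (1 : ℝ) * (X : ℝ) ^ 4 = (X : ℝ) ^ 2 * (X : ℝ) ^ 2 := by ring
    rw [b9]
    exact mul_le_mul_of_nonneg_right b7 b8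

theorem cb_diag {N i : ℕ} (hN : 1 ≤ N) (hlg : 1000 ≤ Nat.log 2 N) (hw : (Nat.log 2 N) ^ 8 ≤ wd N i)
    (o : Bool) (t : ℤ × ℤ) (p : ℝ) (hp0 : 1 - 1 / (Nat.log 2 N : ℝ) ^ 4 ≤ p) (hp : p ≤ 1)
    (hDV : (rect 1 (7 * wd N i - 1) 1 (wd N i - 1)).image (place o t) ⊆ box N \ innerBdry N)
    (y : ℤ × ℤ)
    (hy : y ∈ (rect (wd N i) (5 * wd N i) (dw N i) (wd N i - dw N i)).image (place o t)) :
    (1 / 4) * green (box N \ innerBdry N) y y -
        p / 4 * green ((rect 1 (7 * wd N i - 1) 1 (wd N i - 1)).image (place o t)) y y ≤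
      3 * i + 4 * (Real.log (Nat.log 2 N) / Real.log 2) + 5 := by
  set X := Nat.log 2 N with hX
  obtain ⟨n1, n2, n3, n4, n5, n6, n7⟩ := cb_nums X (wd N i) hlg hw
  have hdw : dw N i = wd N i / X ^ 2 := rfl
  rw [← hdw] at n1 n2 n3 n4 n5 n6 n7
  have hK1 : Real.log (1 + 2 * (N : ℝ) ^ 2) / Real.log 2 ≤ 2 * (X : ℝ) + 4 := cb_K N hlg
  have hXr : (1000 : ℝ) ≤ X := by exact_mod_cast hlg
  have g1 := coarse_var (box N \ innerBdry N) _ hDV N hN
    (fun x hx y hy => cb_box_diam N hN x y (Finset.mem_sdiff.1 hx).1 (Finset.mem_sdiff.1 hy).1) y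
    (dw N i - 1) (by
      intro z a1 a2
      rw [abs_le] at a1 a2
      refine cb_margin (wd N i) (dw N i) (dw N i - 1) (by omega) n6 o t y y z hy hy ?_ ?_ ?_ ?_
      · rw [min_self]; linarith [a1.1]
      · rw [max_self]; linarith [a1.2]
      · rw [min_self]; linarith [a2.1]
      · rw [max_self]; linarith [a2.2])
  have g2 := cb_logratio X (wd N i) N i hN hlg hw rfl
  rw [← hdw] at g2
  have g3 := g1.trans g2
  have g4 : green ((rect 1 (7 * wd N i - 1) 1 (wd N i - 1)).image (place o t)) y y ≤ 2 * (X : ℝ) + 4 :=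
    (((green_basic _).2.2.2.1 _ hDV y y).trans (cb_green_le N hN y y)).trans hK1
  have g5 : 0 ≤ green ((rect 1 (7 * wd N i - 1) 1 (wd N i - 1)).image (place o t)) y y :=
    (green_basic _).1 y y
  set gV := green (box N \ innerBdry N) y y
  set gD := green ((rect 1 (7 * wd N i - 1) 1 (wd N i - 1)).image (place o t)) y y
  have g6 : (1 - p) * gD ≤ 1 := by
    have h1 : 1 - p ≤ 1 / (X : ℝ) ^ 4 := by linarith
    calc (1 - p) * gD ≤ (1 / (X : ℝ) ^ 4) * (2 * (X : ℝ) + 4) :=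
          mul_le_mul h1 g4 g5 (by positivity)
      _ ≤ 1 := by
          rw [one_div, inv_mul_le_iff₀ (by positivity), mul_one]
          have h2 : (X : ℝ) ^ 1 ≤ (X : ℝ) ^ 3 := pow_le_pow_right₀ (by linarith) (by norm_num)
          have h3 : (X : ℝ) ^ 4 = X * (X : ℝ) ^ 3 := by ring
          rw [h3]
          nlinarith
  have g7 : 0 ≤ Real.log X / Real.log 2 :=
    div_nonneg (Real.log_nonneg (by linarith)) (Real.log_nonneg (by norm_num))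
  have g8 : (1 / 4) * gV - p / 4 * gD = (1 / 4) * (gV - gD) + (1 / 4) * ((1 - p) * gD) := by ring
  rw [g8]
  linarith

theorem cb_gaps {N s} {ℓ i : ℕ} (h : Par s ℓ N) (hi : i ≤ nl N) {k : ℕ} (hk : k < i - mg N) :
    k + mg N < i ∧ k < nl N := by
  omega

/-- the factor of one level -/
theorem cb_tilt {c1 : ℝ} (hc0 : 0 < c1)
    (hlev : ∀ (D S : Finset (ℤ × ℤ)), D ⊆ S → ∀ (Λ L T ρ : ℕ), 1 ≤ Λ → 1 ≤ L → 2 * L ∣ Λ →
    ∀ (δ : ℝ) (s : ℂ × ℂ), 0 < δ → δ ≤ 1 / 8 → 96 ≤ δ * ‖s.2‖ → 16 / δ ≤ T → (T : ℝ) ≤ 16 / δ + 1 →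
      3 / 8 * (δ * ‖s.2‖) ≤ ρ → (ρ : ℝ) ≤ 3 / 8 * (δ * ‖s.2‖) + 1 →
      2 * (L : ℝ) ≤ δ * ‖s.2‖ / 16 → δ * ‖s.2‖ / 64 ≤ L →
      (∀ (z : ℤ × ℤ) (τ : ℝ), 0 ≤ τ → τ ≤ 1 →
        ‖toC z - (s.1 + (τ : ℂ) * s.2)‖ ≤ 2 * (δ * ‖s.2‖) → z ∈ D) →
    ∀ (b : Bool) (v : (S : Finset (ℤ × ℤ))) (τ t : ℝ), 0 ≤ τ → τ ≤ 1 → 0 ≤ t → t ≤ 1 →
      ‖toC v - (s.1 + (τ : ℂ) * s.2 + bsign b * δ * Complex.I * (t : ℂ) * s.2)‖ ≤ δ * ‖s.2‖ / 16 →
    ∀ θ : ℝ, 0 ≤ θ → θ * Real.sqrt δ ≤ 1 →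
      ∫ x : EuclideanSpace ℝ (S : Finset (ℤ × ℤ)), Set.indicator
          {x : EuclideanSpace ℝ (S : Finset (ℤ × ℤ)) |
            (if b then (1 : ℝ) else -1) * ∑ y, Wfun S T ρ δ s y * x y ≤ 0}
          (fun x => Real.exp (θ * x v)) x
          ∂(multivariateGaussian (0 : EuclideanSpace ℝ (S : Finset (ℤ × ℤ)))
              (Matrix.of fun x y : (S : Finset (ℤ × ℤ)) => Gam D Λ L x y)) ≤
        (1 / 2) * Real.exp (θ ^ 2 * Gam D Λ L v v / 2) *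
          (if 3 / 4 ≤ t then Real.exp (-(c1 * (θ * Real.sqrt δ))) else 1))
    {s : ℝ} {ℓ N : ℕ} (h : Par s ℓ N) {i : ℕ} (hi : i ≤ nl N) (c : ℕ → Fin 64 × Bool) {k : ℕ}
    (hk : k + mg N < i) (θ : ℝ) (hθ0 : 0 ≤ θ) (hθ1 : θ ≤ 1) (y : ↥(box N))
    (hy1 : |(y : ℤ × ℤ).1 - (rd ((pst (bd s) 0 (-5, (ℓ : ℂ)) c i).1 +
          (1 / 2) * (pst (bd s) 0 (-5, (ℓ : ℂ)) c i).2)).1| ≤ 2 * (wd N i : ℤ))
    (hy2 : |(y : ℤ × ℤ).2 - (rd ((pst (bd s) 0 (-5, (ℓ : ℂ)) c i).1 +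
          (1 / 2) * (pst (bd s) 0 (-5, (ℓ : ℂ)) c i).2)).2| ≤ 2 * (wd N i : ℤ)) :
    ∫ x, (sgn N s ℓ (c k).2 k (pst (bd s) 0 (-5, (ℓ : ℂ)) c k)).indicator
        (fun x => Real.exp (θ * x y)) x
        ∂(multivariateGaussian (0 : EuclideanSpace ℝ ↥(box N)) (GG N s ℓ k)) ≤
      (1 / 2) * (if 24 ≤ ((c k).1 : ℕ) ∧ ((c k).1 : ℕ) < 40 then
            Real.exp (-(c1 * (θ * Real.sqrt (bd s k)))) else 1) *
        Real.exp (θ ^ 2 * Gam (box N \ innerBdry N) (2 * lc s ℓ 0) (lc s ℓ k) y y / 2) := by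
  have hs := h.s_pos
  have hs' := h.s_le
  have hkn : k < nl N := by omega
  have h0n : 0 < nl N := by omega
  obtain ⟨τ, t, e1, e2, e3, e4, e5, e6⟩ := cb_seg h hi c hk
  have e7 := e6 y hy1 hy2
  have hb0 := cb_bd_nonneg hs k
  have hlen := cb_len hs hs' ℓ c k
  obtain ⟨f1, f2, f3⟩ := h.lc_fac k hkn
  have f4 := (h.lc_fac 0 h0n).1
  have f5 := h.big k hkn
  have hq : θ * Real.sqrt (bd s k) ≤ 1 := by
    have h1 : Real.sqrt (bd s k) ≤ 1 := by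
      rw [Real.sqrt_le_left (by norm_num)]
      linarith [cb_bd_le hs k]
    calc θ * Real.sqrt (bd s k) ≤ 1 * 1 := mul_le_mul hθ1 h1 (Real.sqrt_nonneg _) (by norm_num)
      _ = 1 := one_mul 1
  have key := hlev (box N \ innerBdry N) (box N) Finset.sdiff_subset (2 * lc s ℓ 0) (lc s ℓ k)
    ⌈16 / bd s k⌉₊ ⌈3 / 8 * (bd s k * dl s ℓ k)⌉₊ (by omega) f1 (h.lc_dvd0 k hkn) (bd s k)
    (pst (bd s) 0 (-5, (ℓ : ℂ)) c k) hb0 ((cb_bd_le hs k).trans hs') (by rw [hlen]; exact f5)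
    (Nat.le_ceil _) (Nat.ceil_lt_add_one (by positivity)).le (by rw [hlen]; exact Nat.le_ceil _)
    (by
      rw [hlen]
      refine (Nat.ceil_lt_add_one ?_).le
      linarith) (by rw [hlen]; exact f2) (by rw [hlen]; exact f3)
    (fun z τ h0 h1 hz => cb_bulk h c k z τ h0 h1 hz) (c k).2 y τ t e1 e2 e3 e4 e7 θ hθ0 hq
  have hGG : GG N s ℓ k = Matrix.of fun x y : ↥(box N) =>
      Gam (box N \ innerBdry N) (2 * lc s ℓ 0) (lc s ℓ k) x y := by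
    unfold GG
    rw [if_pos hkn]
  rw [hGG]
  refine key.trans ?_
  rw [mul_right_comm]
  apply mul_le_mul_of_nonneg_right _ (Real.exp_nonneg _)
  apply mul_le_mul_of_nonneg_left _ (by norm_num)
  have hle : Real.exp (-(c1 * (θ * Real.sqrt (bd s k)))) ≤ 1 := by
    rw [Real.exp_le_one_iff]
    have : 0 ≤ c1 * (θ * Real.sqrt (bd s k)) := by positivity
    linarith
  by_cases h1 : 24 ≤ ((c k).1 : ℕ) ∧ ((c k).1 : ℕ) < 40
  · rw [if_pos h1, if_pos (e5 h1.1 h1.2)]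
  · rw [if_neg h1]
    split_ifs
    · exact hle
    · exact le_rfl

theorem cb_sgn_meas (N : ℕ) (s : ℝ) (ℓ : ℕ) (b : Bool) (i : ℕ) (seg : ℂ × ℂ) :
    MeasurableSet (sgn N s ℓ b i seg) := by
  unfold sgn
  apply measurableSet_le _ measurable_const
  apply Measurable.const_mul
  apply Finset.measurable_sum
  intro y _
  apply Measurable.const_mul
  fun_prop

theorem _root_.H941.coarse_bound : ∃ c1 : ℝ, 0 < c1 ∧ c1 ≤ 1 ∧ ∀ (s : ℝ) (ℓ N : ℕ), Par s ℓ N → ∀ i ≤ nl N,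
    ∀ (c : ℕ → Fin 64 × Bool) (o : Bool) (t : ℤ × ℤ) (p lam θ : ℝ)
      (A : Matrix ↥(box N) ↥(box N) ℝ), A.PosSemidef → 0 ≤ θ → θ ≤ 1 →
      1 - 1 / (Nat.log 2 N : ℝ) ^ 4 ≤ p → 0 ≤ p → p ≤ 1 →
      (rect 1 (7 * wd N i - 1) 1 (wd N i - 1)).image (place o t) ⊆ box N \ innerBdry N →
      (∀ z ∈ (rect (wd N i) (5 * wd N i) (dw N i) (wd N i - dw N i)).image (place o t),
        |z.1 - (rd ((pst (bd s) 0 (-5, (ℓ : ℂ)) c i).1 + (1 / 2) * (pst (bd s) 0 (-5, (ℓ : ℂ)) c i).2)).1| ≤ 2 * (wd N i : ℤ) ∧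
        |z.2 - (rd ((pst (bd s) 0 (-5, (ℓ : ℂ)) c i).1 + (1 / 2) * (pst (bd s) 0 (-5, (ℓ : ℂ)) c i).2)).2| ≤ 2 * (wd N i : ℤ)) →
      (A = Matrix.of fun x y : ↥(box N) => ((1 / 4) * green (box N \ innerBdry N) x y -
        ∑ k ∈ Finset.range (i - mg N), Gam (box N \ innerBdry N) (2 * lc s ℓ 0) (lc s ℓ k) x y) -
          p / 4 * green ((rect 1 (7 * wd N i - 1) 1 (wd N i - 1)).image (place o t)) x y) →
      (Measure.pi (fun k : Fin (i - mg N + 1) => multivariateGaussian (0 : EuclideanSpace ℝ ↥(box N))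
          (if k = Fin.last (i - mg N) then A else GG N s ℓ k)))
        {ω | (∀ k : Fin (i - mg N), ω k.castSucc ∈ sgn N s ℓ (c k).2 k (pst (bd s) 0 (-5, (ℓ : ℂ)) c k)) ∧
          ∃ x : ↥(box N), (x : ℤ × ℤ) ∈ (rect (wd N i) (5 * wd N i) (dw N i) (wd N i - dw N i)).image (place o t) ∧
            lam < ∑ k, ω k x} ≤
      ENNReal.ofReal (100 * (Nat.log 2 N : ℝ) ^ 12 * (Real.exp (-(θ * (lam - 1))) *
          ((∏ k ∈ Finset.range (i - mg N), (1 / 2) * (if 24 ≤ ((c k).1 : ℕ) ∧ ((c k).1 : ℕ) < 40 then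
            Real.exp (-(c1 * (θ * Real.sqrt (bd s k)))) else 1)) *
            Real.exp (θ ^ 2 * (3 * i + 4 * (Real.log (Nat.log 2 N) / Real.log 2) + 5) / 2))) +
        5 * (wd N i : ℝ) ^ 2 * Real.exp (-((Nat.log 2 N : ℝ) ^ 2 / 2))) := by
  obtain ⟨c1, hc0, hc1, hlev⟩ := level_factor
  refine ⟨c1, hc0, hc1, ?_⟩
  intro s ℓ N h i hi c o t p lam θ A hA hθ0 hθ1 hp1 hp0 hp2 hDV hR hAdef
  have hlg := h.lg
  have hN : 1 ≤ N := by
    by_contra h0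
    have : N = 0 := by omega
    rw [this] at hlg
    simp at hlg
  have hw := h.wd_ge i hi
  obtain ⟨n1, n2, n3, n4, n5, n6, n7⟩ := cb_nums (Nat.log 2 N) (wd N i) hlg hw
  have hdw : dw N i = wd N i / (Nat.log 2 N) ^ 2 := rfl
  rw [← hdw] at n1 n2 n3 n4 n5 n6 n7
  have hXr : (1000 : ℝ) ≤ (Nat.log 2 N : ℝ) := by exact_mod_cast hlg
  have hRD : ∀ z ∈ (rect (wd N i) (5 * wd N i) (dw N i) (wd N i - dw N i)).image (place o t),
      z ∈ box N := by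
    intro z hz
    have h1 := cb_margin (wd N i) (dw N i) 0 (by omega) n6 o t z z z hz hz (by simp) (by simp)
      (by simp) (by simp)
    exact (Finset.mem_sdiff.1 (hDV h1)).1
  obtain ⟨S, hSc, hS⟩ := cb_net (wd N i) (dw N i) (dw N i / (Nat.log 2 N) ^ 4) n1 o t
  have hπ0 : ∀ x : ↥(box N), ∃ y : ↥(box N),
      (x : ℤ × ℤ) ∈ (rect (wd N i) (5 * wd N i) (dw N i) (wd N i - dw N i)).image (place o t) →
      ((y : ℤ × ℤ) ∈ (rect (wd N i) (5 * wd N i) (dw N i) (wd N i - dw N i)).image (place o t) ∧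
        (y : ℤ × ℤ) ∈ S ∧ |(x : ℤ × ℤ).1 - (y : ℤ × ℤ).1| ≤ (dw N i / (Nat.log 2 N) ^ 4 : ℕ) ∧
        |(x : ℤ × ℤ).2 - (y : ℤ × ℤ).2| ≤ (dw N i / (Nat.log 2 N) ^ 4 : ℕ)) := by
    intro x
    by_cases hx : (x : ℤ × ℤ) ∈
        (rect (wd N i) (5 * wd N i) (dw N i) (wd N i - dw N i)).image (place o t)
    · obtain ⟨y, h1, h2, h3, h4⟩ := hS x hx
      exact ⟨⟨y, hRD y h1⟩, fun _ => ⟨h1, h2, h3, h4⟩⟩
    · exact ⟨x, fun h => absurd h hx⟩
  choose π hπ using hπ0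
  set Rs : Finset ↥(box N) := Finset.univ.filter (fun x => (x : ℤ × ℤ) ∈
    (rect (wd N i) (5 * wd N i) (dw N i) (wd N i - dw N i)).image (place o t)) with hRs
  set Net : Finset ↥(box N) := Finset.univ.filter (fun x => (x : ℤ × ℤ) ∈
    (rect (wd N i) (5 * wd N i) (dw N i) (wd N i - dw N i)).image (place o t) ∧
      (x : ℤ × ℤ) ∈ S) with hNet
  have hRsm : ∀ x : ↥(box N), x ∈ Rs ↔ (x : ℤ × ℤ) ∈
      (rect (wd N i) (5 * wd N i) (dw N i) (wd N i - dw N i)).image (place o t) := by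
    intro x; rw [hRs, Finset.mem_filter]; simp
  have hNetm : ∀ x : ↥(box N), x ∈ Net ↔ (x : ℤ × ℤ) ∈
      (rect (wd N i) (5 * wd N i) (dw N i) (wd N i - dw N i)).image (place o t) ∧
      (x : ℤ × ℤ) ∈ S := by
    intro x; rw [hNet, Finset.mem_filter]; simp
  have hNetc : (Net.card : ℝ) ≤ 100 * (Nat.log 2 N : ℝ) ^ 12 := by
    have h1 : Net.card ≤ S.card := by
      apply Finset.card_le_card_of_injOn Subtype.val
      · intro x hx
        exact Finset.mem_coe.2 ((hNetm x).1 (Finset.mem_coe.1 hx)).2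
      · exact fun x _ y _ h => Subtype.ext h
    have h2 := h1.trans (hSc.trans (cb_card (Nat.log 2 N) (wd N i) _ hlg n1 n4))
    exact_mod_cast h2
  have hRsc : (Rs.card : ℝ) ≤ 5 * (wd N i : ℝ) ^ 2 := by
    have h1 : Rs.card ≤ ((rect (wd N i) (5 * wd N i) (dw N i)
        (wd N i - dw N i)).image (place o t)).card := by
      apply Finset.card_le_card_of_injOn Subtype.val
      · intro x hx
        exact Finset.mem_coe.2 ((hRsm x).1 (Finset.mem_coe.1 hx))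
      · exact fun x _ y _ h => Subtype.ext h
    have h2 := h1.trans (cb_Rcard (wd N i) (dw N i) (by omega) o t)
    exact_mod_cast h2
  -- the matrices
  set Γ : Fin (i - mg N + 1) → Matrix ↥(box N) ↥(box N) ℝ :=
    fun k => if k = Fin.last (i - mg N) then A else GG N s ℓ k with hΓ
  have hΓcast : ∀ k : Fin (i - mg N), Γ k.castSucc = GG N s ℓ k := by
    intro k
    simp only [hΓ]
    rw [if_neg (Fin.castSucc_lt_last k).ne]
    rfl
  have hΓlast : Γ (Fin.last (i - mg N)) = A := by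
    simp only [hΓ, if_true]
  have hGG : ∀ k : Fin (i - mg N), ∀ x y : ↥(box N), GG N s ℓ k x y =
      Gam (box N \ innerBdry N) (2 * lc s ℓ 0) (lc s ℓ k) x y := by
    intro k x y
    unfold GG
    rw [if_pos (cb_gaps h hi k.2).2]
    rfl
  have hC : ∀ x y : ↥(box N), (∑ k, Γ k) x y = (1 / 4) * green (box N \ innerBdry N) x y -
      p / 4 * green ((rect 1 (7 * wd N i - 1) 1 (wd N i - 1)).image (place o t)) x y := by
    intro x y
    rw [Fin.sum_univ_castSucc, Matrix.add_apply, Matrix.sum_apply, hΓlast, hAdef]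
    have h1 : ∑ k : Fin (i - mg N), Γ k.castSucc x y = ∑ k ∈ Finset.range (i - mg N),
        Gam (box N \ innerBdry N) (2 * lc s ℓ 0) (lc s ℓ k) x y := by
      rw [← Fin.sum_univ_eq_sum_range
        (fun k => Gam (box N \ innerBdry N) (2 * lc s ℓ 0) (lc s ℓ k) x y)]
      apply Finset.sum_congr rfl
      intro k _
      rw [hΓcast, hGG]
    rw [h1, Matrix.of_apply]
    ring
  set fac : ℕ → ℝ := fun k => (1 / 2) * (if 24 ≤ ((c k).1 : ℕ) ∧ ((c k).1 : ℕ) < 40 then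
    Real.exp (-(c1 * (θ * Real.sqrt (bd s k)))) else 1) with hfac
  have hfac0 : ∀ k, 0 ≤ fac k := by
    intro k
    simp only [hfac]
    split_ifs <;> positivity
  have hv : (0 : ℝ) < 1 / (Nat.log 2 N : ℝ) ^ 2 := by positivity
  have main := net_bound (i - mg N) Γ ?_
    (fun k => sgn N s ℓ (c k).2 k (pst (bd s) 0 (-5, (ℓ : ℂ)) c k))
    (fun k => cb_sgn_meas N s ℓ _ _ _) Rs Net π
    (fun x hx => (hNetm _).2 ⟨(hπ x ((hRsm x).1 hx)).1, (hπ x ((hRsm x).1 hx)).2.1⟩)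
    (1 / (Nat.log 2 N : ℝ) ^ 2) θ (lam - 1)
    ((∏ k ∈ Finset.range (i - mg N), fac k) *
      Real.exp (θ ^ 2 * (3 * i + 4 * (Real.log (Nat.log 2 N) / Real.log 2) + 5) / 2)) hv hθ0 ?_
    (fun k y => fac k *
      Real.exp (θ ^ 2 * Gam (box N \ innerBdry N) (2 * lc s ℓ 0) (lc s ℓ k) y y / 2)) ?_ ?_
  · refine (le_trans (le_of_eq ?_) main).trans ?_
    · congr 1
      ext ω
      simp only [Set.mem_setOf_eq]
      constructor
      · rintro ⟨h1, x, h2, h3⟩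
        exact ⟨h1, x, (hRsm x).2 h2, by linarith⟩
      · rintro ⟨h1, x, h2, h3⟩
        exact ⟨h1, x, (hRsm x).1 h2, by linarith⟩
    · apply ENNReal.ofReal_le_ofReal
      have e1 : (1 : ℝ) / (2 * (1 / (Nat.log 2 N : ℝ) ^ 2)) = (Nat.log 2 N : ℝ) ^ 2 / 2 := by
        field_simp
      rw [e1]
      apply add_le_add
      · apply mul_le_mul_of_nonneg_right hNetc
        apply mul_nonneg (Real.exp_nonneg _)
        apply mul_nonneg _ (Real.exp_nonneg _)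
        exact Finset.prod_nonneg fun k _ => hfac0 k
      · exact mul_le_mul_of_nonneg_right hRsc (Real.exp_nonneg _)
  · intro k
    simp only [hΓ]
    split_ifs
    · exact hA
    · exact (GG_facts s ℓ N h).1 _
  · intro x hx
    have h1 := (hRsm x).1 hx
    obtain ⟨h2, h3, h4, h5⟩ := hπ x h1
    rw [hC, hC, hC]
    exact cb_inc hN hlg hw o t p hp1 hp2 hDV x (π x) h1 h2 h4 h5
  · intro k y hy
    have h1 := ((hNetm y).1 hy).1
    have h2 := hR y h1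
    simp only [hΓcast]
    exact cb_tilt hc0 hlev h hi c (cb_gaps h hi k.2).1 θ hθ0 hθ1 y h2.1 h2.2
  · intro y hy
    have h1 := ((hNetm y).1 hy).1
    rw [hΓlast, Finset.prod_mul_distrib, ← Real.exp_sum, mul_assoc, ← Real.exp_add,
      Fin.prod_univ_eq_prod_range]
    apply mul_le_mul_of_nonneg_left _ (Finset.prod_nonneg fun k _ => hfac0 k)
    apply Real.exp_le_exp.2
    have h2 := hC y y
    rw [Fin.sum_univ_castSucc, Matrix.add_apply, Matrix.sum_apply, hΓlast] at h2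
    have h3 : ∑ k : Fin (i - mg N), Γ k.castSucc y y = ∑ k : Fin (i - mg N),
        Gam (box N \ innerBdry N) (2 * lc s ℓ 0) (lc s ℓ k) y y := by
      apply Finset.sum_congr rfl
      intro k _
      rw [hΓcast, hGG]
    rw [h3] at h2
    have h4 := cb_diag hN hlg hw o t p hp1 hp2 hDV y h1
    rw [← h2] at h4
    have h5 : ∑ k : Fin (i - mg N),
        θ ^ 2 * Gam (box N \ innerBdry N) (2 * lc s ℓ 0) (lc s ℓ k) y y / 2 +
          θ ^ 2 * A y y / 2 = θ ^ 2 * (∑ k : Fin (i - mg N),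
        Gam (box N \ innerBdry N) (2 * lc s ℓ 0) (lc s ℓ k) y y + A y y) / 2 := by
      rw [← Finset.sum_div, ← Finset.mul_sum]
      ring
    rw [h5]
    have h6 := mul_le_mul_of_nonneg_left h4 (sq_nonneg θ)
    linarith

end H941.coarse_bound
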