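import Pool.Agent.H941.Defs3

open MeasureTheory ProbabilityTheory

namespace H941.count_markov

theorem _root_.H941.count_markov {Ω C : Type} [MeasurableSpace Ω] [Fintype C] (P : Measure Ω) (E : C → Set Ω)
    (B : ℝ) (hB : 0 < B) (X : Ω → ℝ) (hX : ∀ ω, X ω ≤ ∑ c, (E c).indicator (fun _ => (1 : ℝ)) ω) :
    P {ω | B ≤ X ω} ≤ (∑ c, P (E c)) / ENNReal.ofReal B := by
  have hm : ∀ c, Measurable ((toMeasurable P (E c)).indicator (fun _ => (1 : ENNReal))) :=
    fun c => measurable_const.indicator (measurableSet_toMeasurable _ _)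
  have h1 : {ω | B ≤ X ω} ⊆ {ω | ENNReal.ofReal B ≤
      ∑ c, (toMeasurable P (E c)).indicator (fun _ => (1 : ENNReal)) ω} := by
    intro ω hω
    have h2 : B ≤ ∑ c, (E c).indicator (fun _ => (1 : ℝ)) ω := le_trans hω (hX ω)
    have h3 : ENNReal.ofReal (∑ c, (E c).indicator (fun _ => (1 : ℝ)) ω) =
        ∑ c, (E c).indicator (fun _ => (1 : ENNReal)) ω := by
      rw [ENNReal.ofReal_sum_of_nonneg fun c _ => Set.indicator_nonneg (fun _ _ => zero_le_one) ω]
      refine Finset.sum_congr rfl fun c _ => ?_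
      by_cases h : ω ∈ E c
      · simp [h]
      · simp [h]
    refine (ENNReal.ofReal_le_ofReal h2).trans ?_
    rw [h3]
    refine Finset.sum_le_sum fun c _ => ?_
    exact Set.indicator_le_indicator_of_subset (subset_toMeasurable P (E c))
      (fun _ => bot_le) ω
  refine (measure_mono h1).trans ?_
  refine (meas_ge_le_lintegral_div (Finset.measurable_fun_sum _ fun c _ => hm c).aemeasurable
    (by simpa using hB) ENNReal.ofReal_ne_top).trans ?_
  gcongr
  rw [lintegral_finsetSum _ fun c _ => hm c]
  refine Finset.sum_le_sum fun c _ => ?_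
  rw [lintegral_indicator_const (measurableSet_toMeasurable _ _), one_mul, measure_toMeasurable]

end H941.count_markov
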