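import Pool.Agent.H941.Defs3
import Pool.Agent.H941.A3
import Pool.Agent.H941.A4

open MeasureTheory ProbabilityTheory

namespace H941.decouple

/-- positive semidefinite kernels -/
def GamPK (K : ℤ × ℤ → ℤ × ℤ → ℝ) : Prop :=
  (∀ x y, K x y = K y x) ∧ ∀ (S : Finset (ℤ × ℤ)) (f : ℤ × ℤ → ℝ),
    0 ≤ ∑ x ∈ S, ∑ y ∈ S, f x * K x y * f y

theorem GamPK.add {K K' : ℤ × ℤ → ℤ × ℤ → ℝ} (h : GamPK K) (h' : GamPK K') :
    GamPK (fun x y => K x y + K' x y) := by
  refine ⟨fun x y => by show K x y + K' x y = K y x + K' y x; rw [h.1 x y, h'.1 x y], fun S f => ?_⟩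
  have e : ∑ x ∈ S, ∑ y ∈ S, f x * (K x y + K' x y) * f y =
      (∑ x ∈ S, ∑ y ∈ S, f x * K x y * f y) + ∑ x ∈ S, ∑ y ∈ S, f x * K' x y * f y := by
    rw [← Finset.sum_add_distrib]
    refine Finset.sum_congr rfl fun x _ => ?_
    rw [← Finset.sum_add_distrib]
    refine Finset.sum_congr rfl fun y _ => ?_
    ring
  rw [e]
  exact add_nonneg (h.2 S f) (h'.2 S f)

theorem GamPK.smul {K : ℤ × ℤ → ℤ × ℤ → ℝ} (h : GamPK K) {c : ℝ} (hc : 0 ≤ c) :
    GamPK (fun x y => c * K x y) := by
  refine ⟨fun x y => by show c * K x y = c * K y x; rw [h.1 x y], fun S f => ?_⟩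
  have e : ∑ x ∈ S, ∑ y ∈ S, f x * (c * K x y) * f y =
      c * ∑ x ∈ S, ∑ y ∈ S, f x * K x y * f y := by
    rw [Finset.mul_sum]
    refine Finset.sum_congr rfl fun x _ => ?_
    rw [Finset.mul_sum]
    refine Finset.sum_congr rfl fun y _ => ?_
    ring
  rw [e]
  exact mul_nonneg hc (h.2 S f)

theorem GamPK.zero : GamPK (fun _ _ => 0) :=
  ⟨fun _ _ => rfl, fun S f => by simp⟩

theorem GamPK.sum {ι : Type} (s : Finset ι) {K : ι → ℤ × ℤ → ℤ × ℤ → ℝ}
    (h : ∀ i ∈ s, GamPK (K i)) : GamPK (fun x y => ∑ i ∈ s, K i x y) := by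
  classical
  induction s using Finset.induction_on with
  | empty => simpa using GamPK.zero
  | insert a s ha ih =>
    have h1 := (h a (Finset.mem_insert_self _ _)).add
      (ih fun i hi => h i (Finset.mem_insert_of_mem hi))
    have e : (fun x y => ∑ i ∈ insert a s, K i x y) =
        fun x y => K a x y + ∑ i ∈ s, K i x y := by
      funext x y
      rw [Finset.sum_insert ha]
    rw [e]
    exact h1

theorem GamPK.green_sub {D D' : Finset (ℤ × ℤ)} (h : D ⊆ D') :
    GamPK (fun x y => green D' x y - green D x y) := by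
  classical
  obtain ⟨-, g2, g3, -, -, -⟩ := green_basic D
  obtain ⟨-, g2', g3', -, -, -⟩ := green_basic D'
  refine ⟨fun x y => by
    show H941.green D' x y - H941.green D x y = H941.green D' y x - H941.green D y x
    rw [g3 x y, g3' x y], fun S f => ?_⟩
  have hz : ∀ x y, x ∉ D' ∨ y ∉ D' → green D' x y - green D x y = 0 := by
    intro x y hxy
    rw [g2' x y hxy, g2 x y (hxy.imp (fun h1 h2 => h1 (h h2)) (fun h1 h2 => h1 (h h2))), sub_self]
  have key : ∀ F : ℤ × ℤ → ℤ × ℤ → ℝ, (∀ x y, x ∉ D' ∨ y ∉ D' → F x y = 0) →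
      (∀ x y, x ∉ S ∨ y ∉ S → F x y = 0) →
      ∑ x ∈ S, ∑ y ∈ S, F x y = ∑ x ∈ D', ∑ y ∈ D', F x y := by
    intro F h1 h2
    have e1 : ∑ x ∈ S, ∑ y ∈ S, F x y = ∑ x ∈ S ∪ D', ∑ y ∈ S ∪ D', F x y := by
      rw [← Finset.sum_subset (Finset.subset_union_left : S ⊆ S ∪ D')]
      · refine Finset.sum_congr rfl fun x _ => ?_
        exact Finset.sum_subset Finset.subset_union_left fun y _ hy => h2 x y (Or.inr hy)
      · intro x _ hx
        exact Finset.sum_eq_zero fun y _ => h2 x y (Or.inl hx)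
    have e2 : ∑ x ∈ D', ∑ y ∈ D', F x y = ∑ x ∈ S ∪ D', ∑ y ∈ S ∪ D', F x y := by
      rw [← Finset.sum_subset (Finset.subset_union_right : D' ⊆ S ∪ D')]
      · refine Finset.sum_congr rfl fun x _ => ?_
        exact Finset.sum_subset Finset.subset_union_right fun y _ hy => h1 x y (Or.inr hy)
      · intro x _ hx
        exact Finset.sum_eq_zero fun y _ => h1 x y (Or.inl hx)
    rw [e1, e2]
  have h1 := green_psd D D' h (fun x => if x ∈ S then f x else 0)
  rw [← key (fun x y => (if x ∈ S then f x else 0) * (green D' x y - green D x y) *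
    (if y ∈ S then f y else 0))] at h1
  · refine le_of_le_of_eq h1 ?_
    refine Finset.sum_congr rfl fun x hx => Finset.sum_congr rfl fun y hy => ?_
    rw [if_pos hx, if_pos hy]
  · intro x y hxy
    rw [hz x y hxy, mul_zero, zero_mul]
  · intro x y hxy
    rcases hxy with h2 | h2
    · rw [if_neg h2, zero_mul, zero_mul]
    · rw [if_neg h2, mul_zero]

theorem GamPK.green (D : Finset (ℤ × ℤ)) : GamPK (fun x y => green D x y) := by
  have h := GamPK.green_sub (Finset.empty_subset D)
  obtain ⟨-, g2, -, -, -, -⟩ := green_basic ∅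
  have e : (fun x y => H941.green D x y - H941.green ∅ x y) = fun x y => H941.green D x y := by
    funext x y
    rw [g2 x y (Or.inl (Finset.notMem_empty _)), sub_zero]
  rw [e] at h
  exact h

theorem GamPK.matrix {K : ℤ × ℤ → ℤ × ℤ → ℝ} (h : GamPK K) (S : Finset (ℤ × ℤ)) :
    (Matrix.of fun x y : (S : Finset (ℤ × ℤ)) => K x y).PosSemidef := by
  classical
  apply Matrix.PosSemidef.of_dotProduct_mulVec_nonneg
  · apply Matrix.IsHermitian.ext
    intro i j
    simp [h.1 i j]
  · intro x
    have h1 := h.2 S (fun a => if ha : a ∈ S then x ⟨a, ha⟩ else 0)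
    refine le_of_le_of_eq h1 ?_
    rw [← Finset.sum_coe_sort S]
    rw [dotProduct]
    refine Finset.sum_congr rfl fun i _ => ?_
    rw [← Finset.sum_coe_sort S, Matrix.mulVec, dotProduct, Finset.mul_sum]
    refine Finset.sum_congr rfl fun j _ => ?_
    simp [i.2, j.2, mul_assoc]

/-- the average over the shifts -/
noncomputable def Gamav (Λ : ℕ) (G : ℤ × ℤ → ℤ × ℤ → ℤ × ℤ → ℝ) (x y : ℤ × ℤ) : ℝ :=
  (1 / 4) * (1 / (Λ : ℝ) ^ 2) * ∑ a ∈ Finset.range Λ, ∑ b ∈ Finset.range Λ,
    G ((a : ℤ), (b : ℤ)) x y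

theorem GamPK.av {Λ : ℕ} {G : ℤ × ℤ → ℤ × ℤ → ℤ × ℤ → ℝ} (h : ∀ s, GamPK (G s)) :
    GamPK (Gamav Λ G) := by
  have h1 : GamPK (fun x y => ∑ a ∈ Finset.range Λ, ∑ b ∈ Finset.range Λ,
      G ((a : ℤ), (b : ℤ)) x y) := by
    refine GamPK.sum _ fun a _ => ?_
    exact GamPK.sum (ι := ℕ) (Finset.range Λ) (K := fun (b : ℕ) x y => G ((a : ℤ), (b : ℤ)) x y)
      fun b _ => h _
  exact h1.smul (by positivity)

theorem Gamav_sub (Λ : ℕ) (G G' : ℤ × ℤ → ℤ × ℤ → ℤ × ℤ → ℝ) (x y : ℤ × ℤ) :
    Gamav Λ (fun s x y => G s x y - G' s x y) x y = Gamav Λ G x y - Gamav Λ G' x y := by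
  unfold Gamav
  rw [← mul_sub]
  congr 1
  rw [← Finset.sum_sub_distrib]
  refine Finset.sum_congr rfl fun a _ => ?_
  rw [← Finset.sum_sub_distrib]

theorem Gamav_const {Λ : ℕ} (hΛ : 1 ≤ Λ) (K : ℤ × ℤ → ℤ × ℤ → ℝ) (x y : ℤ × ℤ) :
    Gamav Λ (fun _ => K) x y = (1 / 4) * K x y := by
  unfold Gamav
  have : (Λ : ℝ) ≠ 0 := by
    have : (0 : ℝ) < Λ := by exact_mod_cast hΛ
    exact this.ne'
  simp only [Finset.sum_const, Finset.card_range, nsmul_eq_mul]
  field_simp

theorem Gam_grid_subset (D : Finset (ℤ × ℤ)) {L L' : ℕ} (h : L ∣ L') (s : ℤ × ℤ) :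
    gridSet D L s ⊆ gridSet D L' s := by
  classical
  intro z hz
  unfold gridSet at hz ⊢
  rw [Finset.mem_filter] at hz ⊢
  have h' : (L : ℤ) ∣ (L' : ℤ) := Int.natCast_dvd_natCast.2 h
  exact ⟨hz.1, fun h1 => hz.2.1 (h'.trans h1), fun h1 => hz.2.2 (h'.trans h1)⟩

theorem Gam_eq (D : Finset (ℤ × ℤ)) (Λ L : ℕ) (x y : ℤ × ℤ) : Gam D Λ L x y =
    Gamav Λ (fun s => green (gridSet D (2 * L) s)) x y -
      Gamav Λ (fun s => green (gridSet D L s)) x y := by
  rw [← Gamav_sub]
  rfl

theorem Gam_psd (D S : Finset (ℤ × ℤ)) (Λ n : ℕ) (hΛ : 1 ≤ Λ) (L : ℕ → ℕ)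
    (hdvd : ∀ i, i + 1 < n → 2 * L (i + 1) ∣ L i) :
    (∀ i, (Matrix.of fun x y : (S : Finset (ℤ × ℤ)) => Gam D Λ (L i) x y).PosSemidef) ∧
    (Matrix.of fun x y : (S : Finset (ℤ × ℤ)) =>
      (1 / 4) * green D x y - ∑ i ∈ Finset.range n, Gam D Λ (L i) x y).PosSemidef := by
  classical
  constructor
  · intro i
    have h1 : GamPK (Gam D Λ (L i)) := by
      have h2 : GamPK (Gamav Λ (fun s x y => green (gridSet D (2 * L i) s) x y -
          green (gridSet D (L i) s) x y)) :=
        GamPK.av fun s => GamPK.green_sub (Gam_grid_subset D (Dvd.intro_left 2 rfl) s)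
      exact h2
    exact h1.matrix S
  · -- the remainder
    have key : ∀ n, (∀ i, i + 1 < n → 2 * L (i + 1) ∣ L i) →
        GamPK (fun x y => (1 / 4) * green D x y - ∑ i ∈ Finset.range n, Gam D Λ (L i) x y) ∧
        ∀ m, n = m + 1 → GamPK (fun x y => (1 / 4) * green D x y -
          ∑ i ∈ Finset.range n, Gam D Λ (L i) x y -
            Gamav Λ (fun s => green (gridSet D (L m) s)) x y) := by
      intro n
      induction n with
      | zero =>
        intro _
        refine ⟨?_, fun m hm => by omega⟩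
        simp only [Finset.range_zero, Finset.sum_empty, sub_zero]
        exact (GamPK.green D).smul (by norm_num)
      | succ n ih =>
        intro hd
        have hb : GamPK (Gamav Λ (fun s => green (gridSet D (L n) s))) :=
          GamPK.av fun s => GamPK.green _
        have hmain : GamPK (fun x y => (1 / 4) * green D x y -
            ∑ i ∈ Finset.range (n + 1), Gam D Λ (L i) x y -
              Gamav Λ (fun s => green (gridSet D (L n) s)) x y) := by
          cases n with
          | zero =>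
            have h1 : GamPK (Gamav Λ (fun s x y => green D x y -
                green (gridSet D (2 * L 0) s) x y)) :=
              GamPK.av fun s => GamPK.green_sub (Finset.filter_subset _ _)
            have e : (fun x y => (1 / 4) * green D x y -
                ∑ i ∈ Finset.range (0 + 1), Gam D Λ (L i) x y -
                  Gamav Λ (fun s => green (gridSet D (L 0) s)) x y) =
                Gamav Λ (fun s x y => green D x y - green (gridSet D (2 * L 0) s) x y) := by
              funext x y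
              rw [Gamav_sub Λ (fun _ => green D) (fun s => green (gridSet D (2 * L 0) s)),
                Gamav_const hΛ]
              simp only [zero_add, Finset.range_one, Finset.sum_singleton, Gam_eq]
              ring
            rw [e]
            exact h1
          | succ m =>
            have h1 := (ih fun i hi => hd i (by omega)).2 m rfl
            have h2 : GamPK (Gamav Λ (fun s x y => green (gridSet D (L m) s) x y -
                green (gridSet D (2 * L (m + 1)) s) x y)) :=
              GamPK.av fun s => GamPK.green_sub (Gam_grid_subset D (hd m (by omega)) s)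
            have h3 := h1.add h2
            have e : (fun x y => (1 / 4) * green D x y -
                ∑ i ∈ Finset.range (m + 1 + 1), Gam D Λ (L i) x y -
                  Gamav Λ (fun s => green (gridSet D (L (m + 1)) s)) x y) =
                fun x y => (1 / 4) * green D x y -
                  ∑ i ∈ Finset.range (m + 1), Gam D Λ (L i) x y -
                    Gamav Λ (fun s => green (gridSet D (L m) s)) x y +
                  Gamav Λ (fun s x y => green (gridSet D (L m) s) x y -
                    green (gridSet D (2 * L (m + 1)) s) x y) x y := by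
              funext x y
              rw [Gamav_sub Λ (fun s => green (gridSet D (L m) s))
                (fun s => green (gridSet D (2 * L (m + 1)) s)),
                Finset.sum_range_succ _ (m + 1), Gam_eq D Λ (L (m + 1))]
              ring
            rw [e]
            exact h3
        refine ⟨?_, fun m hm => ?_⟩
        · have h1 := hmain.add hb
          have e : (fun x y => (1 / 4) * green D x y -
              ∑ i ∈ Finset.range (n + 1), Gam D Λ (L i) x y -
                Gamav Λ (fun s => green (gridSet D (L n) s)) x y +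
              Gamav Λ (fun s => green (gridSet D (L n) s)) x y) =
              fun x y => (1 / 4) * green D x y -
                ∑ i ∈ Finset.range (n + 1), Gam D Λ (L i) x y := by
            funext x y
            ring
          rw [e] at h1
          exact h1
        · have : m = n := by omega
          subst this
          exact hmain
    exact (key n hdvd).1.matrix S

theorem decouple_key (V : Finset (ℤ × ℤ)) (Λ : ℕ) (hΛ : 1 ≤ Λ) (L : ℕ → ℕ) :
    ∀ m, (∀ i, i + 1 < m + 1 → 2 * L (i + 1) ∣ L i) →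
        GamPK (fun x y => (1 / 4) * green V x y -
          ∑ i ∈ Finset.range (m + 1), Gam V Λ (L i) x y -
            Gamav Λ (fun s => green (gridSet V (L m) s)) x y) := by
  intro m
  induction m with
  | zero =>
    intro _
    have h1 : GamPK (Gamav Λ (fun s x y => green V x y -
        green (gridSet V (2 * L 0) s) x y)) :=
      GamPK.av fun s => GamPK.green_sub (Finset.filter_subset _ _)
    have e : (fun x y => (1 / 4) * green V x y -
        ∑ i ∈ Finset.range (0 + 1), Gam V Λ (L i) x y -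
          Gamav Λ (fun s => green (gridSet V (L 0) s)) x y) =
        Gamav Λ (fun s x y => green V x y - green (gridSet V (2 * L 0) s) x y) := by
      funext x y
      rw [Gamav_sub Λ (fun _ => green V) (fun s => green (gridSet V (2 * L 0) s)),
        Gamav_const hΛ]
      simp only [zero_add, Finset.range_one, Finset.sum_singleton, Gam_eq]
      ring
    rw [e]
    exact h1
  | succ m ih =>
    intro hd
    have h1 := ih fun i hi => hd i (by omega)
    have h2 : GamPK (Gamav Λ (fun s x y => green (gridSet V (L m) s) x y -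
        green (gridSet V (2 * L (m + 1)) s) x y)) :=
      GamPK.av fun s => GamPK.green_sub (Gam_grid_subset V (hd m (by omega)) s)
    have h3 := h1.add h2
    have e : (fun x y => (1 / 4) * green V x y -
        ∑ i ∈ Finset.range (m + 1 + 1), Gam V Λ (L i) x y -
          Gamav Λ (fun s => green (gridSet V (L (m + 1)) s)) x y) =
        fun x y => (1 / 4) * green V x y -
          ∑ i ∈ Finset.range (m + 1), Gam V Λ (L i) x y -
            Gamav Λ (fun s => green (gridSet V (L m) s)) x y +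
          Gamav Λ (fun s x y => green (gridSet V (L m) s) x y -
            green (gridSet V (2 * L (m + 1)) s) x y) x y := by
      funext x y
      rw [Gamav_sub Λ (fun s => green (gridSet V (L m) s))
        (fun s => green (gridSet V (2 * L (m + 1)) s)),
        Finset.sum_range_succ _ (m + 1), Gam_eq V Λ (L (m + 1))]
      ring
    rw [e]
    exact h3

theorem decouple_res (M k : ℕ) (x : ℤ) :
    ((Finset.range (M * k)).filter (fun u : ℕ => (M : ℤ) ∣ x - (u : ℤ))).card ≤ k := by
  classical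
  rcases Nat.eq_zero_or_pos M with hM | hM
  · subst hM
    simp
  have h1 : ((Finset.range (M * k)).filter (fun u : ℕ => (M : ℤ) ∣ x - (u : ℤ))).card ≤
      (Finset.range k).card := by
    apply Finset.card_le_card_of_injOn (fun u => u / M)
    · intro u hu
      simp only [Finset.coe_filter, Finset.mem_range, Set.mem_setOf_eq] at hu
      simp only [Finset.coe_range, Set.mem_Iio]
      exact Nat.div_lt_of_lt_mul hu.1
    · intro u hu v hv huv
      simp only [Finset.coe_filter, Finset.mem_range, Set.mem_setOf_eq] at hu hv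
      have h2 : (M : ℤ) ∣ (u : ℤ) - v := by
        have := Int.dvd_sub hv.2 hu.2
        have e : x - (v : ℤ) - (x - u) = u - v := by ring
        rwa [e] at this
      have h3 : (u : ℕ) % M = v % M := by
        have h4 : (u : ℤ) % M = (v : ℤ) % M :=
          Int.emod_eq_emod_iff_emod_sub_eq_zero.2 (Int.emod_eq_zero_of_dvd h2)
        exact_mod_cast h4
      have h5 : u / M = v / M := huv
      rw [← Nat.div_add_mod u M, ← Nat.div_add_mod v M, h3, h5]
  simpa using h1

open Classical in
theorem decouple_bad (M k : ℕ) (x0 : ℤ) (a : ℕ) :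
    ((Finset.range (M * k)).filter
      (fun u : ℕ => ∃ x : ℤ, x0 < x ∧ x < x0 + a ∧ (M : ℤ) ∣ x - (u : ℤ))).card ≤ a * k := by
  classical
  have h1 : (Finset.range (M * k)).filter
      (fun u : ℕ => ∃ x : ℤ, x0 < x ∧ x < x0 + a ∧ (M : ℤ) ∣ x - (u : ℤ)) ⊆
      (Finset.Ioo x0 (x0 + a)).biUnion (fun x =>
        (Finset.range (M * k)).filter (fun u : ℕ => (M : ℤ) ∣ x - (u : ℤ))) := by
    intro u hu
    rw [Finset.mem_filter] at hu
    obtain ⟨hu1, x, hx1, hx2, hx3⟩ := hu
    rw [Finset.mem_biUnion]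
    exact ⟨x, Finset.mem_Ioo.2 ⟨hx1, hx2⟩, Finset.mem_filter.2 ⟨hu1, hx3⟩⟩
  refine (Finset.card_le_card h1).trans ?_
  refine (Finset.card_biUnion_le_card_mul _ _ k fun x _ => decouple_res M k x).trans ?_
  refine Nat.mul_le_mul_right k ?_
  rw [Int.card_Ioo]
  omega

theorem _root_.H941.decouple (V S D : Finset (ℤ × ℤ)) (hD : D ⊆ V) (Λ j : ℕ) (hΛ : 1 ≤ Λ) (L : ℕ → ℕ) (hj : 1 ≤ j)
    (hL : 1 ≤ L (j - 1)) (hLΛ : L (j - 1) ∣ Λ) (hdvd : ∀ i, i + 1 < j → 2 * L (i + 1) ∣ L i)
    (x0 y0 : ℤ) (a b : ℕ) (hD2 : ∀ z ∈ D, x0 < z.1 ∧ z.1 < x0 + a ∧ y0 < z.2 ∧ z.2 < y0 + b) :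
    ∃ p : ℝ, 1 - ((a : ℝ) + b) / L (j - 1) ≤ p ∧ 0 ≤ p ∧ p ≤ 1 ∧
      (Matrix.of fun x y : (S : Finset (ℤ × ℤ)) =>
        ((1 / 4) * green V x y - ∑ i ∈ Finset.range j, Gam V Λ (L i) x y) - p / 4 * green D x y).PosSemidef := by
  classical
  obtain ⟨m, rfl⟩ : ∃ m, j = m + 1 := ⟨j - 1, by omega⟩
  simp only [Nat.add_sub_cancel] at hL hLΛ ⊢
  set M := L m with hM
  obtain ⟨k, hk⟩ := hLΛ
  have hΛ0 : (0 : ℝ) < Λ := by exact_mod_cast hΛ
  have hM0 : (0 : ℝ) < M := by exact_mod_cast hL
  -- the indicator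
  let I : ℤ × ℤ → ℝ := fun s => if D ⊆ gridSet V M s then 1 else 0
  have hI0 : ∀ s, 0 ≤ I s := by
    intro s
    show (0 : ℝ) ≤ if D ⊆ gridSet V M s then 1 else 0
    split_ifs <;> norm_num
  have hI1 : ∀ s, I s ≤ 1 := by
    intro s
    show (if D ⊆ gridSet V M s then (1 : ℝ) else 0) ≤ 1
    split_ifs <;> norm_num
  set p : ℝ := (1 / (Λ : ℝ) ^ 2) * ∑ u ∈ Finset.range Λ, ∑ v ∈ Finset.range Λ,
    I ((u : ℤ), (v : ℤ)) with hp
  refine ⟨p, ?_, ?_, ?_, ?_⟩
  · -- lower bound
    let B : ℕ → ℝ := fun u => if ∃ x : ℤ, x0 < x ∧ x < x0 + a ∧ (M : ℤ) ∣ x - (u : ℤ) then 1 else 0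
    let C : ℕ → ℝ := fun v => if ∃ y : ℤ, y0 < y ∧ y < y0 + b ∧ (M : ℤ) ∣ y - (v : ℤ) then 1 else 0
    have hBC : ∀ u v : ℕ, 1 - B u - C v ≤ I ((u : ℤ), (v : ℤ)) := by
      intro u v
      show 1 - (if ∃ x : ℤ, x0 < x ∧ x < x0 + a ∧ (M : ℤ) ∣ x - (u : ℤ) then (1 : ℝ) else 0) -
        (if ∃ y : ℤ, y0 < y ∧ y < y0 + b ∧ (M : ℤ) ∣ y - (v : ℤ) then (1 : ℝ) else 0) ≤
        if D ⊆ gridSet V M ((u : ℤ), (v : ℤ)) then (1 : ℝ) else 0
      by_cases hB : ∃ x : ℤ, x0 < x ∧ x < x0 + a ∧ (M : ℤ) ∣ x - (u : ℤ)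
      · rw [if_pos hB]
        have h1 := hI0 ((u : ℤ), (v : ℤ))
        have h2 : (0 : ℝ) ≤ if ∃ y : ℤ, y0 < y ∧ y < y0 + b ∧ (M : ℤ) ∣ y - (v : ℤ) then (1 : ℝ) else 0 := by
          split_ifs <;> norm_num
        have h3 : I ((u : ℤ), (v : ℤ)) = if D ⊆ gridSet V M ((u : ℤ), (v : ℤ)) then (1 : ℝ) else 0 := rfl
        rw [← h3]
        linarith
      · by_cases hC : ∃ y : ℤ, y0 < y ∧ y < y0 + b ∧ (M : ℤ) ∣ y - (v : ℤ)
        · rw [if_neg hB, if_pos hC]
          have h1 := hI0 ((u : ℤ), (v : ℤ))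
          have h3 : I ((u : ℤ), (v : ℤ)) = if D ⊆ gridSet V M ((u : ℤ), (v : ℤ)) then (1 : ℝ) else 0 := rfl
          rw [← h3]
          linarith
        · rw [if_neg hB, if_neg hC, if_pos]
          · norm_num
          · intro z hz
            unfold gridSet
            rw [Finset.mem_filter]
            obtain ⟨h1, h2, h3, h4⟩ := hD2 z hz
            refine ⟨hD hz, fun h5 => hB ⟨z.1, h1, h2, h5⟩, fun h5 => hC ⟨z.2, h3, h4, h5⟩⟩
    have hBs : ∑ u ∈ Finset.range Λ, B u ≤ (a : ℝ) * k := by
      have h1 : ∑ u ∈ Finset.range Λ, B u = (((Finset.range Λ).filter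
        (fun u : ℕ => ∃ x : ℤ, x0 < x ∧ x < x0 + a ∧ (M : ℤ) ∣ x - (u : ℤ))).card : ℝ) := by
        rw [Finset.sum_ite]
        simp
      rw [h1, hk]
      exact_mod_cast decouple_bad M k x0 a
    have hCs : ∑ u ∈ Finset.range Λ, C u ≤ (b : ℝ) * k := by
      have h1 : ∑ u ∈ Finset.range Λ, C u = (((Finset.range Λ).filter
        (fun u : ℕ => ∃ x : ℤ, y0 < x ∧ x < y0 + b ∧ (M : ℤ) ∣ x - (u : ℤ))).card : ℝ) := by
        rw [Finset.sum_ite]
        simp
      rw [h1, hk]
      exact_mod_cast decouple_bad M k y0 b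
    have hsum : (Λ : ℝ) ^ 2 - (a : ℝ) * k * Λ - (b : ℝ) * k * Λ ≤
        ∑ u ∈ Finset.range Λ, ∑ v ∈ Finset.range Λ, I ((u : ℤ), (v : ℤ)) := by
      have h1 : ∑ u ∈ Finset.range Λ, ∑ v ∈ Finset.range Λ, (1 - B u - C v) ≤
          ∑ u ∈ Finset.range Λ, ∑ v ∈ Finset.range Λ, I ((u : ℤ), (v : ℤ)) :=
        Finset.sum_le_sum fun u _ => Finset.sum_le_sum fun v _ => hBC u v
      refine le_trans ?_ h1
      have h2 : ∑ u ∈ Finset.range Λ, ∑ v ∈ Finset.range Λ, (1 - B u - C v) =
          (Λ : ℝ) ^ 2 - (∑ u ∈ Finset.range Λ, B u) * Λ - (∑ u ∈ Finset.range Λ, C u) * Λ := by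
        simp only [Finset.sum_sub_distrib, Finset.sum_const, Finset.card_range, nsmul_eq_mul,
          mul_one, ← Finset.mul_sum]
        ring
      rw [h2]
      nlinarith
    have hkM : (Λ : ℝ) = M * k := by exact_mod_cast hk
    have hk0 : (0 : ℝ) < k := by
      by_contra h
      have : (k : ℝ) = 0 := le_antisymm (not_lt.1 h) (Nat.cast_nonneg k)
      rw [this, mul_zero] at hkM
      exact hΛ0.ne' hkM
    have h3 : (1 / (Λ : ℝ) ^ 2) * ((Λ : ℝ) ^ 2 - (a : ℝ) * k * Λ - (b : ℝ) * k * Λ) =
        1 - ((a : ℝ) + b) / M := by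
      rw [hkM]
      field_simp
      ring
    rw [← h3, hp]
    exact mul_le_mul_of_nonneg_left hsum (by positivity)
  · rw [hp]
    refine mul_nonneg (by positivity) ?_
    exact Finset.sum_nonneg fun u _ => Finset.sum_nonneg fun v _ => hI0 _
  · have h1 : ∑ u ∈ Finset.range Λ, ∑ v ∈ Finset.range Λ, I ((u : ℤ), (v : ℤ)) ≤ (Λ : ℝ) ^ 2 := by
      refine (Finset.sum_le_sum fun u _ => Finset.sum_le_sum fun v _ => hI1 _).trans ?_
      simp only [Finset.sum_const, Finset.card_range, nsmul_eq_mul, mul_one]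
      exact le_of_eq (by ring)
    rw [hp]
    refine (mul_le_mul_of_nonneg_left h1 (by positivity)).trans ?_
    rw [one_div, inv_mul_cancel₀ (by positivity)]
  · have h1 := decouple_key V Λ hΛ L m hdvd
    have h2 : GamPK (Gamav Λ (fun s x y => green (gridSet V M s) x y - I s * green D x y)) := by
      refine GamPK.av fun s => ?_
      by_cases hs : D ⊆ gridSet V M s
      · have h3 := GamPK.green_sub hs
        have e : (fun x y => green (gridSet V M s) x y - I s * green D x y) =
            fun x y => green (gridSet V M s) x y - green D x y := by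
          funext x y
          have : I s = 1 := if_pos hs
          rw [this, one_mul]
        rw [e]
        exact h3
      · have h3 := GamPK.green (gridSet V M s)
        have e : (fun x y => green (gridSet V M s) x y - I s * green D x y) =
            fun x y => green (gridSet V M s) x y := by
          funext x y
          have : I s = 0 := if_neg hs
          rw [this, zero_mul, sub_zero]
        rw [e]
        exact h3
    have h3 := h1.add h2
    have e : (fun x y => (1 / 4) * green V x y -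
        ∑ i ∈ Finset.range (m + 1), Gam V Λ (L i) x y -
          Gamav Λ (fun s => green (gridSet V (L m) s)) x y +
        Gamav Λ (fun s x y => green (gridSet V M s) x y - I s * green D x y) x y) =
        fun x y => ((1 / 4) * green V x y -
          ∑ i ∈ Finset.range (m + 1), Gam V Λ (L i) x y) - p / 4 * green D x y := by
      funext x y
      rw [Gamav_sub Λ (fun s => green (gridSet V M s)) (fun s x y => I s * green D x y)]
      have h4 : Gamav Λ (fun s x y => I s * green D x y) x y = p / 4 * green D x y := by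
        unfold Gamav
        rw [hp]
        simp only [← Finset.sum_mul]
        ring
      rw [h4, ← hM]
      ring
    rw [e] at h3
    exact h3.matrix S

end H941.decouple
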