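import Pool.Agent.H941.Defs3

open MeasureTheory ProbabilityTheory

namespace H941.grid_connected

theorem _root_.H941.grid_connected : grid.Connected ∧
    ∀ {V : Type} (G : SimpleGraph V) (S : Set V) (U : Finset V), S ⊆ (U : Set V) → (G.induce S).Connected →
      ∀ a ∈ S, ∀ b ∈ S, ∃ p : G.Walk a b, (∀ z ∈ p.support, z ∈ S) ∧ p.support.length ≤ U.card := by
  constructor
  · have step1 : ∀ x y : ℤ, grid.Adj (x, y) (x + 1, y) := by
      intro x y
      change |x - (x + 1)| + |y - y| = 1
      simp
    have step2 : ∀ x y : ℤ, grid.Adj (x, y) (x, y + 1) := by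
      intro x y
      change |x - x| + |y - (y + 1)| = 1
      simp
    have row : ∀ x y : ℤ, grid.Reachable (0, y) (x, y) := by
      intro x y
      induction x using Int.induction_on with
      | zero => exact SimpleGraph.Reachable.refl _
      | succ i ih => exact ih.trans (step1 _ _).reachable
      | pred i ih =>
        have h := step1 (-(i : ℤ) - 1) y
        rw [sub_add_cancel] at h
        exact ih.trans h.symm.reachable
    have col : ∀ y : ℤ, grid.Reachable (0, 0) (0, y) := by
      intro y
      induction y using Int.induction_on with
      | zero => exact SimpleGraph.Reachable.refl _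
      | succ i ih => exact ih.trans (step2 _ _).reachable
      | pred i ih =>
        have h := step2 0 (-(i : ℤ) - 1)
        rw [sub_add_cancel] at h
        exact ih.trans h.symm.reachable
    have all : ∀ u : ℤ × ℤ, grid.Reachable (0, 0) u := fun u => (col u.2).trans (row u.1 u.2)
    exact { preconnected := fun u v => (all u).symm.trans (all v), nonempty := ⟨(0, 0)⟩ }
  · intro V G S U hSU hc a ha b hb
    classical
    obtain ⟨w⟩ := hc.preconnected ⟨a, ha⟩ ⟨b, hb⟩
    let f : G.induce S →g G := (SimpleGraph.Embedding.induce S).toHom
    have key : ∃ p : G.Walk (f ⟨a, ha⟩) (f ⟨b, hb⟩), (∀ z ∈ p.support, z ∈ S) ∧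
        p.support.length ≤ U.card := by
      refine ⟨w.toPath.1.map f, ?_, ?_⟩
      · intro z hz
        rw [SimpleGraph.Walk.support_map, List.mem_map] at hz
        obtain ⟨y, _, rfl⟩ := hz
        exact y.2
      · rw [SimpleGraph.Walk.support_map]
        have hnd : (w.toPath.1.support.map f).Nodup :=
          (w.toPath.2.support_nodup).map (fun x y h => Subtype.ext h)
        rw [← List.toFinset_card_of_nodup hnd]
        apply Finset.card_le_card
        intro z hz
        rw [List.mem_toFinset, List.mem_map] at hz
        obtain ⟨y, _, rfl⟩ := hz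
        exact hSU y.2
    exact key

end H941.grid_connected
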