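import Pool.Agent.H941.Defs3

open MeasureTheory ProbabilityTheory

namespace H941.hull_lemma

/-- every walk from `v` to `w0` meets `A` -/
def Hul {V : Type} (G : SimpleGraph V) (w0 : V) (A : Set V) (v : V) : Prop :=
  ∀ r : G.Walk v w0, ∃ z ∈ r.support, z ∈ A

theorem hul_step {V : Type} {G : SimpleGraph V} {w0 : V} {A : Set V} {z z' : V}
    (h : Hul G w0 A z) (hz : z ∉ A) (ha : G.Adj z z') : Hul G w0 A z' := by
  intro r
  obtain ⟨y, hy, hyA⟩ := h (SimpleGraph.Walk.cons ha r)
  rw [SimpleGraph.Walk.support_cons, List.mem_cons] at hy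
  rcases hy with rfl | hy
  · exact absurd hyA hz
  · exact ⟨y, hy, hyA⟩

theorem hul_self {V : Type} {G : SimpleGraph V} {w0 : V} {A : Set V} (h : Hul G w0 A w0) :
    w0 ∈ A := by
  obtain ⟨z, hz, hzA⟩ := h SimpleGraph.Walk.nil
  rw [SimpleGraph.Walk.support_nil, List.mem_singleton] at hz
  rwa [hz] at hzA

theorem hul_trans {V : Type} {G : SimpleGraph V} {w0 : V} {A B : Set V}
    (hBA : ∀ y ∈ B, Hul G w0 A y) {z w : V} (r : G.Walk z w) :
    w = w0 → Hul G w0 B z → ∃ y ∈ r.support, y ∈ A := by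
  induction r with
  | nil =>
    rintro rfl hz
    exact ⟨_, by simp, hul_self (hBA _ (hul_self hz))⟩
  | cons ha r' ih =>
    rename_i u v w'
    rintro rfl hz
    by_cases hu : u ∈ B
    · exact hBA u hu (SimpleGraph.Walk.cons ha r')
    · obtain ⟨y, hy, hyA⟩ := ih rfl (hul_step hz hu ha)
      exact ⟨y, by rw [SimpleGraph.Walk.support_cons]; exact List.mem_cons_of_mem _ hy, hyA⟩

theorem hul_conn {V : Type} {G : SimpleGraph V} {w0 : V} {A B : Set V}
    (hAB : Disjoint A B) {x y : A} (p : (G.induce A).Walk x y) (hx : Hul G w0 B x) :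
    Hul G w0 B y := by
  induction p with
  | nil => exact hx
  | cons ha r' ih =>
    rename_i u v w'
    exact ih (hul_step hx (fun h => (Set.disjoint_left.1 hAB) u.2 h) ha)

theorem hul_disj {V : Type} {G : SimpleGraph V} {w0 : V} {A B : Set V}
    (hA : (G.induce A).Connected) (hB : (G.induce B).Connected) (hAB : Disjoint A B)
    {a0 b0 : V} (ha0 : a0 ∈ A) (ha1 : ¬ Hul G w0 B a0) (hb0 : b0 ∈ B) (hb1 : ¬ Hul G w0 A b0)
    {z w : V} (r : G.Walk z w) : w = w0 → Hul G w0 A z → Hul G w0 B z → False := by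
  induction r with
  | nil =>
    rintro rfl h1 h2
    exact (Set.disjoint_left.1 hAB) (hul_self h1) (hul_self h2)
  | cons ha r' ih =>
    rename_i u v w'
    rintro rfl h1 h2
    by_cases hu : u ∈ A
    · obtain ⟨p⟩ := hA.preconnected ⟨u, hu⟩ ⟨a0, ha0⟩
      exact ha1 (hul_conn hAB p h2)
    by_cases hu' : u ∈ B
    · obtain ⟨p⟩ := hB.preconnected ⟨u, hu'⟩ ⟨b0, hb0⟩
      exact hb1 (hul_conn hAB.symm p h1)
    exact ih rfl (hul_step h1 hu ha) (hul_step h2 hu' ha)

theorem _root_.H941.hull_lemma {V : Type} (G : SimpleGraph V) (hG : G.Connected) (w0 : V) {a b : V} (γ : G.Walk a b)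
    (H : V → Set V) (hconn : ∀ v ∈ γ.support, (G.induce (H v)).Connected)
    (hsep : ∀ v ∈ γ.support, ∀ r : G.Walk v w0, ∃ z ∈ r.support, z ∈ H v) :
    ∃ S : Set V, (G.induce S).Connected ∧ (∀ z ∈ S, ∃ v ∈ γ.support, z ∈ H v) ∧
      ∀ v ∈ γ.support, ∀ r : G.Walk v w0, ∃ z ∈ r.support, z ∈ S := by
  induction γ with
  | nil =>
    rename_i u
    have hu : u ∈ (SimpleGraph.Walk.nil : G.Walk u u).support := by simp
    refine ⟨H u, hconn u hu, fun z hz => ⟨u, hu, hz⟩, fun v hv => ?_⟩
    rw [SimpleGraph.Walk.support_nil, List.mem_singleton] at hv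
    subst hv
    exact hsep v hu
  | cons ha γ' ih =>
    rename_i u x b'
    have hsub : ∀ v ∈ γ'.support, v ∈ (SimpleGraph.Walk.cons ha γ').support := fun v hv => by
      rw [SimpleGraph.Walk.support_cons]
      exact List.mem_cons_of_mem _ hv
    have hu : u ∈ (SimpleGraph.Walk.cons ha γ').support := by simp
    obtain ⟨B, hB1, hB2, hB3⟩ := ih (fun v hv => hconn v (hsub v hv)) fun v hv => hsep v (hsub v hv)
    have hxB : Hul G w0 B x := hB3 x (SimpleGraph.Walk.start_mem_support γ')
    have hcase : ∀ v ∈ (SimpleGraph.Walk.cons ha γ').support, v = u ∨ v ∈ γ'.support := by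
      intro v hv
      rw [SimpleGraph.Walk.support_cons, List.mem_cons] at hv
      exact hv
    by_cases huB : Hul G w0 B u
    · refine ⟨B, hB1, fun z hz => ?_, fun v hv => ?_⟩
      · obtain ⟨v, hv, hzv⟩ := hB2 z hz
        exact ⟨v, hsub v hv, hzv⟩
      · rcases hcase v hv with rfl | hv'
        · exact huB
        · exact hB3 v hv'
    have huA : Hul G w0 (H u) u := hsep u hu
    have hA1 := hconn u hu
    have hun : (G.induce (H u ∪ B)).Connected → ∃ S : Set V, (G.induce S).Connected ∧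
        (∀ z ∈ S, ∃ v ∈ (SimpleGraph.Walk.cons ha γ').support, z ∈ H v) ∧
        ∀ v ∈ (SimpleGraph.Walk.cons ha γ').support, ∀ r : G.Walk v w0,
          ∃ z ∈ r.support, z ∈ S := by
      intro hc
      refine ⟨H u ∪ B, hc, ?_, ?_⟩
      · rintro z (hz | hz)
        · exact ⟨u, hu, hz⟩
        · obtain ⟨v, hv, hzv⟩ := hB2 z hz
          exact ⟨v, hsub v hv, hzv⟩
      · intro v hv r
        rcases hcase v hv with rfl | hv'
        · obtain ⟨z, hz, hzA⟩ := huA r
          exact ⟨z, hz, Or.inl hzA⟩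
        · obtain ⟨z, hz, hzB⟩ := hB3 v hv' r
          exact ⟨z, hz, Or.inr hzB⟩
    by_cases hint : (H u ∩ B).Nonempty
    · exact hun (SimpleGraph.induce_union_connected hA1.preconnected hB1.preconnected hint)
    have hdis : Disjoint (H u) B := Set.disjoint_iff_inter_eq_empty.2 (Set.not_nonempty_iff_eq_empty.1 hint)
    by_cases hsub2 : ∀ y ∈ B, Hul G w0 (H u) y
    · refine ⟨H u, hA1, fun z hz => ⟨u, hu, hz⟩, fun v hv r => ?_⟩
      rcases hcase v hv with rfl | hv'
      · exact huA r
      · exact hul_trans hsub2 r rfl (hB3 v hv')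
    push Not at hsub2
    obtain ⟨b0, hb0, hb1⟩ := hsub2
    have hA2 : ∃ a0 ∈ H u, ¬ Hul G w0 B a0 := by
      by_contra hcon
      push Not at hcon
      exact huB fun r => hul_trans hcon r rfl huA
    obtain ⟨a0, ha0, ha1⟩ := hA2
    obtain ⟨rx⟩ := hG.preconnected x w0
    have hxA : ¬ Hul G w0 (H u) x := fun h =>
      hul_disj hA1 hB1 hdis ha0 ha1 hb0 hb1 rx rfl h hxB
    have hu1 : u ∈ H u := by
      by_contra hcon
      exact hxA (hul_step huA hcon ha)
    have hx1 : x ∈ B := by
      by_contra hcon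
      exact huB (hul_step hxB hcon ha.symm)
    have h1 : (G.induce (H u ∪ {u, x})).Connected :=
      SimpleGraph.induce_union_connected hA1.preconnected
        (SimpleGraph.induce_pair_connected_of_adj ha).preconnected ⟨u, hu1, by simp⟩
    have h2 : (G.induce (H u ∪ {u, x} ∪ B)).Connected :=
      SimpleGraph.induce_union_connected h1.preconnected hB1.preconnected
        ⟨x, Or.inr (by simp), hx1⟩
    have e : H u ∪ {u, x} ∪ B = H u ∪ B := by
      ext z
      constructor
      · rintro ((h | h) | h)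
        · exact Or.inl h
        · rcases h with h | h
          · exact Or.inl (h ▸ hu1)
          · exact Or.inr (by rw [Set.mem_singleton_iff] at h; exact h ▸ hx1)
        · exact Or.inr h
      · rintro (h | h)
        · exact Or.inl (Or.inl h)
        · exact Or.inr h
    rw [e] at h2
    exact hun h2

end H941.hull_lemma
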