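import Pool.Agent.H941.Defs3

open MeasureTheory ProbabilityTheory

namespace H941.subtree_cover

theorem subtree_cover_single (v : ℤ × ℤ) :
    (grid.induce ((({v} : Finset (ℤ × ℤ)) : Set (ℤ × ℤ)))).Connected := by
  have hs : ∀ u w : ((({v} : Finset (ℤ × ℤ)) : Set (ℤ × ℤ))), u = w := by
    rintro ⟨u, hu⟩ ⟨w, hw⟩
    have h1 : u = v := by simpa using hu
    have h2 : w = v := by simpa using hw
    exact Subtype.ext (h1.trans h2.symm)
  have : Nonempty ((({v} : Finset (ℤ × ℤ)) : Set (ℤ × ℤ))) := ⟨⟨v, by simp⟩⟩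
  refine ⟨fun u w => ?_⟩
  rw [hs u w]

/-- the number of bad segments in a list -/
noncomputable def subtree_cover_bad (Gd : ℕ → ℂ × ℂ → Prop) (j : ℕ) (L : List (ℂ × ℂ)) : ℕ :=
  L.countP (fun s'' => @decide (¬ Gd j s'') (Classical.dec _))

theorem subtree_cover_flat (Gd : ℕ → ℂ × ℂ → Prop) (j : ℕ) (L : ℕ → List (ℂ × ℂ)) (N : ℕ) :
    subtree_cover_bad Gd j ((List.range N).flatMap L) =
      ∑ k ∈ Finset.range N, subtree_cover_bad Gd j (L k) := by
  induction N with
  | zero => simp [subtree_cover_bad]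
  | succ N ih =>
    rw [List.range_succ, List.flatMap_append, Finset.sum_range_succ, ← ih]
    simp only [subtree_cover_bad, List.countP_append, List.flatMap_cons, List.flatMap_nil,
      List.append_nil]

theorem _root_.H941.subtree_cover (n q : ℕ) (δ : ℕ → ℝ) (σ : ℕ → ℂ × ℂ → Bool) (hlen : ∀ s, (finalVerts q s).length = 2 * q)
    (op : ℤ × ℤ → Prop) (T : ℕ → ℝ) (hT : ∀ i, 0 ≤ T i) (sep : Finset (ℤ × ℤ) → ℤ × ℤ → Prop)
    (Gd : ℕ → ℂ × ℂ → Prop) (Inv : ℕ → ℂ × ℂ → Prop)
    (hInv : ∀ i s' k, k < 64 → Inv i s' → Inv (i + 1) (child (δ i) (σ i s') k s'))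
    (hG : ∀ i < n, ∀ s', Inv i s' → Gd i s' → ∃ H : Finset (ℤ × ℤ), (H.card : ℝ) ≤ T i ∧
      (grid.induce (H : Set (ℤ × ℤ))).Connected ∧ (∀ z ∈ H, op z) ∧
      ∀ v ∈ leaves δ q σ (n - i) i s', sep H v)
    (hbot : ∀ s', Gd n s' → ∀ v ∈ finalVerts q s', op v) (hsing : ∀ v, op v → sep {v} v) :
    ∀ m i s', i + m = n → Inv i s' → Gd i s' → ∃ (U : Finset (ℤ × ℤ)) (H : ℤ × ℤ → Finset (ℤ × ℤ)),
      (U.card : ℝ) ≤ 64 ^ m * (2 * q) + ∑ k ∈ Finset.range m, T (i + k) *
        (((segs δ σ (k + 1) i s').countP (fun s'' => @decide (¬ Gd (i + k + 1) s'') (Classical.dec _)) : ℕ) : ℝ) ∧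
      ∀ v ∈ leaves δ q σ m i s', H v ⊆ U ∧ (grid.induce (H v : Set (ℤ × ℤ))).Connected ∧
        (∀ z ∈ H v, op z) ∧ sep (H v) v := by
  classical
  intro m
  induction m with
  | zero =>
    intro i s' hi hinv hgd
    have hin : i = n := by omega
    subst hin
    refine ⟨(finalVerts q s').toFinset, fun v => {v}, ?_, ?_⟩
    · have h1 : (finalVerts q s').toFinset.card ≤ 2 * q := by
        rw [← hlen s']
        exact List.toFinset_card_le _
      have h2 : ((finalVerts q s').toFinset.card : ℝ) ≤ 2 * q := by exact_mod_cast h1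
      simpa using h2
    · intro v hv
      have hv' : v ∈ finalVerts q s' := hv
      have hop := hbot s' hgd v hv'
      refine ⟨?_, subtree_cover_single v, ?_, hsing v hop⟩
      · intro w hw
        rw [Finset.mem_singleton] at hw
        subst hw
        exact List.mem_toFinset.2 hv'
      · intro z hz
        rw [Finset.mem_singleton] at hz
        subst hz
        exact hop
  | succ m ih =>
    intro i s' hi hinv hgd
    have hterm : ∀ l, 0 ≤ T (i + l) * ((subtree_cover_bad Gd (i + l + 1)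
        (segs δ σ (l + 1) i s') : ℕ) : ℝ) := fun l => mul_nonneg (hT _) (Nat.cast_nonneg _)
    by_cases hall : ∀ k < 64, Gd (i + 1) (child (δ i) (σ i s') k s')
    · have hIH : ∀ k : ℕ, ∃ (U : Finset (ℤ × ℤ)) (H : ℤ × ℤ → Finset (ℤ × ℤ)), k < 64 →
          (U.card : ℝ) ≤ 64 ^ m * (2 * q) + ∑ l ∈ Finset.range m, T (i + 1 + l) *
            ((subtree_cover_bad Gd (i + 1 + l + 1)
              (segs δ σ (l + 1) (i + 1) (child (δ i) (σ i s') k s')) : ℕ) : ℝ) ∧
          ∀ v ∈ leaves δ q σ m (i + 1) (child (δ i) (σ i s') k s'), H v ⊆ U ∧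
            (grid.induce (H v : Set (ℤ × ℤ))).Connected ∧ (∀ z ∈ H v, op z) ∧ sep (H v) v := by
        intro k
        by_cases hk : k < 64
        · obtain ⟨U, H, h1, h2⟩ := ih (i + 1) (child (δ i) (σ i s') k s') (by omega)
            (hInv i s' k hk hinv) (hall k hk)
          exact ⟨U, H, fun _ => ⟨h1, h2⟩⟩
        · exact ⟨∅, fun _ => ∅, fun h => absurd h hk⟩
      choose U H hUH using hIH
      refine ⟨(Finset.range 64).biUnion U, fun v =>
        if h : ∃ k, k < 64 ∧ v ∈ leaves δ q σ m (i + 1) (child (δ i) (σ i s') k s') then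
          H h.choose v else ∅, ?_, ?_⟩
      · have h1 : (((Finset.range 64).biUnion U).card : ℝ) ≤ ∑ k ∈ Finset.range 64,
            ((U k).card : ℝ) := by exact_mod_cast Finset.card_biUnion_le
        have h2 : ∑ k ∈ Finset.range 64, ((U k).card : ℝ) ≤ ∑ k ∈ Finset.range 64,
            ((64 : ℝ) ^ m * (2 * q) + ∑ l ∈ Finset.range m, T (i + 1 + l) *
            ((subtree_cover_bad Gd (i + 1 + l + 1)
              (segs δ σ (l + 1) (i + 1) (child (δ i) (σ i s') k s')) : ℕ) : ℝ)) :=
          Finset.sum_le_sum fun k hk => (hUH k (Finset.mem_range.1 hk)).1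
        have h3 : ∑ k ∈ Finset.range 64,
            ((64 : ℝ) ^ m * (2 * q) + ∑ l ∈ Finset.range m, T (i + 1 + l) *
            ((subtree_cover_bad Gd (i + 1 + l + 1)
              (segs δ σ (l + 1) (i + 1) (child (δ i) (σ i s') k s')) : ℕ) : ℝ)) =
            64 ^ (m + 1) * (2 * q) + ∑ l ∈ Finset.range m, T (i + (l + 1)) *
              ((subtree_cover_bad Gd (i + (l + 1) + 1) (segs δ σ (l + 1 + 1) i s') : ℕ) : ℝ) := by
          rw [Finset.sum_add_distrib, Finset.sum_const, Finset.card_range, Finset.sum_comm]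
          congr 1
          · rw [nsmul_eq_mul]
            push_cast
            ring
          · refine Finset.sum_congr rfl fun l _ => ?_
            have e1 : i + 1 + l = i + (l + 1) := by omega
            have e2 : segs δ σ (l + 1 + 1) i s' = (List.range 64).flatMap
                (fun k => segs δ σ (l + 1) (i + 1) (child (δ i) (σ i s') k s')) := rfl
            rw [e1, e2, subtree_cover_flat, Nat.cast_sum, Finset.mul_sum]
        have h4 : ∑ l ∈ Finset.range (m + 1), T (i + l) * ((subtree_cover_bad Gd (i + l + 1)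
            (segs δ σ (l + 1) i s') : ℕ) : ℝ) = ∑ l ∈ Finset.range m, T (i + (l + 1)) *
              ((subtree_cover_bad Gd (i + (l + 1) + 1) (segs δ σ (l + 1 + 1) i s') : ℕ) : ℝ) +
            T (i + 0) * ((subtree_cover_bad Gd (i + 0 + 1) (segs δ σ (0 + 1) i s') : ℕ) : ℝ) :=
          Finset.sum_range_succ' _ _
        have h5 := hterm 0
        change _ ≤ (64 : ℝ) ^ (m + 1) * (2 * q) + ∑ l ∈ Finset.range (m + 1), T (i + l) *
          ((subtree_cover_bad Gd (i + l + 1) (segs δ σ (l + 1) i s') : ℕ) : ℝ)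
        rw [h4]
        linarith
      · intro v hv
        have hv' : ∃ k, k < 64 ∧ v ∈ leaves δ q σ m (i + 1) (child (δ i) (σ i s') k s') := by
          have hv2 : v ∈ (List.range 64).flatMap
              (fun k => leaves δ q σ m (i + 1) (child (δ i) (σ i s') k s')) := hv
          rw [List.mem_flatMap] at hv2
          obtain ⟨k, hk, h⟩ := hv2
          exact ⟨k, List.mem_range.1 hk, h⟩
        beta_reduce
        rw [dif_pos hv']
        obtain ⟨h1, h2, h3, h4⟩ := (hUH _ hv'.choose_spec.1).2 v hv'.choose_spec.2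
        exact ⟨h1.trans (Finset.subset_biUnion_of_mem U (Finset.mem_range.2 hv'.choose_spec.1)),
          h2, h3, h4⟩
    · push Not at hall
      obtain ⟨k, hk, hbad⟩ := hall
      obtain ⟨H0, h1, h2, h3, h4⟩ := hG i (by omega) s' hinv hgd
      rw [show n - i = m + 1 by omega] at h4
      refine ⟨H0, fun _ => H0, ?_, fun v hv => ⟨subset_rfl, h2, h3, h4 v hv⟩⟩
      have h5 : 1 ≤ subtree_cover_bad Gd (i + 0 + 1) (segs δ σ (0 + 1) i s') := by
        unfold subtree_cover_bad
        rw [Nat.one_le_iff_ne_zero, ← Nat.pos_iff_ne_zero, List.countP_pos_iff]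
        refine ⟨child (δ i) (σ i s') k s', ?_, ?_⟩
        · have e2 : segs δ σ (0 + 1) i s' = (List.range 64).flatMap
              (fun k => segs δ σ 0 (i + 1) (child (δ i) (σ i s') k s')) := rfl
          rw [e2, List.mem_flatMap]
          exact ⟨k, List.mem_range.2 hk, List.mem_singleton.2 rfl⟩
        · exact @decide_eq_true _ (Classical.dec _) hbad
      have h6 : T (i + 0) * 1 ≤ T (i + 0) * ((subtree_cover_bad Gd (i + 0 + 1)
          (segs δ σ (0 + 1) i s') : ℕ) : ℝ) :=
        mul_le_mul_of_nonneg_left (by exact_mod_cast h5) (hT _)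
      have h7 : T (i + 0) * ((subtree_cover_bad Gd (i + 0 + 1) (segs δ σ (0 + 1) i s') : ℕ) : ℝ) ≤
          ∑ l ∈ Finset.range (m + 1), T (i + l) * ((subtree_cover_bad Gd (i + l + 1)
            (segs δ σ (l + 1) i s') : ℕ) : ℝ) :=
        Finset.single_le_sum (f := fun l => T (i + l) * ((subtree_cover_bad Gd (i + l + 1)
          (segs δ σ (l + 1) i s') : ℕ) : ℝ)) (fun l _ => hterm l)
          (Finset.mem_range.2 (Nat.succ_pos m))
      change _ ≤ (64 : ℝ) ^ (m + 1) * (2 * q) + ∑ l ∈ Finset.range (m + 1), T (i + l) *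
          ((subtree_cover_bad Gd (i + l + 1) (segs δ σ (l + 1) i s') : ℕ) : ℝ)
      have h8 : (0 : ℝ) ≤ (64 : ℝ) ^ (m + 1) * (2 * q) := by positivity
      rw [add_zero] at h6 h7
      linarith

end H941.subtree_cover
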