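import Pool.Agent.H941.Defs3

open MeasureTheory ProbabilityTheory

namespace H941.subwalk

theorem exit_rest (S : Finset (ℤ × ℤ)) {a b : ℤ × ℤ} (p : grid.Walk a b) :
    a ∈ S → b ∉ S → ∃ (u : ℤ × ℤ) (r : grid.Walk u b), u ∈ S ∧ (∃ w, grid.Adj u w ∧ w ∉ S) ∧
      (∀ z ∈ r.support, z ∈ p.support) ∧ r.support.length ≤ p.support.length := by
  induction p with
  | nil => exact fun h h' => absurd h h'
  | @cons x y b h p ih =>
    intro ha hb
    by_cases hy : y ∈ S
    · obtain ⟨u, r, h1, h2, h3, h4⟩ := ih hy hb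
      refine ⟨u, r, h1, h2, fun z hz => ?_, ?_⟩
      · rw [SimpleGraph.Walk.support_cons]
        exact List.mem_cons_of_mem _ (h3 z hz)
      · rw [SimpleGraph.Walk.support_cons, List.length_cons]
        omega
    · exact ⟨x, SimpleGraph.Walk.cons h p, ha, ⟨y, h, hy⟩, fun z hz => hz, le_rfl⟩

theorem exit_first (S : Finset (ℤ × ℤ)) {a b : ℤ × ℤ} (p : grid.Walk a b) :
    a ∈ S → b ∉ S → ∃ (v : ℤ × ℤ) (q : grid.Walk a v), v ∈ S ∧ (∃ w, grid.Adj v w ∧ w ∉ S) ∧
      (∀ z ∈ q.support, z ∈ p.support) ∧ q.support.length ≤ p.support.length := by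
  induction p with
  | nil => exact fun h h' => absurd h h'
  | @cons x y b h p ih =>
    intro ha hb
    by_cases hy : y ∈ S
    · obtain ⟨v, q, h1, h2, h3, h4⟩ := ih hy hb
      refine ⟨v, SimpleGraph.Walk.cons h q, h1, h2, fun z hz => ?_, ?_⟩
      · rw [SimpleGraph.Walk.support_cons] at hz ⊢
        rcases List.mem_cons.1 hz with hz | hz
        · rw [hz]
          exact List.mem_cons_self
        · exact List.mem_cons_of_mem _ (h3 z hz)
      · rw [SimpleGraph.Walk.support_cons, SimpleGraph.Walk.support_cons, List.length_cons,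
          List.length_cons]
        omega
    · refine ⟨x, SimpleGraph.Walk.nil, ha, ⟨y, h, hy⟩, fun z hz => ?_, ?_⟩
      · rw [SimpleGraph.Walk.support_nil, List.mem_singleton] at hz
        rw [hz]
        exact SimpleGraph.Walk.start_mem_support _
      · rw [SimpleGraph.Walk.support_nil, SimpleGraph.Walk.support_cons, List.length_cons]
        simp

theorem box_subset {M1 M2 : ℕ} (hM : M1 ≤ M2) : box M1 ⊆ box M2 := by
  intro z hz
  rw [box, Finset.mem_product, Finset.mem_Icc, Finset.mem_Icc] at hz ⊢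
  omega

theorem _root_.H941.subwalk (M1 M2 : ℕ) (hM1 : 1 ≤ M1) (hM : M1 ≤ M2) {a b : ℤ × ℤ} (p : grid.Walk a b)
    (ha : a ∈ box M1) (hb : b ∉ box M2) :
    ∃ (u v : ℤ × ℤ) (q : grid.Walk u v), u ∈ innerBdry M1 ∧ v ∈ innerBdry M2 ∧
      (∀ z ∈ q.support, z ∈ p.support) ∧ q.support.length ≤ p.support.length := by
  obtain ⟨u, r, hu, hu', h1, h2⟩ := exit_rest (box M1) p ha fun h => hb (box_subset hM h)
  obtain ⟨v, q, hv, hv', h3, h4⟩ := exit_first (box M2) r (box_subset hM hu) hb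
  refine ⟨u, v, q, ?_, ?_, fun z hz => h1 z (h3 z hz), h4.trans h2⟩
  · classical
    simp only [innerBdry, Finset.mem_filter]
    exact ⟨hu, hu'⟩
  · classical
    simp only [innerBdry, Finset.mem_filter]
    exact ⟨hv, hv'⟩

end H941.subwalk
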