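import Pool.Agent.H941.Defs3
import Pool.Agent.H941.B.circuit_lemma
import Pool.Agent.H941.B.grid_connected
import Pool.Agent.H941.B.hull_lemma
import Pool.Agent.H941.B.segs_facts
import Pool.Agent.H941.B.subtree_cover
import Pool.Agent.H941.B.subwalk
import Pool.Agent.H941.K2
import Pool.Agent.H941.K3
import Pool.Agent.H941.K4

open MeasureTheory ProbabilityTheory

namespace H941.det_final

theorem det_bd_nonneg (s : ℝ) (hs : 0 < s) (i : ℕ) : 0 ≤ bd s i := by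
  unfold bd; positivity

theorem det_bd_anti (s : ℝ) (hs : 0 < s) : Antitone (bd s) := by
  intro i j hij
  unfold bd
  apply mul_le_mul_of_nonneg_left _ hs.le
  apply Real.rpow_le_rpow_of_nonpos (by positivity) _ (by norm_num)
  have : (i : ℝ) ≤ j := by exact_mod_cast hij
  linarith

theorem det_bd_zero (s : ℝ) : bd s 0 = s := by
  unfold bd; simp

theorem det_bd_le (s : ℝ) (hs : 0 < s) (i : ℕ) : bd s i ≤ s := by
  have := det_bd_anti s hs (Nat.zero_le i)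
  rwa [det_bd_zero] at this

theorem det_dl_add (s ℓ : ℝ) (i m : ℕ) :
    dl s ℓ (i + m) = dl s ℓ i *
      ∏ k ∈ Finset.range m, (Real.sqrt (1 + 4 * bd s (i + k) ^ 2) / 64) := by
  unfold dl
  rw [Finset.prod_range_add]; ring

theorem det_dl_nonneg (s ℓ : ℝ) (hℓ : 0 ≤ ℓ) (i : ℕ) : 0 ≤ dl s ℓ i := by
  unfold dl
  apply mul_nonneg hℓ
  apply Finset.prod_nonneg
  intro k _; positivity

theorem det_norm_half (t : ℝ) : ‖(1 / 2 : ℂ) + (t : ℂ) * Complex.I‖ = Real.sqrt (1 + 4 * t ^ 2) / 2 := by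
  have h := Complex.norm_add_mul_I (1 / 2) t
  have e : ((1 / 2 : ℝ) : ℂ) = 1 / 2 := by norm_num
  rw [e] at h
  rw [h]
  have : (1 / 2 : ℝ) ^ 2 + t ^ 2 = (1 + 4 * t ^ 2) / 2 ^ 2 := by ring
  rw [this, Real.sqrt_div (by positivity), Real.sqrt_sq (by norm_num)]

theorem det_child_norm (δ : ℝ) (b : Bool) (k : ℕ) (s : ℂ × ℂ) :
    ‖(child δ b k s).2‖ = ‖s.2‖ * (Real.sqrt (1 + 4 * δ ^ 2) / 64) := by
  have h1 : ‖(1 / 2 : ℂ) + (δ : ℂ) * Complex.I‖ = Real.sqrt (1 + 4 * δ ^ 2) / 2 := det_norm_half δ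
  have h2 : ‖(1 / 2 : ℂ) - (δ : ℂ) * Complex.I‖ = Real.sqrt (1 + 4 * δ ^ 2) / 2 := by
    have := det_norm_half (-δ)
    simp only [Complex.ofReal_neg, neg_mul, neg_sq] at this
    rw [← this, sub_eq_add_neg]
  have h3 : ‖(1 / 32 : ℂ)‖ = 1 / 32 := by norm_num
  have h4 : ∀ x : ℂ, ‖x‖ = Real.sqrt (1 + 4 * δ ^ 2) / 2 →
      ‖(1 / 32 : ℂ) * (x * s.2)‖ = ‖s.2‖ * (Real.sqrt (1 + 4 * δ ^ 2) / 64) := by
    intro x hx
    rw [norm_mul, norm_mul, h3, hx]; ring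
  unfold child
  cases b
  · split_ifs
    · apply h4
      rw [← h2]; congr 1; simp [bsign]; ring
    · apply h4
      rw [← h1]; congr 1; simp [bsign]
  · split_ifs
    · apply h4
      rw [← h1]; congr 1; simp [bsign]
    · apply h4
      rw [← h2]; congr 1; simp [bsign]

theorem det_segs_norm (s ℓ : ℝ) (σ : ℕ → ℂ × ℂ → Bool) (m : ℕ) : ∀ (j : ℕ) (s1 : ℂ × ℂ),
    ‖s1.2‖ = dl s ℓ j → ∀ s' ∈ segs (bd s) σ m j s1, ‖s'.2‖ = dl s ℓ (j + m) := by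
  induction m with
  | zero =>
    intro j s1 h s' hs'
    simp only [segs, List.mem_singleton] at hs'
    rw [hs']; simpa using h
  | succ m ih =>
    intro j s1 h s' hs'
    simp only [segs, List.mem_flatMap, List.mem_range] at hs'
    obtain ⟨k, hk, hs'⟩ := hs'
    have := ih (j + 1) _ (by
      rw [det_child_norm, h, det_dl_add]; simp) s' hs'
    rw [this]; congr 1; ring

theorem det_hwalk (y : ℤ) (d : ℕ) : ∀ x : ℤ, ∃ p : grid.Walk (x, y) (x + d, y),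
    ∀ z ∈ p.support, z.2 = y ∧ x ≤ z.1 ∧ z.1 ≤ x + d := by
  induction d with
  | zero =>
    intro x
    have h : (x, y) = (x + ((0 : ℕ) : ℤ), y) := by simp
    refine ⟨(SimpleGraph.Walk.nil : grid.Walk (x, y) (x, y)).copy rfl h, ?_⟩
    intro z hz
    simp at hz
    subst hz
    simp
  | succ d ih =>
    intro x
    obtain ⟨p, hp⟩ := ih (x + 1)
    have hadj : grid.Adj (x, y) (x + 1, y) := by
      show |x - (x + 1)| + |y - y| = 1
      simp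
    have h : (x + 1 + (d : ℤ), y) = (x + ((d + 1 : ℕ) : ℤ), y) := by
      push_cast; congr 1; ring
    refine ⟨(SimpleGraph.Walk.cons hadj p).copy rfl h, ?_⟩
    intro z hz
    rw [SimpleGraph.Walk.support_copy, SimpleGraph.Walk.support_cons, List.mem_cons] at hz
    push_cast
    rcases hz with rfl | hz
    · refine ⟨rfl, le_refl _, ?_⟩
      show x ≤ x + ((d : ℤ) + 1)
      omega
    · obtain ⟨h1, h2, h3⟩ := hp z hz
      exact ⟨h1, by omega, by omega⟩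

theorem det_vwalk (x : ℤ) (d : ℕ) : ∀ y : ℤ, ∃ p : grid.Walk (x, y) (x, y + d),
    ∀ z ∈ p.support, z.1 = x ∧ y ≤ z.2 ∧ z.2 ≤ y + d := by
  induction d with
  | zero =>
    intro y
    have h : (x, y) = (x, y + ((0 : ℕ) : ℤ)) := by simp
    refine ⟨(SimpleGraph.Walk.nil : grid.Walk (x, y) (x, y)).copy rfl h, ?_⟩
    intro z hz
    simp at hz
    subst hz
    simp
  | succ d ih =>
    intro y
    obtain ⟨p, hp⟩ := ih (y + 1)
    have hadj : grid.Adj (x, y) (x, y + 1) := by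
      show |x - x| + |y - (y + 1)| = 1
      simp
    have h : (x, y + 1 + (d : ℤ)) = (x, y + ((d + 1 : ℕ) : ℤ)) := by
      push_cast; congr 1; ring
    refine ⟨(SimpleGraph.Walk.cons hadj p).copy rfl h, ?_⟩
    intro z hz
    rw [SimpleGraph.Walk.support_copy, SimpleGraph.Walk.support_cons, List.mem_cons] at hz
    push_cast
    rcases hz with rfl | hz
    · refine ⟨rfl, le_refl _, ?_⟩
      show y ≤ y + ((d : ℤ) + 1)
      omega
    · obtain ⟨h1, h2, h3⟩ := hp z hz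
      exact ⟨h1, by omega, by omega⟩

theorem det_union {α : Type} (l : List α) (g : α → ℝ) (P : α → Finset (ℤ × ℤ) → Prop)
    (hmono : ∀ a U U', U ⊆ U' → P a U → P a U')
    (h : ∀ a ∈ l, ∃ U : Finset (ℤ × ℤ), (U.card : ℝ) ≤ g a ∧ P a U) :
    ∃ U : Finset (ℤ × ℤ), (U.card : ℝ) ≤ (l.map g).sum ∧ ∀ a ∈ l, P a U := by
  classical
  induction l with
  | nil => exact ⟨∅, by simp, by simp⟩
  | cons a l ih =>
    obtain ⟨U1, h1, h1'⟩ := h a (by simp)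
    obtain ⟨U2, h2, h2'⟩ := ih (fun b hb => h b (by simp [hb]))
    refine ⟨U1 ∪ U2, ?_, ?_⟩
    · have := Finset.card_union_le U1 U2
      have h3 : ((U1 ∪ U2).card : ℝ) ≤ U1.card + U2.card := by exact_mod_cast this
      rw [List.map_cons, List.sum_cons]
      linarith
    · intro b hb
      rcases List.mem_cons.mp hb with rfl | hb
      · exact hmono _ _ _ Finset.subset_union_left h1'
      · exact hmono _ _ _ Finset.subset_union_right (h2' b hb)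

theorem det_one (a x y τ E D : ℝ) (h : |a - (x + τ * y)| ≤ E) (hy : |y| ≤ D) (h0 : 0 ≤ τ)
    (h1 : τ ≤ 1) : |a - (⌊x + (1 / 2) * y⌋ : ℝ)| ≤ E + D / 2 + 1 := by
  have hf1 := Int.floor_le (x + (1 / 2) * y)
  have hf2 := Int.lt_floor_add_one (x + (1 / 2) * y)
  rw [abs_le] at h hy ⊢
  have hp : |(τ - 1 / 2) * y| ≤ D / 2 := by
    rw [abs_mul]
    have h3 : |τ - 1 / 2| ≤ 1 / 2 := by rw [abs_le]; constructor <;> linarith
    have h4 : |y| ≤ D := by rw [abs_le]; exact hy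
    calc |τ - 1 / 2| * |y| ≤ (1 / 2) * D := mul_le_mul h3 h4 (abs_nonneg _) (by norm_num)
      _ = D / 2 := by ring
  rw [abs_le] at hp
  obtain ⟨hp1, hp2⟩ := hp
  constructor <;> nlinarith

theorem det_near (s ℓ : ℝ) (hs : 0 < s) (hs' : s ≤ 1 / 8) (n q : ℕ) (hq : 1 ≤ q)
    (hqd : dl s ℓ n ≤ q) (σ : ℕ → ℂ × ℂ → Bool) (i : ℕ) (hi : i ≤ n) (s' : ℂ × ℂ)
    (hn : ‖s'.2‖ = dl s ℓ i) (w : ℕ) (hw : 100 ≤ w) (hdl : dl s ℓ i ≤ w) :
    ∀ v ∈ leaves (bd s) q σ (n - i) i s',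
      |v.1 - (mid s').1| ≤ w ∧ |v.2 - (mid s').2| ≤ w := by
  intro v hv
  have hw' : (100 : ℝ) ≤ w := by exact_mod_cast hw
  obtain ⟨τ, h0, h1, h⟩ := leaves_near (bd s) (det_bd_nonneg s hs)
    (fun j => (det_bd_le s hs j).trans hs') (det_bd_anti s hs) q hq σ (n - i) i s' (by
      rw [hn, ← det_dl_add, Nat.add_sub_cancel' hi]; exact hqd) v hv
  have hE : 3 + (60 / 59) * (bd s i * ‖s'.2‖) + ‖s'.2‖ / 2 + 1 ≤ (w : ℝ) := by
    rw [hn]
    have hb : bd s i * dl s ℓ i ≤ (1 / 8) * dl s ℓ i := by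
      apply mul_le_mul_of_nonneg_right ((det_bd_le s hs i).trans hs')
      rw [← hn]; exact norm_nonneg _
    linarith
  have hre : |(v.1 : ℝ) - (s'.1.re + τ * s'.2.re)| ≤ 3 + (60 / 59) * (bd s i * ‖s'.2‖) := by
    refine le_trans ?_ h
    refine le_trans (le_of_eq ?_) (Complex.abs_re_le_norm _)
    simp [toC]
  have him : |(v.2 : ℝ) - (s'.1.im + τ * s'.2.im)| ≤ 3 + (60 / 59) * (bd s i * ‖s'.2‖) := by
    refine le_trans ?_ h
    refine le_trans (le_of_eq ?_) (Complex.abs_im_le_norm _)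
    simp [toC]
  have k1 := det_one _ _ _ _ _ _ hre (Complex.abs_re_le_norm _) h0 h1
  have k2 := det_one _ _ _ _ _ _ him (Complex.abs_im_le_norm _) h0 h1
  have m1 : (mid s').1 = ⌊s'.1.re + (1 / 2) * s'.2.re⌋ := by
    simp [mid, rd]
  have m2 : (mid s').2 = ⌊s'.1.im + (1 / 2) * s'.2.im⌋ := by
    simp [mid, rd]
  rw [m1, m2]
  constructor
  · have := k1.trans hE
    exact_mod_cast this
  · have := k2.trans hE
    exact_mod_cast this

/-- the separation property -/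
def detSep (W : ℕ) (H : Finset (ℤ × ℤ)) (v : ℤ × ℤ) : Prop :=
  (∀ z ∈ H, |z.1 - v.1| ≤ 3 * (W : ℤ) ∧ |z.2 - v.2| ≤ 3 * (W : ℤ)) ∧
  ∀ b : ℤ × ℤ, (4 * (W : ℤ) ≤ |b.1 - v.1| ∨ 4 * (W : ℤ) ≤ |b.2 - v.2|) →
    ∀ r : grid.Walk v b, ∃ z ∈ r.support, z ∈ H

theorem det_wd_anti (N i j : ℕ) (h : i ≤ j) : wd N j ≤ wd N i := by
  unfold wd
  exact Nat.div_le_div_left (Nat.pow_le_pow_right (by norm_num) h) (by positivity)

theorem det_cover (N J0 : ℕ) (s ℓ : ℝ) (hs : 0 < s) (hs' : s ≤ 1 / 8) (hℓ : 0 ≤ ℓ)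
    (hJ : J0 + 2 ≤ nl N)
    (hw : ∀ i ≤ nl N, 100 ≤ wd N i ∧ dl s ℓ i ≤ wd N i ∧ 1 ≤ dw N i ∧ 2 * dw N i ≤ wd N i)
    (q : ℕ) (hq : 1 ≤ q) (hqd : dl s ℓ (nl N) ≤ q)
    (len : ℕ → ℝ) (hlen : ∀ i, 0 ≤ len i) (L : ℝ) (f : ℤ × ℤ → ℝ) (σ : ℕ → ℂ × ℂ → Bool)
    (hJ0 : ∀ s' ∈ segs (bd s) σ J0 0 (-5, (ℓ : ℂ)), Gd N q len L f J0 s')
    (K : ℝ) (hK : (64 : ℝ) ^ nl N * (2 * q) + ∑ k ∈ Finset.range (nl N - J0),
      4 * len (J0 + k) * (((segs (bd s) σ (J0 + k + 1) 0 (-5, (ℓ : ℂ))).countP (fun s' =>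
        @decide (¬ Gd N q len L f (J0 + k + 1) s') (Classical.dec _)) : ℕ) : ℝ) ≤ K) :
    ∃ U : Finset (ℤ × ℤ), (U.card : ℝ) ≤ K ∧
      ∀ v ∈ leaves (bd s) q σ (nl N) 0 (-5, (ℓ : ℂ)), ∃ H : Finset (ℤ × ℤ), H ⊆ U ∧
        (grid.induce (H : Set (ℤ × ℤ))).Connected ∧ (∀ z ∈ H, f z ≤ L) ∧ detSep (wd N J0) H v := by
  classical
  set δ := bd s with hδ
  have hnorm0 : ‖((-5, (ℓ : ℂ)) : ℂ × ℂ).2‖ = dl s ℓ 0 := by
    simp [dl, abs_of_nonneg hℓ]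
  have main := subtree_cover (nl N) q δ σ (finalVerts_length q) (fun z => f z ≤ L)
    (fun i => 4 * len i) (fun i => by have := hlen i; positivity) (detSep (wd N J0))
    (Gd N q len L f) (fun i s' => J0 ≤ i ∧ ‖s'.2‖ = dl s ℓ i)
    (by
      rintro i s' k _ ⟨h1, h2⟩
      refine ⟨by omega, ?_⟩
      rw [det_child_norm, h2, det_dl_add]; simp [hδ])
    (by
      rintro i hi s' ⟨h1, h2⟩ hG
      have hG' : circuitOK (mid s') (wd N i) (dw N i) L (len i) f := by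
        unfold Gd at hG
        rwa [if_pos hi] at hG
      obtain ⟨w1, w2, w3, w4⟩ := hw i hi.le
      obtain ⟨H, hc, hf, hn, hcard, hsep⟩ := circuit_lemma (mid s') (wd N i) (dw N i) w3 w4 L
        (len i) f hG'
      refine ⟨H, hcard, hc, hf, ?_⟩
      intro v hv
      obtain ⟨n1, n2⟩ := det_near s ℓ hs hs' (nl N) q hq hqd σ i hi.le s' h2 (wd N i) w1 w2 v hv
      have hle : (wd N i : ℤ) ≤ wd N J0 := by exact_mod_cast det_wd_anti N J0 i h1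
      rw [abs_le] at n1 n2
      refine ⟨?_, ?_⟩
      · intro z hz
        obtain ⟨z1, z2⟩ := hn z hz
        rw [abs_le] at z1 z2
        rw [abs_le, abs_le]
        refine ⟨⟨?_, ?_⟩, ⟨?_, ?_⟩⟩ <;> linarith
      · intro b hb r
        refine hsep v b (by rw [abs_le]; exact n1) (by rw [abs_le]; exact n2) ?_ r
        rcases hb with hb | hb
        · left
          rw [le_abs] at hb ⊢
          rcases hb with hb | hb
          · left; linarith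
          · right; linarith
        · right
          rw [le_abs] at hb ⊢
          rcases hb with hb | hb
          · left; linarith
          · right; linarith)
    (by
      intro s' hG
      unfold Gd at hG
      rwa [if_neg (lt_irrefl _)] at hG)
    (by
      intro v hv
      refine ⟨?_, ?_⟩
      · intro z hz
        rw [Finset.mem_singleton] at hz
        subst hz
        simp
      · intro b _ r
        exact ⟨v, r.start_mem_support, Finset.mem_singleton_self v⟩)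
  obtain ⟨sf1, sf2, sf3, sf4, sf5⟩ := segs_facts δ σ
  set m := nl N - J0 with hm
  have hmn : J0 + m = nl N := by omega
  obtain ⟨U, hU, hU'⟩ := det_union (segs δ σ J0 0 (-5, (ℓ : ℂ)))
    (fun s' => 64 ^ m * (2 * q) + ∑ k ∈ Finset.range m, 4 * len (J0 + k) *
        (((segs δ σ (k + 1) J0 s').countP (fun s'' => @decide (¬ Gd N q len L f (J0 + k + 1) s'')
          (Classical.dec _)) : ℕ) : ℝ))
    (fun s' U => ∀ v ∈ leaves δ q σ m J0 s', ∃ H : Finset (ℤ × ℤ), H ⊆ U ∧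
        (grid.induce (H : Set (ℤ × ℤ))).Connected ∧ (∀ z ∈ H, f z ≤ L) ∧ detSep (wd N J0) H v)
    (by
      intro a U U' hUU h v hv
      obtain ⟨H, h1, h2⟩ := h v hv
      exact ⟨H, h1.trans hUU, h2⟩)
    (by
      intro s' hs'
      obtain ⟨U, H, hc, hH⟩ := main m J0 s' hmn
        ⟨le_refl _, by
          have := det_segs_norm s ℓ σ J0 0 _ hnorm0 s' hs'
          rwa [zero_add] at this⟩ (hJ0 s' hs')
      exact ⟨U, hc, fun v hv => ⟨H v, hH v hv⟩⟩)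
  refine ⟨U, ?_, ?_⟩
  · refine hU.trans (le_trans (le_of_eq ?_) hK)
    have hsum : ∀ (l : List (ℂ × ℂ)) (c : ℝ) (g : ℕ → ℝ) (F : ℕ → ℂ × ℂ → ℕ),
        (l.map (fun s' => c + ∑ k ∈ Finset.range m, g k * ((F k s' : ℕ) : ℝ))).sum =
        l.length * c + ∑ k ∈ Finset.range m, g k * (((l.map (F k)).sum : ℕ) : ℝ) := by
      intro l c g F
      induction l with
      | nil => simp
      | cons a l ih =>
        rw [List.map_cons, List.sum_cons, ih]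
        simp only [List.length_cons, List.map_cons, List.sum_cons]
        push_cast
        have : ∑ k ∈ Finset.range m, g k * ((F k a : ℝ) + ((l.map (F k)).sum : ℕ)) =
          ∑ k ∈ Finset.range m, g k * (F k a : ℝ) + ∑ k ∈ Finset.range m, g k * ((l.map (F k)).sum : ℕ) := by
          rw [← Finset.sum_add_distrib]
          apply Finset.sum_congr rfl
          intro k _; ring
        push_cast at this
        rw [this]; ring
    rw [hsum _ _ (fun k => 4 * len (J0 + k)) (fun k s' => (segs δ σ (k + 1) J0 s').countP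
      (fun s'' => @decide (¬ Gd N q len L f (J0 + k + 1) s'') (Classical.dec _)))]
    rw [sf4]
    congr 1
    · push_cast
      rw [← mul_assoc, ← pow_add, hmn]
    · apply Finset.sum_congr rfl
      intro k _
      have h := sf2 J0 (k + 1) 0 (-5, (ℓ : ℂ))
      rw [zero_add, ← add_assoc] at h
      rw [h, List.countP_flatMap]
      rfl
  · intro v hv
    rw [sf1, ← hmn, sf2, List.flatMap_assoc, List.mem_flatMap] at hv
    obtain ⟨s', hs1, hs2⟩ := hv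
    rw [← sf1, zero_add] at hs2
    exact hU' s' hs1 v hs2

theorem det_hw (x x' y : ℤ) (h : x ≤ x') : ∃ p : grid.Walk (x, y) (x', y),
    ∀ z ∈ p.support, z.2 = y ∧ x ≤ z.1 ∧ z.1 ≤ x' := by
  obtain ⟨d, hd⟩ := Int.le.dest h
  subst hd
  exact det_hwalk y d x

theorem det_vw (x y y' : ℤ) (h : y ≤ y') : ∃ p : grid.Walk (x, y) (x, y'),
    ∀ z ∈ p.support, z.1 = x ∧ y ≤ z.2 ∧ z.2 ≤ y' := by
  obtain ⟨d, hd⟩ := Int.le.dest h
  subst hd
  exact det_vwalk x d y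

theorem det_tail {u v : ℤ × ℤ} (p : grid.Walk u v) (h : u ≠ v) :
    ∃ (w : ℤ × ℤ) (_ : grid.Adj u w) (p' : grid.Walk w v), p'.support = p.support.tail := by
  cases p with
  | nil => exact absurd rfl h
  | cons hadj p' => exact ⟨_, hadj, p', by simp⟩

theorem det_range (s ℓ : ℝ) (hs : 0 < s) (hs' : s ≤ 1 / 8) (hℓ : 0 ≤ ℓ) (n q : ℕ) (hq : 1 ≤ q)
    (hqd : dl s ℓ n ≤ q) (σ : ℕ → ℂ × ℂ → Bool) :
    ∀ v ∈ leaves (bd s) q σ n 0 (-5, (ℓ : ℂ)),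
      -5 - (3 + (60 / 59) * (s * ℓ)) ≤ (v.1 : ℝ) ∧ (v.1 : ℝ) ≤ ℓ - 5 + (3 + (60 / 59) * (s * ℓ)) ∧
      -(3 + (60 / 59) * (s * ℓ)) ≤ (v.2 : ℝ) ∧ (v.2 : ℝ) ≤ 3 + (60 / 59) * (s * ℓ) := by
  intro v hv
  have hnorm0 : ‖((-5, (ℓ : ℂ)) : ℂ × ℂ).2‖ = dl s ℓ 0 := by
    simp [dl, abs_of_nonneg hℓ]
  obtain ⟨τ, h0, h1, h⟩ := leaves_near (bd s) (det_bd_nonneg s hs)
    (fun j => (det_bd_le s hs j).trans hs') (det_bd_anti s hs) q hq σ n 0 (-5, (ℓ : ℂ)) (by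
      rw [hnorm0, ← det_dl_add, zero_add]; exact hqd) v hv
  have hn : ‖((-5, (ℓ : ℂ)) : ℂ × ℂ).2‖ = ℓ := by
    simp [abs_of_nonneg hℓ]
  rw [hn, det_bd_zero] at h
  have hre : |(v.1 : ℝ) - (-5 + τ * ℓ)| ≤ 3 + (60 / 59) * (s * ℓ) := by
    refine le_trans ?_ h
    refine le_trans (le_of_eq ?_) (Complex.abs_re_le_norm _)
    simp [toC]
  have him : |(v.2 : ℝ)| ≤ 3 + (60 / 59) * (s * ℓ) := by
    refine le_trans ?_ h
    refine le_trans (le_of_eq ?_) (Complex.abs_im_le_norm _)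
    simp [toC]
  rw [abs_le] at hre him
  have t1 : 0 ≤ τ * ℓ := mul_nonneg h0 hℓ
  have t2 : τ * ℓ ≤ ℓ := by nlinarith
  refine ⟨by linarith, by linarith, by linarith, by linarith⟩

theorem _root_.H941.det_final (α β : ℝ) (N J0 : ℕ) (s : ℝ) (hs : 0 < s) (hs' : s ≤ 1 / 8) (hα1 : 1 ≤ ⌊α * (N : ℝ)⌋₊)
    (hαβ : ⌊α * (N : ℝ)⌋₊ ≤ ⌊β * (N : ℝ)⌋₊) (hN : 1 ≤ N) (hJ : J0 + 2 ≤ nl N)
    (hw : ∀ i ≤ nl N, 100 ≤ wd N i ∧ dl s (lB β N) i ≤ wd N i ∧ 1 ≤ dw N i ∧ 2 * dw N i ≤ wd N i)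
    (hq : 1 ≤ ⌈dl s (lB β N) (nl N)⌉₊)
    (hL : 2 * (s * lB β N) + 4 * wd N J0 + 20 ≤ ((⌊α * (N : ℝ)⌋₊ : ℕ) : ℝ) / 2 - 2)
    (hR : (lB β N : ℝ) + 2 * (s * lB β N) + 4 * wd N J0 + 20 ≤ (N : ℝ) / 2 - 2)
    (len : ℕ → ℝ) (hlen : ∀ i, 0 ≤ len i) (L : ℝ) (f : ℤ × ℤ → ℝ) (σ : ℕ → ℂ × ℂ → Bool)
    (hJ0 : ∀ s' ∈ segs (bd s) σ J0 0 (-5, (lB β N : ℂ)),
      Gd N ⌈dl s (lB β N) (nl N)⌉₊ len L f J0 s')
    (K : ℝ) (hK : (64 : ℝ) ^ nl N * (2 * ⌈dl s (lB β N) (nl N)⌉₊) + ∑ k ∈ Finset.range (nl N - J0),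
      4 * len (J0 + k) * (((segs (bd s) σ (J0 + k + 1) 0 (-5, (lB β N : ℂ))).countP (fun s' =>
        @decide (¬ Gd N ⌈dl s (lB β N) (nl N)⌉₊ len L f (J0 + k + 1) s') (Classical.dec _)) : ℕ) : ℝ) ≤ K) :
    ∃ (u v : ℤ × ℤ) (p : grid.Walk u v),
      u ∈ innerBdry ⌊α * (N : ℝ)⌋₊ ∧ v ∈ innerBdry ⌊β * (N : ℝ)⌋₊ ∧
      (∀ w ∈ p.support, w ∈ box N ∧ f w ≤ L) ∧ (p.support.length : ℝ) ≤ K := by
  classical
  have hqd : dl s (lB β N) (nl N) ≤ (⌈dl s (lB β N) (nl N)⌉₊ : ℕ) := Nat.le_ceil _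
  have hlBdef : lB β N = ⌊β * (N : ℝ)⌋₊ / 2 + 10 := rfl
  generalize hqdef : ⌈dl s (lB β N) (nl N)⌉₊ = q at *
  generalize hAdef : ⌊α * (N : ℝ)⌋₊ = A at *
  generalize hBdef : ⌊β * (N : ℝ)⌋₊ = B at *
  generalize hldef : lB β N = ℓ at *
  have hcast : (((ℓ : ℕ) : ℝ) : ℂ) = (ℓ : ℂ) := Complex.ofReal_natCast _
  have hℓ0 : (0 : ℝ) ≤ (ℓ : ℝ) := Nat.cast_nonneg _
  obtain ⟨U, hUK, hU⟩ := det_cover N J0 s (ℓ : ℝ) hs hs' hℓ0 hJ hw q hq hqd len hlen L f σ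
    (by rw [hcast]; exact hJ0) K (by rw [hcast]; exact hK)
  have hrange := det_range s (ℓ : ℝ) hs hs' hℓ0 (nl N) q hq hqd σ
  rw [hcast] at hU hrange
  have hnorm0 : ‖((-5, (ℓ : ℂ)) : ℂ × ℂ).2‖ = dl s ℓ 0 := by
    simp [dl]
  obtain ⟨⟨p0, hp0⟩, -⟩ := exists_walk (bd s) (det_bd_nonneg s hs)
    (fun j => (det_bd_le s hs j).trans hs') q hq σ (nl N) 0 (-5, (ℓ : ℂ)) (by
      rw [hnorm0, ← det_dl_add, zero_add]; exact hqd)
  have hr1 : rd ((-5, (ℓ : ℂ)) : ℂ × ℂ).1 = (-5, 0) := by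
    have e : (-5 : ℝ) = ((-5 : ℤ) : ℝ) := by norm_num
    simp only [rd, Complex.neg_re, Complex.neg_im, Complex.re_ofNat, Complex.im_ofNat]
    rw [e, Int.floor_intCast]
    simp
  have hr2 : rd (((-5, (ℓ : ℂ)) : ℂ × ℂ).1 + ((-5, (ℓ : ℂ)) : ℂ × ℂ).2) = ((ℓ : ℤ) - 5, 0) := by
    have e : (-5 : ℝ) + (ℓ : ℝ) = (((ℓ : ℤ) - 5 : ℤ) : ℝ) := by push_cast; ring
    simp only [rd, Complex.add_re, Complex.add_im, Complex.neg_re, Complex.neg_im,
      Complex.natCast_re, Complex.natCast_im, Complex.re_ofNat, Complex.im_ofNat]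
    rw [e, Int.floor_intCast]
    simp
  have hne : ((-5 : ℤ), (0 : ℤ)) ≠ ((ℓ : ℤ) - 5, 0) := by
    intro h
    have := congrArg Prod.fst h
    simp only at this
    omega
  obtain ⟨v1, hadj, γ, hγ⟩ := det_tail (p0.copy hr1 hr2) hne
  rw [SimpleGraph.Walk.support_copy] at hγ
  have hleaf : ∀ v ∈ γ.support, v ∈ leaves (bd s) q σ (nl N) 0 (-5, (ℓ : ℂ)) := by
    intro v hv
    rw [hγ] at hv
    exact hp0.subset hv
  choose! Hf hHU hHc hHf hHs using hU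
  have hWN : wd N J0 ≤ N := Nat.div_le_self _ _
  have hsl : 0 ≤ s * (ℓ : ℝ) := mul_nonneg hs.le hℓ0
  have hWr : (0 : ℝ) ≤ (wd N J0 : ℝ) := Nat.cast_nonneg _
  have hWNr : ((wd N J0 : ℕ) : ℝ) ≤ N := by exact_mod_cast hWN
  have hNr : (1 : ℝ) ≤ N := by exact_mod_cast hN
  obtain ⟨S, hSc, hSH, hSs⟩ := hull_lemma grid grid_connected.1 (10 * (N : ℤ), 0) γ
    (fun v => (Hf v : Set (ℤ × ℤ))) (fun v hv => hHc v (hleaf v hv)) (by
      intro v hv r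
      refine (hHs v (hleaf v hv)).2 _ ?_ r
      left
      obtain ⟨r1, r2, r3, r4⟩ := hrange v (hleaf v hv)
      have h1 : (v.1 : ℝ) ≤ N := by linarith
      have h2 : v.1 ≤ (N : ℤ) := by exact_mod_cast h1
      have h3 : (wd N J0 : ℤ) ≤ N := by exact_mod_cast hWN
      rw [le_abs]; left
      show 4 * (wd N J0 : ℤ) ≤ 10 * (N : ℤ) - v.1
      linarith)
  have hS : ∀ z ∈ S, z ∈ U ∧ f z ≤ L ∧ 4 - (N : ℤ) ≤ 2 * z.1 ∧ 2 * z.1 ≤ N - 4 ∧
      4 - (N : ℤ) ≤ 2 * z.2 ∧ 2 * z.2 ≤ N - 4 ∧ 4 - (A : ℤ) ≤ 2 * z.1 ∧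
      4 - (A : ℤ) ≤ 2 * z.2 ∧ 2 * z.2 ≤ A - 4 := by
    intro z hz
    obtain ⟨v, hv, hzv⟩ := hSH z hz
    have hzv' : z ∈ Hf v := hzv
    obtain ⟨r1, r2, r3, r4⟩ := hrange v (hleaf v hv)
    obtain ⟨d1, d2⟩ := (hHs v (hleaf v hv)).1 z hzv'
    have d1' : |(z.1 : ℝ) - v.1| ≤ 3 * (wd N J0 : ℝ) := by exact_mod_cast d1
    have d2' : |(z.2 : ℝ) - v.2| ≤ 3 * (wd N J0 : ℝ) := by exact_mod_cast d2
    rw [abs_le] at d1' d2'
    obtain ⟨e1, e2⟩ := d1'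
    obtain ⟨e3, e4⟩ := d2'
    refine ⟨hHU v (hleaf v hv) hzv', hHf v (hleaf v hv) z hzv', ?_, ?_, ?_, ?_, ?_, ?_, ?_⟩
    · have : (4 : ℝ) - N ≤ 2 * z.1 := by linarith
      exact_mod_cast this
    · have : (2 : ℝ) * z.1 ≤ N - 4 := by linarith
      exact_mod_cast this
    · have : (4 : ℝ) - N ≤ 2 * z.2 := by linarith
      exact_mod_cast this
    · have : (2 : ℝ) * z.2 ≤ N - 4 := by linarith
      exact_mod_cast this
    · have : (4 : ℝ) - A ≤ 2 * z.1 := by linarith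
      exact_mod_cast this
    · have : (4 : ℝ) - A ≤ 2 * z.2 := by linarith
      exact_mod_cast this
    · have : (2 : ℝ) * z.2 ≤ A - 4 := by linarith
      exact_mod_cast this
  -- the left end
  have hv1S : v1 ∈ γ.support := γ.start_mem_support
  have hv1a : |(-5 : ℤ) - v1.1| + |(0 : ℤ) - v1.2| = 1 := hadj
  have hv1b : v1.1 ≤ -4 ∧ -6 ≤ v1.1 ∧ -1 ≤ v1.2 ∧ v1.2 ≤ 1 := by
    have a1 := abs_nonneg ((-5 : ℤ) - v1.1)
    have a2 := abs_nonneg ((0 : ℤ) - v1.2)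
    have b1 : |(-5 : ℤ) - v1.1| ≤ 1 := by omega
    have b2 : |(0 : ℤ) - v1.2| ≤ 1 := by omega
    rw [abs_le] at b1 b2
    refine ⟨by omega, by omega, by omega, by omega⟩
  have hN20 : (N : ℝ) ≥ 44 := by linarith
  have hN20' : 44 ≤ N := by exact_mod_cast hN20
  obtain ⟨x1, y1⟩ := v1
  simp only at hv1b
  obtain ⟨w1, hw1⟩ := det_hw (-20 * (N : ℤ)) x1 y1 (by omega)
  obtain ⟨w2, hw2⟩ := det_vw (-20 * (N : ℤ)) y1 (20 * (N : ℤ)) (by omega)
  obtain ⟨w3, hw3⟩ := det_hw (-20 * (N : ℤ)) (10 * (N : ℤ)) (20 * (N : ℤ)) (by omega)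
  obtain ⟨w4, hw4⟩ := det_vw (10 * (N : ℤ)) 0 (20 * (N : ℤ)) (by omega)
  obtain ⟨a, haw, haS⟩ := hSs _ hv1S (((w1.reverse.append w2).append w3).append w4.reverse)
  have ha4 : a.1 ≤ -4 := by
    obtain ⟨_, _, s1, s2, s3, s4, _⟩ := hS a haS
    rw [SimpleGraph.Walk.mem_support_append_iff, SimpleGraph.Walk.mem_support_append_iff,
      SimpleGraph.Walk.mem_support_append_iff] at haw
    rcases haw with ((h | h) | h) | h
    · rw [SimpleGraph.Walk.support_reverse, List.mem_reverse] at h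
      obtain ⟨h1, h2, h3⟩ := hw1 a h
      omega
    · obtain ⟨h1, h2, h3⟩ := hw2 a h
      omega
    · obtain ⟨h1, h2, h3⟩ := hw3 a h
      omega
    · rw [SimpleGraph.Walk.support_reverse, List.mem_reverse] at h
      obtain ⟨h1, h2, h3⟩ := hw4 a h
      omega
  -- the right end
  have hℓN : (ℓ : ℤ) ≤ N := by
    have : (ℓ : ℝ) ≤ N := by linarith
    exact_mod_cast this
  obtain ⟨w5, hw5⟩ := det_hw ((ℓ : ℤ) - 5) (10 * (N : ℤ)) 0 (by omega)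
  obtain ⟨b, hbw, hbS⟩ := hSs _ γ.end_mem_support w5
  obtain ⟨hb1, hb2, hb3⟩ := hw5 b hbw
  obtain ⟨p2, hp2, hp2len⟩ := grid_connected.2 grid S U (fun z hz => (hS z hz).1) hSc a haS b hbS
  have haA : a ∈ box A := by
    obtain ⟨_, _, s1, s2, s3, s4, s5, s6, s7⟩ := hS a haS
    simp only [box, Finset.mem_product, Finset.mem_Icc]
    omega
  have hbB : b ∉ box B := by
    simp only [box, Finset.mem_product, Finset.mem_Icc]
    omega
  obtain ⟨u, v, qw, hu, hv, hqs, hql⟩ := subwalk A B hα1 hαβ p2 haA hbB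
  refine ⟨u, v, qw, hu, hv, ?_, ?_⟩
  · intro z hz
    obtain ⟨_, s0, s1, s2, s3, s4, s5, s6, s7⟩ := hS z (hp2 z (hqs z hz))
    refine ⟨?_, s0⟩
    simp only [box, Finset.mem_product, Finset.mem_Icc]
    omega
  · have h1 : (qw.support.length : ℝ) ≤ (U.card : ℝ) := by exact_mod_cast hql.trans hp2len
    exact h1.trans hUK

end H941.det_final
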