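import Pool.Agent.H941.Defs3
import Pool.Agent.H941.G1

open MeasureTheory ProbabilityTheory

namespace H941.law_group

namespace LG

variable {ι : Type} [Fintype ι] [DecidableEq ι]


theorem gauss_zero : multivariateGaussian (0 : EuclideanSpace ℝ ι) 0 =
    Measure.dirac (0 : EuclideanSpace ℝ ι) := by
  have h := law_sum (n := 0) (fun _ : Fin 0 => (0 : Matrix ι ι ℝ)) (fun j => j.elim0)
  simp only [Finset.univ_eq_empty, Finset.sum_empty] at h
  rw [← h, Measure.map_const]
  simp

/-- The law of a partial sum. -/
theorem law_part {n : ℕ} (Γ : Fin n → Matrix ι ι ℝ) (hΓ : ∀ i, (Γ i).PosSemidef)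
    (P : Fin n → Prop) [DecidablePred P] :
    (Measure.pi (fun i => multivariateGaussian (0 : EuclideanSpace ℝ ι) (Γ i))).map
        (fun ω => ∑ i, if P i then ω i else 0) =
      multivariateGaussian (0 : EuclideanSpace ℝ ι) (∑ i, if P i then Γ i else 0) := by
  rw [← law_sum (fun i => if P i then Γ i else 0) (fun i => by
    split_ifs
    · exact hΓ i
    · exact Matrix.PosSemidef.zero)]
  have h1 : (fun j => multivariateGaussian (0 : EuclideanSpace ℝ ι) (if P j then Γ j else 0)) =
      fun j => (multivariateGaussian (0 : EuclideanSpace ℝ ι) (Γ j)).map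
        (fun x => if P j then x else 0) := by
    funext j
    by_cases hj : P j
    · simp only [hj, if_true]
      exact (Measure.map_id' (μ := multivariateGaussian (0 : EuclideanSpace ℝ ι) (Γ j))).symm
    · simp only [hj, if_false]
      rw [gauss_zero, Measure.map_const]
      simp
  have h2 : ∀ j, Measurable (fun x : EuclideanSpace ℝ ι => if P j then x else 0) := by
    intro j
    by_cases hj : P j
    · simp only [hj, if_true]; exact measurable_id
    · simp only [hj, if_false]; exact measurable_const
  rw [h1, ← Measure.pi_map_pi (fun j => (h2 j).aemeasurable), Measure.map_map]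
  · rfl
  · fun_prop
  · exact measurable_pi_lambda _ fun j => (h2 j).comp (measurable_pi_apply j)

theorem prod_if {n j : ℕ} (hj : j ≤ n) (G : (i : ℕ) → i < j → ENNReal) :
    (∏ i : Fin (n + 1), if h : (i : ℕ) < j then G i h else 1) = ∏ i : Fin j, G i i.2 := by
  have h1 : (∏ i : Fin (n + 1), if h : (i : ℕ) < j then G i h else 1) =
      ∏ i ∈ Finset.range (n + 1), if h : i < j then G i h else 1 :=
    (Finset.prod_range (fun i => if h : i < j then G i h else 1)).symm
  have h2 : (∏ i : Fin j, G i i.2) = ∏ i ∈ Finset.range j, if h : i < j then G i h else 1 := by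
    rw [Finset.prod_range]
    refine Finset.prod_congr rfl fun i _ => ?_
    rw [dif_pos i.2]
  rw [h1, h2]
  symm
  refine Finset.prod_subset (fun i hi => ?_) (fun i _ hi => ?_)
  · rw [Finset.mem_range] at hi ⊢; omega
  · rw [Finset.mem_range] at hi
    rw [dif_neg hi]

end LG

theorem _root_.H941.law_group {ι : Type} [Fintype ι] [DecidableEq ι] (n j : ℕ) (hj : j ≤ n) (Γ : ℕ → Matrix ι ι ℝ)
    (hΓ : ∀ i, (Γ i).PosSemidef) :
    (Measure.pi (fun i : Fin (n + 1) => multivariateGaussian (0 : EuclideanSpace ℝ ι) (Γ i))).map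
        (fun (ω : Fin (n + 1) → EuclideanSpace ℝ ι) (k : Fin (j + 1)) =>
          if h : (k : ℕ) < j then ω ⟨k, by omega⟩ else
            ∑ i : Fin (n + 1), if (i : ℕ) < j then 0 else ω i) =
      Measure.pi (fun k : Fin (j + 1) => multivariateGaussian (0 : EuclideanSpace ℝ ι)
        (if (k : ℕ) < j then Γ k else ∑ i ∈ Finset.Ico j (n + 1), Γ i)) := by
  classical
  have hmeas : Measurable (fun (ω : Fin (n + 1) → EuclideanSpace ℝ ι) (k : Fin (j + 1)) =>
          if h : (k : ℕ) < j then ω ⟨k, by omega⟩ else
            ∑ i : Fin (n + 1), if (i : ℕ) < j then 0 else ω i) := by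
    refine measurable_pi_lambda _ fun k => ?_
    by_cases hk : (k : ℕ) < j
    · simp only [hk, dif_pos]
      exact measurable_pi_apply _
    · simp only [hk, dif_neg, not_false_eq_true]
      refine Finset.measurable_sum _ fun i _ => ?_
      by_cases hi : (i : ℕ) < j
      · simp only [hi, if_true]; exact measurable_const
      · simp only [hi, if_false]; exact measurable_pi_apply i
  symm
  refine Measure.pi_eq fun s hs => ?_
  rw [Measure.map_apply hmeas (MeasurableSet.univ_pi hs)]
  set μ : Fin (n + 1) → Measure (EuclideanSpace ℝ ι) :=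
    fun i => multivariateGaussian (0 : EuclideanSpace ℝ ι) (Γ i) with hμ
  -- the two blocks
  set S : Finset (Fin (n + 1)) := Finset.univ.filter (fun i => (i : ℕ) < j) with hS
  set T : Finset (Fin (n + 1)) := Finset.univ.filter (fun i => ¬ (i : ℕ) < j) with hT
  have hdis : Disjoint S T := Finset.disjoint_filter_filter_not _ _ _
  have hind : iIndepFun (fun (i : Fin (n + 1)) (ω : Fin (n + 1) → EuclideanSpace ℝ ι) => ω i)
      (Measure.pi μ) := iIndepFun_pi (X := fun _ x => x) (fun i => aemeasurable_id)
  have hind2 := iIndepFun.indepFun_finset S T hdis hind (fun i => measurable_pi_apply i)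
  -- the box
  let A : Set (S → EuclideanSpace ℝ ι) :=
    {x | ∀ i : S, x i ∈ s ⟨(i : Fin (n + 1)), by
      have := (Finset.mem_filter.1 i.2).2
      omega⟩}
  let B : Set (T → EuclideanSpace ℝ ι) := {x | ∑ i : T, x i ∈ s (Fin.last j)}
  have hA : MeasurableSet A := by
    have : A = ⋂ i : S, (fun x : S → EuclideanSpace ℝ ι => x i) ⁻¹' (s ⟨(i : Fin (n + 1)), by
      have := (Finset.mem_filter.1 i.2).2
      omega⟩) := by
      ext x; simp [A]
    rw [this]
    exact MeasurableSet.iInter fun i => measurable_pi_apply i (hs _)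
  have hB : MeasurableSet B := by
    have h1 : Measurable (fun x : T → EuclideanSpace ℝ ι => ∑ i : T, x i) := by fun_prop
    exact h1 (hs _)
  have hsum : ∀ ω : Fin (n + 1) → EuclideanSpace ℝ ι,
      (∑ i : T, ω i) = ∑ i : Fin (n + 1), if (i : ℕ) < j then 0 else ω i := by
    intro ω
    rw [Finset.sum_coe_sort T (fun i => ω i), hT, Finset.sum_filter]
    refine Finset.sum_congr rfl fun i _ => ?_
    by_cases hi : (i : ℕ) < j
    · simp [hi]
    · simp [hi]
  have hset : ((fun (ω : Fin (n + 1) → EuclideanSpace ℝ ι) (k : Fin (j + 1)) =>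
          if h : (k : ℕ) < j then ω ⟨k, by omega⟩ else
            ∑ i : Fin (n + 1), if (i : ℕ) < j then 0 else ω i) ⁻¹' (Set.univ.pi s)) =
      ((fun ω (i : S) => ω i) ⁻¹' A) ∩ ((fun ω (i : T) => ω i) ⁻¹' B) := by
    ext ω
    simp only [Set.mem_preimage, Set.mem_univ_pi, Set.mem_inter_iff]
    constructor
    · intro h
      refine ⟨fun i => ?_, ?_⟩
      · have hi := (Finset.mem_filter.1 i.2).2
        have h1 := h ⟨(i : Fin (n + 1)), by omega⟩
        simp only [hi, dif_pos] at h1
        exact h1
      · have h1 := h (Fin.last j)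
        simp only [Fin.val_last, lt_irrefl, dif_neg, not_false_eq_true] at h1
        show ∑ i : T, ω i ∈ s (Fin.last j)
        rw [hsum]
        exact h1
    · rintro ⟨h1, h2⟩ k
      by_cases hk : (k : ℕ) < j
      · simp only [hk, dif_pos]
        have h3 := h1 ⟨⟨k, by omega⟩, by
          rw [hS, Finset.mem_filter]; exact ⟨Finset.mem_univ _, hk⟩⟩
        exact h3
      · simp only [hk, dif_neg, not_false_eq_true]
        have hk' : k = Fin.last j := by
          apply Fin.ext
          have := k.2
          rw [Fin.val_last]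
          omega
        have h3 : ∑ i : T, ω i ∈ s (Fin.last j) := h2
        rw [hsum] at h3
        rw [hk']
        exact h3
  rw [hset, hind2.measure_inter_preimage_eq_mul A B hA hB, Fin.prod_univ_castSucc]
  congr 1
  · -- the first block
    have h1 : ((fun (ω : Fin (n + 1) → EuclideanSpace ℝ ι) (i : S) => ω i) ⁻¹' A) =
        Set.univ.pi (fun i : Fin (n + 1) => if h : (i : ℕ) < j then s ⟨i, by omega⟩
          else Set.univ) := by
      ext ω
      simp only [Set.mem_preimage, Set.mem_univ_pi]
      constructor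
      · intro h i
        by_cases hi : (i : ℕ) < j
        · simp only [hi, dif_pos]
          exact h ⟨i, by rw [hS, Finset.mem_filter]; exact ⟨Finset.mem_univ _, hi⟩⟩
        · simp only [hi, dif_neg, not_false_eq_true]
          exact Set.mem_univ _
      · intro h i
        have hi := (Finset.mem_filter.1 i.2).2
        have h2 := h i
        simp only [hi, dif_pos] at h2
        exact h2
    rw [h1, Measure.pi_pi]
    have h2 : ∀ i : Fin (n + 1), μ i (if h : (i : ℕ) < j then s ⟨i, by omega⟩ else Set.univ) =
        if h : (i : ℕ) < j then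
          (fun (i : ℕ) (h : i < j) => multivariateGaussian (0 : EuclideanSpace ℝ ι) (Γ i)
            (s ⟨i, by omega⟩)) i h else 1 := by
      intro i
      by_cases hi : (i : ℕ) < j
      · simp only [hi, dif_pos, hμ]
      · simp only [hi, dif_neg, not_false_eq_true, measure_univ]
    rw [Finset.prod_congr rfl fun i _ => h2 i]
    refine (LG.prod_if hj (fun (i : ℕ) (h : i < j) =>
      multivariateGaussian (0 : EuclideanSpace ℝ ι) (Γ i) (s ⟨i, by omega⟩))).trans ?_
    refine Finset.prod_congr rfl fun i _ => ?_
    have hi : ((i.castSucc : Fin (j + 1)) : ℕ) < j := i.2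
    rw [if_pos hi]
    rfl
  · -- the second block
    have h1 := LG.law_part (fun i : Fin (n + 1) => Γ i) (fun i => hΓ i)
      (fun i => ¬ (i : ℕ) < j)
    have h2 : ((fun (ω : Fin (n + 1) → EuclideanSpace ℝ ι) (i : T) => ω i) ⁻¹' B) =
        (fun ω : Fin (n + 1) → EuclideanSpace ℝ ι => ∑ i : Fin (n + 1), if ¬ (i : ℕ) < j then ω i else 0) ⁻¹'
          (s (Fin.last j)) := by
      ext ω
      show ∑ i : T, ω i ∈ s (Fin.last j) ↔ (∑ i : Fin (n + 1), if ¬ (i : ℕ) < j then ω i else 0) ∈ s (Fin.last j)
      rw [hsum]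
      have : (∑ i : Fin (n + 1), if (i : ℕ) < j then (0 : EuclideanSpace ℝ ι) else ω i) =
          ∑ i : Fin (n + 1), if ¬ (i : ℕ) < j then ω i else 0 := by
        refine Finset.sum_congr rfl fun i _ => ?_
        by_cases hi : (i : ℕ) < j
        · simp [hi]
        · simp [hi]
      rw [this]
    have h3 : Measurable (fun ω : Fin (n + 1) → EuclideanSpace ℝ ι =>
        ∑ i : Fin (n + 1), if ¬ (i : ℕ) < j then ω i else 0) := by
      refine Finset.measurable_sum _ fun i _ => ?_
      by_cases hi : (i : ℕ) < j
      · simp only [hi, not_true_eq_false, if_false]; exact measurable_const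
      · simp only [hi, not_false_eq_true, if_true]; exact measurable_pi_apply i
    rw [h2, ← Measure.map_apply h3 (hs _)]
    show ((Measure.pi (fun i : Fin (n + 1) => multivariateGaussian (0 : EuclideanSpace ℝ ι)
      (Γ i))).map _) _ = _
    rw [h1]
    have h4 : (∑ i : Fin (n + 1), if ¬ (i : ℕ) < j then Γ i else 0) =
        ∑ i ∈ Finset.Ico j (n + 1), Γ i := by
      rw [← Finset.sum_range (fun i => if ¬ i < j then Γ i else 0), ← Finset.sum_filter]
      refine Finset.sum_congr ?_ fun _ _ => rfl
      ext i
      rw [Finset.mem_filter, Finset.mem_range, Finset.mem_Ico]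
      omega
    rw [h4]
    have h5 : ¬ (((Fin.last j : Fin (j + 1)) : ℕ) < j) := by simp
    rw [if_neg h5]

end H941.law_group
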