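import Pool.Agent.H941.Defs3
import Pool.Agent.H941.A3
import Pool.Agent.H941.A4
import Pool.Agent.H941.B.GG_facts
import Pool.Agent.H941.B.arm_bound
import Pool.Agent.H941.B.coarse_bound
import Pool.Agent.H941.B.decouple
import Pool.Agent.H941.B.law_group
import Pool.Agent.H941.B.pst_near
import Pool.Agent.H941.S3

open MeasureTheory ProbabilityTheory

namespace H941.level_arm

section LA


theorem la_bd_pos {s : ℝ} (hs : 0 < s) (k : ℕ) : 0 < bd s k := by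
  unfold bd
  positivity

theorem la_bd_le {s : ℝ} (hs : 0 < s) (k : ℕ) : bd s k ≤ s := by
  unfold bd
  have hk : (0 : ℝ) ≤ k := Nat.cast_nonneg k
  have : ((k : ℝ) + 1) ^ (-(3 / 5) : ℝ) ≤ 1 :=
    Real.rpow_le_one_of_one_le_of_nonpos (by linarith) (by norm_num)
  nlinarith

theorem la_bd_zero (s : ℝ) : bd s 0 = s := by
  unfold bd
  simp

theorem la_bd_anti {s : ℝ} (hs : 0 < s) : Antitone (bd s) := by
  intro a b hab
  unfold bd
  have h1 : (a : ℝ) ≤ b := Nat.cast_le.2 hab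
  have h2 : (0 : ℝ) ≤ a := Nat.cast_nonneg a
  have := Real.rpow_le_rpow_of_nonpos (x := (a : ℝ) + 1) (y := (b : ℝ) + 1) (z := -(3 / 5))
    (by linarith) (by linarith) (by norm_num)
  exact mul_le_mul_of_nonneg_left this hs.le

theorem la_dl_nonneg {s : ℝ} (ℓ : ℕ) (k : ℕ) : 0 ≤ dl s ℓ k := by
  unfold dl
  positivity

theorem la_dl_le {s : ℝ} (hs : 0 < s) (hs' : s ≤ 1 / 8) (ℓ : ℕ) (k : ℕ) : dl s ℓ k ≤ ℓ := by
  unfold dl
  have hp : ∏ k ∈ Finset.range k, (Real.sqrt (1 + 4 * bd s k ^ 2) / 64) ≤ 1 := by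
    refine Finset.prod_le_one (fun i _ => by positivity) (fun i _ => ?_)
    have h1 := la_bd_le hs i
    have h2 := (la_bd_pos hs i).le
    have h3 : Real.sqrt (1 + 4 * bd s i ^ 2) ≤ Real.sqrt (2 ^ 2) := by
      apply Real.sqrt_le_sqrt
      nlinarith
    rw [Real.sqrt_sq (by norm_num)] at h3
    linarith
  have hl : (0 : ℝ) ≤ ℓ := Nat.cast_nonneg ℓ
  nlinarith

theorem la_norm {s : ℝ} (hs : 0 < s) (hs' : s ≤ 1 / 8) (ℓ : ℕ) (c : ℕ → Fin 64 × Bool) (k : ℕ) :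
    ‖(pst (bd s) 0 (-5, (ℓ : ℂ)) c k).2‖ = dl s ℓ k := by
  have h := (pst_near (bd s) (fun j => (la_bd_pos hs j).le)
    (fun j => (la_bd_le hs j).trans hs') (la_bd_anti hs) c (-5, (ℓ : ℂ)) k).2.2 k
  rw [h]
  unfold dl
  congr 1
  simp

theorem la_mem {s : ℝ} {ℓ N : ℕ} (h : Par s ℓ N) (c : ℕ → Fin 64 × Bool) (k : ℕ) (z : ℤ × ℤ)
    (τ r : ℝ) (h0 : 0 ≤ τ) (h1 : τ ≤ 1)
    (hz : ‖toC z - ((pst (bd s) 0 (-5, (ℓ : ℂ)) c k).1 +
      (τ : ℂ) * (pst (bd s) 0 (-5, (ℓ : ℂ)) c k).2)‖ ≤ r)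
    (hr : r ≤ 2 * (s * ℓ) + s * ℓ / 2) : z ∈ box N \ innerBdry N := by
  have hs := h.s_pos
  obtain ⟨τ', h0', h1', hn⟩ := (pst_near (bd s) (fun j => (la_bd_pos hs j).le)
    (fun j => (la_bd_le hs j).trans h.s_le) (la_bd_anti hs) c (-5, (ℓ : ℂ)) k).2.1 k le_rfl τ h0 h1
  refine h.bulk z τ' h0' h1' ?_
  rw [la_bd_zero] at hn
  have hl : (0 : ℝ) ≤ s * ℓ := by positivity
  have hnl : ‖((-5, (ℓ : ℂ)) : ℂ × ℂ).2‖ = ℓ := by simp
  rw [hnl] at hn
  have := norm_add_le (toC z - ((pst (bd s) 0 (-5, (ℓ : ℂ)) c k).1 +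
      (τ : ℂ) * (pst (bd s) 0 (-5, (ℓ : ℂ)) c k).2))
      ((pst (bd s) 0 (-5, (ℓ : ℂ)) c k).1 + (τ : ℂ) * (pst (bd s) 0 (-5, (ℓ : ℂ)) c k).2 -
      (((-5, (ℓ : ℂ)) : ℂ × ℂ).1 + (τ' : ℂ) * ((-5, (ℓ : ℂ)) : ℂ × ℂ).2))
  rw [sub_add_sub_cancel] at this
  refine this.trans ?_
  linarith

theorem la_rd (z : ℂ) : ‖toC (rd z) - z‖ ≤ 2 := by
  refine (Complex.norm_le_abs_re_add_abs_im _).trans ?_
  have h1 : (toC (rd z) - z).re = (⌊z.re⌋ : ℝ) - z.re := rfl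
  have h2 : (toC (rd z) - z).im = (⌊z.im⌋ : ℝ) - z.im := rfl
  rw [h1, h2]
  have a1 := Int.floor_le z.re
  have a2 := Int.lt_floor_add_one z.re
  have a3 := Int.floor_le z.im
  have a4 := Int.lt_floor_add_one z.im
  have b1 : |(⌊z.re⌋ : ℝ) - z.re| ≤ 1 := by rw [abs_le]; constructor <;> linarith
  have b2 : |(⌊z.im⌋ : ℝ) - z.im| ≤ 1 := by rw [abs_le]; constructor <;> linarith
  linarith

theorem la_toC (z y : ℤ × ℤ) (M : ℤ) (h1 : |z.1 - y.1| ≤ M) (h2 : |z.2 - y.2| ≤ M) :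
    ‖toC z - toC y‖ ≤ 2 * (M : ℝ) := by
  refine (Complex.norm_le_abs_re_add_abs_im _).trans ?_
  have e1 : (toC z - toC y).re = ((z.1 - y.1 : ℤ) : ℝ) := by
    simp [toC]
  have e2 : (toC z - toC y).im = ((z.2 - y.2 : ℤ) : ℝ) := by
    simp [toC]
  rw [e1, e2, ← Int.cast_abs, ← Int.cast_abs]
  have b1 : ((|z.1 - y.1| : ℤ) : ℝ) ≤ (M : ℝ) := by exact_mod_cast h1
  have b2 : ((|z.2 - y.2| : ℤ) : ℝ) ≤ (M : ℝ) := by exact_mod_cast h2
  linarith

theorem la_meas {N : ℕ} {s : ℝ} {ℓ : ℕ} (b : Bool) (i : ℕ) (seg : ℂ × ℂ) :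
    MeasurableSet (sgn N s ℓ b i seg) := by
  unfold sgn
  refine measurableSet_le ?_ measurable_const
  fun_prop

theorem la_half {c1 : ℝ} (hlf : ∀ (D S : Finset (ℤ × ℤ)), D ⊆ S → ∀ (Λ L T ρ : ℕ), 1 ≤ Λ → 1 ≤ L → 2 * L ∣ Λ →
    ∀ (δ : ℝ) (s : ℂ × ℂ), 0 < δ → δ ≤ 1 / 8 → 96 ≤ δ * ‖s.2‖ → 16 / δ ≤ T → (T : ℝ) ≤ 16 / δ + 1 →
      3 / 8 * (δ * ‖s.2‖) ≤ ρ → (ρ : ℝ) ≤ 3 / 8 * (δ * ‖s.2‖) + 1 →
      2 * (L : ℝ) ≤ δ * ‖s.2‖ / 16 → δ * ‖s.2‖ / 64 ≤ L →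
      (∀ (z : ℤ × ℤ) (τ : ℝ), 0 ≤ τ → τ ≤ 1 →
        ‖toC z - (s.1 + (τ : ℂ) * s.2)‖ ≤ 2 * (δ * ‖s.2‖) → z ∈ D) →
    ∀ (b : Bool) (v : (S : Finset (ℤ × ℤ))) (τ t : ℝ), 0 ≤ τ → τ ≤ 1 → 0 ≤ t → t ≤ 1 →
      ‖toC v - (s.1 + (τ : ℂ) * s.2 + bsign b * δ * Complex.I * (t : ℂ) * s.2)‖ ≤ δ * ‖s.2‖ / 16 →
    ∀ θ : ℝ, 0 ≤ θ → θ * Real.sqrt δ ≤ 1 →
      ∫ x : EuclideanSpace ℝ (S : Finset (ℤ × ℤ)), Set.indicator
          {x : EuclideanSpace ℝ (S : Finset (ℤ × ℤ)) |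
            (if b then (1 : ℝ) else -1) * ∑ y, Wfun S T ρ δ s y * x y ≤ 0}
          (fun x => Real.exp (θ * x v)) x
          ∂(multivariateGaussian (0 : EuclideanSpace ℝ (S : Finset (ℤ × ℤ)))
              (Matrix.of fun x y : (S : Finset (ℤ × ℤ)) => Gam D Λ L x y)) ≤
        (1 / 2) * Real.exp (θ ^ 2 * Gam D Λ L v v / 2) *
          (if 3 / 4 ≤ t then Real.exp (-(c1 * (θ * Real.sqrt δ))) else 1))
    {s : ℝ} {ℓ N : ℕ} (h : Par s ℓ N) (c : ℕ → Fin 64 × Bool) (k : ℕ) (hk : k < nl N) :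
    multivariateGaussian (0 : EuclideanSpace ℝ ↥(box N)) (GG N s ℓ k)
      (sgn N s ℓ (c k).2 k (pst (bd s) 0 (-5, (ℓ : ℂ)) c k)) ≤ 1 / 2 := by
  have hs := h.s_pos
  have hnorm := la_norm hs h.s_le ℓ c k
  obtain ⟨g1, g2, g3⟩ := h.lc_fac k hk
  obtain ⟨g1', -, -⟩ := h.lc_fac 0 (by omega)
  have hbig := h.big k hk
  have hb := la_bd_pos hs k
  have hdl : bd s k * dl s ℓ k ≤ s * ℓ :=
    mul_le_mul (la_bd_le hs k) (la_dl_le hs h.s_le ℓ k) (la_dl_nonneg ℓ k) hs.le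
  have hmemv : rd (pst (bd s) 0 (-5, (ℓ : ℂ)) c k).1 ∈ box N \ innerBdry N := by
    refine la_mem h c k _ 0 2 le_rfl zero_le_one ?_ (by linarith)
    simpa using la_rd (pst (bd s) 0 (-5, (ℓ : ℂ)) c k).1
  have hmemv' : rd (pst (bd s) 0 (-5, (ℓ : ℂ)) c k).1 ∈ box N := (Finset.mem_sdiff.1 hmemv).1
  have key := hlf (box N \ innerBdry N) (box N) Finset.sdiff_subset (2 * lc s ℓ 0) (lc s ℓ k)
    ⌈16 / bd s k⌉₊ ⌈3 / 8 * (bd s k * dl s ℓ k)⌉₊ (by omega) g1 (h.lc_dvd0 k hk) (bd s k)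
    (pst (bd s) 0 (-5, (ℓ : ℂ)) c k) hb ((la_bd_le hs k).trans h.s_le) (by rw [hnorm]; exact hbig)
    (Nat.le_ceil _) (Nat.ceil_lt_add_one (by positivity)).le (by rw [hnorm]; exact Nat.le_ceil _)
    (by rw [hnorm]; exact (Nat.ceil_lt_add_one (by linarith)).le) (by rw [hnorm]; exact g2)
    (by rw [hnorm]; exact g3) (fun z τ h0 h1 hz => by
      rw [hnorm] at hz
      exact la_mem h c k z τ _ h0 h1 hz (by
        have : 0 ≤ s * ℓ := by positivity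
        linarith)) (c k).2 ⟨_, hmemv'⟩ 0 0 le_rfl zero_le_one le_rfl zero_le_one (by
      have := la_rd (pst (bd s) 0 (-5, (ℓ : ℂ)) c k).1
      rw [hnorm]
      simp only [Complex.ofReal_zero, mul_zero, zero_mul, add_zero]
      linarith) 0 le_rfl (by simp)
  have hG : (Matrix.of fun x y : ↥(box N) => Gam (box N \ innerBdry N) (2 * lc s ℓ 0) (lc s ℓ k) x y) =
      GG N s ℓ k := by
    unfold GG
    rw [if_pos hk]
  rw [hG] at key
  have hset : {x : EuclideanSpace ℝ ↥(box N) | (if (c k).2 then (1 : ℝ) else -1) *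
      ∑ y, Wfun (box N) ⌈16 / bd s k⌉₊ ⌈3 / 8 * (bd s k * dl s ℓ k)⌉₊ (bd s k)
        (pst (bd s) 0 (-5, (ℓ : ℂ)) c k) y * x y ≤ 0} =
      sgn N s ℓ (c k).2 k (pst (bd s) 0 (-5, (ℓ : ℂ)) c k) := rfl
  rw [hset] at key
  have hind : (fun x : EuclideanSpace ℝ ↥(box N) => Set.indicator
      (sgn N s ℓ (c k).2 k (pst (bd s) 0 (-5, (ℓ : ℂ)) c k))
      (fun x => Real.exp (0 * x ⟨rd (pst (bd s) 0 (-5, (ℓ : ℂ)) c k).1, hmemv'⟩)) x) =
      Set.indicator (sgn N s ℓ (c k).2 k (pst (bd s) 0 (-5, (ℓ : ℂ)) c k)) 1 := by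
    funext x
    congr 1
    funext y
    simp
  rw [hind, integral_indicator_one (la_meas _ _ _)] at key
  have key' : (multivariateGaussian (0 : EuclideanSpace ℝ ↥(box N)) (GG N s ℓ k)).real
      (sgn N s ℓ (c k).2 k (pst (bd s) 0 (-5, (ℓ : ℂ)) c k)) ≤ 1 / 2 := by
    refine key.trans ?_
    norm_num
  rw [← ENNReal.ofReal_toReal (measure_ne_top (multivariateGaussian
    (0 : EuclideanSpace ℝ ↥(box N)) (GG N s ℓ k)) _)]
  have e : (1 / 2 : ENNReal) = ENNReal.ofReal (1 / 2) := by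
    rw [ENNReal.ofReal_div_of_pos (by norm_num)]
    simp
  rw [e]
  exact ENNReal.ofReal_le_ofReal key'

end LA

section LB

open Matrix


theorem lb_green_zero (D : Finset (ℤ × ℤ)) (u v : ℤ × ℤ) (h : u ∉ D ∨ v ∉ D) : green D u v = 0 :=
  (green_basic D).2.1 u v h

theorem lb_psd (D V S : Finset (ℤ × ℤ)) (hDV : D ⊆ V) (hVS : V ⊆ S) :
    (Matrix.of fun x y : (S : Finset (ℤ × ℤ)) =>
      (1 / 4) * green V x y - 1 / 4 * green D x y).PosSemidef := by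
  refine Matrix.PosSemidef.of_dotProduct_mulVec_nonneg ?_ ?_
  · ext x y
    simp only [Matrix.conjTranspose_apply, Matrix.of_apply, star_trivial]
    rw [(green_basic V).2.2.1 y x, (green_basic D).2.2.1 y x]
  · intro f
    set F : ℤ × ℤ → ℝ := fun z => if hz : z ∈ S then f ⟨z, hz⟩ else 0 with hF
    have h1 := green_psd D V hDV F
    have h2 : star f ⬝ᵥ (Matrix.of fun x y : (S : Finset (ℤ × ℤ)) =>
        (1 / 4) * green V x y - 1 / 4 * green D x y) *ᵥ f =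
        (1 / 4) * ∑ x ∈ V, ∑ y ∈ V, F x * (green V x y - green D x y) * F y := by
      have e1 : ∀ x ∈ S, x ∉ V → ∑ y ∈ S, F x * (green V x y - green D x y) * F y = 0 := by
        intro x _ hx
        refine Finset.sum_eq_zero fun y _ => ?_
        rw [lb_green_zero V x y (Or.inl hx), lb_green_zero D x y (Or.inl fun h => hx (hDV h))]
        ring
      have e2 : ∀ x, ∑ y ∈ V, F x * (green V x y - green D x y) * F y =
          ∑ y ∈ S, F x * (green V x y - green D x y) * F y := by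
        intro x
        refine Finset.sum_subset hVS fun y _ hy => ?_
        rw [lb_green_zero V x y (Or.inr hy), lb_green_zero D x y (Or.inr fun h => hy (hDV h))]
        ring
      simp_rw [e2]
      rw [Finset.sum_subset hVS e1, dotProduct, Finset.mul_sum, ← Finset.sum_coe_sort S]
      refine Finset.sum_congr rfl fun x _ => ?_
      rw [mulVec, dotProduct, Finset.mul_sum, Finset.mul_sum, ← Finset.sum_coe_sort S]
      refine Finset.sum_congr rfl fun y _ => ?_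
      simp only [hF, Matrix.of_apply, Finset.coe_mem, dite_true, Subtype.coe_eta, Pi.star_apply,
        star_trivial]
      ring
    rw [h2]
    positivity

theorem lb_place {o : Bool} {t cs : ℤ × ℤ} {w : ℕ}
    (ht : (o = true ∧ t = (cs.1 - 3 * w, cs.2 + w)) ∨ (o = true ∧ t = (cs.1 - 3 * w, cs.2 - 2 * w)) ∨
      (o = false ∧ t = (cs.1 + w, cs.2 - 3 * w)) ∨ (o = false ∧ t = (cs.1 - 2 * w, cs.2 - 3 * w))) :
    (∀ z ∈ (rect 1 (7 * w - 1) 1 (w - 1)).image (place o t),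
      |z.1 - cs.1| ≤ 4 * (w : ℤ) ∧ |z.2 - cs.2| ≤ 4 * (w : ℤ)) ∧
    (∀ d : ℕ, ∀ z ∈ (rect w (5 * w) d (w - d)).image (place o t),
      |z.1 - cs.1| ≤ 2 * (w : ℤ) ∧ |z.2 - cs.2| ≤ 2 * (w : ℤ)) := by
  constructor
  · intro z hz
    obtain ⟨v, hv, rfl⟩ := Finset.mem_image.1 hz
    simp only [rect, Finset.mem_product, Finset.mem_Icc] at hv
    obtain ⟨⟨h1, h2⟩, h3, h4⟩ := hv
    rcases ht with ⟨rfl, rfl⟩ | ⟨rfl, rfl⟩ | ⟨rfl, rfl⟩ | ⟨rfl, rfl⟩ <;>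
      simp only [place, if_true, Bool.false_eq_true, if_false] <;>
      constructor <;> rw [abs_le] <;> constructor <;> linarith
  · intro d z hz
    obtain ⟨v, hv, rfl⟩ := Finset.mem_image.1 hz
    simp only [rect, Finset.mem_product, Finset.mem_Icc] at hv
    obtain ⟨⟨h1, h2⟩, h3, h4⟩ := hv
    have hd : (0 : ℤ) ≤ d := Int.natCast_nonneg d
    rcases ht with ⟨rfl, rfl⟩ | ⟨rfl, rfl⟩ | ⟨rfl, rfl⟩ | ⟨rfl, rfl⟩ <;>
      simp only [place, if_true, Bool.false_eq_true, if_false] <;>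
      constructor <;> rw [abs_le] <;> constructor <;> linarith

/-- the placed rectangle lies in an axis parallel rectangle with `a + b = 8 w` -/
theorem lb_box (o : Bool) (t : ℤ × ℤ) (w : ℕ) : ∃ (x0 y0 : ℤ) (a b : ℕ), a + b = 8 * w ∧
    ∀ z ∈ (rect 1 (7 * w - 1) 1 (w - 1)).image (place o t),
      x0 < z.1 ∧ z.1 < x0 + a ∧ y0 < z.2 ∧ z.2 < y0 + b := by
  cases o
  · refine ⟨t.1, t.2, w, 7 * w, by ring, fun z hz => ?_⟩
    obtain ⟨v, hv, rfl⟩ := Finset.mem_image.1 hz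
    simp only [rect, Finset.mem_product, Finset.mem_Icc] at hv
    obtain ⟨⟨h1, h2⟩, h3, h4⟩ := hv
    simp only [place, Bool.false_eq_true, if_false]
    push_cast
    refine ⟨?_, ?_, ?_, ?_⟩ <;> linarith
  · refine ⟨t.1, t.2, 7 * w, w, by ring, fun z hz => ?_⟩
    obtain ⟨v, hv, rfl⟩ := Finset.mem_image.1 hz
    simp only [rect, Finset.mem_product, Finset.mem_Icc] at hv
    obtain ⟨⟨h1, h2⟩, h3, h4⟩ := hv
    simp only [place, if_true]
    push_cast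
    refine ⟨?_, ?_, ?_, ?_⟩ <;> linarith

theorem lb_sum {M : Type*} [AddCommMonoid M] (n j : ℕ) (hj : j ≤ n) (ω : Fin (n + 1) → M) :
    ∑ k : Fin (j + 1), (if h : (k : ℕ) < j then ω ⟨k, by omega⟩ else
      ∑ i : Fin (n + 1), if (i : ℕ) < j then 0 else ω i) = ∑ i, ω i := by
  rw [Fin.sum_univ_castSucc]
  have e1 : (∑ k : Fin j, (if h : ((k.castSucc : Fin (j + 1)) : ℕ) < j then
      ω ⟨(k.castSucc : Fin (j + 1)), by omega⟩ else
      ∑ i : Fin (n + 1), if (i : ℕ) < j then 0 else ω i)) =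
      ∑ i : Fin (n + 1), if (i : ℕ) < j then ω i else 0 := by
    rw [← Finset.sum_filter]
    refine Finset.sum_bij (fun k _ => ⟨k, by omega⟩) ?_ ?_ ?_ ?_
    · intro k _
      simp
    · intro a _ b _ h
      exact Fin.ext (by simpa using h)
    · intro b hb
      simp only [Finset.mem_filter, Finset.mem_univ, true_and] at hb
      exact ⟨⟨b, hb⟩, Finset.mem_univ _, rfl⟩
    · intro k _
      rw [dif_pos (by simp)]
      rfl
  rw [e1]
  simp only [Fin.val_last, lt_irrefl, dite_false]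
  rw [← Finset.sum_add_distrib]
  refine Finset.sum_congr rfl fun i _ => ?_
  split_ifs <;> simp

end LB

theorem _root_.H941.level_arm : ∃ c1 : ℝ, 0 < c1 ∧ c1 ≤ 1 ∧ ∀ (s : ℝ) (ℓ N : ℕ), Par s ℓ N → ∀ i ≤ nl N,
    6 * (wd N i : ℝ) ≤ s * ℓ →
    ∀ (c : ℕ → Fin 64 × Bool) (o : Bool) (t : ℤ × ℤ) (lam θ : ℝ), 0 ≤ θ → θ ≤ 1 → 1 ≤ lam →
      10 ^ 12 * (lam + 20 * Nat.log 2 N) ≤ lam * (Nat.log 2 N : ℝ) ^ 2 →
      ((o = true ∧ t = ((mid (pst (bd s) 0 (-5, (ℓ : ℂ)) c i)).1 - 3 * wd N i, (mid (pst (bd s) 0 (-5, (ℓ : ℂ)) c i)).2 + wd N i)) ∨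
       (o = true ∧ t = ((mid (pst (bd s) 0 (-5, (ℓ : ℂ)) c i)).1 - 3 * wd N i, (mid (pst (bd s) 0 (-5, (ℓ : ℂ)) c i)).2 - 2 * wd N i)) ∨
       (o = false ∧ t = ((mid (pst (bd s) 0 (-5, (ℓ : ℂ)) c i)).1 + wd N i, (mid (pst (bd s) 0 (-5, (ℓ : ℂ)) c i)).2 - 3 * wd N i)) ∨
       (o = false ∧ t = ((mid (pst (bd s) 0 (-5, (ℓ : ℂ)) c i)).1 - 2 * wd N i, (mid (pst (bd s) 0 (-5, (ℓ : ℂ)) c i)).2 - 3 * wd N i))) →
      PP N s ℓ {ω | (∀ k : Fin (nl N + 1), (k : ℕ) < i - mg N → ω k ∈ sgn N s ℓ (c k).2 k (pst (bd s) 0 (-5, (ℓ : ℂ)) c k)) ∧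
          ¬ armOK o t (wd N i) (dw N i) (2 * lam) (ln N lam i) (extf (box N) (∑ k, ω k))} ≤
      ENNReal.ofReal ((1 / 2) ^ (i - mg N) * qq N lam i +
        (100 * (Nat.log 2 N : ℝ) ^ 12 * (Real.exp (-(θ * (lam - 1))) *
          ((∏ k ∈ Finset.range (i - mg N), (1 / 2) * (if 24 ≤ ((c k).1 : ℕ) ∧ ((c k).1 : ℕ) < 40 then
            Real.exp (-(c1 * (θ * Real.sqrt (bd s k)))) else 1)) * Real.exp (θ ^ 2 * v0 N i / 2))) +
        5 * (wd N i : ℝ) ^ 2 * Real.exp (-((Nat.log 2 N : ℝ) ^ 2 / 2)))) := by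
  classical
  obtain ⟨c1, hc1, hc1', hcb⟩ := coarse_bound
  obtain ⟨c2, hc2, hc2', hlf⟩ := level_factor
  refine ⟨c1, hc1, hc1', ?_⟩
  intro s ℓ N h i hi hw6 c o t lam θ hθ hθ' hlam hcond ht
  have hs := h.s_pos
  have hLg : (1000 : ℝ) ≤ (Nat.log 2 N : ℝ) := by exact_mod_cast h.lg
  have hLgn := h.lg
  have hwge : (Nat.log 2 N) ^ 8 ≤ wd N i := h.wd_ge i hi
  have hdmul : dw N i * (Nat.log 2 N) ^ 2 ≤ wd N i := Nat.div_mul_le_self _ _
  have hpow : (Nat.log 2 N) ^ 2 ≤ (Nat.log 2 N) ^ 8 :=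
    Nat.pow_le_pow_right (by omega) (by norm_num)
  have hd1 : 1 ≤ dw N i := Nat.div_pos (hpow.trans hwge) (by positivity)
  have hw1 : 1 ≤ wd N i := le_trans (Nat.one_le_pow _ _ (by omega)) hwge
  have hw1' : (1 : ℝ) ≤ wd N i := by exact_mod_cast hw1
  have hjn : i - mg N ≤ nl N := by omega
  obtain ⟨hpl1, hpl2⟩ := lb_place ht
  have hDV : (rect 1 (7 * wd N i - 1) 1 (wd N i - 1)).image (place o t) ⊆ box N \ innerBdry N := by
    intro z hz
    obtain ⟨a1, a2⟩ := hpl1 z hz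
    refine la_mem h c i z (1 / 2) (2 * ((4 * (wd N i : ℤ) : ℤ) : ℝ) + 2) (by norm_num) (by norm_num)
      ?_ ?_
    · have n1 := la_toC z _ _ a1 a2
      have n2 := la_rd ((pst (bd s) 0 (-5, (ℓ : ℂ)) c i).1 +
        (1 / 2) * (pst (bd s) 0 (-5, (ℓ : ℂ)) c i).2)
      have e : (((1 / 2 : ℝ)) : ℂ) = 1 / 2 := by norm_num
      rw [e]
      have := norm_add_le (toC z - toC (mid (pst (bd s) 0 (-5, (ℓ : ℂ)) c i)))
        (toC (mid (pst (bd s) 0 (-5, (ℓ : ℂ)) c i)) - ((pst (bd s) 0 (-5, (ℓ : ℂ)) c i).1 +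
        (1 / 2) * (pst (bd s) 0 (-5, (ℓ : ℂ)) c i).2))
      rw [sub_add_sub_cancel] at this
      exact this.trans (add_le_add n1 n2)
    · push_cast
      linarith
  have hVS : box N \ innerBdry N ⊆ box N := Finset.sdiff_subset
  obtain ⟨hG1, -, hG3⟩ := GG_facts s ℓ N h
  obtain ⟨p, hp1, hp0, hp2, hpsd⟩ : ∃ p : ℝ, 1 - 1 / (Nat.log 2 N : ℝ) ^ 4 ≤ p ∧ 0 ≤ p ∧ p ≤ 1 ∧
      (Matrix.of fun x y : ↥(box N) => ((1 / 4) * green (box N \ innerBdry N) x y -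
        ∑ k ∈ Finset.range (i - mg N), Gam (box N \ innerBdry N) (2 * lc s ℓ 0) (lc s ℓ k) x y) -
          p / 4 * green ((rect 1 (7 * wd N i - 1) 1 (wd N i - 1)).image (place o t)) x y).PosSemidef := by
    rcases Nat.eq_zero_or_pos (i - mg N) with hj0 | hjp
    · refine ⟨1, ?_, zero_le_one, le_rfl, ?_⟩
      · have : 0 ≤ 1 / (Nat.log 2 N : ℝ) ^ 4 := by positivity
        linarith
      · rw [hj0]
        simpa using lb_psd _ _ (box N) hDV hVS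
    · obtain ⟨x0, y0, a, b, hab, hbox⟩ := lb_box o t (wd N i)
      have hk : i - mg N - 1 < nl N := by omega
      have hfac := h.lc_fac _ hk
      have hfac0 := h.lc_fac 0 (by omega)
      obtain ⟨p, q1, q2, q3, q4⟩ := decouple (box N \ innerBdry N) (box N)
        ((rect 1 (7 * wd N i - 1) 1 (wd N i - 1)).image (place o t)) hDV (2 * lc s ℓ 0) (i - mg N)
        (by omega) (lc s ℓ) hjp hfac.1 ((Dvd.intro_left 2 rfl).trans (h.lc_dvd0 _ hk))
        (fun i' hi' => h.lc_dvd i' (by omega)) x0 y0 a b hbox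
      refine ⟨p, ?_, q2, q3, q4⟩
      refine le_trans ?_ q1
      have hcell := h.cell i hi (by omega)
      have hlcpos : (0 : ℝ) < lc s ℓ (i - mg N - 1) := by exact_mod_cast hfac.1
      have hab' : (a : ℝ) + b = 8 * wd N i := by exact_mod_cast hab
      rw [hab']
      have : 8 * (wd N i : ℝ) / (lc s ℓ (i - mg N - 1)) ≤ 1 / (Nat.log 2 N : ℝ) ^ 4 := by
        rw [div_le_div_iff₀ hlcpos (by positivity)]
        have : 0 ≤ (wd N i : ℝ) * (Nat.log 2 N : ℝ) ^ 4 := by positivity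
        linarith
      linarith
  have hp : 0 < p := by
    have : 1 / (Nat.log 2 N : ℝ) ^ 4 ≤ 1 / 1000 := by
      apply one_div_le_one_div_of_le (by norm_num)
      calc (1000 : ℝ) ≤ Nat.log 2 N := hLg
        _ = (Nat.log 2 N : ℝ) ^ 1 := (pow_one _).symm
        _ ≤ (Nat.log 2 N : ℝ) ^ 4 := pow_le_pow_right₀ (by linarith) (by norm_num)
    linarith
  -- the covariance matrices after grouping
  have hΓ : ∀ k : Fin (i - mg N + 1), (if (k : ℕ) < i - mg N then GG N s ℓ k else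
      ∑ i' ∈ Finset.Ico (i - mg N) (nl N + 1), GG N s ℓ i').PosSemidef := by
    intro k
    split_ifs
    · exact hG1 _
    · rw [hG3 _ hjn]
      have := Matrix.posSemidef_sum (Finset.Ico (i - mg N) (nl N + 1)) (fun k _ => hG1 k)
      rwa [hG3 _ hjn] at this
  have hlaw := law_group (nl N) (i - mg N) hjn (GG N s ℓ) hG1
  have hcoarse := hcb s ℓ N h i hi c o t p lam θ _ hpsd hθ hθ' hp1 hp0 hp2 hDV
    (fun z hz => hpl2 _ z hz) rfl
  have hBd : 0 ≤ (100 * (Nat.log 2 N : ℝ) ^ 12 * (Real.exp (-(θ * (lam - 1))) *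
          ((∏ k ∈ Finset.range (i - mg N), (1 / 2) * (if 24 ≤ ((c k).1 : ℕ) ∧ ((c k).1 : ℕ) < 40 then
            Real.exp (-(c1 * (θ * Real.sqrt (bd s k)))) else 1)) *
            Real.exp (θ ^ 2 * (3 * i + 4 * (Real.log (Nat.log 2 N) / Real.log 2) + 5) / 2))) +
        5 * (wd N i : ℝ) ^ 2 * Real.exp (-((Nat.log 2 N : ℝ) ^ 2 / 2))) := by
    have : 0 ≤ ∏ k ∈ Finset.range (i - mg N), (1 / 2) * (if 24 ≤ ((c k).1 : ℕ) ∧ ((c k).1 : ℕ) < 40
        then Real.exp (-(c1 * (θ * Real.sqrt (bd s k)))) else 1) := by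
      refine Finset.prod_nonneg fun k _ => ?_
      split_ifs <;> positivity
    positivity
  have harm := arm_bound (box N) o t (wd N i) (dw N i) lam (20 * Nat.log 2 N) hd1 hlam
    (by linarith) (by
      have h1 : (dw N i : ℝ) * (Nat.log 2 N : ℝ) ^ 2 ≤ wd N i := by exact_mod_cast hdmul
      have h2 := mul_le_mul_of_nonneg_right hcond (Nat.cast_nonneg (dw N i) : (0 : ℝ) ≤ _)
      have h3 := mul_le_mul_of_nonneg_left h1 (by linarith : (0 : ℝ) ≤ lam)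
      linarith) (hDV.trans hVS) p hp hp2 (i - mg N)
    (fun k => if (k : ℕ) < i - mg N then GG N s ℓ k else
      ∑ i' ∈ Finset.Ico (i - mg N) (nl N + 1), GG N s ℓ i') hΓ _ hpsd (by
      simp only [Fin.val_last, lt_irrefl, if_false]
      rw [hG3 _ hjn]
      ext x y
      simp only [Matrix.of_apply, Matrix.add_apply]
      ring)
    (fun k => sgn N s ℓ (c k).2 k (pst (bd s) 0 (-5, (ℓ : ℂ)) c k)) (fun k => la_meas _ _ _)
    (fun k => by
      have hk : (k.castSucc : ℕ) < i - mg N := by simp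
      simp only [hk, if_true]
      exact la_half hlf h c k (by omega)) _ hBd (by
      refine le_trans (le_of_eq ?_) hcoarse
      congr 2
      funext k
      by_cases hk : k = Fin.last (i - mg N)
      · simp only [hk, if_true]
      · have hk' : (k : ℕ) < i - mg N := by
          have := k.2
          have h2 : (k : ℕ) ≠ i - mg N := fun h => hk (Fin.ext h)
          omega
        simp only [hk, if_false, hk', if_true])
  refine le_trans ?_ harm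
  rw [← hlaw]
  refine le_trans (measure_mono ?_) (Measure.le_map_apply ?_ _)
  · rintro ω ⟨h1, h2⟩
    refine ⟨fun k => ?_, ?_⟩
    · have hk : ((k.castSucc : Fin (i - mg N + 1)) : ℕ) < i - mg N := by simp
      simp only [hk, dite_true]
      exact h1 ⟨(k.castSucc : Fin (i - mg N + 1)), by omega⟩ hk
    · intro h3
      apply h2
      rw [lb_sum (nl N) (i - mg N) hjn ω] at h3
      exact h3
  · refine Measurable.aemeasurable ?_
    refine measurable_pi_lambda _ fun k => ?_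
    split_ifs
    · exact measurable_pi_apply _
    · refine Finset.measurable_sum _ fun i' _ => ?_
      split_ifs
      · exact measurable_const
      · exact measurable_pi_apply _

end H941.level_arm
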