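import Pool.Agent.H941.Defs3
import Pool.Agent.H941.B.count_markov
import Pool.Agent.H941.B.level_arm
import Pool.Agent.H941.B.segs_facts

open MeasureTheory ProbabilityTheory

namespace H941.level_count

/-- counting as a sum -/
theorem countP_sum {α : Type} (p : α → Bool) (l : List α) :
    ((l.countP p : ℕ) : ℝ) = (l.map (fun a => if p a = true then (1 : ℝ) else 0)).sum := by
  induction l with
  | nil => simp
  | cons a t ih =>
    rw [List.countP_cons, List.map_cons, List.sum_cons, ← ih]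
    by_cases h : p a = true
    · simp [h]; ring
    · simp [h]

theorem exp_half {z : ℝ} (h0 : 0 ≤ z) (h1 : z ≤ 1) :
    48 + 16 * Real.exp (-z) ≤ 64 * Real.exp (-(z / 8)) := by
  have h2 : Real.exp (-z) ≤ 1 - z / 2 := by
    rw [Real.exp_neg]
    have h3 : 1 + z ≤ Real.exp z := by have := Real.add_one_le_exp z; linarith
    have h4 : (Real.exp z)⁻¹ ≤ (1 + z)⁻¹ := inv_anti₀ (by linarith) h3
    refine h4.trans ?_
    rw [inv_eq_one_div, div_le_iff₀ (by linarith)]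
    nlinarith
  have h5 : 1 - z / 8 ≤ Real.exp (-(z / 8)) := by
    have := Real.add_one_le_exp (-(z / 8)); linarith
  linarith

theorem sum_digit (e : ℝ) :
    ∑ x : Fin 64 × Bool, ((1 / 2 : ℝ) * (if 24 ≤ (x.1 : ℕ) ∧ (x.1 : ℕ) < 40 then e else 1)) =
      48 + 16 * e := by
  rw [← Finset.mul_sum, Fintype.sum_prod_type]
  simp only [Fintype.sum_bool]
  rw [Finset.sum_add_distrib, Finset.sum_ite, Finset.sum_const, Finset.sum_const]
  have h1 : (Finset.univ.filter (fun x : Fin 64 => 24 ≤ (x : ℕ) ∧ (x : ℕ) < 40)).card = 16 := by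
    decide +kernel
  have h2 : (Finset.univ.filter (fun x : Fin 64 => ¬ (24 ≤ (x : ℕ) ∧ (x : ℕ) < 40))).card = 48 := by
    decide +kernel
  rw [h1, h2]
  simp only [nsmul_eq_mul]
  push_cast
  ring

/-- the sum over the digits of the product bound -/
theorem sum_prod_bound (z : ℕ → ℝ) (hz0 : ∀ k, 0 ≤ z k) (hz1 : ∀ k, z k ≤ 1) (i g : ℕ) :
    ∑ c : Fin i → Fin 64 × Bool, ∏ k ∈ Finset.range (i - g), ((1 / 2 : ℝ) *
        (if 24 ≤ ((extd c k).1 : ℕ) ∧ ((extd c k).1 : ℕ) < 40 then Real.exp (-(z k)) else 1)) ≤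
      64 ^ i * 2 ^ g * Real.exp (-(∑ k ∈ Finset.range (i - g), z k / 8)) := by
  have hF : ∀ c : Fin i → Fin 64 × Bool, ∏ k ∈ Finset.range (i - g), ((1 / 2 : ℝ) *
        (if 24 ≤ ((extd c k).1 : ℕ) ∧ ((extd c k).1 : ℕ) < 40 then Real.exp (-(z k)) else 1)) =
      ∏ k : Fin i, (if (k : ℕ) < i - g then ((1 / 2 : ℝ) *
        (if 24 ≤ ((c k).1 : ℕ) ∧ ((c k).1 : ℕ) < 40 then Real.exp (-(z k)) else 1)) else 1) := by
    intro c
    have h1 : ∏ k : Fin i, (if (k : ℕ) < i - g then ((1 / 2 : ℝ) *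
        (if 24 ≤ ((c k).1 : ℕ) ∧ ((c k).1 : ℕ) < 40 then Real.exp (-(z k)) else 1)) else 1) =
        ∏ k : Fin i, (fun k : ℕ => if k < i - g then ((1 / 2 : ℝ) *
        (if 24 ≤ ((extd c k).1 : ℕ) ∧ ((extd c k).1 : ℕ) < 40 then Real.exp (-(z k)) else 1)) else 1) (k : ℕ) := by
      refine Finset.prod_congr rfl (fun k _ => ?_)
      have h2 : extd c (k : ℕ) = c k := by
        unfold extd
        rw [dif_pos k.2]
      simp only [h2]
    rw [h1, Fin.prod_univ_eq_prod_range (fun k : ℕ => if k < i - g then ((1 / 2 : ℝ) *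
        (if 24 ≤ ((extd c k).1 : ℕ) ∧ ((extd c k).1 : ℕ) < 40 then Real.exp (-(z k)) else 1)) else 1) i]
    rw [← Finset.prod_subset (Finset.range_mono (Nat.sub_le i g))]
    · refine Finset.prod_congr rfl (fun k hk => ?_)
      rw [if_pos (Finset.mem_range.1 hk)]
    · intro k _ hk
      rw [if_neg (fun h => hk (Finset.mem_range.2 h))]
  rw [Finset.sum_congr rfl (fun c _ => hF c)]
  have hsw := Finset.prod_univ_sum (fun _ : Fin i => (Finset.univ : Finset (Fin 64 × Bool)))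
    (fun (k : Fin i) (x : Fin 64 × Bool) => (if (k : ℕ) < i - g then ((1 / 2 : ℝ) *
        (if 24 ≤ (x.1 : ℕ) ∧ (x.1 : ℕ) < 40 then Real.exp (-(z k)) else 1)) else 1))
  rw [Fintype.piFinset_univ] at hsw
  rw [← hsw]
  have hle : ∏ k : Fin i, ∑ x : Fin 64 × Bool, (if (k : ℕ) < i - g then ((1 / 2 : ℝ) *
        (if 24 ≤ (x.1 : ℕ) ∧ (x.1 : ℕ) < 40 then Real.exp (-(z k)) else 1)) else 1) ≤
      ∏ k : Fin i, (fun k : ℕ => 64 * (if k < i - g then Real.exp (-(z k / 8)) else 2)) (k : ℕ) := by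
    refine Finset.prod_le_prod (fun k _ => ?_) (fun k _ => ?_)
    · refine Finset.sum_nonneg (fun x _ => ?_)
      split_ifs <;> positivity
    · by_cases hk : (k : ℕ) < i - g
      · simp only [if_pos hk]
        rw [sum_digit]
        exact exp_half (hz0 k) (hz1 k)
      · simp only [if_neg hk]
        simp
        norm_num
  refine hle.trans ?_
  rw [Fin.prod_univ_eq_prod_range (fun k : ℕ => 64 * (if k < i - g then Real.exp (-(z k / 8)) else 2)) i,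
    Finset.prod_mul_distrib, Finset.prod_const, Finset.card_range, mul_assoc]
  refine mul_le_mul_of_nonneg_left ?_ (by positivity)
  have h3 : i = (i - g) + (i - (i - g)) := by omega
  have h4 : ∏ k ∈ Finset.range i, (if k < i - g then Real.exp (-(z k / 8)) else 2) =
      (∏ k ∈ Finset.range (i - g), Real.exp (-(z k / 8))) * 2 ^ (i - (i - g)) := by
    conv_lhs => rw [h3]
    rw [Finset.prod_range_add]
    congr 1
    · refine Finset.prod_congr rfl (fun k hk => ?_)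
      have := Finset.mem_range.1 hk
      rw [if_pos (by omega)]
    · rw [Finset.prod_congr rfl (g := fun _ => (2 : ℝ)), Finset.prod_const, Finset.card_range]
      intro k hk
      rw [if_neg (by omega)]
  rw [h4, ← Real.exp_sum, Finset.sum_neg_distrib, mul_comm]
  refine mul_le_mul_of_nonneg_right ?_ (Real.exp_pos _).le
  exact pow_le_pow_right₀ (by norm_num) (by omega)

/-- the three parts of the bound summed over the digits -/
theorem total_bound (z : ℕ → ℝ) (hz0 : ∀ k, 0 ≤ z k) (hz1 : ∀ k, z k ≤ 1) (i g : ℕ)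
    (q A D F G : ℝ) (hq : 0 ≤ q) (hA : 0 ≤ A) (hD : 0 ≤ D) (hF : 0 ≤ F) (hG : 0 ≤ G) :
    ∑ c : Fin i → Fin 64 × Bool, ((1 / 2) ^ (i - g) * q + (A * (D * ((∏ k ∈ Finset.range (i - g), ((1 / 2 : ℝ) *
        (if 24 ≤ ((extd c k).1 : ℕ) ∧ ((extd c k).1 : ℕ) < 40 then Real.exp (-(z k)) else 1))) * F)) + G)) ≤
      64 ^ i * 2 ^ g * (q + A * (D * F * Real.exp (-(∑ k ∈ Finset.range (i - g), z k / 8))) + 2 ^ i * G) := by
  rw [Finset.sum_add_distrib, Finset.sum_add_distrib]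
  have hcard : (Finset.univ : Finset (Fin i → Fin 64 × Bool)).card = 128 ^ i := by
    rw [Finset.card_univ, Fintype.card_fun, Fintype.card_prod, Fintype.card_fin, Fintype.card_bool, Fintype.card_fin]
  have h128 : ((128 : ℝ)) ^ i = 64 ^ i * 2 ^ i := by
    rw [← mul_pow]; norm_num
  have h1 : ∑ _c : Fin i → Fin 64 × Bool, ((1 / 2 : ℝ) ^ (i - g) * q) ≤ 64 ^ i * 2 ^ g * q := by
    rw [Finset.sum_const, hcard, nsmul_eq_mul]
    push_cast
    rw [h128, ← mul_assoc]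
    refine mul_le_mul_of_nonneg_right ?_ hq
    rw [mul_assoc]
    refine mul_le_mul_of_nonneg_left ?_ (by positivity)
    have h3 : i = (i - g) + (i - (i - g)) := by omega
    have h4 : (2 : ℝ) ^ i * (1 / 2) ^ (i - g) = 2 ^ (i - (i - g)) := by
      have h5 : (2 : ℝ) ^ i = 2 ^ (i - g) * 2 ^ (i - (i - g)) := by
        rw [← pow_add, ← h3]
      rw [h5, mul_right_comm, ← mul_pow]
      norm_num
    rw [h4]
    exact pow_le_pow_right₀ (by norm_num) (by omega)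
  have h2 : ∑ c : Fin i → Fin 64 × Bool, (A * (D * ((∏ k ∈ Finset.range (i - g), ((1 / 2 : ℝ) *
        (if 24 ≤ ((extd c k).1 : ℕ) ∧ ((extd c k).1 : ℕ) < 40 then Real.exp (-(z k)) else 1))) * F))) ≤
      64 ^ i * 2 ^ g * (A * (D * F * Real.exp (-(∑ k ∈ Finset.range (i - g), z k / 8)))) := by
    have h6 := sum_prod_bound z hz0 hz1 i g
    have h7 : ∑ c : Fin i → Fin 64 × Bool, (A * (D * ((∏ k ∈ Finset.range (i - g), ((1 / 2 : ℝ) *
        (if 24 ≤ ((extd c k).1 : ℕ) ∧ ((extd c k).1 : ℕ) < 40 then Real.exp (-(z k)) else 1))) * F))) =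
        (A * D * F) * ∑ c : Fin i → Fin 64 × Bool, (∏ k ∈ Finset.range (i - g), ((1 / 2 : ℝ) *
        (if 24 ≤ ((extd c k).1 : ℕ) ∧ ((extd c k).1 : ℕ) < 40 then Real.exp (-(z k)) else 1))) := by
      rw [Finset.mul_sum]
      exact Finset.sum_congr rfl (fun c _ => by ring)
    rw [h7]
    refine (mul_le_mul_of_nonneg_left h6 (by positivity)).trans (le_of_eq ?_)
    ring
  have h3 : ∑ _c : Fin i → Fin 64 × Bool, G ≤ 64 ^ i * 2 ^ g * (2 ^ i * G) := by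
    rw [Finset.sum_const, hcard, nsmul_eq_mul]
    push_cast
    rw [h128]
    have h8 : (1 : ℝ) ≤ 2 ^ g := one_le_pow₀ (by norm_num)
    have h9 : 0 ≤ 64 ^ i * 2 ^ i * G := by positivity
    nlinarith
  nlinarith [h1, h2, h3]

theorem qq_nonneg (N : ℕ) (lam : ℝ) (i : ℕ) : 0 ≤ qq N lam i := by
  unfold qq
  positivity

theorem bd_nonneg {s : ℝ} (hs : 0 < s) (k : ℕ) : 0 ≤ bd s k := by
  unfold bd
  positivity

theorem bd_le {s : ℝ} (hs : 0 < s) (hs' : s ≤ 1 / 8) (k : ℕ) : bd s k ≤ 1 := by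
  unfold bd
  have h1 : ((k : ℝ) + 1) ^ (-(3 / 5) : ℝ) ≤ 1 :=
    Real.rpow_le_one_of_one_le_of_nonpos (by have : (0 : ℝ) ≤ k := Nat.cast_nonneg k; linarith) (by norm_num)
  have h2 : 0 ≤ ((k : ℝ) + 1) ^ (-(3 / 5) : ℝ) := by positivity
  nlinarith

theorem oracle_sgn (N : ℕ) (s : ℝ) (ℓ : ℕ) (b : Bool) (ω : Fin (nl N + 1) → EuclideanSpace ℝ ↥(box N))
    (k : Fin (nl N + 1)) (hk : (k : ℕ) < nl N) (seg : ℂ × ℂ)
    (h : oracle (WW N s ℓ) ω k seg = b) : ω k ∈ sgn N s ℓ b k seg := by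
  unfold oracle at h
  rw [dif_pos hk] at h
  unfold sgn
  show (if b then (1 : ℝ) else -1) * ∑ y, WW N s ℓ k seg y * ω k y ≤ 0
  have hk' : (⟨(k : ℕ), Nat.lt_succ_of_lt hk⟩ : Fin (nl N + 1)) = k := rfl
  rw [hk'] at h
  cases b with
  | true =>
    have h1 := of_decide_eq_true h
    simp only [if_true, one_mul]
    exact h1
  | false =>
    have h1 := of_decide_eq_false h
    push Not at h1
    simp only [Bool.false_eq_true, if_false]
    linarith

theorem _root_.H941.level_count : ∃ c1 : ℝ, 0 < c1 ∧ c1 ≤ 1 ∧ ∀ (s : ℝ) (ℓ N : ℕ), Par s ℓ N → ∀ i ≤ nl N,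
    6 * (wd N i : ℝ) ≤ s * ℓ →
    ∀ (lam θ B : ℝ), 0 ≤ θ → θ ≤ 1 → 1 ≤ lam → 0 < B →
      10 ^ 12 * (lam + 20 * Nat.log 2 N) ≤ lam * (Nat.log 2 N : ℝ) ^ 2 →
      PP N s ℓ {ω | B ≤ (((segs (bd s) (oracle (WW N s ℓ) ω) i 0 (-5, (ℓ : ℂ))).countP (fun s' =>
          @decide (¬ circuitOK (mid s') (wd N i) (dw N i) (2 * lam) (ln N lam i) (extf (box N) (∑ k, ω k)))
            (Classical.dec _)) : ℕ) : ℝ)} ≤
      ENNReal.ofReal (B⁻¹ * (4 * 64 ^ i * 2 ^ mg N * (qq N lam i +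
        100 * (Nat.log 2 N : ℝ) ^ 12 * Real.exp (-(θ * (lam - 1)) + θ ^ 2 * v0 N i / 2 -
          (c1 * θ / 8) * ∑ k ∈ Finset.range (i - mg N), Real.sqrt (bd s k)) +
        2 ^ i * (5 * (wd N i : ℝ) ^ 2 * Real.exp (-((Nat.log 2 N : ℝ) ^ 2 / 2)))))) := by
  obtain ⟨c1, hc1, hc1', harm⟩ := level_arm
  refine ⟨c1, hc1, hc1', ?_⟩
  intro s ℓ N hP i hi hw lam θ B hθ0 hθ1 hlam hB hL
  classical
  let E : (Fin i → Fin 64 × Bool) → Set (Fin (nl N + 1) → EuclideanSpace ℝ ↥(box N)) := fun c =>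
    {ω | (∀ k : Fin i, oracle (WW N s ℓ) ω (0 + k) (pst (bd s) 0 (-5, (ℓ : ℂ)) (extd c) k) = (c k).2) ∧
      ¬ circuitOK (mid (pst (bd s) 0 (-5, (ℓ : ℂ)) (extd c) i)) (wd N i) (dw N i) (2 * lam) (ln N lam i)
        (extf (box N) (∑ k, ω k))}
  have hX : ∀ ω : Fin (nl N + 1) → EuclideanSpace ℝ ↥(box N),
      (((segs (bd s) (oracle (WW N s ℓ) ω) i 0 (-5, (ℓ : ℂ))).countP (fun s' =>
          @decide (¬ circuitOK (mid s') (wd N i) (dw N i) (2 * lam) (ln N lam i) (extf (box N) (∑ k, ω k)))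
            (Classical.dec _)) : ℕ) : ℝ) ≤ ∑ c, (E c).indicator (fun _ => (1 : ℝ)) ω := by
    intro ω
    rw [countP_sum, (segs_facts (bd s) (oracle (WW N s ℓ) ω)).2.2.1]
    refine Finset.sum_le_sum (fun c _ => ?_)
    by_cases hc : ω ∈ E c
    · rw [Set.indicator_of_mem hc]
      have h1 : (∏ k : Fin i, if oracle (WW N s ℓ) ω (0 + k) (pst (bd s) 0 (-5, (ℓ : ℂ)) (extd c) k) = (c k).2
          then (1 : ℝ) else 0) ≤ 1 :=
        Finset.prod_le_one (fun k _ => by split_ifs <;> norm_num) (fun k _ => by split_ifs <;> norm_num)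
      have h0 : 0 ≤ (∏ k : Fin i, if oracle (WW N s ℓ) ω (0 + k) (pst (bd s) 0 (-5, (ℓ : ℂ)) (extd c) k) = (c k).2
          then (1 : ℝ) else 0) := Finset.prod_nonneg (fun k _ => by split_ifs <;> norm_num)
      split_ifs
      · linarith
      · linarith
    · rw [Set.indicator_of_notMem hc]
      by_cases h2 : ∀ k : Fin i, oracle (WW N s ℓ) ω (0 + k) (pst (bd s) 0 (-5, (ℓ : ℂ)) (extd c) k) = (c k).2
      · have h3 : circuitOK (mid (pst (bd s) 0 (-5, (ℓ : ℂ)) (extd c) i)) (wd N i) (dw N i) (2 * lam) (ln N lam i)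
            (extf (box N) (∑ k, ω k)) := by
          by_contra h4
          exact hc ⟨h2, h4⟩
        rw [if_neg, mul_zero]
        intro h5
        exact ((@decide_eq_true_iff _ (Classical.dec _)).1 h5) h3
      · push Not at h2
        obtain ⟨k, hk⟩ := h2
        rw [Finset.prod_eq_zero (Finset.mem_univ k), zero_mul]
        rw [if_neg hk]
  have hmk := count_markov (PP N s ℓ) E B hB _ hX
  refine hmk.trans ?_
  -- bound of the probabilities
  let U : (Fin i → Fin 64 × Bool) → ℝ := fun c =>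
    (1 / 2) ^ (i - mg N) * qq N lam i +
        (100 * (Nat.log 2 N : ℝ) ^ 12 * (Real.exp (-(θ * (lam - 1))) *
          ((∏ k ∈ Finset.range (i - mg N), (1 / 2) * (if 24 ≤ ((extd c k).1 : ℕ) ∧ ((extd c k).1 : ℕ) < 40 then
            Real.exp (-(c1 * (θ * Real.sqrt (bd s k)))) else 1)) * Real.exp (θ ^ 2 * v0 N i / 2))) +
        5 * (wd N i : ℝ) ^ 2 * Real.exp (-((Nat.log 2 N : ℝ) ^ 2 / 2)))
  have hU0 : ∀ c, 0 ≤ U c := by
    intro c
    have h1 := qq_nonneg N lam i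
    have h2 : 0 ≤ (∏ k ∈ Finset.range (i - mg N), (1 / 2 : ℝ) * (if 24 ≤ ((extd c k).1 : ℕ) ∧ ((extd c k).1 : ℕ) < 40 then
            Real.exp (-(c1 * (θ * Real.sqrt (bd s k)))) else 1)) :=
      Finset.prod_nonneg (fun k _ => by split_ifs <;> positivity)
    show 0 ≤ (1 / 2) ^ (i - mg N) * qq N lam i +
        (100 * (Nat.log 2 N : ℝ) ^ 12 * (Real.exp (-(θ * (lam - 1))) *
          ((∏ k ∈ Finset.range (i - mg N), (1 / 2) * (if 24 ≤ ((extd c k).1 : ℕ) ∧ ((extd c k).1 : ℕ) < 40 then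
            Real.exp (-(c1 * (θ * Real.sqrt (bd s k)))) else 1)) * Real.exp (θ ^ 2 * v0 N i / 2))) +
        5 * (wd N i : ℝ) ^ 2 * Real.exp (-((Nat.log 2 N : ℝ) ^ 2 / 2)))
    positivity
  have hPE : ∀ c, PP N s ℓ (E c) ≤ ENNReal.ofReal (4 * U c) := by
    intro c
    have hsub : ∀ ω ∈ E c, ∀ k : Fin (nl N + 1), (k : ℕ) < i - mg N →
        ω k ∈ sgn N s ℓ (extd c k).2 k (pst (bd s) 0 (-5, (ℓ : ℂ)) (extd c) k) := by
      intro ω hω k hk
      have hki : (k : ℕ) < i := by omega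
      have h1 := hω.1 ⟨k, hki⟩
      have h2 : extd c (k : ℕ) = c ⟨k, hki⟩ := by
        unfold extd
        rw [dif_pos hki]
      rw [h2]
      refine oracle_sgn N s ℓ _ ω k (lt_of_lt_of_le hki hi) _ ?_
      simpa using h1
    have hcov : E c ⊆
        ({ω | (∀ k : Fin (nl N + 1), (k : ℕ) < i - mg N → ω k ∈ sgn N s ℓ (extd c k).2 k (pst (bd s) 0 (-5, (ℓ : ℂ)) (extd c) k)) ∧
          ¬ armOK true ((mid (pst (bd s) 0 (-5, (ℓ : ℂ)) (extd c) i)).1 - 3 * wd N i, (mid (pst (bd s) 0 (-5, (ℓ : ℂ)) (extd c) i)).2 + wd N i) (wd N i) (dw N i) (2 * lam) (ln N lam i) (extf (box N) (∑ k, ω k))} ∪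
        {ω | (∀ k : Fin (nl N + 1), (k : ℕ) < i - mg N → ω k ∈ sgn N s ℓ (extd c k).2 k (pst (bd s) 0 (-5, (ℓ : ℂ)) (extd c) k)) ∧
          ¬ armOK true ((mid (pst (bd s) 0 (-5, (ℓ : ℂ)) (extd c) i)).1 - 3 * wd N i, (mid (pst (bd s) 0 (-5, (ℓ : ℂ)) (extd c) i)).2 - 2 * wd N i) (wd N i) (dw N i) (2 * lam) (ln N lam i) (extf (box N) (∑ k, ω k))}) ∪
        ({ω | (∀ k : Fin (nl N + 1), (k : ℕ) < i - mg N → ω k ∈ sgn N s ℓ (extd c k).2 k (pst (bd s) 0 (-5, (ℓ : ℂ)) (extd c) k)) ∧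
          ¬ armOK false ((mid (pst (bd s) 0 (-5, (ℓ : ℂ)) (extd c) i)).1 + wd N i, (mid (pst (bd s) 0 (-5, (ℓ : ℂ)) (extd c) i)).2 - 3 * wd N i) (wd N i) (dw N i) (2 * lam) (ln N lam i) (extf (box N) (∑ k, ω k))} ∪
        {ω | (∀ k : Fin (nl N + 1), (k : ℕ) < i - mg N → ω k ∈ sgn N s ℓ (extd c k).2 k (pst (bd s) 0 (-5, (ℓ : ℂ)) (extd c) k)) ∧
          ¬ armOK false ((mid (pst (bd s) 0 (-5, (ℓ : ℂ)) (extd c) i)).1 - 2 * wd N i, (mid (pst (bd s) 0 (-5, (ℓ : ℂ)) (extd c) i)).2 - 3 * wd N i) (wd N i) (dw N i) (2 * lam) (ln N lam i) (extf (box N) (∑ k, ω k))}) := by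
      intro ω hω
      have hs := hsub ω hω
      have h4 := hω.2
      unfold circuitOK at h4
      by_cases ha : armOK true ((mid (pst (bd s) 0 (-5, (ℓ : ℂ)) (extd c) i)).1 - 3 * wd N i, (mid (pst (bd s) 0 (-5, (ℓ : ℂ)) (extd c) i)).2 + wd N i) (wd N i) (dw N i) (2 * lam) (ln N lam i) (extf (box N) (∑ k, ω k))
      · by_cases hb : armOK true ((mid (pst (bd s) 0 (-5, (ℓ : ℂ)) (extd c) i)).1 - 3 * wd N i, (mid (pst (bd s) 0 (-5, (ℓ : ℂ)) (extd c) i)).2 - 2 * wd N i) (wd N i) (dw N i) (2 * lam) (ln N lam i) (extf (box N) (∑ k, ω k))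
        · by_cases hc : armOK false ((mid (pst (bd s) 0 (-5, (ℓ : ℂ)) (extd c) i)).1 + wd N i, (mid (pst (bd s) 0 (-5, (ℓ : ℂ)) (extd c) i)).2 - 3 * wd N i) (wd N i) (dw N i) (2 * lam) (ln N lam i) (extf (box N) (∑ k, ω k))
          · refine Or.inr (Or.inr ⟨hs, fun hd => h4 ⟨ha, hb, hc, hd⟩⟩)
          · exact Or.inr (Or.inl ⟨hs, hc⟩)
        · exact Or.inl (Or.inr ⟨hs, hb⟩)
      · exact Or.inl (Or.inl ⟨hs, ha⟩)
    refine (measure_mono hcov).trans ?_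
    refine (measure_union_le _ _).trans ?_
    have e1 := harm s ℓ N hP i hi hw (extd c) true _ lam θ hθ0 hθ1 hlam hL (Or.inl ⟨rfl, rfl⟩)
    have e2 := harm s ℓ N hP i hi hw (extd c) true _ lam θ hθ0 hθ1 hlam hL (Or.inr (Or.inl ⟨rfl, rfl⟩))
    have e3 := harm s ℓ N hP i hi hw (extd c) false _ lam θ hθ0 hθ1 hlam hL (Or.inr (Or.inr (Or.inl ⟨rfl, rfl⟩)))
    have e4 := harm s ℓ N hP i hi hw (extd c) false _ lam θ hθ0 hθ1 hlam hL (Or.inr (Or.inr (Or.inr ⟨rfl, rfl⟩)))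
    refine (add_le_add ((measure_union_le _ _).trans (add_le_add e1 e2))
      ((measure_union_le _ _).trans (add_le_add e3 e4))).trans ?_
    have hU : ENNReal.ofReal (4 * U c) = (ENNReal.ofReal (U c) + ENNReal.ofReal (U c)) +
        (ENNReal.ofReal (U c) + ENNReal.ofReal (U c)) := by
      rw [← ENNReal.ofReal_add (hU0 c) (hU0 c), ← ENNReal.ofReal_add (add_nonneg (hU0 c) (hU0 c)) (add_nonneg (hU0 c) (hU0 c))]
      congr 1
      ring
    rw [hU]
  have hsum : ∑ c, PP N s ℓ (E c) ≤ ENNReal.ofReal (∑ c, 4 * U c) := by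
    rw [ENNReal.ofReal_sum_of_nonneg (fun c _ => mul_nonneg (by norm_num) (hU0 c))]
    exact Finset.sum_le_sum (fun c _ => hPE c)
  refine (ENNReal.div_le_div_right hsum _).trans ?_
  rw [← ENNReal.ofReal_div_of_pos hB]
  refine ENNReal.ofReal_le_ofReal ?_
  rw [div_eq_inv_mul]
  refine mul_le_mul_of_nonneg_left ?_ (inv_nonneg.2 hB.le)
  rw [← Finset.mul_sum]
  have hz0 : ∀ k, 0 ≤ c1 * (θ * Real.sqrt (bd s k)) := fun k => by positivity
  have hz1 : ∀ k, c1 * (θ * Real.sqrt (bd s k)) ≤ 1 := by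
    intro k
    have h1 : Real.sqrt (bd s k) ≤ 1 := by
      have := Real.sqrt_le_sqrt (bd_le hP.s_pos hP.s_le k)
      rwa [Real.sqrt_one] at this
    have h2 : 0 ≤ Real.sqrt (bd s k) := Real.sqrt_nonneg _
    have h3 : θ * Real.sqrt (bd s k) ≤ 1 := by nlinarith
    have h4 : 0 ≤ θ * Real.sqrt (bd s k) := by positivity
    nlinarith
  have htot := total_bound (fun k => c1 * (θ * Real.sqrt (bd s k))) hz0 hz1 i (mg N) (qq N lam i)
    (100 * (Nat.log 2 N : ℝ) ^ 12) (Real.exp (-(θ * (lam - 1)))) (Real.exp (θ ^ 2 * v0 N i / 2))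
    (5 * (wd N i : ℝ) ^ 2 * Real.exp (-((Nat.log 2 N : ℝ) ^ 2 / 2))) (qq_nonneg _ _ _) (by positivity)
    (by positivity) (by positivity) (by positivity)
  have hexp : Real.exp (-(θ * (lam - 1)) + θ ^ 2 * v0 N i / 2 -
      (c1 * θ / 8) * ∑ k ∈ Finset.range (i - mg N), Real.sqrt (bd s k)) =
      Real.exp (-(θ * (lam - 1))) * Real.exp (θ ^ 2 * v0 N i / 2) *
        Real.exp (-(∑ k ∈ Finset.range (i - mg N), (c1 * (θ * Real.sqrt (bd s k))) / 8)) := by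
    rw [← Real.exp_add, ← Real.exp_add]
    congr 1
    rw [Finset.mul_sum, sub_eq_add_neg]
    congr 2
    refine Finset.sum_congr rfl (fun k _ => ?_)
    ring
  rw [hexp]
  calc 4 * ∑ c, U c ≤ 4 * (64 ^ i * 2 ^ mg N * (qq N lam i + 100 * (Nat.log 2 N : ℝ) ^ 12 *
        (Real.exp (-(θ * (lam - 1))) * Real.exp (θ ^ 2 * v0 N i / 2) *
        Real.exp (-(∑ k ∈ Finset.range (i - mg N), (c1 * (θ * Real.sqrt (bd s k))) / 8))) +
        2 ^ i * (5 * (wd N i : ℝ) ^ 2 * Real.exp (-((Nat.log 2 N : ℝ) ^ 2 / 2))))) :=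
        mul_le_mul_of_nonneg_left htot (by norm_num)
    _ = _ := by ring

end H941.level_count
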