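import Pool.Agent.H941.Defs3

open MeasureTheory ProbabilityTheory

namespace H941.numeric_exp

lemma sum_low (s : ℝ) (hs : 0 < s) (j : ℕ) :
    Real.sqrt s * (j : ℝ) ^ (7 / 10 : ℝ) ≤ ∑ k ∈ Finset.range j, Real.sqrt (bd s k) := by
  rcases Nat.eq_zero_or_pos j with h0 | hj
  · subst h0
    simp
  have hjr : (0 : ℝ) < j := by exact_mod_cast hj
  have hterm : ∀ k ∈ Finset.range j, Real.sqrt s * (j : ℝ) ^ (-(3 / 10) : ℝ) ≤ Real.sqrt (bd s k) := by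
    intro k hk
    have hk' : k + 1 ≤ j := by have := Finset.mem_range.mp hk; omega
    have hkr : ((k : ℝ) + 1) ≤ j := by exact_mod_cast hk'
    have hk0 : (0 : ℝ) < (k : ℝ) + 1 := by positivity
    unfold bd
    rw [Real.sqrt_mul hs.le]
    apply mul_le_mul_of_nonneg_left _ (Real.sqrt_nonneg s)
    rw [Real.sqrt_eq_rpow, ← Real.rpow_mul hk0.le]
    have : (-(3 / 5) : ℝ) * (1 / 2) = -(3 / 10) := by norm_num
    rw [this]
    exact Real.rpow_le_rpow_of_nonpos hk0 hkr (by norm_num)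
  calc Real.sqrt s * (j : ℝ) ^ (7 / 10 : ℝ)
      = ∑ k ∈ Finset.range j, Real.sqrt s * (j : ℝ) ^ (-(3 / 10) : ℝ) := by
        rw [Finset.sum_const, Finset.card_range, nsmul_eq_mul]
        have : (7 / 10 : ℝ) = 1 + -(3 / 10) := by norm_num
        rw [this, Real.rpow_add hjr, Real.rpow_one]
        ring
    _ ≤ _ := Finset.sum_le_sum hterm

/-- the purely real inequality -/
lemma real_core (A v l : ℝ) (hl : 0 < l) (hA1 : 56 * l ≤ A) (hv : 0 < v) (hA2 : 56 * l * v ≤ A ^ 2) :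
    ∃ θ : ℝ, 0 ≤ θ ∧ θ ≤ 1 ∧ 28 * l ≤ θ * A - θ ^ 2 * v / 2 := by
  have hA0 : 0 < A := by linarith
  by_cases h : v ≤ A
  · refine ⟨1, by norm_num, le_refl _, ?_⟩
    nlinarith
  · push Not at h
    refine ⟨A / v, by positivity, (div_le_one hv).mpr h.le, ?_⟩
    have : A / v * A - (A / v) ^ 2 * v / 2 = A ^ 2 / (2 * v) := by
      field_simp; ring
    rw [this, le_div_iff₀ (by positivity)]
    linarith

lemma rpow_core (A l c i : ℝ) (hl : 0 < l) (hc : 0 < c) (hi : 0 ≤ i) (hA1 : l ^ 2 / 3 ≤ A)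
    (hA2 : c * i ^ (7 / 10 : ℝ) ≤ A) (hM : 224 * 3 ^ (4 / 7 : ℝ) / c ^ (10 / 7 : ℝ) ≤ l ^ (1 / 7 : ℝ)) :
    224 * l * i ≤ A ^ 2 := by
  have hl2 : 0 < l ^ 2 / 3 := by positivity
  have hA0 : 0 < A := lt_of_lt_of_le hl2 hA1
  have e1 : A ^ 2 = A ^ (4 / 7 : ℝ) * A ^ (10 / 7 : ℝ) := by
    rw [← Real.rpow_add hA0]
    norm_num
  have e2 : (l ^ 2 / 3) ^ (4 / 7 : ℝ) ≤ A ^ (4 / 7 : ℝ) :=
    Real.rpow_le_rpow hl2.le hA1 (by norm_num)
  have e3 : (c * i ^ (7 / 10 : ℝ)) ^ (10 / 7 : ℝ) ≤ A ^ (10 / 7 : ℝ) :=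
    Real.rpow_le_rpow (by positivity) hA2 (by norm_num)
  have e4 : (c * i ^ (7 / 10 : ℝ)) ^ (10 / 7 : ℝ) = c ^ (10 / 7 : ℝ) * i := by
    rw [Real.mul_rpow hc.le (by positivity), ← Real.rpow_mul hi]
    norm_num
  have e5 : (l ^ 2 / 3) ^ (4 / 7 : ℝ) = l * l ^ (1 / 7 : ℝ) / 3 ^ (4 / 7 : ℝ) := by
    rw [Real.div_rpow (by positivity) (by norm_num)]
    congr 1
    rw [← Real.rpow_natCast, ← Real.rpow_mul hl.le]
    have : ((2 : ℕ) : ℝ) * (4 / 7) = 1 + 1 / 7 := by norm_num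
    rw [this, Real.rpow_add hl, Real.rpow_one]
  have h3 : (0 : ℝ) < 3 ^ (4 / 7 : ℝ) := by positivity
  have hcc : (0 : ℝ) < c ^ (10 / 7 : ℝ) := by positivity
  have hM' : 224 * 3 ^ (4 / 7 : ℝ) ≤ l ^ (1 / 7 : ℝ) * c ^ (10 / 7 : ℝ) := (div_le_iff₀ hcc).mp hM
  rw [e1]
  calc 224 * l * i = (l * (224 * 3 ^ (4 / 7 : ℝ)) / 3 ^ (4 / 7 : ℝ)) * i := by field_simp
    _ ≤ (l * (l ^ (1 / 7 : ℝ) * c ^ (10 / 7 : ℝ)) / 3 ^ (4 / 7 : ℝ)) * i := by gcongr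
    _ = (l * l ^ (1 / 7 : ℝ) / 3 ^ (4 / 7 : ℝ)) * (c ^ (10 / 7 : ℝ) * i) := by ring
    _ ≤ A ^ (4 / 7 : ℝ) * A ^ (10 / 7 : ℝ) := by
        rw [← e5, ← e4]
        exact mul_le_mul e2 e3 (by positivity) (by positivity)

lemma arith1 (l LL t : ℝ) (hl : 200 ≤ l) (h : (l - 1 / 2) ^ 2 ≤ LL ^ 2) (ht : 0 ≤ t) :
    0 ≤ LL ^ 2 / 2 - 1 ∧ l ^ 2 / 3 ≤ LL ^ 2 / 2 - 1 + t ∧ 56 * l ≤ LL ^ 2 / 2 - 1 + t := by
  have h1 : 200 * l ≤ l ^ 2 := by nlinarith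
  have h2 : (l - 1 / 2) ^ 2 = l ^ 2 - l + 1 / 4 := by ring
  rw [h2] at h
  refine ⟨?_, ?_, ?_⟩ <;> linarith

lemma arith2 (l : ℝ) (hl : 200 ≤ l) : 56 * l * (25 * l) ≤ (l ^ 2 / 3) ^ 2 := by
  have h1 : (40000 : ℝ) ≤ l ^ 2 := by nlinarith
  have h2 : 56 * l * (25 * l) = 1400 * l ^ 2 := by ring
  have h3 : (l ^ 2 / 3) ^ 2 = l ^ 2 * l ^ 2 / 9 := by ring
  rw [h2, h3]
  have h4 : 40000 * l ^ 2 ≤ l ^ 2 * l ^ 2 := mul_le_mul_of_nonneg_right h1 (by positivity)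
  linarith [sq_nonneg l]

lemma mg_le (N : ℕ) (hx : 1 ≤ Nat.log 2 N) :
    (mg N : ℝ) ≤ Real.log (Nat.log 2 N) / Real.log 2 + 1 := by
  set x := Nat.log 2 N with hxdef
  have hx0 : (0 : ℝ) < x := by exact_mod_cast hx
  have h1 : 64 ^ Nat.log 64 (x ^ 6) ≤ x ^ 6 := Nat.pow_log_le_self 64 (by positivity)
  have h2 : (2 ^ Nat.log 64 (x ^ 6)) ^ 6 ≤ x ^ 6 := by
    calc (2 ^ Nat.log 64 (x ^ 6)) ^ 6 = 64 ^ Nat.log 64 (x ^ 6) := by
          rw [← pow_mul, mul_comm, pow_mul]; norm_num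
      _ ≤ _ := h1
  have h3 : 2 ^ Nat.log 64 (x ^ 6) ≤ x := (Nat.pow_le_pow_iff_left (by norm_num)).mp h2
  have h4 : (2 : ℝ) ^ Nat.log 64 (x ^ 6) ≤ x := by exact_mod_cast h3
  have hl2 : 0 < Real.log 2 := Real.log_pos (by norm_num)
  have h5 : (Nat.log 64 (x ^ 6) : ℝ) * Real.log 2 ≤ Real.log x := by
    rw [← Real.log_pow]
    exact Real.log_le_log (by positivity) h4
  unfold mg
  rw [← hxdef]
  push_cast
  have := (le_div_iff₀ hl2).mpr h5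
  linarith

lemma loglog_ge (N : ℕ) (hx : 1 ≤ Nat.log 2 N) :
    Real.log (Nat.log 2 N) - 1 / 2 ≤ Real.log (Real.log N) := by
  set x := Nat.log 2 N with hxdef
  have hx0 : (0 : ℝ) < x := by exact_mod_cast hx
  have hN0 : N ≠ 0 := by
    rintro rfl
    simp [hxdef] at hx
  have h1 : 2 ^ x ≤ N := Nat.pow_log_le_self 2 hN0
  have h2 : (2 : ℝ) ^ x ≤ N := by exact_mod_cast h1
  have hl2 : 0 < Real.log 2 := Real.log_pos (by norm_num)
  have h3 : (x : ℝ) * Real.log 2 ≤ Real.log N := by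
    rw [← Real.log_pow]
    exact Real.log_le_log (by positivity) h2
  have h4 : Real.log ((x : ℝ) * Real.log 2) ≤ Real.log (Real.log N) :=
    Real.log_le_log (by positivity) h3
  rw [Real.log_mul hx0.ne' hl2.ne'] at h4
  have h5 : (-(1 / 2) : ℝ) ≤ Real.log (Real.log 2) := by
    rw [Real.le_log_iff_exp_le hl2, Real.exp_neg]
    have h6 : (3 / 2 : ℝ) ≤ Real.exp (1 / 2) := by
      have := Real.add_one_le_exp (1 / 2 : ℝ)
      linarith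
    have h7 : (Real.exp (1 / 2))⁻¹ ≤ (3 / 2 : ℝ)⁻¹ := by
      apply inv_anti₀ (by norm_num) h6
    have := Real.log_two_gt_d9
    norm_num at h7 ⊢
    linarith
  linarith

theorem _root_.H941.numeric_exp (c1 s : ℝ) (hc1 : 0 < c1) (hc1' : c1 ≤ 1) (hs : 0 < s) (hs' : s ≤ 1 / 8) :
    ∃ N0 : ℕ, ∀ N : ℕ, N0 ≤ N → ∀ i ≤ nl N, ∃ θ : ℝ, 0 ≤ θ ∧ θ ≤ 1 ∧
      (Nat.log 2 N : ℝ) ^ 28 * Real.exp (-(θ * ((Real.log (Real.log N)) ^ 2 / 2 - 1)) +
        θ ^ 2 * (3 * i + 4 * (Real.log (Nat.log 2 N) / Real.log 2) + 5) / 2 -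
        (c1 * θ / 8) * ∑ k ∈ Finset.range (i - mg N), Real.sqrt (bd s k)) ≤ 1 := by
  have hss : 0 < Real.sqrt s := Real.sqrt_pos.mpr hs
  set c : ℝ := c1 * Real.sqrt s / 16 with hc
  have hc0 : 0 < c := by positivity
  have hX : Filter.Tendsto (fun N : ℕ => Real.log (Nat.log 2 N : ℝ)) Filter.atTop Filter.atTop := by
    apply Real.tendsto_log_atTop.comp
    apply tendsto_natCast_atTop_atTop.comp
    rw [Filter.tendsto_atTop]
    intro b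
    filter_upwards [Filter.eventually_ge_atTop (2 ^ b)] with N hN
    exact (Nat.le_log_iff_pow_le (by norm_num) (by
      have : 0 < 2 ^ b := by positivity
      omega)).mpr hN
  have hev : ∀ᶠ l : ℝ in Filter.atTop, 200 ≤ l ∧
      224 * 3 ^ (4 / 7 : ℝ) / c ^ (10 / 7 : ℝ) ≤ l ^ (1 / 7 : ℝ) :=
    (Filter.eventually_ge_atTop _).and ((tendsto_rpow_atTop (by norm_num)).eventually_ge_atTop _)
  obtain ⟨N0, hN0⟩ := Filter.eventually_atTop.mp (hX.eventually hev)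
  refine ⟨N0, fun N hN i _ => ?_⟩
  obtain ⟨hl200, hlM⟩ := hN0 N hN
  set l := Real.log (Nat.log 2 N : ℝ) with hl
  have hx1 : 1 ≤ Nat.log 2 N := by
    rcases Nat.eq_zero_or_pos (Nat.log 2 N) with h | h
    · rw [h] at hl; simp at hl; linarith
    · exact h
  have hxr : (0 : ℝ) < (Nat.log 2 N : ℝ) := by exact_mod_cast hx1
  have hmg := mg_le N hx1
  have hLL := loglog_ge N hx1
  rw [← hl] at hmg hLL
  set LL := Real.log (Real.log N) with hLLdef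
  have hlog2 : 0 < Real.log 2 := Real.log_pos (by norm_num)
  have hq : l / Real.log 2 ≤ 3 / 2 * l := by
    rw [div_le_iff₀ hlog2]
    have := Real.log_two_gt_d9
    nlinarith
  have hq0 : 0 ≤ l / Real.log 2 := by positivity
  set q := l / Real.log 2 with hqdef
  set S := ∑ k ∈ Finset.range (i - mg N), Real.sqrt (bd s k) with hS
  have hS0 : 0 ≤ S := Finset.sum_nonneg (fun _ _ => Real.sqrt_nonneg _)
  have hSlow := sum_low s hs (i - mg N)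
  rw [← hS] at hSlow
  set A : ℝ := LL ^ 2 / 2 - 1 + c1 / 8 * S with hA
  set v : ℝ := 3 * i + 4 * q + 5 with hv
  have hi0 : (0 : ℝ) ≤ i := Nat.cast_nonneg i
  have hv0 : 0 < v := by positivity
  have hLL2 : (l - 1 / 2) ^ 2 ≤ LL ^ 2 := by
    apply pow_le_pow_left₀ (by linarith) hLL
  have hcS : 0 ≤ c1 / 8 * S := by positivity
  obtain ⟨hLLp, hA3, hA56⟩ := arith1 l LL (c1 / 8 * S) hl200 hLL2 hcS
  rw [← hA] at hA3 hA56
  have hA2 : 56 * l * v ≤ A ^ 2 := by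
    by_cases hi : (i : ℝ) ≤ 4 * (q + 3)
    · have hvl : v ≤ 25 * l := by rw [hv]; linarith
      have h1 : (l ^ 2 / 3) ^ 2 ≤ A ^ 2 := pow_le_pow_left₀ (by positivity) hA3 2
      have h2 : 56 * l * v ≤ 56 * l * (25 * l) := by
        apply mul_le_mul_of_nonneg_left hvl (by linarith)
      have h3 := arith2 l hl200
      linarith
    · push Not at hi
      have hvi : v ≤ 4 * i := by rw [hv]; linarith
      have hmi : (mg N : ℝ) ≤ i / 4 := by linarith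
      have hsub : (i : ℝ) / 2 ≤ ((i - mg N : ℕ) : ℝ) := by
        have h1 : (i : ℝ) - mg N ≤ ((i - mg N : ℕ) : ℝ) := by
          have : i ≤ (i - mg N) + mg N := by omega
          have : (i : ℝ) ≤ ((i - mg N : ℕ) : ℝ) + mg N := by exact_mod_cast this
          linarith
        linarith
      have hpow : (1 / 2 : ℝ) * (i : ℝ) ^ (7 / 10 : ℝ) ≤ ((i - mg N : ℕ) : ℝ) ^ (7 / 10 : ℝ) := by
        calc (1 / 2 : ℝ) * (i : ℝ) ^ (7 / 10 : ℝ) ≤ (1 / 2 : ℝ) ^ (7 / 10 : ℝ) * (i : ℝ) ^ (7 / 10 : ℝ) := by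
              apply mul_le_mul_of_nonneg_right _ (by positivity)
              calc (1 / 2 : ℝ) = (1 / 2 : ℝ) ^ (1 : ℝ) := (Real.rpow_one _).symm
                _ ≤ (1 / 2 : ℝ) ^ (7 / 10 : ℝ) :=
                  Real.rpow_le_rpow_of_exponent_ge (by norm_num) (by norm_num) (by norm_num)
          _ = ((i : ℝ) / 2) ^ (7 / 10 : ℝ) := by
              rw [← Real.mul_rpow (by norm_num) hi0]; congr 1; ring
          _ ≤ _ := Real.rpow_le_rpow (by positivity) hsub (by norm_num)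
      have hci : c * (i : ℝ) ^ (7 / 10 : ℝ) ≤ A := by
        have h1 : Real.sqrt s * ((1 / 2 : ℝ) * (i : ℝ) ^ (7 / 10 : ℝ)) ≤ S :=
          le_trans (mul_le_mul_of_nonneg_left hpow hss.le) hSlow
        have h2 : c * (i : ℝ) ^ (7 / 10 : ℝ) = c1 / 8 * (Real.sqrt s * ((1 / 2 : ℝ) * (i : ℝ) ^ (7 / 10 : ℝ))) := by
          rw [hc]; ring
        have h3 : c1 / 8 * (Real.sqrt s * ((1 / 2 : ℝ) * (i : ℝ) ^ (7 / 10 : ℝ))) ≤ c1 / 8 * S :=
          mul_le_mul_of_nonneg_left h1 (by positivity)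
        rw [h2, hA]; linarith
      have h224 := rpow_core A l c i (by linarith) hc0 hi0 hA3 hci hlM
      calc 56 * l * v ≤ 56 * l * (4 * i) := mul_le_mul_of_nonneg_left hvi (by linarith)
        _ = 224 * l * i := by ring
        _ ≤ A ^ 2 := h224
  obtain ⟨θ, h0, h1, hθ⟩ := real_core A v l (by linarith) hA56 hv0 hA2
  refine ⟨θ, h0, h1, ?_⟩
  have hX28 : (Nat.log 2 N : ℝ) ^ 28 = Real.exp (28 * l) := by
    rw [hl, mul_comm, Real.exp_mul, Real.exp_log hxr]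
    norm_cast
  rw [hX28, ← Real.exp_add]
  apply Real.exp_le_one_iff.mpr
  have : 28 * l + (-(θ * (LL ^ 2 / 2 - 1)) + θ ^ 2 * v / 2 - c1 * θ / 8 * S)
      = 28 * l - (θ * A - θ ^ 2 * v / 2) := by rw [hA]; ring
  rw [this]
  linarith

end H941.numeric_exp
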