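import Pool.Agent.H941.Defs3

open MeasureTheory ProbabilityTheory

namespace H941.numeric_misc


theorem numeric_misc_aux1 : ∀ᶠ y : ℝ in Filter.atTop,
    (3 * 10 ^ 13 : ℝ) ≤ y ∧ y ^ 28 ≤ Real.exp y ∧ (10 ^ 8 : ℝ) ≤ Real.log y := by
  have h1 : ∀ᶠ y : ℝ in Filter.atTop, (3 * 10 ^ 13 : ℝ) ≤ y := Filter.eventually_ge_atTop _
  have h3 : ∀ᶠ y : ℝ in Filter.atTop, (10 ^ 8 : ℝ) ≤ Real.log y :=
    Real.tendsto_log_atTop.eventually_ge_atTop _
  have h2 : ∀ᶠ y : ℝ in Filter.atTop, y ^ 28 ≤ Real.exp y := by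
    have := (Real.tendsto_pow_mul_exp_neg_atTop_nhds_zero 28)
    have h := this.eventually_lt_const (u := 1) (by norm_num)
    filter_upwards [h] with y hy
    rw [Real.exp_neg] at hy
    have he := Real.exp_pos y
    have : y ^ 28 / Real.exp y < 1 := by simpa [div_eq_mul_inv] using hy
    rw [div_lt_one he] at this
    exact this.le
  filter_upwards [h1, h2, h3] with y a b c
  exact ⟨a, b, c⟩

theorem _root_.H941.numeric_misc : ∃ N0 : ℕ, ∀ N : ℕ, N0 ≤ N →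
      1 ≤ (Real.log (Real.log N)) ^ 2 / 2 ∧
      10 ^ 12 * ((Real.log (Real.log N)) ^ 2 / 2 + 20 * Nat.log 2 N) ≤
        (Real.log (Real.log N)) ^ 2 / 2 * (Nat.log 2 N : ℝ) ^ 2 ∧
      (Nat.log 2 N : ℝ) ^ 28 * (2 * Real.exp (-(((Real.log (Real.log N)) ^ 2 / 2) ^ 2 / 10 ^ 17))) ≤ 1 ∧
      (∀ w : ℕ, 1 ≤ w → w ≤ N → (Nat.log 2 N : ℝ) ^ 28 *
        (14 * (w : ℝ) ^ 2 * Real.exp (-((20 * Nat.log 2 N) ^ 2 / Real.log (1 + 98 * (w : ℝ) ^ 2)))) ≤ 1) ∧
      (Nat.log 2 N : ℝ) ^ 28 * ((2 : ℝ) ^ (Nat.log 2 N) *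
        (100 * (N : ℝ) ^ 2 * Real.exp (-((Nat.log 2 N : ℝ) ^ 2 / 2)))) ≤ 1 ∧
      (Real.log N) ≤ Nat.log 2 N := by
  obtain ⟨Y, hY⟩ := Filter.eventually_atTop.1 numeric_misc_aux1
  refine ⟨2 ^ (⌈Y⌉₊), fun N hN => ?_⟩
  have hNpos : 0 < N := lt_of_lt_of_le (by positivity) hN
  have hN0 : N ≠ 0 := hNpos.ne'
  set x : ℕ := Nat.log 2 N with hx
  have hxY : ⌈Y⌉₊ ≤ x := Nat.le_log_of_pow_le (by norm_num) hN
  have hxY' : Y ≤ (x : ℝ) := (Nat.le_ceil Y).trans (by exact_mod_cast hxY)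
  obtain ⟨hA, hB, hC⟩ := hY (x : ℝ) hxY'
  have hlow : 2 ^ x ≤ N := Nat.pow_log_le_self 2 hN0
  have hhigh : N < 2 ^ (x + 1) := Nat.lt_pow_succ_log_self (by norm_num) N
  have hlowR : (2 : ℝ) ^ x ≤ (N : ℝ) := by exact_mod_cast hlow
  have hhighR : (N : ℝ) ≤ (2 : ℝ) ^ (x + 1) := by exact_mod_cast hhigh.le
  have hxpos : (0 : ℝ) < (x : ℝ) := by linarith
  have hNR : (0 : ℝ) < (N : ℝ) := by exact_mod_cast hNpos
  have hl2a : Real.log 2 < 0.6931471808 := Real.log_two_lt_d9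
  have hl2b : 0.6931471803 < Real.log 2 := Real.log_two_gt_d9
  have hlogN_low : (x : ℝ) * Real.log 2 ≤ Real.log N := by
    have := Real.log_le_log (by positivity) hlowR
    rwa [Real.log_pow] at this
  have hlogN_high : Real.log N ≤ ((x : ℝ) + 1) * Real.log 2 := by
    have := Real.log_le_log hNR hhighR
    rw [Real.log_pow] at this
    push_cast at this
    exact this
  have hlogN_le : Real.log N ≤ (x : ℝ) := by nlinarith
  have hlogN_ge : (x : ℝ) / 2 ≤ Real.log N := by nlinarith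
  set L : ℝ := Real.log x with hL
  have hLL : L / 2 ≤ Real.log (Real.log N) := by
    have h := Real.log_le_log (by positivity) hlogN_ge
    rw [Real.log_div hxpos.ne' (by norm_num)] at h
    linarith
  set lam : ℝ := (Real.log (Real.log N)) ^ 2 / 2 with hlam
  have hlam8 : L ^ 2 / 8 ≤ lam := by
    rw [hlam]
    have h0 : 0 ≤ L / 2 := by linarith
    nlinarith [mul_le_mul hLL hLL h0 (h0.trans hLL)]
  have hlam1 : 1 ≤ lam := by nlinarith
  -- powers of 2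
  have h2x : (2 : ℝ) ^ x ≤ Real.exp x := by
    have : (2 : ℝ) ^ x = Real.exp (x * Real.log 2) := by
      rw [mul_comm, Real.exp_mul, Real.exp_log (by norm_num), Real.rpow_natCast]
    rw [this]
    apply Real.exp_le_exp.2
    nlinarith
  have hN2 : (N : ℝ) ^ 2 ≤ 4 * Real.exp x ^ 2 := by
    have h1 : (N : ℝ) ≤ 2 * Real.exp x := by
      refine hhighR.trans ?_
      rw [pow_succ]
      linarith
    calc (N : ℝ) ^ 2 ≤ (2 * Real.exp x) ^ 2 := by
          apply pow_le_pow_left₀ hNR.le h1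
      _ = _ := by ring
  have hexp100 : (100 : ℝ) ≤ Real.exp x := by
    have := Real.add_one_le_exp (x : ℝ)
    linarith
  have hexppos := Real.exp_pos (x : ℝ)
  have hx28 : (0 : ℝ) ≤ (x : ℝ) ^ 28 := by positivity
  refine ⟨hlam1, ?_, ?_, ?_, ?_, hlogN_le⟩
  · have h1 : (10 ^ 12 : ℝ) ≤ (x : ℝ) ^ 2 := by nlinarith
    have h2 : (10 ^ 12 : ℝ) + 10 ^ 12 * 20 * x ≤ (x : ℝ) ^ 2 := by nlinarith
    nlinarith [mul_nonneg (sub_nonneg.2 hlam1) (sub_nonneg.2 h1)]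
  · have h1 : (x : ℝ) ^ 28 = Real.exp (28 * L) := by
      rw [mul_comm, Real.exp_mul, hL, Real.exp_log hxpos]
      norm_cast
    have h2 : (2 : ℝ) ≤ Real.exp 1 := by
      have := Real.add_one_le_exp (1 : ℝ)
      linarith
    have h3 : 28 * L + 1 ≤ lam ^ 2 / 10 ^ 17 := by
      have h4 : (L ^ 2 / 8) ^ 2 ≤ lam ^ 2 := by
        apply pow_le_pow_left₀ (by positivity) hlam8
      have h5 : 28 * L + 1 ≤ (L ^ 2 / 8) ^ 2 / 10 ^ 17 := by
        have h6 : (10 ^ 8 : ℝ) ^ 3 ≤ L ^ 3 := pow_le_pow_left₀ (by norm_num) hC 3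
        have h7 : (L ^ 2 / 8) ^ 2 = L ^ 3 * L / 64 := by ring
        rw [h7, le_div_iff₀ (by norm_num)]
        have h8 : (10 ^ 8 : ℝ) ^ 3 * L ≤ L ^ 3 * L := mul_le_mul_of_nonneg_right h6 (by linarith)
        nlinarith
      refine h5.trans ?_
      gcongr
    calc (x : ℝ) ^ 28 * (2 * Real.exp (-(lam ^ 2 / 10 ^ 17)))
        ≤ Real.exp (28 * L) * (Real.exp 1 * Real.exp (-(lam ^ 2 / 10 ^ 17))) := by
          rw [h1]; gcongr
      _ = Real.exp (28 * L + (1 + -(lam ^ 2 / 10 ^ 17))) := by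
          rw [Real.exp_add, Real.exp_add]
      _ ≤ 1 := by
          rw [Real.exp_le_one_iff]
          linarith
  · intro w hw1 hwN
    have hwR1 : (1 : ℝ) ≤ (w : ℝ) := by exact_mod_cast hw1
    have hwRN : (w : ℝ) ≤ (N : ℝ) := by exact_mod_cast hwN
    have hlogpos : 0 < Real.log (1 + 98 * (w : ℝ) ^ 2) := Real.log_pos (by nlinarith)
    have hw2 : (w : ℝ) ^ 2 ≤ (N : ℝ) ^ 2 := by gcongr
    have hN1 : (1 : ℝ) ≤ (N : ℝ) ^ 2 := by
      have : (1 : ℝ) ≤ (N : ℝ) := by exact_mod_cast hNpos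
      nlinarith
    have hlogle : Real.log (1 + 98 * (w : ℝ) ^ 2) ≤ 4 * x := by
      have h1 : 1 + 98 * (w : ℝ) ^ 2 ≤ Real.exp (4 * x) := by
        have h4 : Real.exp (4 * (x : ℝ)) = Real.exp x ^ 2 * Real.exp x ^ 2 := by
          rw [← pow_add, ← Real.exp_nat_mul]; norm_num
        rw [h4]
        have h5 : (10000 : ℝ) ≤ Real.exp x ^ 2 := by nlinarith
        nlinarith
      calc Real.log (1 + 98 * (w : ℝ) ^ 2) ≤ Real.log (Real.exp (4 * x)) :=
            Real.log_le_log (by positivity) h1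
        _ = 4 * x := Real.log_exp _
    have hdiv : 100 * (x : ℝ) ≤ (20 * (x : ℝ)) ^ 2 / Real.log (1 + 98 * (w : ℝ) ^ 2) := by
      rw [le_div_iff₀ hlogpos]
      nlinarith
    have h14 : (14 : ℝ) * (w : ℝ) ^ 2 ≤ Real.exp x ^ 3 := by nlinarith
    calc (x : ℝ) ^ 28 *
        (14 * (w : ℝ) ^ 2 * Real.exp (-((20 * x) ^ 2 / Real.log (1 + 98 * (w : ℝ) ^ 2))))
        ≤ Real.exp x * (Real.exp x ^ 3 * Real.exp (-(100 * x))) := by
          gcongr
      _ = Real.exp (x + (3 * x + -(100 * x))) := by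
          rw [Real.exp_add, Real.exp_add]
          congr 2
          rw [← Real.exp_nat_mul]; norm_num
      _ ≤ 1 := by
          rw [Real.exp_le_one_iff]
          linarith
  · calc (x : ℝ) ^ 28 * ((2 : ℝ) ^ x *
        (100 * (N : ℝ) ^ 2 * Real.exp (-((x : ℝ) ^ 2 / 2))))
        ≤ Real.exp x * (Real.exp x *
        (Real.exp x * (4 * Real.exp x ^ 2) * Real.exp (-((x : ℝ) ^ 2 / 2)))) := by
          gcongr
      _ ≤ Real.exp x * (Real.exp x *
        (Real.exp x * (Real.exp x * Real.exp x ^ 2) * Real.exp (-((x : ℝ) ^ 2 / 2)))) := by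
          gcongr
          linarith
      _ = Real.exp (6 * x + -((x : ℝ) ^ 2 / 2)) := by
          rw [Real.exp_add]
          have : Real.exp (6 * (x : ℝ)) = Real.exp x ^ 6 := by
            rw [← Real.exp_nat_mul]; norm_num
          rw [this]; ring
      _ ≤ 1 := by
          rw [Real.exp_le_one_iff]
          nlinarith

end H941.numeric_misc
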