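import Pool.Agent.H941.Defs3

open MeasureTheory ProbabilityTheory

namespace H941.par_holds

theorem bd_eq (s : ℝ) (i : ℕ) : bd s i = s / ((((i : ℝ) + 1) ^ ((1:ℝ)/5)) ^ 3) := by
  have hx : (0:ℝ) < (i:ℝ) + 1 := by positivity
  unfold bd
  rw [← Real.rpow_natCast (((i:ℝ)+1) ^ ((1:ℝ)/5)) 3, ← Real.rpow_mul hx.le, Real.rpow_neg hx.le]
  norm_num
  exact (div_eq_mul_inv _ _).symm

theorem c5 (i : ℕ) : (((i : ℝ) + 1) ^ ((1:ℝ)/5)) ^ 5 = (i:ℝ) + 1 := by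
  have hx : (0:ℝ) < (i:ℝ) + 1 := by positivity
  rw [← Real.rpow_natCast (((i:ℝ)+1) ^ ((1:ℝ)/5)) 5, ← Real.rpow_mul hx.le]
  norm_num

theorem bd_sum (s : ℝ) (n : ℕ) :
    ∑ k ∈ Finset.range (n + 1), bd s k ^ 2 ≤ s ^ 2 * (6 - 5 / (((n : ℝ) + 1) ^ ((1:ℝ)/5))) := by
  induction n with
  | zero =>
    simp [bd]
    nlinarith [sq_nonneg s]
  | succ n ih =>
    rw [Finset.sum_range_succ]
    have e1 := c5 n
    have e2 := c5 (n + 1)
    have ha : 0 < ((n : ℝ) + 1) ^ ((1:ℝ)/5) := by positivity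
    have hb : 0 < (((n + 1 : ℕ) : ℝ) + 1) ^ ((1:ℝ)/5) := by positivity
    have hab : ((n : ℝ) + 1) ^ ((1:ℝ)/5) ≤ (((n + 1 : ℕ) : ℝ) + 1) ^ ((1:ℝ)/5) := by
      apply Real.rpow_le_rpow (by positivity) _ (by norm_num)
      push_cast; linarith
    rw [bd_eq s (n + 1)]
    generalize ((n : ℝ) + 1) ^ ((1:ℝ)/5) = a at *
    generalize (((n + 1 : ℕ) : ℝ) + 1) ^ ((1:ℝ)/5) = b at *
    have e3 : b ^ 5 - a ^ 5 = 1 := by rw [e1, e2]; push_cast; ring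
    -- 1/b^6 ≤ 5/a - 5/b
    have key : 1 / b ^ 6 ≤ 5 / a - 5 / b := by
      have h1 : (b - a) * (5 * b ^ 4) ≥ 1 := by
        have h2 : b ^ 5 - a ^ 5 = (b - a) * (b ^ 4 + b ^ 3 * a + b ^ 2 * a ^ 2 + b * a ^ 3 + a ^ 4) := by
          ring
        rw [← e3, h2]
        apply mul_le_mul_of_nonneg_left _ (by linarith)
        have g1 : b ^ 3 * a ≤ b ^ 3 * b := mul_le_mul_of_nonneg_left hab (by positivity)
        have g2 : b ^ 2 * a ^ 2 ≤ b ^ 2 * b ^ 2 :=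
          mul_le_mul_of_nonneg_left (pow_le_pow_left₀ ha.le hab 2) (by positivity)
        have g3 : b * a ^ 3 ≤ b * b ^ 3 :=
          mul_le_mul_of_nonneg_left (pow_le_pow_left₀ ha.le hab 3) (by positivity)
        have g4 : a ^ 4 ≤ b ^ 4 := pow_le_pow_left₀ ha.le hab 4
        nlinarith
      have h3 : 5 / a - 5 / b = 5 * (b - a) / (a * b) := by field_simp
      rw [h3, div_le_div_iff₀ (by positivity) (by positivity)]
      have h4 : a * b ≤ b * b := mul_le_mul_of_nonneg_right hab hb.le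
      calc 1 * (a * b) ≤ b * b := by linarith
        _ ≤ ((b - a) * (5 * b ^ 4)) * (b * b) := by nlinarith [mul_pos hb hb]
        _ = 5 * (b - a) * b ^ 6 := by ring
    have h5 : (s / b ^ 3) ^ 2 = s ^ 2 * (1 / b ^ 6) := by
      field_simp
    rw [h5]
    have h6 : s ^ 2 * (1 / b ^ 6) ≤ s ^ 2 * (5 / a - 5 / b) :=
      mul_le_mul_of_nonneg_left key (sq_nonneg s)
    nlinarith

theorem bd_sum6 (s : ℝ) (n : ℕ) : ∑ k ∈ Finset.range n, bd s k ^ 2 ≤ 6 * s ^ 2 := by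
  cases n with
  | zero => simp; positivity
  | succ n =>
    have h := bd_sum s n
    have h2 : 0 ≤ s ^ 2 * (5 / (((n : ℝ) + 1) ^ ((1:ℝ)/5))) := by positivity
    nlinarith

theorem prod_ge (s : ℝ) (i : ℕ) : 1 ≤ ∏ k ∈ Finset.range i, Real.sqrt (1 + 4 * bd s k ^ 2) := by
  induction i with
  | zero => simp
  | succ i ih =>
    rw [Finset.prod_range_succ]
    have h : 1 ≤ Real.sqrt (1 + 4 * bd s i ^ 2) := by
      rw [Real.one_le_sqrt]; nlinarith [sq_nonneg (bd s i)]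
    nlinarith

theorem prod_le (s : ℝ) (hs0 : 0 < s) (hs : s ≤ 1 / 8) (i : ℕ) :
    ∏ k ∈ Finset.range i, Real.sqrt (1 + 4 * bd s k ^ 2) ≤ 121 / 100 := by
  have h1 : ∏ k ∈ Finset.range i, Real.sqrt (1 + 4 * bd s k ^ 2) ≤
      ∏ k ∈ Finset.range i, Real.exp (2 * bd s k ^ 2) := by
    apply Finset.prod_le_prod
    · intro k _; exact Real.sqrt_nonneg _
    · intro k _
      have h2 : Real.sqrt (1 + 4 * bd s k ^ 2) ≤ 1 + 2 * bd s k ^ 2 := by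
        rw [Real.sqrt_le_left (by positivity)]
        nlinarith [sq_nonneg (bd s k), sq_nonneg (bd s k ^ 2)]
      have h3 := Real.add_one_le_exp (2 * bd s k ^ 2)
      linarith
  rw [← Real.exp_sum, ← Finset.mul_sum] at h1
  have h4 := bd_sum6 s i
  have h5 : s ^ 2 ≤ 1 / 64 := by nlinarith
  have h6 : Real.exp (2 * ∑ k ∈ Finset.range i, bd s k ^ 2) ≤ Real.exp (3 / 16) := by
    apply Real.exp_le_exp.mpr; nlinarith
  have h7 : Real.exp (3 / 16) ≤ 121 / 100 := by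
    have h8 : Real.exp (3 / 16) ^ 16 = Real.exp 1 ^ 3 := by
      rw [← Real.exp_nat_mul, ← Real.exp_nat_mul]; norm_num
    have h9 : Real.exp 1 < 2.7182818286 := Real.exp_one_lt_d9
    have h10 : Real.exp 1 ^ 3 ≤ (121 / 100 : ℝ) ^ 16 := by
      calc Real.exp 1 ^ 3 ≤ (2.7182818286 : ℝ) ^ 3 := pow_le_pow_left₀ (Real.exp_pos 1).le h9.le 3
        _ ≤ (121 / 100 : ℝ) ^ 16 := by norm_num
    rw [← h8] at h10
    exact le_of_pow_le_pow_left₀ (by norm_num) (by norm_num) h10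
  linarith

theorem dl_eq (s ℓ : ℝ) (i : ℕ) :
    dl s ℓ i = ℓ * (∏ k ∈ Finset.range i, Real.sqrt (1 + 4 * bd s k ^ 2)) / 64 ^ i := by
  unfold dl
  rw [Finset.prod_div_distrib, Finset.prod_const, Finset.card_range, mul_div_assoc]

theorem dl_ge (s ℓ : ℝ) (hℓ : 0 ≤ ℓ) (i : ℕ) : ℓ / 64 ^ i ≤ dl s ℓ i := by
  rw [dl_eq]
  have h := prod_ge s i
  gcongr
  nlinarith

theorem dl_le' (s ℓ : ℝ) (hs0 : 0 < s) (hs : s ≤ 1 / 8) (hℓ : 0 ≤ ℓ) (i : ℕ) :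
    dl s ℓ i ≤ 121 / 100 * ℓ / 64 ^ i := by
  rw [dl_eq, mul_comm (121 / 100 : ℝ) ℓ]
  have h := prod_le s hs0 hs i
  gcongr

theorem dl_succ (s ℓ : ℝ) (hs0 : 0 < s) (hs : s ≤ 1 / 8) (hℓ : 0 ≤ ℓ) (i : ℕ) :
    dl s ℓ (i + 1) ≤ dl s ℓ i / 60 := by
  have h0 : 0 ≤ dl s ℓ i := by
    rw [dl_eq]
    have h := prod_ge s i
    positivity
  have h1 : dl s ℓ (i + 1) = dl s ℓ i * (Real.sqrt (1 + 4 * bd s i ^ 2) / 64) := by
    unfold dl
    rw [Finset.prod_range_succ]; ring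
  have h2 : bd s i ≤ s := by
    unfold bd
    have : ((i : ℝ) + 1) ^ (-(3 / 5) : ℝ) ≤ 1 := by
      apply Real.rpow_le_one_of_one_le_of_nonpos
      · have : (0:ℝ) ≤ (i:ℝ) := by positivity
        linarith
      · norm_num
    nlinarith
  have h20 : 0 ≤ bd s i := by unfold bd; positivity
  have h3 : Real.sqrt (1 + 4 * bd s i ^ 2) ≤ 64 / 60 := by
    rw [Real.sqrt_le_left (by norm_num)]
    nlinarith
  rw [h1]
  nlinarith

theorem bd_anti (s : ℝ) (hs0 : 0 < s) (i : ℕ) : bd s (i + 1) ≤ bd s i := by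
  unfold bd
  apply mul_le_mul_of_nonneg_left _ hs0.le
  apply Real.rpow_le_rpow_of_nonpos
  · positivity
  · push_cast; linarith
  · norm_num

theorem bd_pos (s : ℝ) (hs0 : 0 < s) (i : ℕ) : 0 < bd s i := by
  unfold bd; positivity

theorem bd_ge (s : ℝ) (hs0 : 0 < s) (i : ℕ) (L : ℝ) (h : (i : ℝ) + 1 ≤ L) : s / L ≤ bd s i := by
  unfold bd
  rw [div_eq_mul_inv]
  apply mul_le_mul_of_nonneg_left _ hs0.le
  have hx : (1:ℝ) ≤ (i:ℝ) + 1 := by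
    have : (0:ℝ) ≤ (i:ℝ) := by positivity
    linarith
  calc L⁻¹ ≤ ((i:ℝ) + 1)⁻¹ := by
        apply inv_anti₀ (by positivity) h
    _ = ((i:ℝ) + 1) ^ (-1 : ℝ) := by rw [Real.rpow_neg_one]
    _ ≤ ((i : ℝ) + 1) ^ (-(3 / 5) : ℝ) := by
        apply Real.rpow_le_rpow_of_exponent_le hx; norm_num

theorem lc_le (s ℓ : ℝ) (i : ℕ) (h : 96 ≤ bd s i * dl s ℓ i) :
    (lc s ℓ i : ℝ) ≤ bd s i * dl s ℓ i / 32 := by
  unfold lc
  have h1 : 3 ≤ ⌊bd s i * dl s ℓ i / 32⌋₊ := by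
    apply Nat.le_floor; push_cast; linarith
  have h2 := Nat.pow_log_le_self 2 (x := ⌊bd s i * dl s ℓ i / 32⌋₊) (by omega)
  have h3 : (⌊bd s i * dl s ℓ i / 32⌋₊ : ℝ) ≤ bd s i * dl s ℓ i / 32 := Nat.floor_le (by linarith)
  calc ((2 ^ Nat.log 2 ⌊bd s i * dl s ℓ i / 32⌋₊ : ℕ) : ℝ) ≤ (⌊bd s i * dl s ℓ i / 32⌋₊ : ℝ) := by
        exact_mod_cast h2
    _ ≤ _ := h3

theorem lc_ge (s ℓ : ℝ) (i : ℕ) : bd s i * dl s ℓ i / 64 ≤ lc s ℓ i := by
  unfold lc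
  have h1 := Nat.lt_pow_succ_log_self (b := 2) (by norm_num) ⌊bd s i * dl s ℓ i / 32⌋₊
  have h2 := Nat.lt_floor_add_one (bd s i * dl s ℓ i / 32)
  have h3 : (⌊bd s i * dl s ℓ i / 32⌋₊ : ℝ) + 1 ≤
      2 * ((2 ^ Nat.log 2 ⌊bd s i * dl s ℓ i / 32⌋₊ : ℕ) : ℝ) := by
    have h4 : ⌊bd s i * dl s ℓ i / 32⌋₊ + 1 ≤ 2 * 2 ^ Nat.log 2 ⌊bd s i * dl s ℓ i / 32⌋₊ := by
      rw [Nat.pow_succ] at h1; omega
    exact_mod_cast h4
  linarith

theorem lc_dvd_of_le (s ℓ : ℝ) (i j : ℕ) (h : (lc s ℓ i : ℝ) ≤ lc s ℓ j) : lc s ℓ i ∣ lc s ℓ j := by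
  unfold lc at *
  have h1 : 2 ^ Nat.log 2 ⌊bd s i * dl s ℓ i / 32⌋₊ ≤ 2 ^ Nat.log 2 ⌊bd s j * dl s ℓ j / 32⌋₊ := by
    exact_mod_cast h
  exact pow_dvd_pow 2 ((Nat.pow_le_pow_iff_right (by norm_num)).mp h1)

theorem lc_dvd2_of_le (s ℓ : ℝ) (i j : ℕ) (h : 2 * (lc s ℓ i : ℝ) ≤ lc s ℓ j) :
    2 * lc s ℓ i ∣ lc s ℓ j := by
  unfold lc at *
  have h1 : 2 * 2 ^ Nat.log 2 ⌊bd s i * dl s ℓ i / 32⌋₊ ≤ 2 ^ Nat.log 2 ⌊bd s j * dl s ℓ j / 32⌋₊ := by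
    exact_mod_cast h
  rw [← Nat.pow_succ'] at h1 ⊢
  exact pow_dvd_pow 2 ((Nat.pow_le_pow_iff_right (by norm_num)).mp h1)

theorem lB_bounds (β : ℝ) (hβ : 0 ≤ β) (N : ℕ) :
    β * N / 2 ≤ (lB β N : ℝ) ∧ (lB β N : ℝ) ≤ β * N / 2 + 10 := by
  have h0 : 0 ≤ β * (N : ℝ) := by positivity
  have h1 := Nat.lt_floor_add_one (β * (N : ℝ))
  have h2 := Nat.floor_le h0
  have h3 : ((⌊β * (N : ℝ)⌋₊ / 2 : ℕ) : ℝ) ≤ (⌊β * (N : ℝ)⌋₊ : ℝ) / 2 := by
    have := Nat.cast_div_le (α := ℝ) (m := ⌊β * (N : ℝ)⌋₊) (n := 2)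
    simpa using this
  have h4 : (⌊β * (N : ℝ)⌋₊ : ℝ) ≤ 2 * ((⌊β * (N : ℝ)⌋₊ / 2 : ℕ) : ℝ) + 1 := by
    have : ⌊β * (N : ℝ)⌋₊ ≤ 2 * (⌊β * (N : ℝ)⌋₊ / 2) + 1 := by omega
    exact_mod_cast this
  unfold lB
  push_cast at *
  constructor <;> linarith

theorem wd_le (N i : ℕ) : (wd N i : ℝ) ≤ N / 64 ^ i := by
  unfold wd
  have := Nat.cast_div_le (α := ℝ) (m := N) (n := 64 ^ i)
  simpa using this

theorem wd_gt (N i : ℕ) : (N : ℝ) / 64 ^ i - 1 ≤ wd N i := by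
  unfold wd
  have h : N < (N / 64 ^ i + 1) * 64 ^ i := by
    have h0 : 0 < 64 ^ i := by positivity
    have h1 := Nat.div_add_mod N (64 ^ i)
    have h2 := Nat.mod_lt N h0
    have h3 : 64 ^ i * (N / 64 ^ i) = N / 64 ^ i * 64 ^ i := mul_comm _ _
    rw [add_mul, one_mul]; omega
  have h2 : (N : ℝ) < ((N / 64 ^ i : ℕ) + 1) * 64 ^ i := by exact_mod_cast h
  rw [sub_le_iff_le_add, div_le_iff₀ (by positivity)]
  exact h2.le

/-- everything about the size of `N` -/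
structure Big (s β : ℝ) (J0 N : ℕ) : Prop where
  a : 1000 ≤ Nat.log 2 N
  b : 1000 ≤ s * β * (Nat.log 2 N : ℝ)
  c : 64 ^ (J0 + 2) * (Nat.log 2 N) ^ 8 ≤ N

theorem exists_big (s β : ℝ) (hs : 0 < s) (hβ : 0 < β) (J0 : ℕ) :
    ∃ N0 : ℕ, ∀ N : ℕ, N0 ≤ N → Big s β J0 N := by
  have h1 := tendsto_pow_const_div_const_pow_of_one_lt 8 (r := (2:ℝ)) (by norm_num)
  have h2 : ∀ᶠ n : ℕ in Filter.atTop, (n : ℝ) ^ 8 / 2 ^ n < 1 / 64 ^ (J0 + 2) :=
    h1.eventually_lt_const (by positivity)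
  obtain ⟨L1, hL1⟩ := Filter.eventually_atTop.mp h2
  obtain ⟨L2, hL2⟩ := exists_nat_ge (1000 / (s * β))
  refine ⟨2 ^ (L1 + L2 + 1000), fun N hN => ?_⟩
  have hN0 : N ≠ 0 := by
    have : 0 < 2 ^ (L1 + L2 + 1000) := by positivity
    omega
  have hL : L1 + L2 + 1000 ≤ Nat.log 2 N := Nat.le_log_of_pow_le (by norm_num) hN
  refine ⟨by omega, ?_, ?_⟩
  · have h3 : (L2 : ℝ) ≤ Nat.log 2 N := by exact_mod_cast (by omega : L2 ≤ Nat.log 2 N)
    have h4 : 1000 / (s * β) ≤ (Nat.log 2 N : ℝ) := hL2.trans h3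
    rw [div_le_iff₀ (by positivity)] at h4
    linarith
  · have h3 := hL1 (Nat.log 2 N) (by omega)
    rw [div_lt_div_iff₀ (by positivity) (by positivity)] at h3
    have h4 : (Nat.log 2 N) ^ 8 * 64 ^ (J0 + 2) < 2 ^ (Nat.log 2 N) := by
      have : ((Nat.log 2 N : ℕ) : ℝ) ^ 8 * 64 ^ (J0 + 2) < 2 ^ (Nat.log 2 N) := by linarith
      exact_mod_cast this
    have h5 := Nat.pow_log_le_self 2 hN0
    linarith

theorem nl_facts (s β : ℝ) (J0 N : ℕ) (h : Big s β J0 N) :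
    64 ^ nl N * (Nat.log 2 N) ^ 8 ≤ N ∧ N < 64 ^ (nl N + 1) * (Nat.log 2 N) ^ 8 ∧ nl N + 1 ≤ Nat.log 2 N ∧
      J0 + 2 ≤ nl N := by
  have ha := h.a
  have hc := h.c
  have hL : 0 < (Nat.log 2 N) ^ 8 := by
    have : 0 < Nat.log 2 N := by omega
    positivity
  have hN0 : N ≠ 0 := by
    intro h0; rw [h0] at ha; simp at ha
  have h1 : 64 ^ (J0 + 2) ≤ N / (Nat.log 2 N) ^ 8 := by
    rw [Nat.le_div_iff_mul_le hL]; exact hc
  have h2 : N / (Nat.log 2 N) ^ 8 ≠ 0 := by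
    have : 0 < 64 ^ (J0 + 2) := by positivity
    omega
  have h3 : 64 ^ nl N ≤ N / (Nat.log 2 N) ^ 8 := Nat.pow_log_le_self 64 h2
  have h4 : N / (Nat.log 2 N) ^ 8 < 64 ^ (nl N + 1) := Nat.lt_pow_succ_log_self (by norm_num) _
  have h5 : J0 + 2 ≤ nl N := Nat.le_log_of_pow_le (by norm_num) h1
  have h6 : 64 ^ nl N * (Nat.log 2 N) ^ 8 ≤ N := by
    rw [Nat.le_div_iff_mul_le hL] at h3; exact h3
  have h7 : N < 64 ^ (nl N + 1) * (Nat.log 2 N) ^ 8 := by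
    rw [Nat.div_lt_iff_lt_mul hL] at h4; exact h4
  refine ⟨h6, h7, ?_, h5⟩
  have h8 : 64 ^ nl N ≤ N := by nlinarith
  have h9 : 6 * nl N ≤ Nat.log 2 N := by
    apply Nat.le_log_of_pow_le (by norm_num)
    rw [pow_mul]; exact h8
  omega

theorem mg_facts (N : ℕ) (ha : 1000 ≤ Nat.log 2 N) :
    (Nat.log 2 N) ^ 6 < 64 ^ mg N ∧ 2 ^ mg N ≤ 2 * Nat.log 2 N := by
  unfold mg
  constructor
  · exact Nat.lt_pow_succ_log_self (by norm_num) _
  · rw [pow_succ, mul_comm]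
    apply Nat.mul_le_mul_left
    have h0 : (Nat.log 2 N) ^ 6 ≠ 0 := by
      have : 0 < Nat.log 2 N := by omega
      positivity
    have h1 := Nat.pow_log_le_self 64 h0
    have h2 : (2 ^ Nat.log 64 ((Nat.log 2 N) ^ 6)) ^ 6 ≤ (Nat.log 2 N) ^ 6 := by
      rw [← pow_mul, mul_comm, pow_mul]
      exact h1
    exact le_of_pow_le_pow_left₀ (by norm_num) (by positivity) h2

theorem bddl_ge (s β : ℝ) (hs0 : 0 < s) (hβ0 : 0 < β) (N : ℕ) (L : ℝ) (hL : 0 < L) (i : ℕ)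
    (h : (i : ℝ) + 1 ≤ L) :
    s * β * N / (2 * L * 64 ^ i) ≤ bd s i * dl s (lB β N) i := by
  have h1 := bd_ge s hs0 i L h
  have h2 := dl_ge s (lB β N) (by positivity) i
  have h3 := (lB_bounds β hβ0.le N).1
  have h4 : β * N / 2 / 64 ^ i ≤ dl s (lB β N) i :=
    le_trans (div_le_div_of_nonneg_right h3 (by positivity)) h2
  calc s * β * N / (2 * L * 64 ^ i) = (s / L) * (β * N / 2 / 64 ^ i) := by
        field_simp
    _ ≤ bd s i * dl s (lB β N) i := by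
        apply mul_le_mul h1 h4 (by positivity) (bd_pos s hs0 i).le

theorem bulk_aux (s β : ℝ) (hs0 : 0 < s) (hβ0 : 0 < β) (_hβ1 : β < 1) (hsβ : s ≤ (1 - β) / 16) (N : ℕ)
    (hN : 1000 ≤ (1 - β) * N) (z : ℤ × ℤ) (τ : ℝ) (hτ0 : 0 ≤ τ) (hτ1 : τ ≤ 1)
    (h : ‖toC z - (-5 + (τ : ℂ) * ((lB β N : ℕ) : ℂ))‖ ≤ 4 * (s * (lB β N : ℕ))) :
    z ∈ box N \ innerBdry N := by
  have hre := (Complex.abs_re_le_norm _).trans h
  have him := (Complex.abs_im_le_norm _).trans h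
  have e1 : (toC z - (-5 + (τ : ℂ) * ((lB β N : ℕ) : ℂ))).re = (z.1 : ℝ) - (-5 + τ * (lB β N : ℕ)) := by
    simp [toC]
  have e2 : (toC z - (-5 + (τ : ℂ) * ((lB β N : ℕ) : ℂ))).im = (z.2 : ℝ) := by
    simp [toC]
  rw [e1] at hre
  rw [e2] at him
  obtain ⟨hl1, hl2⟩ := lB_bounds β hβ0.le N
  generalize (lB β N : ℕ) = ℓ at *
  have hN1 : 1000 ≤ (N : ℝ) := by nlinarith [mul_nonneg hβ0.le (Nat.cast_nonneg (α := ℝ) N)]
  have hℓ0 : (0:ℝ) ≤ ℓ := by positivity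
  have hβN : β * N ≤ N := by nlinarith
  have hℓ2 : (ℓ : ℝ) ≤ N / 2 + 10 := by linarith
  have k1 : 4 * (s * (ℓ : ℝ)) ≤ (1 - β) / 4 * (N / 2 + 10) := by
    have : s * (ℓ : ℝ) ≤ (1 - β) / 16 * (N / 2 + 10) :=
      mul_le_mul hsβ hℓ2 hℓ0 (by linarith)
    linarith
  have k2 : (1 - β) / 4 * ((N : ℝ) / 2 + 10) = (1 - β) * N / 8 + (1 - β) * 5 / 2 := by ring
  rw [abs_le] at hre him
  have t1 : τ * (ℓ : ℝ) ≤ ℓ := by nlinarith
  have t0 : 0 ≤ τ * (ℓ : ℝ) := by positivity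
  have a1 : (z.1 : ℝ) ≤ N / 2 - 3 := by
    have : (1 - β) * (N:ℝ) = N - β * N := by ring
    nlinarith [hre.2]
  have a2 : -(N / 2 - 3) ≤ (z.1 : ℝ) := by
    have : (1 - β) * (N:ℝ) = N - β * N := by ring
    nlinarith [hre.1]
  have a3 : (z.2 : ℝ) ≤ N / 2 - 3 := by
    have : (1 - β) * (N:ℝ) = N - β * N := by ring
    nlinarith [him.2]
  have a4 : -(N / 2 - 3) ≤ (z.2 : ℝ) := by
    have : (1 - β) * (N:ℝ) = N - β * N := by ring
    nlinarith [him.1]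
  have b1 : 2 * z.1 ≤ (N : ℤ) - 6 := by
    have : 2 * (z.1 : ℝ) ≤ (N : ℝ) - 6 := by linarith
    exact_mod_cast this
  have b2 : -((N : ℤ) - 6) ≤ 2 * z.1 := by
    have : -((N : ℝ) - 6) ≤ 2 * (z.1 : ℝ) := by linarith
    exact_mod_cast this
  have b3 : 2 * z.2 ≤ (N : ℤ) - 6 := by
    have : 2 * (z.2 : ℝ) ≤ (N : ℝ) - 6 := by linarith
    exact_mod_cast this
  have b4 : -((N : ℤ) - 6) ≤ 2 * z.2 := by
    have : -((N : ℝ) - 6) ≤ 2 * (z.2 : ℝ) := by linarith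
    exact_mod_cast this
  have mem : ∀ u : ℤ × ℤ, 2 * u.1 ≤ (N : ℤ) - 2 → -((N : ℤ) - 2) ≤ 2 * u.1 → 2 * u.2 ≤ (N : ℤ) - 2 →
      -((N : ℤ) - 2) ≤ 2 * u.2 → u ∈ box N := by
    intro u h1 h2 h3 h4
    unfold box
    rw [Finset.mem_product, Finset.mem_Icc, Finset.mem_Icc]
    refine ⟨⟨?_, ?_⟩, ⟨?_, ?_⟩⟩ <;> omega
  rw [Finset.mem_sdiff]
  refine ⟨mem z (by omega) (by omega) (by omega) (by omega), ?_⟩
  intro hz
  classical
  obtain ⟨_, u, hu, hub⟩ := Finset.mem_filter.mp hz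
  apply hub
  have hu' : |z.1 - u.1| + |z.2 - u.2| = 1 := hu
  have c1 : |z.1 - u.1| ≤ 1 := by have := abs_nonneg (z.2 - u.2); omega
  have c2 : |z.2 - u.2| ≤ 1 := by have := abs_nonneg (z.1 - u.1); omega
  rw [abs_le] at c1 c2
  apply mem <;> omega

theorem par_aux (s β : ℝ) (hs0 : 0 < s) (hs8 : s ≤ 1 / 8) (hβ0 : 0 < β) (hβ1 : β < 1)
    (hsβ : s ≤ (1 - β) / 16) (J0 N : ℕ) (h : Big s β J0 N) : Par s (lB β N) N := by
  obtain ⟨f1, f2, f3, f4⟩ := nl_facts s β J0 N h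
  obtain ⟨g1, g2⟩ := mg_facts N h.a
  have ha := h.a
  have hb := h.b
  have hL : (1000 : ℝ) ≤ (Nat.log 2 N : ℝ) := by exact_mod_cast ha
  have hf1 : (64 : ℝ) ^ nl N * (Nat.log 2 N : ℝ) ^ 8 ≤ N := by exact_mod_cast f1
  have hf3 : (nl N : ℝ) + 1 ≤ (Nat.log 2 N : ℝ) := by exact_mod_cast f3
  have hg1 : (Nat.log 2 N : ℝ) ^ 6 < 64 ^ mg N := by exact_mod_cast g1
  obtain ⟨hl1, hl2⟩ := lB_bounds β hβ0.le N
  have hNle : ∀ i ≤ nl N, (Nat.log 2 N : ℝ) ^ 8 ≤ N / 64 ^ i := by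
    intro i hi
    rw [le_div_iff₀ (by positivity)]
    have : (64 : ℝ) ^ i ≤ 64 ^ nl N := pow_le_pow_right₀ (by norm_num) hi
    have h8 : 0 < (Nat.log 2 N : ℝ) ^ 8 := by positivity
    nlinarith
  have hlNN : (lB β N : ℝ) ≤ N / 2 + 10 := by
    have : β * N ≤ N := by nlinarith [Nat.cast_nonneg (α := ℝ) N]
    linarith
  have hdl0 : ∀ i, 0 ≤ dl s (lB β N) i := fun i =>
    le_trans (by positivity) (dl_ge s (lB β N) (by positivity) i)
  have hbig : ∀ i < nl N, 96 ≤ bd s i * dl s (lB β N) i := by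
    intro i hi
    have hi1 : (i : ℝ) + 1 ≤ (Nat.log 2 N : ℝ) := by
      have : (i : ℝ) ≤ nl N := by exact_mod_cast hi.le
      linarith
    refine le_trans ?_ (bddl_ge s β hs0 hβ0 N (Nat.log 2 N) (by linarith) i hi1)
    have h9 := hNle i hi.le
    have e : s * β * (N:ℝ) / (2 * (Nat.log 2 N : ℝ) * 64 ^ i) =
        (s * β / (2 * (Nat.log 2 N : ℝ))) * (N / 64 ^ i) := by
      field_simp
    rw [e]
    have hsb : 0 < s * β := by positivity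
    generalize (Nat.log 2 N : ℝ) = L at *
    have hL0 : 0 < L := by linarith
    calc (96 : ℝ) ≤ (s * β * L) * L ^ 6 / 2 := by
          have : (1:ℝ) ≤ L ^ 6 := one_le_pow₀ (by linarith)
          nlinarith
      _ = s * β / (2 * L) * L ^ 8 := by field_simp
      _ ≤ s * β / (2 * L) * (N / 64 ^ i) := mul_le_mul_of_nonneg_left h9 (by positivity)
  have hdec : ∀ i, bd s (i + 1) * dl s (lB β N) (i + 1) ≤ bd s i * dl s (lB β N) i / 60 := by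
    intro i
    have h1 := bd_anti s hs0 i
    have h2 := dl_succ s (lB β N) hs0 hs8 (by positivity) i
    have h3 := mul_le_mul h1 h2 (hdl0 (i + 1)) (bd_pos s hs0 i).le
    linarith
  have hstep : ∀ i, i + 1 < nl N → 2 * (lc s (lB β N) (i + 1) : ℝ) ≤ lc s (lB β N) i := by
    intro i hi
    have h1 := lc_le s (lB β N) (i + 1) (hbig (i + 1) hi)
    have h2 := lc_ge s (lB β N) i
    have h3 := hdec i
    have h4 := hbig i (by omega)
    linarith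
  have hle0 : ∀ i < nl N, (lc s (lB β N) i : ℝ) ≤ lc s (lB β N) 0 := by
    intro i
    induction i with
    | zero => intro _; exact le_refl _
    | succ i ih =>
      intro hi
      have h1 := hstep i hi
      have h2 := ih (by omega)
      have h3 : (0:ℝ) ≤ lc s (lB β N) (i + 1) := by positivity
      linarith
  refine
    { lg := ha
      s_pos := hs0
      s_le := hs8
      big := hbig
      lc_fac := ?_
      lc_dvd := ?_
      lc_dvd0 := ?_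
      dl_le := ?_
      wd_ge := ?_
      cell := ?_
      near := ?_
      bulk := ?_ }
  · intro i hi
    refine ⟨?_, ?_, lc_ge s (lB β N) i⟩
    · unfold lc; exact Nat.one_le_two_pow
    · have := lc_le s (lB β N) i (hbig i hi)
      linarith
  · intro i hi
    exact lc_dvd2_of_le s (lB β N) (i + 1) i (hstep i hi)
  · intro i hi
    exact Nat.mul_dvd_mul_left 2 (lc_dvd_of_le s (lB β N) i 0 (hle0 i hi))
  · intro i hi
    have h1 := dl_le' s (lB β N) hs0 hs8 (by positivity) i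
    have h2 := wd_gt N i
    have h3 := hNle i hi
    have h4 : 121 / 100 * (lB β N : ℝ) / 64 ^ i ≤ 605 / 1000 * (N / 64 ^ i) + 121 / 10 := by
      rw [div_le_iff₀ (by positivity)]
      have h5 : (605 / 1000 * ((N : ℝ) / 64 ^ i) + 121 / 10) * 64 ^ i =
          605 / 1000 * (N : ℝ) + 121 / 10 * 64 ^ i := by field_simp
      rw [h5]
      have : (1 : ℝ) ≤ 64 ^ i := one_le_pow₀ (by norm_num)
      linarith
    have h6 : (1000 : ℝ) ≤ (Nat.log 2 N : ℝ) ^ 8 := by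
      calc (1000 : ℝ) ≤ (Nat.log 2 N : ℝ) ^ 1 := by simpa using hL
        _ ≤ (Nat.log 2 N : ℝ) ^ 8 := pow_le_pow_right₀ (by linarith) (by norm_num)
    linarith
  · intro i hi
    unfold wd
    rw [Nat.le_div_iff_mul_le (by positivity)]
    have : 64 ^ i ≤ 64 ^ nl N := Nat.pow_le_pow_right (by norm_num) hi
    calc (Nat.log 2 N) ^ 8 * 64 ^ i ≤ (Nat.log 2 N) ^ 8 * 64 ^ nl N := Nat.mul_le_mul_left _ this
      _ ≤ N := by rw [mul_comm]; exact f1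
  · intro i hi hmi
    obtain ⟨j, rfl⟩ : ∃ j, i = j + mg N + 1 := ⟨i - mg N - 1, by omega⟩
    have ej : j + mg N + 1 - mg N - 1 = j := by omega
    rw [ej]
    have hj1 : (j : ℝ) + 1 ≤ (Nat.log 2 N : ℝ) := by
      have : (j : ℝ) ≤ nl N := by exact_mod_cast (by omega : j ≤ nl N)
      linarith
    have h1 := bddl_ge s β hs0 hβ0 N (Nat.log 2 N) (by linarith) j hj1
    have h2 := lc_ge s (lB β N) j
    have h3 := wd_le N (j + mg N + 1)
    have h4 : 9 * (wd N (j + mg N + 1) : ℝ) * (Nat.log 2 N : ℝ) ^ 4 ≤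
        9 * ((N : ℝ) / 64 ^ (j + mg N + 1)) * (Nat.log 2 N : ℝ) ^ 4 := by
      gcongr
    refine h4.trans (le_trans ?_ h2)
    refine le_trans ?_ (div_le_div_of_nonneg_right h1 (by norm_num))
    rw [pow_succ, pow_add]
    have hN0 : (0:ℝ) ≤ N := by positivity
    generalize (Nat.log 2 N : ℝ) = L at *
    have hL0 : 0 < L := by linarith
    have e1 : 9 * ((N:ℝ) / (64 ^ j * 64 ^ mg N * 64)) * L ^ 4 =
        (N / 64 ^ j / 64) * (9 * L ^ 4 / 64 ^ mg N) := by field_simp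
    have e2 : s * β * (N:ℝ) / (2 * L * 64 ^ j) / 64 = (N / 64 ^ j / 64) * (s * β / (2 * L)) := by
      field_simp
    rw [e1, e2]
    apply mul_le_mul_of_nonneg_left _ (by positivity)
    rw [div_le_div_iff₀ (by positivity) (by positivity)]
    have hsb : 0 < s * β := by positivity
    calc 9 * L ^ 4 * (2 * L) ≤ 1000 * L ^ 5 := by
          have : 0 < L ^ 5 := by positivity
          nlinarith
      _ ≤ (s * β * L) * L ^ 5 := by
          apply mul_le_mul_of_nonneg_right hb (by positivity)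
      _ = s * β * L ^ 6 := by ring
      _ ≤ s * β * 64 ^ mg N := mul_le_mul_of_nonneg_left hg1.le hsb.le
  · intro i hi k hk
    obtain ⟨d, rfl⟩ : ∃ d, i = k + mg N + d := ⟨i - (k + mg N), by omega⟩
    have hj1 : (k : ℝ) + 1 ≤ (Nat.log 2 N : ℝ) := by
      have : (k : ℝ) ≤ nl N := by exact_mod_cast (by omega : k ≤ nl N)
      linarith
    have h1 := bddl_ge s β hs0 hβ0 N (Nat.log 2 N) (by linarith) k hj1
    have h3 := wd_le N (k + mg N + d)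
    have h4 : 100 * (wd N (k + mg N + d) : ℝ) ≤ 100 * ((N : ℝ) / 64 ^ (k + mg N)) := by
      have : (N : ℝ) / 64 ^ (k + mg N + d) ≤ (N : ℝ) / 64 ^ (k + mg N) := by
        apply div_le_div_of_nonneg_left (by positivity) (by positivity)
        exact pow_le_pow_right₀ (by norm_num) (by omega)
      linarith
    refine h4.trans (le_trans ?_ h1)
    rw [pow_add]
    generalize (Nat.log 2 N : ℝ) = L at *
    have hL0 : 0 < L := by linarith
    have e1 : 100 * ((N:ℝ) / (64 ^ k * 64 ^ mg N)) = (N / 64 ^ k) * (100 / 64 ^ mg N) := by field_simp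
    have e2 : s * β * (N:ℝ) / (2 * L * 64 ^ k) = (N / 64 ^ k) * (s * β / (2 * L)) := by
      field_simp
    rw [e1, e2]
    apply mul_le_mul_of_nonneg_left _ (by positivity)
    rw [div_le_div_iff₀ (by positivity) (by positivity)]
    have hsb : 0 < s * β := by positivity
    calc 100 * (2 * L) ≤ 1000 * L ^ 5 := by
          have : L ^ 5 ≥ L ^ 1 := pow_le_pow_right₀ (by linarith) (by norm_num)
          rw [pow_one] at this
          nlinarith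
      _ ≤ (s * β * L) * L ^ 5 := by
          apply mul_le_mul_of_nonneg_right hb (by positivity)
      _ = s * β * L ^ 6 := by ring
      _ ≤ s * β * 64 ^ mg N := mul_le_mul_of_nonneg_left hg1.le hsb.le
  · intro z τ h0 h1 h2
    refine bulk_aux s β hs0 hβ0 hβ1 hsβ N ?_ z τ h0 h1 h2
    have h3 := hNle 0 (by omega)
    rw [pow_zero, div_one] at h3
    have h4 : (1 - β) ≥ s * β := by nlinarith
    have h5 : (Nat.log 2 N : ℝ) ≤ N := by
      calc (Nat.log 2 N : ℝ) = (Nat.log 2 N : ℝ) ^ 1 := by simp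
        _ ≤ (Nat.log 2 N : ℝ) ^ 8 := pow_le_pow_right₀ (by linarith) (by norm_num)
        _ ≤ N := h3
    have hsb : 0 < s * β := by positivity
    calc (1000 : ℝ) ≤ s * β * (Nat.log 2 N : ℝ) := hb
      _ ≤ s * β * N := mul_le_mul_of_nonneg_left h5 hsb.le
      _ ≤ (1 - β) * N := mul_le_mul_of_nonneg_right h4 (by positivity)

theorem _root_.H941.par_holds (α β : ℝ) (hα : 0 < α) (hαβ : α < β) (hβ : β < 1) :
    ∃ s : ℝ, 0 < s ∧ s ≤ 1 / 8 ∧ ∃ J0 : ℕ, ∃ N0 : ℕ, ∀ N : ℕ, N0 ≤ N →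
      Par s (lB β N) N ∧ J0 + 2 ≤ nl N ∧
      (∀ i, J0 ≤ i → 6 * (wd N i : ℝ) ≤ s * lB β N) ∧
      1 ≤ ⌈dl s (lB β N) (nl N)⌉₊ ∧
      (64 : ℝ) ^ nl N * (2 * ⌈dl s (lB β N) (nl N)⌉₊) ≤ 2 * N ∧
      (⌈dl s (lB β N) (nl N)⌉₊ : ℝ) ≤ 65 * (Nat.log 2 N : ℝ) ^ 8 ∧
      2 * (s * lB β N) + 4 * wd N J0 + 20 ≤ ((⌊α * (N : ℝ)⌋₊ : ℕ) : ℝ) / 2 - 2 ∧
      (lB β N : ℝ) + 2 * (s * lB β N) + 4 * wd N J0 + 20 ≤ (N : ℝ) / 2 - 2 ∧
      1 ≤ ⌊α * (N : ℝ)⌋₊ ∧ ⌊α * (N : ℝ)⌋₊ ≤ ⌊β * (N : ℝ)⌋₊ ∧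
      (nl N : ℝ) ≤ Nat.log 2 N ∧ (Nat.log 2 N : ℝ) ≤ 6 * nl N + 8 * (Real.log (Nat.log 2 N) / Real.log 2) + 7 ∧
      (2 : ℝ) ^ mg N ≤ 2 * Nat.log 2 N := by
  have h1β : 0 < 1 - β := by linarith
  have hβ0 : 0 < β := by linarith
  obtain ⟨s, hs⟩ : ∃ s : ℝ, s = α * (1 - β) / 16 := ⟨_, rfl⟩
  have hs0 : 0 < s := by rw [hs]; positivity
  have hsα : s ≤ α / 16 := by rw [hs]; nlinarith
  have hsβ : s ≤ (1 - β) / 16 := by rw [hs]; nlinarith
  have hs8 : s ≤ 1 / 8 := by linarith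
  have hsb : 0 < s * β := by positivity
  obtain ⟨J0, hJ0⟩ : ∃ J0 : ℕ, 1000 / (s * β) < (64 : ℝ) ^ J0 := pow_unbounded_of_one_lt _ (by norm_num)
  rw [div_lt_iff₀ hsb] at hJ0
  obtain ⟨N0, hN0⟩ := exists_big s β hs0 hβ0 J0
  refine ⟨s, hs0, hs8, J0, N0, fun N hN => ?_⟩
  have h := hN0 N hN
  have hPar := par_aux s β hs0 hs8 hβ0 hβ hsβ J0 N h
  obtain ⟨f1, f2, f3, f4⟩ := nl_facts s β J0 N h
  obtain ⟨g1, g2⟩ := mg_facts N h.a
  have ha := h.a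
  have hb := h.b
  obtain ⟨hl1, hl2⟩ := lB_bounds β hβ0.le N
  have hL : (1000 : ℝ) ≤ (Nat.log 2 N : ℝ) := by exact_mod_cast ha
  have hNn : N ≠ 0 := by
    intro h0; rw [h0] at ha; simp at ha
  have hN00 : (0:ℝ) ≤ N := by positivity
  have hf1 : (64 : ℝ) ^ nl N * (Nat.log 2 N : ℝ) ^ 8 ≤ N := by exact_mod_cast f1
  have hf2 : (N : ℝ) < 64 ^ (nl N + 1) * (Nat.log 2 N : ℝ) ^ 8 := by exact_mod_cast f2
  have hLN : (Nat.log 2 N : ℝ) ≤ N := by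
    calc (Nat.log 2 N : ℝ) = (Nat.log 2 N : ℝ) ^ 1 := by simp
      _ ≤ (Nat.log 2 N : ℝ) ^ 8 := pow_le_pow_right₀ (by linarith) (by norm_num)
      _ ≤ 64 ^ nl N * (Nat.log 2 N : ℝ) ^ 8 := by
          have : (1:ℝ) ≤ 64 ^ nl N := one_le_pow₀ (by norm_num)
          exact le_mul_of_one_le_left (by positivity) this
      _ ≤ N := hf1
  have hsN : 1000 ≤ s * β * N := hb.trans (mul_le_mul_of_nonneg_left hLN hsb.le)
  have hsβs : s * β ≤ s := mul_le_of_le_one_right hs0.le hβ.le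
  have hsN' : 1000 ≤ s * N := hsN.trans (mul_le_mul_of_nonneg_right hsβs hN00)
  have hsα2 : s * N ≤ α / 16 * N := mul_le_mul_of_nonneg_right hsα hN00
  have hsβ2 : s * N ≤ (1 - β) / 16 * N := mul_le_mul_of_nonneg_right hsβ hN00
  have hαN : 16000 ≤ α * N := by linarith
  have hβN : 16000 ≤ (1 - β) * N := by linarith
  have hβN2 : β * N ≤ N := mul_le_of_le_one_left hN00 hβ.le
  have hwd : ∀ i, J0 ≤ i → (wd N i : ℝ) ≤ s * β * N / 1000 := by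
    intro i hi
    refine (wd_le N i).trans ?_
    have h1 : (64 : ℝ) ^ J0 ≤ 64 ^ i := pow_le_pow_right₀ (by norm_num) hi
    rw [div_le_div_iff₀ (by positivity) (by norm_num)]
    have h2 : 1000 ≤ s * β * 64 ^ i := by
      have h3 := mul_le_mul_of_nonneg_left h1 hsb.le
      linarith
    have h4 := mul_le_mul_of_nonneg_left h2 hN00
    linarith
  have hdl1 := dl_le' s (lB β N) hs0 hs8 (by positivity) (nl N)
  have hdl2 := dl_ge s (lB β N) (by positivity) (nl N)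
  have hlpos : (0:ℝ) < lB β N := by
    have h1 : 1 ≤ lB β N := by unfold lB; omega
    exact_mod_cast h1
  have hdlpos : 0 < dl s (lB β N) (nl N) := lt_of_lt_of_le (by positivity) hdl2
  have hceil := (Nat.ceil_lt_add_one hdlpos.le).le
  have h64 : (0:ℝ) < 64 ^ nl N := by positivity
  have h641 : (1:ℝ) ≤ 64 ^ nl N := one_le_pow₀ (by norm_num)
  rw [le_div_iff₀ h64] at hdl1
  have hlN : (lB β N : ℝ) ≤ N / 2 + 10 := by linarith
  have hL8 : (1000 : ℝ) ≤ (Nat.log 2 N : ℝ) ^ 8 := by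
    calc (1000 : ℝ) ≤ (Nat.log 2 N : ℝ) ^ 1 := by simpa using hL
      _ ≤ (Nat.log 2 N : ℝ) ^ 8 := pow_le_pow_right₀ (by linarith) (by norm_num)
  have h64N : (64 : ℝ) ^ nl N ≤ N / 1000 := by
    rw [le_div_iff₀ (by norm_num)]
    exact (mul_le_mul_of_nonneg_left hL8 h64.le).trans hf1
  have hfl : α * N - 1 ≤ (⌊α * (N : ℝ)⌋₊ : ℝ) := by
    have := Nat.lt_floor_add_one (α * (N : ℝ))
    linarith
  have hsl : s * (lB β N : ℝ) ≤ s * (N / 2 + 10) := mul_le_mul_of_nonneg_left hlN hs0.le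
  have hw0 := hwd J0 le_rfl
  have hsβsN : s * β * N ≤ s * N := mul_le_mul_of_nonneg_right hsβs hN00
  have hsαN : s * N ≤ α * N / 16 := by linarith
  have hsβN : s * N ≤ (1 - β) * N / 16 := by linarith
  have hsbαN : s * β * N ≤ α * N / 16 := by linarith
  have hsbβN : s * β * N ≤ (1 - β) * N / 16 := by linarith
  have e1 : (1 - β) * (N:ℝ) = N - β * N := by ring
  have e2 : s * ((N:ℝ) / 2 + 10) = s * N / 2 + 10 * s := by ring
  rw [e2] at hsl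
  have hN1 : 16000 ≤ (N:ℝ) := by
    have : 0 ≤ β * (N:ℝ) := by positivity
    linarith
  refine ⟨hPar, f4, ?_, ?_, ?_, ?_, ?_, ?_, ?_, ?_, ?_, ?_, ?_⟩
  · intro i hi
    have h1 := hwd i hi
    have h2 : s * (β * N / 2) ≤ s * (lB β N : ℝ) := mul_le_mul_of_nonneg_left hl1 hs0.le
    have h3 : s * (β * N / 2) = s * β * N / 2 := by ring
    rw [h3] at h2
    linarith
  · exact Nat.one_le_iff_ne_zero.mpr (Nat.pos_iff_ne_zero.mp (Nat.ceil_pos.mpr hdlpos))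
  · have h1 : (64:ℝ) ^ nl N * ⌈dl s (lB β N) (nl N)⌉₊ ≤ 64 ^ nl N * (dl s (lB β N) (nl N) + 1) :=
      mul_le_mul_of_nonneg_left hceil h64.le
    have h2 : (64:ℝ) ^ nl N * (dl s (lB β N) (nl N) + 1) =
        dl s (lB β N) (nl N) * 64 ^ nl N + 64 ^ nl N := by ring
    have h3 : (64:ℝ) ^ nl N * (2 * ⌈dl s (lB β N) (nl N)⌉₊) =
        2 * (64 ^ nl N * ⌈dl s (lB β N) (nl N)⌉₊) := by ring
    rw [h3]
    rw [h2] at h1
    linarith
  · have h1 : dl s (lB β N) (nl N) ≤ 40 * (Nat.log 2 N : ℝ) ^ 8 := by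
      have h2 : dl s (lB β N) (nl N) * 64 ^ nl N ≤ 40 * (Nat.log 2 N : ℝ) ^ 8 * 64 ^ nl N := by
        rw [pow_succ] at hf2
        have h3 : (1000:ℝ) * 64 ^ nl N ≤ (Nat.log 2 N : ℝ) ^ 8 * 64 ^ nl N :=
          mul_le_mul_of_nonneg_right hL8 h64.le
        have h4 : (64:ℝ) ^ nl N * 64 * (Nat.log 2 N : ℝ) ^ 8 = 64 * ((Nat.log 2 N : ℝ) ^ 8 * 64 ^ nl N) := by
          ring
        have h5 : 40 * (Nat.log 2 N : ℝ) ^ 8 * 64 ^ nl N = 40 * ((Nat.log 2 N : ℝ) ^ 8 * 64 ^ nl N) := by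
          ring
        rw [h4] at hf2
        rw [h5]
        linarith
      exact le_of_mul_le_mul_right h2 h64
    linarith
  · linarith
  · linarith
  · apply Nat.le_floor; push_cast; linarith
  · exact Nat.floor_le_floor (mul_le_mul_of_nonneg_right hαβ.le hN00)
  · exact_mod_cast (by omega : nl N ≤ Nat.log 2 N)
  · have h1 : (2:ℝ) ^ Nat.log 2 N ≤ N := by exact_mod_cast Nat.pow_log_le_self 2 hNn
    have h2 : (2:ℝ) ^ Nat.log 2 N ≤ 64 ^ (nl N + 1) * (Nat.log 2 N : ℝ) ^ 8 := h1.trans hf2.le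
    have h3 := Real.log_le_log (by positivity) h2
    rw [Real.log_pow, Real.log_mul (by positivity) (by positivity), Real.log_pow, Real.log_pow] at h3
    have h4 : Real.log 64 = 6 * Real.log 2 := by
      rw [show (64:ℝ) = 2 ^ 6 by norm_num, Real.log_pow]; norm_num
    rw [h4] at h3
    have h5 : 0 < Real.log 2 := Real.log_pos (by norm_num)
    have h6 : (Nat.log 2 N : ℝ) ≤ ((nl N + 1 : ℕ) : ℝ) * 6 + 8 * (Real.log (Nat.log 2 N) / Real.log 2) := by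
      have h7 : (Nat.log 2 N : ℝ) * Real.log 2 ≤
          (((nl N + 1 : ℕ) : ℝ) * 6 + 8 * (Real.log (Nat.log 2 N) / Real.log 2)) * Real.log 2 := by
        have h8 : (((nl N + 1 : ℕ) : ℝ) * 6 + 8 * (Real.log (Nat.log 2 N) / Real.log 2)) * Real.log 2
            = ((nl N + 1 : ℕ) : ℝ) * (6 * Real.log 2) + 8 * Real.log (Nat.log 2 N) := by
          field_simp
        rw [h8]
        push_cast at h3 ⊢
        linarith
      exact le_of_mul_le_mul_right h7 h5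
    push_cast at h6
    linarith
  · exact_mod_cast g2

end H941.par_holds
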