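import Pool.Agent.H941.Defs3
import Pool.Agent.H941.B.bottom_count
import Pool.Agent.H941.B.det_final
import Pool.Agent.H941.B.level_count
import Pool.Agent.H941.B.numeric_exp
import Pool.Agent.H941.B.numeric_misc
import Pool.Agent.H941.B.par_holds
import Pool.Agent.H941.B.segs_facts
import Pool.Agent.H941.K2

open MeasureTheory ProbabilityTheory

namespace H941.prob_final

lemma countP_le_flatMap989 {A B : Type*} (l : List A) (f : A → List B) (P : A → Bool) (p : B → Bool)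
    (h : ∀ a ∈ l, P a = true → ∃ b ∈ f a, p b = true) :
    l.countP P ≤ (l.flatMap f).countP p := by
  induction l with
  | nil => simp
  | cons a l ih =>
    rw [List.flatMap_cons, List.countP_append, List.countP_cons]
    have ih' := ih (fun a ha => h a (List.mem_cons_of_mem _ ha))
    by_cases hP : P a = true
    · obtain ⟨b, hb, hpb⟩ := h a List.mem_cons_self hP
      have : 0 < (f a).countP p := List.countP_pos_iff.mpr ⟨b, hb, hpb⟩
      simp [hP]; omega
    · simp [hP]; omega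

lemma level_num989 (X c m q1 q2 Ex G : ℝ) (hX : 1000 ≤ X) (hc : 0 ≤ c) (hm : 0 ≤ m) (hm2 : m ≤ 2 * X)
    (h1 : X ^ 28 * q1 ≤ 1) (h2 : X ^ 28 * q2 ≤ 1) (h3 : X ^ 28 * Ex ≤ 1) (h4 : X ^ 28 * G ≤ 1)
    (p1 : 0 ≤ q1) (p2 : 0 ≤ q2) (p3 : 0 ≤ Ex) (p4 : 0 ≤ G) :
    4 * c * m * ((q1 + q2) + 100 * X ^ 12 * Ex + G) ≤ c * (1 / X ^ 14) := by
  have hX0 : 0 < X := by linarith
  have hX28 : 0 < X ^ 28 := by positivity
  have e1 : q1 ≤ 1 / X ^ 28 := by rw [le_div_iff₀ hX28]; linarith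
  have e2 : q2 ≤ 1 / X ^ 28 := by rw [le_div_iff₀ hX28]; linarith
  have e3 : Ex ≤ 1 / X ^ 28 := by rw [le_div_iff₀ hX28]; linarith
  have e4 : G ≤ 1 / X ^ 28 := by rw [le_div_iff₀ hX28]; linarith
  have h12 : 1 ≤ X ^ 12 := one_le_pow₀ (by linarith)
  have hsum : (q1 + q2) + 100 * X ^ 12 * Ex + G ≤ 103 * X ^ 12 * (1 / X ^ 28) := by
    have : 100 * X ^ 12 * Ex ≤ 100 * X ^ 12 * (1 / X ^ 28) := by gcongr
    have h5 : 1 / X ^ 28 ≤ X ^ 12 * (1 / X ^ 28) := le_mul_of_one_le_left (by positivity) h12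
    linarith
  have hs0 : 0 ≤ (q1 + q2) + 100 * X ^ 12 * Ex + G := by positivity
  calc 4 * c * m * ((q1 + q2) + 100 * X ^ 12 * Ex + G)
      ≤ 4 * c * (2 * X) * (103 * X ^ 12 * (1 / X ^ 28)) := by gcongr
    _ = c * (824 / X ^ 15) := by field_simp; ring
    _ ≤ c * (1 / X ^ 14) := by
        apply mul_le_mul_of_nonneg_left _ hc
        rw [div_le_div_iff₀ (by positivity) (by positivity)]
        have : X ^ 15 = X * X ^ 14 := by ring
        rw [this]
        nlinarith [pow_pos hX0 14]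

lemma bottom_num989 (X c q Eb : ℝ) (hX : 1000 ≤ X) (hc : 0 < c) (hq : q ≤ 65 * X ^ 8) (hq0 : 0 ≤ q)
    (h : X ^ 28 * Eb ≤ 1) (p : 0 ≤ Eb) :
    (c / X ^ 5)⁻¹ * (c * (2 * q) * Eb) ≤ 1 / X ^ 3 := by
  have hX0 : 0 < X := by linarith
  have hX28 : 0 < X ^ 28 := by positivity
  have e : Eb ≤ 1 / X ^ 28 := by rw [le_div_iff₀ hX28]; linarith
  calc (c / X ^ 5)⁻¹ * (c * (2 * q) * Eb) = X ^ 5 * (2 * q) * Eb := by field_simp
    _ ≤ X ^ 5 * (2 * (65 * X ^ 8)) * (1 / X ^ 28) := by gcongr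
    _ = 130 / X ^ 15 := by field_simp; ring
    _ ≤ 1 / X ^ 3 := by
        rw [div_le_div_iff₀ (by positivity) (by positivity)]
        have : X ^ 15 = X ^ 12 * X ^ 3 := by ring
        rw [this]
        have h12 : X ≤ X ^ 12 := le_self_pow₀ (by linarith) (by norm_num)
        nlinarith [pow_pos hX0 3]

lemma len_num989 (X N w lam cnt p : ℝ) (hX : 10 ^ 5 ≤ X) (hN : 0 ≤ N) (hw0 : 0 ≤ w) (hp : 0 < p)
    (hw : w * p ≤ N) (hlam : 1 ≤ lam) (hc0 : 0 ≤ cnt) (hcnt : cnt ≤ 64 * p / X ^ 5) :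
    4 * (10 ^ 10 * w * (lam + 20 * X) / lam) * cnt ≤ 3 * N / X := by
  have hX0 : 0 < X := by linarith
  have hl : (lam + 20 * X) / lam ≤ 21 * X := by
    rw [div_le_iff₀ (by linarith)]
    nlinarith
  have hl0 : 0 ≤ (lam + 20 * X) / lam := by positivity
  calc 4 * (10 ^ 10 * w * (lam + 20 * X) / lam) * cnt
      = 4 * (10 ^ 10 * w * ((lam + 20 * X) / lam)) * cnt := by ring
    _ ≤ 4 * (10 ^ 10 * w * (21 * X)) * (64 * p / X ^ 5) := by gcongr
    _ = (w * p) * (5376 * 10 ^ 10 / X ^ 4) := by field_simp; ring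
    _ ≤ N * (5376 * 10 ^ 10 / X ^ 4) := by gcongr
    _ ≤ N * (3 / X) := by
        apply mul_le_mul_of_nonneg_left _ hN
        rw [div_le_div_iff₀ (by positivity) (by positivity)]
        have h3 : (10 ^ 5 : ℝ) ^ 3 ≤ X ^ 3 := by gcongr
        have : X ^ 4 = X ^ 3 * X := by ring
        rw [this]
        nlinarith
    _ = 3 * N / X := by ring

theorem _root_.H941.prob_final (α β : ℝ) (hα : 0 < α) (hαβ : α < β) (hβ : β < 1) :
    ∃ s : ℝ, ∃ N0 : ℕ, ∀ N : ℕ, N0 ≤ N → Par s (lB β N) N ∧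
      PP N s (lB β N) {ω | ¬ ∃ (u v : ℤ × ℤ) (p : grid.Walk u v),
        u ∈ innerBdry ⌊α * (N : ℝ)⌋₊ ∧ v ∈ innerBdry ⌊β * (N : ℝ)⌋₊ ∧
        (∀ w ∈ p.support, w ∈ box N ∧ extf (box N) (∑ k, ω k) w ≤ (Real.log (Real.log N)) ^ 2) ∧
        (p.support.length : ℝ) ≤ 5 * N} ≤
      ENNReal.ofReal (1 / Real.log N) := by
  obtain ⟨s, hs, hs', J0, N1, hN1⟩ := par_holds α β hα hαβ hβ
  obtain ⟨c1, hc1, hc1', hlev⟩ := level_count
  obtain ⟨c2, hc2, hc2', hbot⟩ := bottom_count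
  obtain ⟨N2, hN2⟩ := numeric_exp c1 s hc1 hc1' hs hs'
  obtain ⟨N3, hN3⟩ := numeric_exp c2 s hc2 hc2' hs hs'
  obtain ⟨N4, hN4⟩ := numeric_misc
  refine ⟨s, N1 + N2 + N3 + N4 + 2 ^ (64 ^ J0 + 10 ^ 5), fun N hN => ?_⟩
  have hNpos : 0 < 2 ^ (64 ^ J0 + 10 ^ 5) := by positivity
  obtain ⟨hpar, hJn, hw6, hq1, hq2N, hq65, hL, hR, ha1, hab, hnx, hxn, hmg⟩ := hN1 N (by omega)
  obtain ⟨hlam1, hlam2, hqq1, hqq2, hgauss, hlogx⟩ := hN4 N (by omega)
  have hexp1 := hN2 N (by omega)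
  have hexp2 := hN3 N (by omega)
  have hNp : 2 ^ (64 ^ J0 + 10 ^ 5) ≤ N := by omega
  clear hN hN1 hN4 hN2 hN3
  have hxbig : 64 ^ J0 + 10 ^ 5 ≤ Nat.log 2 N := by
    exact Nat.le_log_of_pow_le (by norm_num) hNp
  refine ⟨hpar, ?_⟩
  have hNpos' : 0 < N := lt_of_lt_of_le hNpos hNp
  set lam : ℝ := (Real.log (Real.log N)) ^ 2 / 2 with hlamdef
  set X : ℝ := (Nat.log 2 N : ℝ) with hXdef
  have hX5 : (10 : ℝ) ^ 5 ≤ X := by
    have h0 : 10 ^ 5 ≤ Nat.log 2 N := le_trans (Nat.le_add_left _ _) hxbig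
    rw [hXdef]
    exact_mod_cast h0
  have hXJ : (64 : ℝ) ^ J0 ≤ X := by
    have h0 : 64 ^ J0 ≤ Nat.log 2 N := le_trans (Nat.le_add_right _ _) hxbig
    rw [hXdef]
    exact_mod_cast h0
  have hX1000 : (1000 : ℝ) ≤ X := by linarith
  have hX0 : 0 < X := by linarith
  have hN0 : (0 : ℝ) < N := by exact_mod_cast hNpos'
  have hlx1 : 1 ≤ Nat.log 2 N := by
    have h0 : 10 ^ 5 ≤ Nat.log 2 N := le_trans (Nat.le_add_left _ _) hxbig
    omega
  clear hNpos hNp hxbig
  -- widths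
  have hwdle : ∀ i, wd N i ≤ N := fun i => Nat.div_le_self _ _
  have hwdmul : ∀ i, (wd N i : ℝ) * 64 ^ i ≤ N := by
    intro i
    have : wd N i * 64 ^ i ≤ N := Nat.div_mul_le_self _ _
    exact_mod_cast this
  have hwd1 : ∀ i ≤ nl N, 1 ≤ wd N i := by
    intro i hi
    have := hpar.wd_ge i hi
    have h2 : 1 ≤ (Nat.log 2 N) ^ 8 := Nat.one_le_pow _ _ hlx1
    exact h2.trans this
  have hmgX : (2 : ℝ) ^ mg N ≤ 2 * X := hmg
  have hlam0 : 0 < lam := by linarith
  -- names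
  let cnt : ℕ → (Fin (nl N + 1) → EuclideanSpace ℝ ↥(box N)) → ℝ := fun i ω =>
     (((segs (bd s) (oracle (WW N s (lB β N)) ω) i 0 (-5, (lB β N : ℂ))).countP (fun s' =>
          @decide (¬ circuitOK (mid s') (wd N i) (dw N i) (2 * lam) (ln N lam i) (extf (box N) (∑ k, ω k)))
            (Classical.dec _)) : ℕ) : ℝ)
  let lcnt : (Fin (nl N + 1) → EuclideanSpace ℝ ↥(box N)) → ℝ := fun ω =>
    (((leaves (bd s) ⌈dl s (lB β N) (nl N)⌉₊ (oracle (WW N s (lB β N)) ω) (nl N) 0 (-5, (lB β N : ℂ))).countP (fun v =>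
          decide (2 * lam < extf (box N) (∑ k, ω k) v)) : ℕ) : ℝ)
  let Bf : ℕ → ℝ := fun i => if i = J0 then 1 else 64 ^ i / X ^ 5
  have hBf : ∀ i, 0 < Bf i := by
    intro i
    by_cases h : i = J0
    · simp [Bf, h]
    · simp only [Bf, if_neg h]; positivity
  have hE : ∀ i ∈ Finset.Ico J0 (nl N), PP N s (lB β N) {ω | Bf i ≤ cnt i ω} ≤ ENNReal.ofReal (1 / X ^ 3) := by
    intro i hi
    rw [Finset.mem_Ico] at hi
    obtain ⟨θ, hθ0, hθ1, hθ⟩ := hexp1 i hi.2.le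
    refine (hlev s (lB β N) N hpar i hi.2.le (hw6 i hi.1) lam θ (Bf i) hθ0 hθ1 hlam1 (hBf i) hlam2).trans ?_
    apply ENNReal.ofReal_le_ofReal
    have hw1 := hwd1 i hi.2.le
    have hlvl := level_num989 X (64 ^ i) (2 ^ mg N) (2 * Real.exp (-(lam ^ 2 / 10 ^ 17)))
      (14 * (wd N i : ℝ) ^ 2 * Real.exp (-((20 * X) ^ 2 / Real.log (1 + 98 * (wd N i : ℝ) ^ 2))))
      (Real.exp (-(θ * (lam - 1)) + θ ^ 2 * v0 N i / 2 -
          (c1 * θ / 8) * ∑ k ∈ Finset.range (i - mg N), Real.sqrt (bd s k)))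
      (2 ^ i * (5 * (wd N i : ℝ) ^ 2 * Real.exp (-(X ^ 2 / 2)))) hX1000 (by positivity) (by positivity) hmgX
      hqq1 (hqq2 (wd N i) hw1 (hwdle i)) hθ ?_ (by positivity) (by positivity) (by positivity) (by positivity)
    · refine (mul_le_mul_of_nonneg_left hlvl (inv_nonneg.mpr (hBf i).le)).trans ?_
      by_cases h : i = J0
      · subst h
        simp only [Bf, if_true, inv_one, one_mul]
        rw [mul_one_div, div_le_div_iff₀ (by positivity) (by positivity)]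
        have h11 : (1 : ℝ) ≤ X ^ 10 := one_le_pow₀ (by linarith)
        calc (64 : ℝ) ^ i * X ^ 3 ≤ X * X ^ 3 := by gcongr
          _ ≤ (X * X ^ 3) * X ^ 10 := le_mul_of_one_le_right (by positivity) h11
          _ = 1 * X ^ 14 := by ring
      · simp only [Bf, if_neg h]
        have h6 : (1 : ℝ) ≤ X ^ 6 := one_le_pow₀ (by linarith)
        calc ((64 : ℝ) ^ i / X ^ 5)⁻¹ * (64 ^ i * (1 / X ^ 14)) = 1 / X ^ 9 := by field_simp
          _ ≤ 1 / X ^ 3 := by
            rw [div_le_div_iff₀ (by positivity) (by positivity)]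
            calc 1 * X ^ 3 ≤ X ^ 3 * X ^ 6 := by
                  rw [one_mul]; exact le_mul_of_one_le_right (by positivity) h6
              _ = 1 * X ^ 9 := by ring
    · refine le_trans ?_ hgauss
      apply mul_le_mul_of_nonneg_left _ (by positivity)
      have hix : i ≤ Nat.log 2 N := by
        have : (nl N : ℝ) ≤ Nat.log 2 N := hnx
        have h2 : nl N ≤ Nat.log 2 N := by exact_mod_cast this
        omega
      have hwN : (wd N i : ℝ) ≤ N := by exact_mod_cast hwdle i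
      have h2 : (2 : ℝ) ^ i ≤ 2 ^ Nat.log 2 N := pow_le_pow_right₀ (by norm_num) hix
      have h3 : 5 * (wd N i : ℝ) ^ 2 ≤ 100 * (N : ℝ) ^ 2 := by
        have : (wd N i : ℝ) ^ 2 ≤ (N : ℝ) ^ 2 := by gcongr
        nlinarith [sq_nonneg (wd N i : ℝ)]
      gcongr
  have hF : PP N s (lB β N) {ω | 64 ^ nl N / X ^ 5 ≤ lcnt ω} ≤ ENNReal.ofReal (1 / X ^ 3) := by
    obtain ⟨θ, hθ0, hθ1, hθ⟩ := hexp2 (nl N) le_rfl
    refine (hbot s (lB β N) N hpar hq1 hxn lam θ (64 ^ nl N / X ^ 5) hθ0 hθ1 (by positivity)).trans ?_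
    apply ENNReal.ofReal_le_ofReal
    refine bottom_num989 X (64 ^ nl N) _ _ hX1000 (by positivity) hq65 (by positivity) ?_ (by positivity)
    refine le_trans ?_ hθ
    apply mul_le_mul_of_nonneg_left _ (by positivity)
    apply Real.exp_le_exp.mpr
    have : θ * (lam - 1) ≤ θ * (2 * lam) := mul_le_mul_of_nonneg_left (by linarith) hθ0
    unfold v0
    linarith
  have hsub : {ω | ¬ ∃ (u v : ℤ × ℤ) (p : grid.Walk u v),
        u ∈ innerBdry ⌊α * (N : ℝ)⌋₊ ∧ v ∈ innerBdry ⌊β * (N : ℝ)⌋₊ ∧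
        (∀ w ∈ p.support, w ∈ box N ∧ extf (box N) (∑ k, ω k) w ≤ (Real.log (Real.log N)) ^ 2) ∧
        (p.support.length : ℝ) ≤ 5 * N} ⊆
        (⋃ i ∈ Finset.Ico J0 (nl N), {ω | Bf i ≤ cnt i ω}) ∪ {ω | 64 ^ nl N / X ^ 5 ≤ lcnt ω} := by
    intro ω hω
    by_contra hbad
    apply hω
    rw [Set.mem_union, not_or] at hbad
    obtain ⟨hb1, hb2⟩ := hbad
    simp only [Set.mem_ofPred_eq, not_le] at hb2
    have hb1' : ∀ i ∈ Finset.Ico J0 (nl N), cnt i ω < Bf i := by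
      intro i hi
      by_contra hc
      exact hb1 (Set.mem_biUnion hi (not_lt.mp hc))
    clear hb1
    have hL2 : 2 * lam = (Real.log (Real.log N)) ^ 2 := by rw [hlamdef]; ring
    rw [← hL2]
    have hJ0n : J0 < nl N := by omega
    refine det_final α β N J0 s hs hs' ha1 hab (by omega) hJn ?_ hq1 hL hR (fun i => ln N lam i) ?_ (2 * lam)
      (extf (box N) (∑ k, ω k)) (oracle (WW N s (lB β N)) ω) ?_ (5 * N) ?_
    · intro i hi
      have h8 := hpar.wd_ge i hi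
      have hlg := hpar.lg
      have hx8 : Nat.log 2 N ≤ (Nat.log 2 N) ^ 8 := Nat.le_self_pow (by norm_num) _
      have hx28 : (Nat.log 2 N) ^ 2 ≤ (Nat.log 2 N) ^ 8 := Nat.pow_le_pow_right (by omega) (by norm_num)
      have hx2 : 2 ≤ (Nat.log 2 N) ^ 2 := by
        calc 2 ≤ Nat.log 2 N := by omega
          _ ≤ (Nat.log 2 N) ^ 2 := Nat.le_self_pow (by norm_num) _
      refine ⟨by omega, hpar.dl_le i hi, ?_, ?_⟩
      · unfold dw
        exact Nat.div_pos (by omega) (by omega)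
      · unfold dw
        have hmul : wd N i / (Nat.log 2 N) ^ 2 * (Nat.log 2 N) ^ 2 ≤ wd N i := Nat.div_mul_le_self _ _
        calc 2 * (wd N i / (Nat.log 2 N) ^ 2) = wd N i / (Nat.log 2 N) ^ 2 * 2 := by ring
          _ ≤ wd N i / (Nat.log 2 N) ^ 2 * (Nat.log 2 N) ^ 2 := Nat.mul_le_mul_left _ hx2
          _ ≤ wd N i := hmul
    · intro i
      unfold ln
      positivity
    · intro s' hs'mem
      have h0 := hb1' J0 (Finset.mem_Ico.mpr ⟨le_rfl, hJ0n⟩)
      simp only [Bf, if_true, cnt] at h0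
      have h1 := List.countP_eq_zero.mp (Nat.lt_one_iff.mp (by exact_mod_cast h0)) s' hs'mem
      have h2 : circuitOK (mid s') (wd N J0) (dw N J0) (2 * lam) (ln N lam J0) (extf (box N) (∑ k, ω k)) := by
        by_contra hcon
        exact h1 (@decide_eq_true _ (Classical.dec _) hcon)
      unfold Gd
      rw [if_pos hJ0n]
      exact h2
    · have hterm : ∀ k ∈ Finset.range (nl N - J0), 4 * ln N lam (J0 + k) *
          (((segs (bd s) (oracle (WW N s (lB β N)) ω) (J0 + k + 1) 0 (-5, (lB β N : ℂ))).countP (fun s' =>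
        @decide (¬ Gd N ⌈dl s (lB β N) (nl N)⌉₊ (fun i => ln N lam i) (2 * lam) (extf (box N) (∑ k, ω k)) (J0 + k + 1) s')
          (Classical.dec _)) : ℕ) : ℝ) ≤ 3 * N / X := by
        intro k hk
        rw [Finset.mem_range] at hk
        have hlenn := len_num989 X N (wd N (J0 + k)) lam
          (((segs (bd s) (oracle (WW N s (lB β N)) ω) (J0 + k + 1) 0 (-5, (lB β N : ℂ))).countP (fun s' =>
        @decide (¬ Gd N ⌈dl s (lB β N) (nl N)⌉₊ (fun i => ln N lam i) (2 * lam) (extf (box N) (∑ k, ω k)) (J0 + k + 1) s')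
          (Classical.dec _)) : ℕ) : ℝ) (64 ^ (J0 + k)) hX5 hN0.le (by positivity) (by positivity) (hwdmul _) hlam1
          (by positivity) ?_
        · unfold ln
          exact hlenn
        · have hpow : (64 : ℝ) * 64 ^ (J0 + k) = 64 ^ (J0 + k + 1) := by ring
          rw [hpow]
          by_cases hlast : J0 + k + 1 = nl N
          · have hpl : (64 : ℝ) ^ (J0 + k + 1) = 64 ^ nl N := by rw [hlast]
            rw [hpl]
            refine le_trans ?_ hb2.le
            simp only [lcnt]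
            have hsegs : segs (bd s) (oracle (WW N s (lB β N)) ω) (J0 + k + 1) 0 (-5, (lB β N : ℂ)) =
                segs (bd s) (oracle (WW N s (lB β N)) ω) (nl N) 0 (-5, (lB β N : ℂ)) := by rw [hlast]
            rw [(segs_facts (bd s) (oracle (WW N s (lB β N)) ω)).1, hsegs]
            refine Nat.cast_le.mpr (countP_le_flatMap989 _ _ _ _ ?_)
            intro a ha hPa
            have hPa' := @of_decide_eq_true _ (Classical.dec _) hPa
            unfold Gd at hPa'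
            rw [if_neg (by omega)] at hPa'
            push Not at hPa'
            obtain ⟨v, hv, hv2⟩ := hPa'
            exact ⟨v, hv, decide_eq_true hv2⟩
          · have hlt : J0 + k + 1 < nl N := by omega
            have h0 := hb1' (J0 + k + 1) (Finset.mem_Ico.mpr ⟨by omega, hlt⟩)
            have hne : J0 + k + 1 ≠ J0 := by omega
            simp only [Bf, if_neg hne, cnt] at h0
            refine le_trans ?_ h0.le
            refine Nat.cast_le.mpr (List.countP_mono_left ?_)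
            intro a ha hPa
            have hPa' := @of_decide_eq_true _ (Classical.dec _) hPa
            unfold Gd at hPa'
            rw [if_pos hlt] at hPa'
            exact @decide_eq_true _ (Classical.dec _) hPa'
      have hsum := Finset.sum_le_card_nsmul _ _ _ hterm
      rw [Finset.card_range, nsmul_eq_mul] at hsum
      have hnX : ((nl N - J0 : ℕ) : ℝ) ≤ X := by
        have h1 : ((nl N - J0 : ℕ) : ℝ) ≤ (nl N : ℝ) := by exact_mod_cast Nat.sub_le _ _
        exact h1.trans hnx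
      have h3N : ((nl N - J0 : ℕ) : ℝ) * (3 * N / X) ≤ 3 * N := by
        calc ((nl N - J0 : ℕ) : ℝ) * (3 * N / X) ≤ X * (3 * N / X) := by gcongr
          _ = 3 * N := by field_simp
      linarith
  have hlogpos : 0 < Real.log N := by
    by_contra hcon
    have h1N : (1 : ℝ) ≤ N := by exact_mod_cast hNpos'
    have h0 : Real.log N = 0 := le_antisymm (not_lt.mp hcon) (Real.log_nonneg h1N)
    have h2 : lam = 0 := by rw [hlamdef, h0]; simp
    linarith
  have hcard : ((nl N - J0 : ℕ) : ℝ) + 1 ≤ 2 * X := by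
    have h1 : ((nl N - J0 : ℕ) : ℝ) ≤ (nl N : ℝ) := by exact_mod_cast Nat.sub_le _ _
    have h2 : (nl N : ℝ) ≤ X := hnx
    linarith
  calc PP N s (lB β N) _ ≤ PP N s (lB β N) ((⋃ i ∈ Finset.Ico J0 (nl N), {ω | Bf i ≤ cnt i ω}) ∪
        {ω | 64 ^ nl N / X ^ 5 ≤ lcnt ω}) := measure_mono hsub
    _ ≤ PP N s (lB β N) (⋃ i ∈ Finset.Ico J0 (nl N), {ω | Bf i ≤ cnt i ω}) +
        PP N s (lB β N) {ω | 64 ^ nl N / X ^ 5 ≤ lcnt ω} := measure_union_le _ _
    _ ≤ (∑ i ∈ Finset.Ico J0 (nl N), PP N s (lB β N) {ω | Bf i ≤ cnt i ω}) +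
        PP N s (lB β N) {ω | 64 ^ nl N / X ^ 5 ≤ lcnt ω} := by
        gcongr
        exact measure_biUnion_finset_le _ _
    _ ≤ (∑ i ∈ Finset.Ico J0 (nl N), ENNReal.ofReal (1 / X ^ 3)) + ENNReal.ofReal (1 / X ^ 3) := by
        gcongr with i hi
        exact hE i hi
    _ = ENNReal.ofReal (((nl N - J0 : ℕ) + 1 : ℝ) * (1 / X ^ 3)) := by
        rw [Finset.sum_const, Nat.card_Ico, add_mul, one_mul,
          ENNReal.ofReal_add (by positivity) (by positivity), nsmul_eq_mul,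
          ENNReal.ofReal_mul (by positivity), ENNReal.ofReal_natCast]
    _ ≤ ENNReal.ofReal (1 / Real.log N) := by
        apply ENNReal.ofReal_le_ofReal
        calc ((nl N - J0 : ℕ) + 1 : ℝ) * (1 / X ^ 3) ≤ (2 * X) * (1 / X ^ 3) := by gcongr
          _ = 2 / X ^ 2 := by field_simp
          _ ≤ 1 / X := by
              rw [div_le_div_iff₀ (by positivity) (by positivity)]
              nlinarith
          _ ≤ 1 / Real.log N := by
              apply one_div_le_one_div_of_le hlogpos hlogx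

end H941.prob_final
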