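import Pool.Agent.H941.Defs3
import Pool.Agent.H941.A4
import Pool.Agent.H941.B.GG_facts
import Pool.Agent.H941.B.prob_final
import Pool.Agent.H941.G1
import Pool.Agent.H941.G2

open MeasureTheory ProbabilityTheory

namespace H941.linear_crossing

theorem _root_.H941.linear_crossing (α β : ℝ) (hα : 0 < α) (hαβ : α < β) (hβ : β < 1) :
    ∃ N0 : ℕ, ∀ N : ℕ, N0 ≤ N → ∀ (Ω : Type*) [MeasurableSpace Ω] (P : Measure Ω)
      (η : ℤ × ℤ → Ω → ℝ), IsDGFF N η P →
      P {ω | ¬ ∃ (u v : ℤ × ℤ) (p : grid.Walk u v),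
          u ∈ innerBdry ⌊α * (N : ℝ)⌋₊ ∧ v ∈ innerBdry ⌊β * (N : ℝ)⌋₊ ∧
          (∀ w ∈ p.support, w ∈ box N ∧ η w ω ≤ (Real.log (Real.log N)) ^ 2) ∧
          (p.support.length : ℝ) ≤ 5 * N} ≤
        ENNReal.ofReal (1 / Real.log N) := by
  obtain ⟨s, N0, h0⟩ := prob_final α β hα hαβ hβ
  refine ⟨N0, fun N hN Ω _ P η hη => ?_⟩
  obtain ⟨hPar, hbound⟩ := h0 N hN
  obtain ⟨hpsd, hsumG, -⟩ := GG_facts s (lB β N) N hPar
  set c : ℝ := (Real.log (Real.log N)) ^ 2 with hc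
  -- the bad event in terms of the set of the low points
  let B : (↥(box N) → Prop) → Prop := fun t => ¬ ∃ (u v : ℤ × ℤ) (p : grid.Walk u v),
    u ∈ innerBdry ⌊α * (N : ℝ)⌋₊ ∧ v ∈ innerBdry ⌊β * (N : ℝ)⌋₊ ∧
    (∀ w ∈ p.support, ∃ h : w ∈ box N, t ⟨w, h⟩) ∧ (p.support.length : ℝ) ≤ 5 * N
  let T : EuclideanSpace ℝ ↥(box N) → (↥(box N) → Prop) := fun x v => x v ≤ c
  have hT : Measurable T := by
    refine measurable_pi_iff.2 fun v => ?_
    have h1 : MeasurableSet {x : EuclideanSpace ℝ ↥(box N) | x v ≤ c} :=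
      measurableSet_le (by fun_prop) measurable_const
    exact measurableSet_setOf.1 h1
  have hBAD : MeasurableSet (T ⁻¹' {t | B t}) := hT (Set.toFinite _).measurableSet
  have hBx : ∀ x : EuclideanSpace ℝ ↥(box N), x ∈ T ⁻¹' {t | B t} ↔
      ¬ ∃ (u v : ℤ × ℤ) (p : grid.Walk u v),
        u ∈ innerBdry ⌊α * (N : ℝ)⌋₊ ∧ v ∈ innerBdry ⌊β * (N : ℝ)⌋₊ ∧
        (∀ w ∈ p.support, w ∈ box N ∧ extf (box N) x w ≤ c) ∧
        (p.support.length : ℝ) ≤ 5 * N := by
    intro x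
    show ¬ _ ↔ ¬ _
    refine not_congr (exists_congr fun u => exists_congr fun v => exists_congr fun p =>
      and_congr_right fun _ => and_congr_right fun _ => and_congr_left fun _ =>
      forall_congr' fun w => forall_congr' fun _ => ?_)
    constructor
    · rintro ⟨h, h1⟩
      refine ⟨h, ?_⟩
      rw [extf, dif_pos h]
      exact h1
    · rintro ⟨h, h1⟩
      refine ⟨h, ?_⟩
      rw [extf, dif_pos h] at h1
      exact h1
  have hS : (Matrix.of fun x y : ↥(box N) =>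
      (1 / 4) * green (box N \ innerBdry N) x y : Matrix ↥(box N) ↥(box N) ℝ).PosSemidef := by
    rw [← hsumG]
    exact Matrix.posSemidef_sum _ fun k _ => hpsd k
  obtain ⟨hae, hlaw⟩ := law_of_cov P (fun v : ↥(box N) => η v) hη.gaussian
    (fun v => hη.mean_zero v v.2) _ hS (fun u v => hη.cov u u.2 v v.2)
  have hlaw2 := law_sum (fun k : Fin (nl N + 1) => GG N s (lB β N) k) (fun k => hpsd k)
  rw [hsumG] at hlaw2
  have e1 : P {ω | ¬ ∃ (u v : ℤ × ℤ) (p : grid.Walk u v),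
      u ∈ innerBdry ⌊α * (N : ℝ)⌋₊ ∧ v ∈ innerBdry ⌊β * (N : ℝ)⌋₊ ∧
      (∀ w ∈ p.support, w ∈ box N ∧ η w ω ≤ c) ∧ (p.support.length : ℝ) ≤ 5 * N} =
      P.map (fun ω => (WithLp.toLp 2 (fun v : ↥(box N) => η v ω) : EuclideanSpace ℝ ↥(box N)))
        (T ⁻¹' {t | B t}) := by
    rw [Measure.map_apply_of_aemeasurable hae hBAD]
    congr 1
    ext ω
    rw [Set.mem_preimage, hBx, Set.mem_setOf_eq]
    refine not_congr (exists_congr fun u => exists_congr fun v => exists_congr fun p =>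
      and_congr_right fun _ => and_congr_right fun _ => and_congr_left fun _ =>
      forall_congr' fun w => forall_congr' fun _ => and_congr_right fun h => ?_)
    rw [extf, dif_pos h]
  rw [e1, hlaw, ← hlaw2, Measure.map_apply (by fun_prop) hBAD]
  refine le_trans (le_of_eq ?_) hbound
  unfold PP
  congr 1
  ext ω
  rw [Set.mem_preimage, hBx]
  rfl

end H941.linear_crossing
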